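import Pool.Agent.TBirJ.Vlj
import Pool.Agent.TBirP.AdjP

/-!
# The adjoint

As TBirP/AdjQ.lean and AdjP.lean: on the circle `pstar phi = conj phi`. `adj_Tp`: `adjoint (TM M) = TM (adjoint M)`, `adjoint (mf a) = mf (conj a)`. `Wj.pstar`: `conj (z ^ n * exp (h z)) = z ^ (-n) * exp (conj (h z))` on the circle, the one-sided limits of `conj h` are `conj a`, `conj b`.
`JCross.pstar`: `z * deriv (pstar phi) z = - conj (z * deriv phi z)` (`pstar_loc`), so `w` is replaced by `conj w`; the segments are conjugated.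
-/

set_option autoImplicit false

open MeasureTheory Complex Set Filter Topology Metric AddCircle
open scoped ComplexConjugate InnerProductSpace ENNReal

namespace Pool.Agent.TBirJ

open Pool.Agent.TBir Pool.Agent.TBirG Pool.Agent.TBirC
open Pool.Agent.TBirP (E qT)

variable {phi : ℂ → ℂ} {F : Finset ℂ} {u v : ℂ → ℂ} {l : ℂ} {n : ℤ}

private theorem adjoint_mf {a : UnitAddCircle → ℂ} (ha : MemLp a ∞ mu0) :
    ContinuousLinearMap.adjoint (mf a) = mf (fun x => conj (a x)) := by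
  have hc : MemLp (fun x => conj (a x)) ∞ mu0 :=
    ha.congr_norm (Complex.continuous_conj.comp_aestronglyMeasurable ha.1)
      (Eventually.of_forall fun x => (Complex.norm_conj (a x)).symm)
  symm
  rw [ContinuousLinearMap.eq_adjoint_iff]
  intro x y
  rw [L2.inner_def, L2.inner_def]
  refine integral_congr_ae ?_
  filter_upwards [mf_coe hc x, mf_coe ha y] with z h1 h2
  rw [h1, h2, RCLike.inner_apply, RCLike.inner_apply, map_mul]
  change _ * (conj (conj (a z)) * _) = _
  rw [Complex.conj_conj]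
  ring

theorem adj_Tp (hb : MemLp (fun x : UnitAddCircle => phi (e x)) ∞ mu0) :
    Tp (pstar phi) = ContinuousLinearMap.adjoint (Tp phi) := by
  unfold Tp
  rw [adjoint_TM, adjoint_mf hb]
  congr 2
  funext x
  exact pstar_e phi x

theorem ci_pstar (hb : MemLp (fun x : UnitAddCircle => phi (e x)) ∞ mu0) :
    CompletelyIrreducible (Tp (pstar phi)) ↔ CompletelyIrreducible (Tp phi) := by
  rw [adj_Tp hb]
  exact bir_adj _

theorem Wj.pstar (h : Wj phi F l n) : Wj (pstar phi) F (conj l) (-n) := by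
  obtain ⟨g, hg, hl, hg'⟩ := h
  refine ⟨fun z => conj (g z), Complex.continuous_conj.comp_continuousOn hg, fun t ht => ?_,
    fun z hz hzF => ?_⟩
  · obtain ⟨a, b, ha, hb, hab⟩ := hl t ht
    refine ⟨conj a, conj b, (Complex.continuous_conj.tendsto a).comp ha,
      (Complex.continuous_conj.tendsto b).comp hb, ?_⟩
    rw [← map_sub, Complex.conj_im, abs_neg]
    exact hab
  · rw [pstar_sphere phi (mem_sphere_zero_iff_norm.1 hz), ← map_sub, hg' z hz hzF, map_mul,
      map_zpow₀, TBirP.ap_conj hz, Complex.exp_conj, inv_zpow, zpow_neg]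

theorem wj_pstar_iff : Wj (pstar phi) F (conj l) n ↔ Wj phi F l (-n) := by
  constructor
  · intro h
    obtain ⟨g, hg, hl, hg'⟩ := h.pstar
    refine ⟨g, hg, hl, fun z hz hzF => ?_⟩
    rw [← hg' z hz hzF, TBirP.ap_pstar_pstar hz, Complex.conj_conj]
  · intro h
    have h1 := h.pstar
    rwa [neg_neg] at h1

private theorem adj_seg {a b w : ℂ} (h : w ∈ segment ℝ (conj a) (conj b)) :
    conj w ∈ segment ℝ a b := by
  obtain ⟨r, s, hr, hs, hrs, rfl⟩ := h
  refine ⟨r, s, hr, hs, hrs, ?_⟩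
  simp

private theorem adj_side {psi : ℂ → ℂ} {t : ℂ} {s : ℝ} (ht : ‖t‖ = 1)
    (h : SideJ phi psi t s) : SideJ (pstar phi) (pstar psi) t s := by
  obtain ⟨h1, h2, h3⟩ := h
  refine ⟨TBirP.AdjQ.ana ht h1, fun h4 => h2 ?_, ?_⟩
  · filter_upwards [(TBirP.AdjQ.tend ht).eventually h4] with z hz
    rw [TBirP.AdjQ.on ht, TBir.pstar, map_inv₀, Complex.conj_conj, inv_inv] at hz
    exact (starRingEnd ℂ).injective hz
  · filter_upwards [h3] with x hx
    have h5 : ‖t * E (s * x)‖ = 1 := by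
      rw [norm_mul, ht, one_mul, E]
      exact Complex.norm_exp_ofReal_mul_I _
    rw [TBirP.AdjQ.on h5, TBirP.AdjQ.on h5, hx]

private theorem adj_inj {z z' : ℂ} (hz : ‖z‖ = 1) (hz' : ‖z'‖ = 1)
    (h : pstar phi z = pstar phi z') : phi z = phi z' := by
  rw [TBirP.AdjQ.on hz, TBirP.AdjQ.on hz'] at h
  exact (starRingEnd ℂ).injective h

theorem JCross.pstar (h : JCross phi F u v) :
    JCross (pstar phi) F (fun t => conj (u t)) (fun t => conj (v t)) where
  circ := h.circ
  reg := fun z hz hF => by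
    obtain ⟨h1, h2⟩ := h.reg z hz hF
    have h3 : ‖z‖ = 1 := mem_sphere_zero_iff_norm.1 hz
    exact ⟨TBirP.AdjQ.ana h3 h1, TBirP.AdjQ.der_ne h3 h1 h2⟩
  left := fun t ht => by
    obtain ⟨psi, h1, h2⟩ := h.left t ht
    exact ⟨_, adj_side (h.circ t ht) h1, by rw [TBirP.AdjQ.on (h.circ t ht), h2]⟩
  right := fun t ht => by
    obtain ⟨psi, h1, h2⟩ := h.right t ht
    exact ⟨_, adj_side (h.circ t ht) h1, by rw [TBirP.AdjQ.on (h.circ t ht), h2]⟩
  sep := fun t ht z hz hzF hcon => by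
    have h1 := adj_seg hcon
    rw [TBirP.AdjQ.on (mem_sphere_zero_iff_norm.1 hz), Complex.conj_conj] at h1
    exact h.sep t ht z hz hzF h1
  seg := fun t ht t' ht' hne => by
    rw [Set.disjoint_left]
    intro w hw hw'
    exact Set.disjoint_left.1 (h.seg t ht t' ht' hne) (adj_seg hw) (adj_seg hw')
  simple := fun t ht => by
    filter_upwards [h.simple t ht] with z hz h1 h2 z' h3 h4 h5
    exact hz h1 h2 z' h3 h4 (adj_inj h3 h1 h5)
  inj := by
    obtain ⟨D, hD, hinj⟩ := h.inj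
    refine ⟨D, hD, fun z hz z' hz' h1 => hinj hz hz' ?_⟩
    exact adj_inj (mem_sphere_zero_iff_norm.1 hz.1) (mem_sphere_zero_iff_norm.1 hz'.1) h1
  half := fun z1 hz1 hF1 z2 hz2 hF2 hne heq => by
    have n1 : ‖z1‖ = 1 := mem_sphere_zero_iff_norm.1 hz1
    have n2 : ‖z2‖ = 1 := mem_sphere_zero_iff_norm.1 hz2
    obtain ⟨w, hw⟩ := h.half z1 hz1 hF1 z2 hz2 hF2 hne (adj_inj n1 n2 heq)
    refine ⟨conj w, fun z hz hzF hzq => ?_⟩
    have n3 : ‖z‖ = 1 := mem_sphere_zero_iff_norm.1 hz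
    have h1 := hw z hz hzF (adj_inj n3 n1 hzq)
    have h2 := (TBirP.pstar_loc n3 (h.reg z hz hzF).1).2
    rw [h2, Complex.conj_conj]
    have h3 : w * (I * -conj (z * deriv phi z)) = conj (conj w * (I * (z * deriv phi z))) := by
      rw [map_mul (starRingEnd ℂ) (conj w), map_mul (starRingEnd ℂ) I, Complex.conj_conj,
        Complex.conj_I]
      ring
    rw [h3, Complex.conj_re]
    exact h1

end Pool.Agent.TBirJ
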