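import Pool.Agent.TBirJ.Def
import Pool.Agent.TBirP.Cob

/-!
# Coburn's lemma for bounded symbols

As TBirP/Cob.lean (`riesz` can be used).
-/

set_option autoImplicit false

open MeasureTheory Complex Set Filter Topology Metric AddCircle
open scoped ComplexConjugate InnerProductSpace ENNReal

namespace Pool.Agent.TBirJ

open Pool.Agent.TBir Pool.Agent.TBirG Pool.Agent.TBirC
open Pool.Agent.TBirP (E qT)

/-- An integrable function with vanishing Fourier coefficients vanishes almost everywhere. -/
private theorem cbj_l1 {w : UnitAddCircle → ℂ} (hw : Integrable w mu0)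
    (h : ∀ n : ℤ, ∫ x, (fourier n : CT) x * w x ∂mu0 = 0) : w =ᵐ[mu0] 0 := by
  have hint : ∀ a : CT, Integrable (fun x => a x * w x) mu0 := fun a =>
    hw.bdd_mul (c := ‖a‖) a.continuous.aestronglyMeasurable
      (Filter.Eventually.of_forall fun x => a.norm_coe_le_norm x)
  let l : CT →ₗ[ℂ] ℂ :=
    { toFun := fun a => ∫ x, a x * w x ∂mu0
      map_add' := fun a b => by
        rw [← integral_add (hint a) (hint b)]
        refine integral_congr_ae (Filter.Eventually.of_forall fun x => ?_)
        simp only [ContinuousMap.add_apply, add_mul]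
      map_smul' := fun c a => by
        rw [RingHom.id_apply, smul_eq_mul, ← integral_const_mul]
        refine integral_congr_ae (Filter.Eventually.of_forall fun x => ?_)
        simp only [ContinuousMap.smul_apply, smul_eq_mul, mul_assoc] }
  let G : CT →L[ℂ] ℂ := l.mkContinuous (∫ x, ‖w x‖ ∂mu0) fun a => by
    show ‖∫ x, a x * w x ∂mu0‖ ≤ _
    rw [mul_comm, ← integral_const_mul]
    refine norm_integral_le_of_norm_le (hw.norm.const_mul _)
      (Filter.Eventually.of_forall fun x => ?_)
    rw [norm_mul]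
    exact mul_le_mul_of_nonneg_right (a.norm_coe_le_norm x) (norm_nonneg _)
  have hG : ∀ a : CT, G a = ∫ x, a x * w x ∂mu0 := fun a => rfl
  have h0 : ∀ a : CT, G a = 0 := by
    have h1 : (Submodule.span ℂ (range fun n : ℤ => (fourier n : CT))).topologicalClosure ≤
        LinearMap.ker (G : CT →ₗ[ℂ] ℂ) := by
      refine Submodule.topologicalClosure_minimal _ ?_ G.isClosed_ker
      rw [Submodule.span_le]
      rintro _ ⟨n, rfl⟩
      exact (hG _).trans (h n)
    intro a
    have h2 : a ∈ (Submodule.span ℂ (range fun n : ℤ => (fourier n : CT))).topologicalClosure := by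
      have h3 := span_fourier_closure_eq_top (T := (1 : ℝ))
      rw [h3]
      trivial
    exact h1 h2
  refine ae_eq_zero_of_forall_setIntegral_isClosed_eq_zero hw fun s hs => ?_
  have hm : Tendsto (fun n : ℕ => ∫ x, ((hs.apprSeq n x : NNReal) : ℂ) * w x ∂mu0) atTop
      (𝓝 (∫ x, s.indicator w x ∂mu0)) := by
    refine tendsto_integral_of_dominated_convergence (fun x => ‖w x‖) (fun n => ?_) hw.norm
      (fun n => ?_) ?_
    · refine AEStronglyMeasurable.mul ?_ hw.1
      have hc : Continuous fun x : UnitAddCircle => ((hs.apprSeq n x : NNReal) : ℂ) := by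
        refine Complex.continuous_ofReal.comp (NNReal.continuous_coe.comp ?_)
        exact (hs.apprSeq n).continuous
      exact hc.aestronglyMeasurable
    · refine Filter.Eventually.of_forall fun x => ?_
      rw [norm_mul]
      refine mul_le_of_le_one_left (norm_nonneg _) ?_
      rw [Complex.norm_real, Real.norm_of_nonneg (NNReal.coe_nonneg _)]
      exact_mod_cast HasOuterApproxClosed.apprSeq_apply_le_one hs n x
    · refine Filter.Eventually.of_forall fun x => ?_
      have h4 := (tendsto_pi_nhds.1 (HasOuterApproxClosed.tendsto_apprSeq hs)) x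
      have h5 : Tendsto (fun n => ((hs.apprSeq n x : NNReal) : ℂ) * w x) atTop
          (𝓝 (((s.indicator (fun _ => (1 : NNReal)) x : NNReal) : ℂ) * w x)) := by
        refine Tendsto.mul_const _ ?_
        exact (Complex.continuous_ofReal.tendsto _).comp
          ((NNReal.continuous_coe.tendsto _).comp h4)
      have h6 : ((s.indicator (fun _ => (1 : NNReal)) x : NNReal) : ℂ) * w x = s.indicator w x := by
        by_cases hx : x ∈ s
        · simp [hx]
        · simp [hx]
      rw [← h6]
      exact h5
  rw [integral_indicator hs.measurableSet] at hm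
  have hz : ∀ n : ℕ, ∫ x, ((hs.apprSeq n x : NNReal) : ℂ) * w x ∂mu0 = 0 := fun n =>
    h0 ⟨fun x => ((hs.apprSeq n x : NNReal) : ℂ), by
      refine Complex.continuous_ofReal.comp (NNReal.continuous_coe.comp ?_)
      exact (hs.apprSeq n).continuous⟩
  simp only [hz] at hm
  exact (tendsto_nhds_unique hm tendsto_const_nhds)

private theorem cbj_int (f g : L2) :
    Integrable (fun x => conj ((f : UnitAddCircle → ℂ) x) * (g : UnitAddCircle → ℂ) x) mu0 := by
  have h := L2.integrable_inner (𝕜 := ℂ) f g
  refine h.congr (Filter.Eventually.of_forall fun x => ?_)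
  simp only [RCLike.inner_apply]
  ring

private theorem cbj_inner (a : CT) (f g : L2) : ∫ x, a x *
    (conj ((f : UnitAddCircle → ℂ) x) * (g : UnitAddCircle → ℂ) x) ∂mu0 =
      inner ℂ f (mul a g) := by
  rw [L2.inner_def]
  refine integral_congr_ae ?_
  filter_upwards [mul_ae a g] with x h1
  rw [h1, RCLike.inner_apply]
  ring

private theorem cbj_star (n : ℤ) : star (fourier n : CT) = fourier (-n) := by
  ext x
  rw [ContinuousMap.star_apply, fourier_neg]
  rfl

private theorem cbj_move (n : ℤ) (f g : L2) :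
    inner ℂ f (mul (fourier n) g) = inner ℂ (mul (fourier (-n)) f) g := by
  rw [inner_mul_symbol, cbj_star]

theorem coburnJ {phi : ℂ → ℂ} (hb : MemLp (fun x : UnitAddCircle => phi (e x)) ∞ mu0)
    (hnull : ∀ b, mu0 {x : UnitAddCircle | phi (e x) = b} = 0) {R : Op} {b : ℂ}
    (h1 : (Tp phi - b • (1 : Op)) * R = 0) (h2 : R * (Tp phi - b • (1 : Op)) = 0) : R = 0 := by
  by_contra hR
  have hbc : MemLp (fun x : UnitAddCircle => phi (e x) - b) ∞ mu0 := hb.sub (memLp_const b)
  obtain ⟨M, hM⟩ : ∃ M : Op2, M = mf fun x => phi (e x) - b := ⟨_, rfl⟩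
  have hTP : TM M = Tp phi - b • (1 : Op) := by
    rw [hM, mf_sub hb (memLp_const b), mf_const, TM_sub, TM_algebraMap,
      Algebra.algebraMap_eq_smul_one]
    rfl
  have hCm : Cm M := by
    rw [hM]
    exact Cm.mf _
  have hcoe : ∀ f : L2, (M f : UnitAddCircle → ℂ) =ᵐ[mu0] fun x => (phi (e x) - b) * f x := by
    intro f
    rw [hM]
    exact mf_coe hbc f
  clear hM
  rw [← hTP] at h1 h2
  obtain ⟨x0, hx0⟩ : ∃ x, R x ≠ 0 := by
    by_contra hcon
    push Not at hcon
    exact hR (ContinuousLinearMap.ext hcon)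
  have hRs : ContinuousLinearMap.adjoint R ≠ 0 := by
    intro h0
    apply hR
    have h3 := congrArg ContinuousLinearMap.adjoint h0
    rwa [ContinuousLinearMap.adjoint_adjoint, map_zero] at h3
  obtain ⟨y0, hy0⟩ : ∃ y, ContinuousLinearMap.adjoint R y ≠ 0 := by
    by_contra hcon
    push Not at hcon
    exact hRs (ContinuousLinearMap.ext hcon)
  set u := R x0 with hu
  set v := ContinuousLinearMap.adjoint R y0 with hv
  have hTu : TM M u = 0 := by
    have h3 := congrArg (fun X : Op => X x0) h1
    exact h3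
  have hTv : ∀ z : Hardy, inner ℂ v (TM M z) = 0 := by
    intro z
    rw [hv, ContinuousLinearMap.adjoint_inner_left]
    have h3 : R (TM M z) = 0 := congrArg (fun X : Op => X z) h2
    rw [h3, inner_zero_right]
  have hcomm : ∀ n : ℤ, mul (fourier n) (M (incl u)) = M (mul (fourier n) (incl u)) := by
    intro n
    exact (congrArg (fun X : Op2 => X (incl u)) (hCm (fourier n))).symm
  have hz : ∀ n : ℤ, inner ℂ (incl v) (mul (fourier n) (M (incl u))) = 0 := by
    intro n
    rcases le_or_gt 0 n with hn | hn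
    · rw [hcomm, ← incl_T (plus_fourier hn), ← TpB_inner_proj]
      exact hTv _
    · rw [cbj_move, ← incl_T (plus_fourier (by omega)), ← TpB_inner_proj]
      have h3 : proj (M (incl u)) = 0 := hTu
      rw [h3, inner_zero_right]
  have hae : ∀ᵐ x ∂mu0, conj ((incl v : UnitAddCircle → ℂ) x) *
      (M (incl u) : UnitAddCircle → ℂ) x = 0 := by
    refine cbj_l1 (cbj_int (incl v) (M (incl u))) fun n => ?_
    rw [cbj_inner]
    exact hz n
  have hne : ∀ᵐ x ∂mu0, phi (e x) - b ≠ 0 := by
    rw [ae_iff]
    have h3 : {x : UnitAddCircle | ¬ phi (e x) - b ≠ 0} = {x : UnitAddCircle | phi (e x) = b} := by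
      ext x
      simp only [ne_eq, not_not, mem_ofPred_eq]
      exact sub_eq_zero
    rw [h3]
    exact hnull b
  have huv : ∀ᵐ x ∂mu0, (incl v : UnitAddCircle → ℂ) x = 0 ∨ (incl u : UnitAddCircle → ℂ) x = 0 := by
    filter_upwards [hae, hne, hcoe (incl u)] with x h3 h4 h5
    rw [h5, mul_eq_zero, mul_eq_zero, map_eq_zero] at h3
    rcases h3 with h3 | h3 | h3
    · exact Or.inl h3
    · exact absurd h3 h4
    · exact Or.inr h3
  by_cases hA : mu0 {x : UnitAddCircle | (incl u : UnitAddCircle → ℂ) x = 0} = 0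
  · have hu0 : ∀ᵐ x ∂mu0, (incl u : UnitAddCircle → ℂ) x ≠ 0 := by
      rw [ae_iff]
      simpa only [ne_eq, not_not] using hA
    apply hy0
    refine incl_inj (Lp.ext ?_)
    rw [map_zero]
    filter_upwards [huv, hu0, Lp.coeFn_zero ℂ 2 mu0] with x h3 h4 h5
    rw [h5]
    rcases h3 with h3 | h3
    · exact h3
    · exact absurd h3 h4
  · exact hx0 (Pool.Agent.TBirP.riesz hA (Filter.Eventually.of_forall fun x hx => hx))

end Pool.Agent.TBirJ
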