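import Pool.Agent.TBirJ.Exj
import Pool.Agent.TBirP.ColE

/-!
# Colours of simple points

As TBirP/ColE.lean, for `Tp phi`.
-/

set_option autoImplicit false

open MeasureTheory Complex Set Filter Topology Metric AddCircle
open scoped ComplexConjugate InnerProductSpace ENNReal

namespace Pool.Agent.TBirJ

open Pool.Agent.TBir Pool.Agent.TBirG Pool.Agent.TBirC
open Pool.Agent.TBirP (E qT)

variable {phi : ℂ → ℂ}

/-- A simple point is the only point of its level. -/
private theorem ce_unique {z1 : ℂ} {x : ℤ} (h : Sm phi z1 x) {z : ℂ} (hz : ‖z‖ = 1)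
    (ha : AnalyticAt ℂ phi z) (hq : phi z = phi z1) : z = z1 := by
  obtain ⟨-, -, -, h4⟩ := h
  obtain ⟨_, hj⟩ := IxAux.mem_t (k := 1) (t := fun _ => z1)
    (by simpa only [Fin.prod_univ_one] using h4) hz ha hq
  exact hj.symm

theorem exists_colJ (hb : MemLp (fun x : UnitAddCircle => phi (e x)) ∞ mu0) {z1 : ℂ} {x : ℤ}
    (h1 : Sm phi z1 x) (hx : 0 ≤ x) {P : Op} (hP2 : P * P = P) (hP : P * Tp phi = Tp phi * P) :
    ∃ c : ℂ, (c = 0 ∨ c = 1) ∧ ColJ phi P z1 c := by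
  obtain ⟨ch, hcx⟩ := exists_chartJ hb h1.iq
  have hx' : 0 ≤ ch.x := by rw [hcx]; exact hx
  have huniq : ∀ z : ℂ, ‖z‖ = 1 → AnalyticAt ℂ phi z → phi z = phi z1 → z = z1 :=
    fun z hz ha hq => ce_unique h1 hz ha hq
  obtain ⟨hz1, han, hder, -⟩ := h1
  have hqs : phi z1 ∈ ball (phi z1) ch.s := mem_ball_self ch.s_pos
  obtain ⟨j, hj⟩ := (ch.zer (phi z1) hqs z1 hz1 han).1 rfl
  -- only one branch
  have honly : ∀ i, i = j := by
    intro i
    have h2 : ch.B.g i (phi z1) = z1 :=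
      huniq _ (ch.B.norm_q i) (ch.B.an i) (ch.B.inv i (phi z1) (mem_ball_self ch.B.R_pos))
    exact ch.inj (phi z1) hqs i j (h2.trans hj.symm)
  have hpj : ∀ l, ch.B.pj j l = 1 := by
    intro l
    unfold Br.pj
    have : Finset.univ.erase j = (∅ : Finset (Fin ch.B.k)) := by
      ext i
      simp [honly i]
    rw [this, Finset.prod_empty]
  have hpz : ∀ l, ch.B.pz l = fourier 1 - algebraMap ℂ CT (ch.B.g j l) := by
    intro l
    unfold Br.pz
    exact Finset.prod_eq_single j (fun i _ hi => absurd (honly i) hi)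
      (fun h => absurd (Finset.mem_univ j) h)
  obtain ⟨g, hg⟩ : ∃ g : ℂ → ℂ, g = ch.B.g j := ⟨_, rfl⟩
  have hgd : DifferentiableOn ℂ g (ball (phi z1) ch.s) := by
    rw [hg]; exact (ch.B.diff j).mono (ball_subset_ball ch.s_le)
  obtain ⟨M, hM⟩ : ∃ M : Op, M = T (fourier ch.x) := ⟨_, rfl⟩
  obtain ⟨A, hA⟩ : ∃ A : ℂ → Op, A = fun l => ch.Y l * M := ⟨_, rfl⟩
  -- the factorisation
  have hfac : ∀ l ∈ ball (phi z1) ch.s, Tp phi - l • (1 : Op) = A l * (S - g l • (1 : Op)) := by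
    intro l hl
    have hplus : Plus (fourier 1 - algebraMap ℂ CT (g l)) :=
      (plus_fourier (by norm_num)).sub (plus_algebraMap (g l))
    rw [ch.fac hx' l hl, hpz, ← hg, T_mul_right _ hplus, T_sub, T_algebraMap, hA, hM, mul_assoc]
    rfl
  have hqT : ∀ l ∈ ball (phi z1) ch.s, ‖g l‖ < 1 → qT phi (g l) = A l := by
    intro l hl hgl
    have h2 := ch.qs hx' j l hl (by rw [← hg]; exact hgl)
    rw [hpj, mul_one, ← hg] at h2
    rw [h2, hA, hM]
  -- the left inverse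
  obtain ⟨n, hn⟩ : ∃ n : ℕ, (n : ℤ) = ch.x := ⟨ch.x.toNat, Int.toNat_of_nonneg hx'⟩
  have hL0 : (T (fourier (-(n : ℤ))) * ch.Z (phi z1)) * A (phi z1) = 1 := by
    have h2 := ch.ZY (phi z1) hqs
    rw [hA, hM, ← hn]
    calc (T (fourier (-(n : ℤ))) * ch.Z (phi z1)) * (ch.Y (phi z1) * T (fourier (n : ℤ)))
        = T (fourier (-(n : ℤ))) * ((ch.Z (phi z1) * ch.Y (phi z1)) * T (fourier (n : ℤ))) := by
          simp only [mul_assoc]
      _ = 1 := by rw [h2, one_mul, T_fourier_neg_mul]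
  have hAd : DifferentiableOn ℂ A (ball (phi z1) ch.s) := by
    rw [hA]; exact ch.dY.mul_const M
  have hloc := ch.loc j
  rw [hj, ← hg] at hloc
  have hcomm : ∀ l : ℂ, P * (Tp phi - l • (1 : Op)) = (Tp phi - l • (1 : Op)) * P := by
    intro l
    rw [mul_sub, sub_mul, hP, mul_smul_comm, smul_mul_assoc, mul_one, one_mul]
  have hcont : ContinuousAt phi z1 := han.continuousAt
  obtain ⟨s, L, hs, hss, hLd, hLA, hALP⟩ := abs_left ch.s_pos hAd hL0 (P := P) (by
    intro eps heps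
    have e1 : ∀ᶠ w in 𝓝 z1, phi w ∈ ball (phi z1) eps := hcont.eventually (ball_mem_nhds _ heps)
    obtain ⟨r, hr, hr'⟩ := Metric.eventually_nhds_iff_ball.1 (hloc.and e1)
    obtain ⟨z, hz, hz'⟩ := tendsto_out hz1 hr
    obtain ⟨⟨h2, h3⟩, h4⟩ := hr' z hz
    refine ⟨phi z, h4, ?_⟩
    have hgc : ContinuousAt g (phi z) := (hgd.differentiableAt (isOpen_ball.mem_nhds h2)).continuousAt
    have e2 : ∀ᶠ l in 𝓝 (phi z), 1 < ‖g l‖ :=
      (continuous_norm.continuousAt.comp hgc).eventually_const_lt (by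
        change 1 < ‖g (phi z)‖
        rw [h3]; exact hz')
    filter_upwards [e2, isOpen_ball.mem_nhds h2] with l hl hl'
    obtain ⟨u, hu⟩ := isUnit_S_sub hl
    have hf := hfac l hl'
    rw [← hu] at hf
    have hf' : A l = (Tp phi - l • (1 : Op)) * ((u⁻¹ : Opˣ) : Op) := by
      rw [hf, mul_assoc, Units.mul_inv, mul_one]
    refine ⟨(u : Op) * (P * ((u⁻¹ : Opˣ) : Op)), ?_⟩
    calc P * A l = (P * (Tp phi - l • (1 : Op))) * ((u⁻¹ : Opˣ) : Op) := by rw [hf', mul_assoc]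
      _ = (A l * (u : Op)) * (P * ((u⁻¹ : Opˣ) : Op)) := by rw [hcomm, ← hf, mul_assoc]
      _ = _ := by rw [mul_assoc])
  -- pointwise form
  have hsub : ball (phi z1) s ⊆ ball (phi z1) ch.s := ball_subset_ball hss
  have hLx : ∀ l ∈ ball (phi z1) s, ∀ v, L l (A l v) = v := fun l hl v =>
    congrArg (fun B : Op => B v) (hLA l hl)
  have hTL : ∀ l ∈ ball (phi z1) s, ∀ v, A l (L l (P (A l v))) = P (A l v) := fun l hl v =>
    congrArg (fun B : Op => B v) (hALP l hl)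
  have hfx : ∀ l ∈ ball (phi z1) s, ∀ v, A l ((S - g l • (1 : Op)) v) = Tp phi v - l • v :=
    fun l hl v => (congrArg (fun B : Op => B v) (hfac l (hsub hl))).symm
  have hPc : ∀ v, P (Tp phi v) = Tp phi (P v) := fun v => congrArg (fun B : Op => B v) hP
  have hPP : ∀ v, P (P v) = P v := fun v => congrArg (fun B : Op => B v) hP2
  have hU : ∀ l ∈ ball (phi z1) s, ∀ v, L l (P (A l ((S - g l • (1 : Op)) v))) =
      (S - g l • (1 : Op)) (P v) := fun l hl v => by
    rw [hfx l hl, map_sub, map_smul, hPc, ← hfx l hl, hLx l hl]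
  -- the ball in the disc
  have e1 : ∀ᶠ w in 𝓝 z1, phi w ∈ ball (phi z1) s := hcont.eventually (ball_mem_nhds _ hs)
  have e2 := han.eventually_analyticAt
  obtain ⟨r, hr, hr'⟩ := Metric.eventually_nhds_iff_ball.1 ((hloc.and e1).and e2)
  have hin : ∀ w ∈ ball z1 r, phi w ∈ ball (phi z1) s := fun w hw => (hr' w hw).1.2
  have hgw : ∀ w ∈ ball z1 r, g (phi w) = w := fun w hw => (hr' w hw).1.1.2
  have hd : DifferentiableOn ℂ phi (ball z1 r) := fun w hw =>
    ((hr' w hw).2).differentiableAt.differentiableWithinAt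
  -- the scalar
  have hev : ∀ w ∈ ball z1 r, ‖w‖ < 1 → ∀ v, ev w (L (phi w) (P (A (phi w) v))) =
      ev w (L (phi w) (P (A (phi w) (mono 0)))) * ev w v := by
    intro w hw hw1 v
    have h5 : ev w (mono 0) = 1 := by rw [ev_mono hw1]; simp
    have h6 : ev w (v - ev w v • mono 0) = 0 := by
      rw [map_sub, map_smul, h5, smul_eq_mul, mul_one, sub_self]
    obtain ⟨k, hk⟩ := div_of_ev hw1 h6
    have h7 : v = ev w v • mono 0 + (S - w • (1 : Op)) k := by
      rw [hk]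
      abel
    have hUw := hU (phi w) (hin w hw) k
    rw [hgw w hw] at hUw
    have h8 : L (phi w) (P (A (phi w) v)) = ev w v • L (phi w) (P (A (phi w) (mono 0))) +
        (S - w • (1 : Op)) (P k) := by
      conv_lhs => rw [h7]
      rw [map_add, map_add, map_add, hUw, map_smul, map_smul, map_smul]
    rw [h8, map_add, map_smul, ev_S_sub hw1, sub_self, zero_mul, add_zero, smul_eq_mul, mul_comm]
  obtain ⟨cf, hcf⟩ : ∃ cf : ℂ → ℂ, cf = fun w => ev w (L (phi w) (P (A (phi w) (mono 0)))) :=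
    ⟨_, rfl⟩
  have hidem : ∀ w ∈ ball z1 r, ‖w‖ < 1 → cf w = 0 ∨ cf w = 1 := by
    intro w hw hw1
    have h5 : L (phi w) (P (A (phi w) (L (phi w) (P (A (phi w) (mono 0)))))) =
        L (phi w) (P (A (phi w) (mono 0))) := by
      rw [hTL (phi w) (hin w hw), hPP]
    have h6 := hev w hw hw1 (L (phi w) (P (A (phi w) (mono 0))))
    rw [h5] at h6
    have h7 : cf w * cf w = cf w := by rw [hcf]; exact h6.symm
    have h8 : cf w * (cf w - 1) = 0 := by linear_combination h7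
    rcases mul_eq_zero.1 h8 with h9 | h9
    · exact Or.inl h9
    · exact Or.inr (sub_eq_zero.1 h9)
  have hcd : DifferentiableOn ℂ cf (ball z1 r ∩ ball 0 1) := by
    have m1 : MapsTo phi (ball z1 r) (ball (phi z1) s) := fun w hw => hin w hw
    have d1 : DifferentiableOn ℂ (fun w => A (phi w)) (ball z1 r) :=
      (hAd.mono hsub).comp hd m1
    have d2 : DifferentiableOn ℂ (fun w => L (phi w)) (ball z1 r) := hLd.comp hd m1
    have d3 : DifferentiableOn ℂ (fun w => A (phi w) (mono 0)) (ball z1 r) :=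
      d1.clm_apply (differentiableOn_const _)
    have d4 : DifferentiableOn ℂ (fun w => P (A (phi w) (mono 0))) (ball z1 r) :=
      P.differentiable.comp_differentiableOn d3
    rw [hcf]
    exact (ev_diffOn.mono inter_subset_right).clm_apply ((d2.clm_apply d4).mono inter_subset_left)
  have hpre : IsPreconnected (ball z1 r ∩ ball (0 : ℂ) 1) :=
    ((convex_ball z1 r).inter (convex_ball 0 1)).isPreconnected
  obtain ⟨z2, hz2, hz2'⟩ := tendsto_in hz1 hr
  have hz2m : z2 ∈ ball z1 r ∩ ball (0 : ℂ) 1 := ⟨hz2, by simpa using hz2'⟩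
  have hconst : ∀ w ∈ ball z1 r ∩ ball (0 : ℂ) 1, cf w = cf z2 := by
    intro w hw
    have himg : IsPreconnected (cf '' (ball z1 r ∩ ball (0 : ℂ) 1)) :=
      hpre.image _ hcd.continuousOn
    have hsub2 : cf '' (ball z1 r ∩ ball (0 : ℂ) 1) ⊆ {0, 1} := by
      rintro _ ⟨w', hw', rfl⟩
      exact hidem w' hw'.1 (by simpa using hw'.2)
    have hfin : (cf '' (ball z1 r ∩ ball (0 : ℂ) 1)).Finite :=
      (Set.toFinite {0, 1}).subset hsub2
    by_contra hne
    exact himg.infinite_of_nontrivial ⟨cf w, ⟨w, hw, rfl⟩, cf z2, ⟨z2, hz2m, rfl⟩, hne⟩ hfin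
  refine ⟨cf z2, hidem z2 hz2 hz2', r, hr, fun w hw hw1 v => ?_⟩
  have hwm : w ∈ ball z1 r ∩ ball (0 : ℂ) 1 := ⟨hw, by simpa using hw1⟩
  have hl := hin w hw
  have hq : qT phi w = A (phi w) := by
    have h2 := hqT (phi w) (hsub hl) (by rw [hgw w hw]; exact hw1)
    rwa [hgw w hw] at h2
  have h5 : ev w (L (phi w) (P (A (phi w) v)) - cf z2 • v) = 0 := by
    rw [map_sub, map_smul, hev w hw hw1, smul_eq_mul, ← hconst w hwm, hcf]
    exact sub_self _
  obtain ⟨k, hk⟩ := div_of_ev hw1 h5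
  refine ⟨k, ?_⟩
  have h6 : A (phi w) ((S - w • (1 : Op)) k) = Tp phi k - phi w • k := by
    have := hfx (phi w) hl k
    rwa [hgw w hw] at this
  rw [hk, map_sub, map_smul, hTL (phi w) hl] at h6
  rw [hq, h6]
  rfl

theorem ColJ.compl {z1 : ℂ} {P : Op} {c : ℂ} (h : ColJ phi P z1 c) :
    ColJ phi (1 - P) z1 (1 - c) := by
  obtain ⟨s, hs, h⟩ := h
  refine ⟨s, hs, fun w hw hw1 v => ?_⟩
  obtain ⟨g, hg⟩ := h w hw hw1 v
  refine ⟨-g, ?_⟩
  have h2 : (1 - P) (qT phi w v) = qT phi w v - P (qT phi w v) := rfl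
  rw [map_neg, ← hg, sub_smul, one_smul, h2]
  abel

end Pool.Agent.TBirJ
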