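import Pool.Agent.TBirJ.Ixb
import Pool.Agent.TBirP.ChC
import Pool.Agent.TBirC.Grw

/-!
# Existence of charts

As ChA, ChB, ChC of TBirP. `Y l = TM (B.Th (-x) l)`, `exists_Th hb B`, `Th_diff hb B`, `cht_loc`, `cht_inj` (both in TBirP/ChA.lean, for all symbols). `zer`: `B.Th (-x) l` is a unit, so `‖ps l x‖ ≥ c` a.e.
(`ae_ge_of_isUnit`), so `‖phi (e y) - l‖ ≥ c * prod ‖e y - g j l‖` a.e., and by continuity at `z`: `phi z = l` implies `z = g j l` for some `j`; conversely `B.inv`. `off`: as `Ix.ne_val`: if `‖g j l‖ = 1`, then `phi` is analytic at `g j l` (for `l` near `q`;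
`B.an`, `AnalyticAt.eventually_analyticAt`) with the value `l`. `wn`: `prod (zeta - g j l) = zeta ^ m * prod_(in) (1 - g j l / zeta) * prod_(out) (zeta - g j l)`, so the symbol `z ^ (-(x + m)) (phi - l)` is
(minus, invertible) * `B.Th (-x) l` * (plus, invertible): `TM_minus`, `TM_plus`, `T` of `1 - g / zeta` and of `zeta - g` are units.
-/

set_option autoImplicit false

open MeasureTheory Complex Set Filter Topology Metric AddCircle
open scoped ComplexConjugate InnerProductSpace ENNReal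

namespace Pool.Agent.TBirJ

open Pool.Agent.TBir Pool.Agent.TBirG Pool.Agent.TBirC
open Pool.Agent.TBirP (E qT)

open Pool.Agent.TBirC.PsiAux in
/-- The symbol with the factor `z ^ (-n)`. -/
private theorem chj_id {phi : ℂ → ℂ} {q : ℂ} (B : Br phi q) {x n : ℤ} {l : ℂ}
    (hm : MemLp (fun y => (e y) ^ (-x) * B.ps l y) ∞ mu0) :
    mf (fun y => e y ^ (-n) * (phi (e y) - l)) =
      B.Th (-x) l * mul (fourier (x - n) * B.pz l) := by
  unfold Br.Th
  rw [← mf_ct (fourier (x - n) * B.pz l), ← mf_mul hm (memLp_ct _)]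
  refine mf_congr ?_
  filter_upwards [ae_ne B l] with y hy
  have hpz : (B.pz l : CT) y = ∏ i, (e y - B.g i l) := by
    unfold Br.pz
    rw [ContinuousMap.prod_apply]
    refine Finset.prod_congr rfl fun i _ => ?_
    rw [ContinuousMap.sub_apply, four_e, zpow_one]
    rfl
  have hprod : ∏ i, (e y - B.g i l) ≠ 0 := by
    rw [Finset.prod_ne_zero_iff]
    exact fun i _ => sub_ne_zero.2 (hy i)
  have he : e y ≠ 0 := e_ne y
  have h1 : e y ^ (-n) = e y ^ (-x) * e y ^ (x - n) := by
    rw [← zpow_add₀ he]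
    congr 1
    ring
  rw [ContinuousMap.mul_apply, hpz, four_e, h1]
  unfold Br.ps
  field_simp

open Pool.Agent.TBirC.PsiAux in
/-- An almost everywhere property of the points of the circle holds frequently near each point. -/
private theorem chj_near {z : ℂ} (hz : ‖z‖ = 1) {P : ℂ → Prop}
    (h : ∀ᵐ y : UnitAddCircle ∂mu0, P (e y)) (hU : ∀ᶠ w in 𝓝 z, ¬ P w) : False := by
  obtain ⟨x0, hx0⟩ := Pool.Agent.TBirC.PsiAux.exists_e (mem_sphere_zero_iff_norm.2 hz)
  obtain ⟨U, hUs, hUo, hzU⟩ := _root_.eventually_nhds_iff.1 hU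
  have hopen : IsOpen (e ⁻¹' U) := hUo.preimage cont_e
  have hne : (e ⁻¹' U).Nonempty := ⟨x0, by rw [mem_preimage, hx0]; exact hzU⟩
  have hpos := hopen.measure_pos mu0 hne
  refine hpos.ne' (measure_mono_null ?_ (ae_iff.1 h))
  intro y hy
  exact hUs (e y) hy

open Pool.Agent.TBirC.PsiAux in
theorem exists_chartJ {phi : ℂ → ℂ} (hb : MemLp (fun x : UnitAddCircle => phi (e x)) ∞ mu0) {q : ℂ}
    {x : ℤ} (h : Iq phi q x) : ∃ c : ChartJ phi q, c.x = x := by
  obtain ⟨k, t, hinj', ht, hu⟩ := h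
  obtain ⟨B, hk, hB⟩ := exists_Br hinj' ht
  subst hk
  have hB' : ∀ j, B.g j q = t j := fun j => hB j
  have hu' : IsUnit (TM (B.Th (-x) q)) := by
    unfold Br.Th Br.ps
    simp only [hB']
    exact hu
  obtain ⟨C, s1, hC, hs1, hs1R, hTh⟩ := exists_Th hb B hu'
  obtain ⟨s3, hs3, hs3R, hinj⟩ := Pool.Agent.TBirP.cht_inj B
  obtain ⟨s5, hs5, hs5R, hdf⟩ := Pool.Agent.TBirP.Th_diff hb B (-x)
  set s : ℝ := min s1 (min s3 s5) with hs
  have hs0 : 0 < s := by positivity
  have b1 : s ≤ s1 := min_le_left _ _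
  have b3 : s ≤ s3 := (min_le_right _ _).trans (min_le_left _ _)
  have b5 : s ≤ s5 := (min_le_right _ _).trans (min_le_right _ _)
  obtain ⟨L, hL⟩ := exists_TML
  have hY : ∀ l ∈ ball q s, IsUnit (TM (B.Th (-x) l)) := fun l hl =>
    (hTh l (ball_subset_ball b1 hl)).2.2.2.2.2.2.1
  have hdY : DifferentiableOn ℂ (fun l => TM (B.Th (-x) l)) (ball q s) := by
    have h1 : DifferentiableOn ℂ (fun l => L (B.Th (-x) l)) (ball q s) :=
      L.differentiable.comp_differentiableOn (hdf.mono (ball_subset_ball b5))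
    simp only [hL] at h1
    exact h1
  have hdZ : DifferentiableOn ℂ (fun l => Ring.inverse (TM (B.Th (-x) l))) (ball q s) := by
    intro l hl
    obtain ⟨u, hu⟩ := hY l hl
    have h1 : DifferentiableAt ℂ (Ring.inverse : Op → Op) (TM (B.Th (-x) l)) := by
      rw [← hu]
      exact differentiableAt_inverse (𝕜 := ℂ) u.isUnit
    exact (h1.comp l (hdY.differentiableAt (isOpen_ball.mem_nhds hl))).differentiableWithinAt
  refine ⟨⟨B, x, s, fun l => TM (B.Th (-x) l), fun l => Ring.inverse (TM (B.Th (-x) l)), hs0,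
    b1.trans hs1R, hdY, hdZ, fun l hl => Ring.mul_inverse_cancel _ (hY l hl),
    fun l hl => Ring.inverse_mul_cancel _ (hY l hl), ?_, ?_, ?_,
    fun l hl => (hinj l (ball_subset_ball b3 hl)).1,
    fun l hl => (hinj l (ball_subset_ball b3 hl)).2, Pool.Agent.TBirP.cht_loc B hs0, ?_, ?_⟩, rfl⟩
  · intro hx l hl
    have h1 := (hTh l (ball_subset_ball b1 hl)).2.2.2.2.2.2.2.2
    rw [neg_neg] at h1
    have h2 := congrArg TM h1
    rw [TM_plus _ (Pool.Agent.TBirP.plus_pz B hx l), TM_sub, TM_algebraMap,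
      Algebra.algebraMap_eq_smul_one] at h2
    exact h2
  · intro hx j l hl hj
    have hT := hTh l (ball_subset_ball b1 hl)
    have hinv : phi (B.g j l) = l := B.inv j l (ball_subset_ball (b1.trans hs1R) hl)
    have h3 : mf (fun y => (phi (e y) - phi (B.g j l)) / (e y - B.g j l)) =
        B.Th (-x) l * mul (fourier x * B.pj j l) := by
      unfold Br.Th
      rw [← mf_ct (fourier x * B.pj j l), ← mf_mul hT.2.1 (memLp_ct _)]
      refine mf_congr ?_
      filter_upwards [ae_ne B l] with y hy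
      have hpj : (B.pj j l : CT) y = ∏ i ∈ Finset.univ.erase j, (e y - B.g i l) := by
        unfold Br.pj
        rw [ContinuousMap.prod_apply]
        refine Finset.prod_congr rfl fun i _ => ?_
        rw [ContinuousMap.sub_apply, four_e, zpow_one]
        rfl
      have hne : e y - B.g j l ≠ 0 := sub_ne_zero.2 (hy j)
      have hprod : ∏ i ∈ Finset.univ.erase j, (e y - B.g i l) ≠ 0 := by
        rw [Finset.prod_ne_zero_iff]
        exact fun i _ => sub_ne_zero.2 (hy i)
      have he : (e y) ^ x ≠ 0 := zpow_ne_zero x (e_ne y)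
      rw [ContinuousMap.mul_apply, hpj, four_e, hinv]
      unfold Br.ps
      rw [← Finset.mul_prod_erase Finset.univ (fun i => e y - B.g i l) (Finset.mem_univ j), zpow_neg]
      field_simp
    unfold qT
    rw [h3, TM_plus _ (Pool.Agent.TBirP.plus_pj B hx j l)]
  · intro l hl z hz ha
    constructor
    · intro hzl
      by_contra hcon
      push Not at hcon
      have hT := hTh l (ball_subset_ball b1 hl)
      obtain ⟨c, hc0, hae⟩ := ae_ge_of_isUnit hT.2.1 hT.2.2.2.2.1
      have hae2 : ∀ᵐ y : UnitAddCircle ∂mu0,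
          c * ‖∏ j, (e y - B.g j l)‖ ≤ ‖phi (e y) - l‖ := by
        filter_upwards [hae, ae_ne B l] with y hy hy2
        have hprod : ∏ i, (e y - B.g i l) ≠ 0 := by
          rw [Finset.prod_ne_zero_iff]
          exact fun i _ => sub_ne_zero.2 (hy2 i)
        have h1 : ‖e y ^ (-x) * B.ps l y‖ = ‖phi (e y) - l‖ / ‖∏ j, (e y - B.g j l)‖ := by
          unfold Br.ps
          rw [norm_mul, norm_zpow, norm_e', one_zpow, one_mul, norm_div]
        rw [h1, le_div_iff₀ (norm_pos_iff.2 hprod)] at hy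
        exact hy
      refine chj_near hz (P := fun w => c * ‖∏ j, (w - B.g j l)‖ ≤ ‖phi w - l‖) hae2 ?_
      have hcont : ContinuousAt (fun w => ‖phi w - l‖ - c * ‖∏ j, (w - B.g j l)‖) z := by
        have h1 : ContinuousAt (fun w => ‖phi w - l‖) z :=
          (ha.continuousAt.sub continuousAt_const).norm
        have h2 : Continuous fun w : ℂ => c * ‖∏ j, (w - B.g j l)‖ := by fun_prop
        exact h1.sub h2.continuousAt
      have hneg : ‖phi z - l‖ - c * ‖∏ j, (z - B.g j l)‖ < 0 := by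
        rw [hzl, sub_self, norm_zero, zero_sub, neg_lt_zero]
        refine mul_pos hc0 (norm_pos_iff.2 ?_)
        rw [Finset.prod_ne_zero_iff]
        exact fun i _ => sub_ne_zero.2 fun h0 => hcon i h0.symm
      filter_upwards [hcont.eventually_lt_const hneg] with w hw
      rw [not_le]
      linarith
    · rintro ⟨j, rfl⟩
      exact B.inv j l (ball_subset_ball (b1.trans hs1R) hl)
  · intro l hl hoff
    have hT := hTh l (ball_subset_ball b1 hl)
    unfold Ix
    rw [chj_id B hT.2.1]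
    refine (Grw.off_circle (Cm.mf _) hT.2.2.2.2.2.2.1 (z := fun j => B.g j l) hoff).2 ?_
    have hc : (Grw.ins fun j => B.g j l) = Finset.univ.filter fun j => ‖B.g j l‖ < 1 := rfl
    rw [hc]
    ring
  · intro l hl n hn j hj
    have hT := hTh l (ball_subset_ball b1 hl)
    unfold Ix at hn
    rw [chj_id B hT.2.1] at hn
    exact Grw.on_circle (Cm.mf _) (z := fun j => B.g j l) hj hn

end Pool.Agent.TBirJ
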