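import Pool.Agent.TBirP.Def
import Pool.Agent.TBirC.Stm

/-!
# Symbols with jumps: definitions

Part 1, bounded symbols. `Tp phi` is the Toeplitz operator, `Ix phi l n`: the Toeplitz operator with symbol `z ^ (-n) (phi - l)` is invertible (so `T_phi - l` is Fredholm of index `-n`).
`Iq phi q x`: `q` is regular with the inner number `x`. `Sm phi z0 x`: `z0` is a simple point with the inner number `x`. `ChartJ`: the local factorisation. `K` is a closed set such that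
`Ix` holds off `K` (the curve). `ColJ`, `TrJ`: colours and traces. `Sides`: two sides of the curve at `q`. `Rem`: solutions of `(T_phi - l) h = f` extend over `q`.

Part 2, piecewise analytic symbols with jumps at the points of the finite set `F`, `u t` and `v t` are the one-sided limits. `Gam` is the curve, completed by the segments from `u t` to `v t`. `Wj`: the
winding number of the completed curve. `JCross`: the class of the theorem.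
-/

set_option autoImplicit false

open MeasureTheory Complex Set Filter Topology Metric AddCircle
open scoped ComplexConjugate InnerProductSpace ENNReal

namespace Pool.Agent.TBirJ

open Pool.Agent.TBir Pool.Agent.TBirG Pool.Agent.TBirC
open Pool.Agent.TBirP (E qT)

/-! ### Part 1 -/

/-- The Toeplitz operator with the bounded symbol `phi`. -/
noncomputable def Tp (phi : ℂ → ℂ) : Op := TM (mf fun x => phi (e x))

/-- The Toeplitz operator with the symbol `z ^ (-n) (phi - l)` is invertible. -/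
def Ix (phi : ℂ → ℂ) (l : ℂ) (n : ℤ) : Prop :=
  IsUnit (TM (mf fun x => e x ^ (-n) * (phi (e x) - l)))

/-- `q` is regular with the inner number `x`. -/
def Iq (phi : ℂ → ℂ) (q : ℂ) (x : ℤ) : Prop :=
  ∃ (k : ℕ) (t : Fin k → ℂ), Function.Injective t ∧
    (∀ j, ‖t j‖ = 1 ∧ AnalyticAt ℂ phi (t j) ∧ phi (t j) = q ∧ deriv phi (t j) ≠ 0) ∧
    IsUnit (TM (mf fun y => e y ^ (-x) * ((phi (e y) - q) / ∏ j, (e y - t j))))

/-- `z0` is a simple point with the inner number `x`. -/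
def Sm (phi : ℂ → ℂ) (z0 : ℂ) (x : ℤ) : Prop :=
  ‖z0‖ = 1 ∧ AnalyticAt ℂ phi z0 ∧ deriv phi z0 ≠ 0 ∧
    IsUnit (TM (mf fun y => e y ^ (-x) * ((phi (e y) - phi z0) / (e y - z0))))

/-- `f` is in the range of `T_phi - l`. -/
def RgJ (phi : ℂ → ℂ) (f : Hardy) (l : ℂ) : Prop := ∃ h : Hardy, (Tp phi - l • (1 : Op)) h = f

/-- Local factorisation. -/
structure ChartJ (phi : ℂ → ℂ) (q : ℂ) where
  B : Br phi q
  x : ℤ
  s : ℝ
  Y : ℂ → Op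
  Z : ℂ → Op
  s_pos : 0 < s
  s_le : s ≤ B.R
  dY : DifferentiableOn ℂ Y (ball q s)
  dZ : DifferentiableOn ℂ Z (ball q s)
  YZ : ∀ l ∈ ball q s, Y l * Z l = 1
  ZY : ∀ l ∈ ball q s, Z l * Y l = 1
  fac : 0 ≤ x → ∀ l ∈ ball q s, Tp phi - l • (1 : Op) = Y l * T (fourier x * B.pz l)
  qs : 0 ≤ x → ∀ j, ∀ l ∈ ball q s, ‖B.g j l‖ < 1 → qT phi (B.g j l) = Y l * T (fourier x * B.pj j l)
  zer : ∀ l ∈ ball q s, ∀ z : ℂ, ‖z‖ = 1 → AnalyticAt ℂ phi z → (phi z = l ↔ ∃ j, B.g j l = z)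
  inj : ∀ l ∈ ball q s, ∀ i j, B.g i l = B.g j l → i = j
  bd : ∀ l ∈ ball q s, ∀ j, 1 / 2 < ‖B.g j l‖ ∧ ‖B.g j l‖ < 2
  loc : ∀ j, ∀ᶠ w in 𝓝 (B.g j q), phi w ∈ ball q s ∧ B.g j (phi w) = w
  wn : ∀ l ∈ ball q s, (∀ j, ‖B.g j l‖ ≠ 1) →
    Ix phi l (x + ((Finset.univ.filter fun j => ‖B.g j l‖ < 1).card : ℤ))
  off : ∀ l ∈ ball q s, ∀ n, Ix phi l n → ∀ j, ‖B.g j l‖ ≠ 1

/-- The operator `P` acts as the scalar `c` at the point `w` of the disc near the curve. -/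
def CFJ (phi : ℂ → ℂ) (P : Op) (w c : ℂ) : Prop :=
  ∀ h : Hardy, ∃ g : Hardy, P (qT phi w h) - c • qT phi w h = (Tp phi - phi w • (1 : Op)) g

/-- The colour of the simple point `z0` is `c`. -/
def ColJ (phi : ℂ → ℂ) (P : Op) (z0 c : ℂ) : Prop :=
  ∃ s > 0, ∀ w ∈ ball z0 s, ‖w‖ < 1 → CFJ phi P w c

/-- `tau` is the trace of the map induced by `P` on the quotient by the range of `T_phi - l`, a space of dimension
`n`. -/
def TrJ (phi : ℂ → ℂ) (P : Op) (l : ℂ) (n : ℕ) (tau : ℂ) : Prop :=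
  ∃ (a : Fin n → (Hardy →L[ℂ] ℂ)) (v : Fin n → Hardy),
    (∀ i j, a i (v j) = if i = j then 1 else 0) ∧ (∀ f, RgJ phi f l ↔ ∀ i, a i f = 0) ∧
    tau = ∑ i, a i (P (v i))

/-- The two sides of the curve `K` at `q`, with the numbers `m + 1` and `m`. -/
def Sides (phi : ℂ → ℂ) (K : Set ℂ) (q : ℂ) (m : ℤ) : Prop :=
  ∃ A B : Set ℂ, IsPreconnected A ∧ IsPreconnected B ∧ (∀ l ∈ A, Ix phi l (m + 1)) ∧
    (∀ l ∈ B, Ix phi l m) ∧ q ∈ closure A ∧ q ∈ closure B ∧ ∀ᶠ l in 𝓝 q, l ∉ K → l ∈ A ∨ l ∈ B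

/-- Solutions extend over `q`. -/
def Rem (phi : ℂ → ℂ) (K : Set ℂ) (q : ℂ) : Prop :=
  ∀ (f : Hardy) (hh : ℂ → Hardy), (∀ l ∉ K, (Tp phi - l • (1 : Op)) (hh l) = f) →
    ∀ z : ℂ, ‖z‖ < 1 → z ≠ 0 → ∃ r > 0, ∃ G : ℂ → ℂ, DifferentiableOn ℂ G (ball q r) ∧
      ∀ l ∈ ball q r, l ∉ K → G l = ev z (hh l)

/-- The one-sided limits `a`, `b` at the point `t` of the circle are in the connected set `S` of points with two sides. -/
def LinkOn (phi : ℂ → ℂ) (K : Set ℂ) (t : ℂ) (S : Set ℂ) (a b : ℂ) : Prop :=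
  IsPreconnected S ∧ a ∈ S ∧ b ∈ S ∧ (∀ q ∈ S, ∃ m : ℤ, 0 ≤ m ∧ Sides phi K q m) ∧
    ∀ eps > 0, ∃ s > 0, ∀ z ∈ ball t s, ‖z‖ = 1 → z ≠ t → dist (phi z) a < eps ∨ dist (phi z) b < eps

/-- `P` has the jump `c` at the point `q` of the curve `K`: near `q` the numbers are `m + 1` and `m`, the traces `tau + c` and
`tau`. -/
def Jmp (phi : ℂ → ℂ) (K : Set ℂ) (P : Op) (q c : ℂ) : Prop :=
  ∃ (m : ℕ) (tau : ℂ), (∀ᶠ l in 𝓝 q, l ∉ K → (Ix phi l (m + 1) ∧ TrJ phi P l (m + 1) (tau + c)) ∨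
      (Ix phi l m ∧ TrJ phi P l m tau)) ∧
    (∃ᶠ l in 𝓝 q, Ix phi l (m + 1) ∧ l ∉ K) ∧ ∃ᶠ l in 𝓝 q, Ix phi l m ∧ l ∉ K

/-- The hypotheses of the abstract theorem. -/
structure Dat (phi : ℂ → ℂ) (K : Set ℂ) : Prop where
  hb : MemLp (fun x : UnitAddCircle => phi (e x)) ∞ mu0
  closed : IsClosed K
  ne : K.Nonempty
  dense : Dense Kᶜ
  vol : ∃ A : ℝ, 0 < A ∧ ∀ eps : ℝ, 0 < eps → eps ≤ 1 →
    volume {l : ℂ | infDist l K ≤ eps} ≤ ENNReal.ofReal (A * eps)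
  null : ∀ b, mu0 {x : UnitAddCircle | phi (e x) = b} = 0
  off : ∀ l ∉ K, ∃ n : ℤ, Ix phi l n
  nn : ∀ l n, Ix phi l n → 0 ≤ n
  grow : ∃ (C : ℝ) (N : ℕ), 0 < C ∧ ∀ l ∉ K, infDist l K ≤ 1 → ∀ u : Hardy,
    ‖u‖ ≤ C * (infDist l K)⁻¹ ^ N * ‖(Tp phi - l • (1 : Op)) u‖
  sim : {z : ℂ | ‖z‖ = 1 ∧ ∀ x, ¬ Sm phi z x}.Finite
  rem : {q : ℂ | ¬ Rem phi K q}.Finite
  link : ∀ t : ℂ, ‖t‖ = 1 → (AnalyticAt ℂ phi t ∧ ∃ x, 0 ≤ x ∧ Iq phi (phi t) x) ∨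
    ∃ S a b, LinkOn phi K t S a b
  sides : {q : ℂ | q ∈ K ∧ (∀ z x, Sm phi z x → phi z ≠ q) ∧
    ∀ t, ‖t‖ = 1 → ∀ S a b, LinkOn phi K t S a b → q ∉ S}.Finite

/-! ### Part 2 -/

/-- On the side `s` of the point `t` of the circle `phi` is given by the function `psi`, which is analytic at `t` and not
constant near `t`. -/
def SideJ (phi psi : ℂ → ℂ) (t : ℂ) (s : ℝ) : Prop :=
  AnalyticAt ℂ psi t ∧ (¬ ∀ᶠ z in 𝓝 t, psi z = psi t) ∧
    ∀ᶠ x : ℝ in 𝓝[>] 0, phi (t * E (s * x)) = psi (t * E (s * x))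

/-- Piecewise analytic symbols: `u t` and `v t` are the one-sided limits at the point `t` of the finite set `F`. -/
structure PwJ (phi : ℂ → ℂ) (F : Finset ℂ) (u v : ℂ → ℂ) : Prop where
  circ : ∀ t ∈ F, ‖t‖ = 1
  reg : ∀ z ∈ sphere (0 : ℂ) 1, z ∉ F → AnalyticAt ℂ phi z ∧ deriv phi z ≠ 0
  left : ∀ t ∈ F, ∃ psi, SideJ phi psi t (-1) ∧ psi t = u t
  right : ∀ t ∈ F, ∃ psi, SideJ phi psi t 1 ∧ psi t = v t

/-- The curve, completed by the segments between the one-sided limits. -/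
def Gam (phi : ℂ → ℂ) (F : Finset ℂ) (u v : ℂ → ℂ) : Set ℂ :=
  phi '' (sphere 0 1 \ F) ∪ ⋃ t ∈ F, segment ℝ (u t) (v t)

/-- `n` is the winding number about `l` of the completed curve: `phi z - l = z ^ n * exp (h z)` on the circle without `F`,
where `h` is continuous and has one-sided limits at the points of `F`, with jumps of the imaginary part less than `pi`. -/
def Wj (phi : ℂ → ℂ) (F : Finset ℂ) (l : ℂ) (n : ℤ) : Prop :=
  ∃ h : ℂ → ℂ, ContinuousOn h (sphere 0 1 \ F) ∧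
    (∀ t ∈ F, ∃ a b : ℂ, Tendsto (fun x : ℝ => h (t * E (-x))) (𝓝[>] 0) (𝓝 a) ∧
      Tendsto (fun x : ℝ => h (t * E x)) (𝓝[>] 0) (𝓝 b) ∧ |(b - a).im| < Real.pi) ∧
    ∀ z ∈ sphere (0 : ℂ) 1, z ∉ F → phi z - l = z ^ n * exp (h z)

/-- The class of the theorem. -/
structure JCross (phi : ℂ → ℂ) (F : Finset ℂ) (u v : ℂ → ℂ) : Prop extends PwJ phi F u v where
  sep : ∀ t ∈ F, ∀ z ∈ sphere (0 : ℂ) 1, z ∉ F → phi z ∉ segment ℝ (u t) (v t)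
  seg : ∀ t ∈ F, ∀ t' ∈ F, t ≠ t' → Disjoint (segment ℝ (u t) (v t)) (segment ℝ (u t') (v t'))
  simple : ∀ t ∈ F, ∀ᶠ z in 𝓝 t, ‖z‖ = 1 → z ∉ F →
    ∀ z' : ℂ, ‖z'‖ = 1 → z' ∉ F → phi z' = phi z → z' = z
  inj : ∃ D : Set ℂ, D.Finite ∧ InjOn phi (sphere 0 1 \ (F ∪ D))
  half : ∀ z1 ∈ sphere (0 : ℂ) 1, z1 ∉ F → ∀ z2 ∈ sphere (0 : ℂ) 1, z2 ∉ F → z1 ≠ z2 →
    phi z1 = phi z2 → ∃ w : ℂ, ∀ z ∈ sphere (0 : ℂ) 1, z ∉ F → phi z = phi z1 →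
      0 < (conj w * (I * (z * deriv phi z))).re

end Pool.Agent.TBirJ
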