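import Pool.Agent.TBir.EvB
import Pool.Agent.TBir.Ser
import Pool.Agent.TBirC.Psi

/-!
# Symbols in the disc algebra

`disc_alg`: if `A x = G (e x)` with `G` continuous on the closed disc and analytic in the disc, then
`A` is a symbol `Plus` and `ev z (T A h) = G z * ev z h`. Proof: `A` is the uniform limit, `r < 1`, of
the symbols `x ↦ G (r e x)`, which are absolutely convergent power series.
-/

set_option autoImplicit false

open MeasureTheory Complex Set Filter Topology Metric AddCircle
open scoped ComplexConjugate InnerProductSpace ENNReal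

namespace Pool.Agent.TBirJ

open Pool.Agent.TBir Pool.Agent.TBirC Pool.Agent.TBirC.PsiAux

private theorem ev_four {z : ℂ} (hz : ‖z‖ < 1) (n : ℕ) (v : Hardy) :
    ev z (T (fourier (n : ℤ)) v) = z ^ n * ev z v := by
  induction n with
  | zero =>
    have h1 : (fourier ((0 : ℕ) : ℤ) : CT) = 1 := by
      ext x
      rw [four_e]
      simp
    rw [h1, T_one, pow_zero, one_mul]
    rfl
  | succ n ih =>
    have h1 : (fourier ((n + 1 : ℕ) : ℤ) : CT) = fourier 1 * fourier (n : ℤ) := by
      ext x
      rw [ContinuousMap.mul_apply, four_e, four_e, four_e, ← zpow_add₀ (e_ne x)]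
      congr 1
      push_cast
      ring
    rw [h1, T_mul_right _ (plus_fourier (by positivity))]
    change ev z (S (T (fourier (n : ℤ)) v)) = _
    rw [ev_S hz, ih, pow_succ]
    ring

private theorem ev_plusS {b : ℕ → ℂ} (hb : Summable fun j => ‖b j‖) {z : ℂ} (hz : ‖z‖ < 1)
    (v : Hardy) : ev z (T (plusS b) v) = (∑' j : ℕ, b j * z ^ j) * ev z v := by
  obtain ⟨TL, hTL⟩ := exists_TL
  have h0 : Summable fun j : ℕ => b j • (fourier (j : ℤ) : CT) := by
    refine Summable.of_norm ?_
    simpa [norm_smul, fourier_norm] using hb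
  set L : CT →L[ℂ] ℂ := (ev z).comp ((ContinuousLinearMap.apply ℂ Hardy v).comp TL) with hL
  have hLa : ∀ u : CT, L u = ev z (T u v) := by
    intro u
    rw [← hTL]
    rfl
  have h1 := ContinuousLinearMap.map_tsum L h0
  rw [← hLa]
  change L (plusS b) = _ at h1
  rw [h1, ← tsum_mul_right]
  refine tsum_congr fun j => ?_
  rw [map_smul, hLa, ev_four hz, smul_eq_mul]
  ring

/-- The Fourier coefficient as a continuous functional. -/
private noncomputable def fcK (n : ℤ) : CT →L[ℂ] ℂ :=
  LinearMap.mkContinuous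
    { toFun := fun f => fourierCoeff f n
      map_add' := by
        intro f g
        exact congrFun (fourierCoeff.add (f.continuous.integrable_of_hasCompactSupport
          (HasCompactSupport.of_compactSpace _)) (g.continuous.integrable_of_hasCompactSupport
          (HasCompactSupport.of_compactSpace _))) n
      map_smul' := by
        intro c f
        exact fourierCoeff.const_smul f c n } 1 (by
    intro f
    change ‖fourierCoeff f n‖ ≤ 1 * ‖f‖
    rw [one_mul]
    unfold fourierCoeff
    refine (norm_integral_le_integral_norm _).trans ?_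
    refine (integral_mono_of_nonneg (ae_of_all _ fun _ => norm_nonneg _)
      (integrable_const ‖f‖) (ae_of_all _ fun x => ?_)).trans ?_
    · simp only [norm_smul]
      have : ‖(fourier (-n) : CT) x‖ = 1 := Circle.norm_coe _
      rw [this, one_mul]
      exact f.norm_coe_le_norm x
    · simp)

private theorem fcK_apply (n : ℤ) (f : CT) : fcK n f = fourierCoeff f n := rfl

/-- The dilated symbol. -/
private theorem dil {G : ℂ → ℂ} (hd : DifferentiableOn ℂ G (ball 0 1)) {r : ℝ} (hr : 0 < r)
    (hr1 : r < 1) : ∃ B : CT, (∀ x, B x = G (r * e x)) ∧ Plus B ∧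
      ∀ z : ℂ, ‖z‖ < 1 → ∀ v : Hardy, ev z (T B v) = G (r * z) * ev z v := by
  set c : ℕ → ℂ := fun n => (n.factorial : ℂ)⁻¹ * iteratedDeriv n G 0 with hc
  have hs : ∀ w : ℂ, ‖w‖ < 1 → HasSum (fun n : ℕ => c n * w ^ n) (G w) := by
    intro w hw
    have h1 := Complex.hasSum_taylorSeries_on_ball (c := 0) (r := 1) (f := G) hd (z := w)
      (by simpa using hw)
    refine (hasSum_of_eq h1 fun n => ?_)
    rw [sub_zero, smul_eq_mul, smul_eq_mul, hc]
    ring
  obtain ⟨r', hr', hr'1⟩ := exists_between hr1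
  have hr'0 : 0 < r' := hr.trans hr'
  set b : ℕ → ℂ := fun n => c n * (r : ℂ) ^ n with hb
  have hsum : Summable fun j => ‖b j‖ := by
    have h1 : Summable fun n : ℕ => c n * (r' : ℂ) ^ n := (hs (r' : ℂ) (by
      rw [Complex.norm_real, Real.norm_eq_abs, abs_of_pos hr'0]; exact hr'1)).summable
    obtain ⟨M, hM⟩ : ∃ M : ℝ, ∀ n, ‖c n * (r' : ℂ) ^ n‖ ≤ M := by
      have h2 := h1.tendsto_atTop_zero.norm.bddAbove_range
      obtain ⟨M, hM⟩ := h2
      exact ⟨M, fun n => hM ⟨n, rfl⟩⟩
    have h3 : Summable fun n : ℕ => M * (r / r') ^ n :=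
      (summable_geometric_of_lt_one (by positivity) ((div_lt_one hr'0).2 hr')).mul_left M
    refine Summable.of_nonneg_of_le (fun _ => norm_nonneg _) (fun n => ?_) h3
    have h4 : ‖b n‖ = ‖c n * (r' : ℂ) ^ n‖ * (r / r') ^ n := by
      rw [hb]
      simp only [norm_mul, norm_pow, Complex.norm_real, Real.norm_eq_abs, abs_of_pos hr,
        abs_of_pos hr'0, div_pow]
      field_simp
    rw [h4]
    exact mul_le_mul_of_nonneg_right (hM n) (by positivity)
  have hval : ∀ w : ℂ, ‖w‖ ≤ 1 → ∑' j : ℕ, b j * w ^ j = G (r * w) := by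
    intro w hw
    have h1 := hs (r * w) (by
      rw [norm_mul, Complex.norm_real, Real.norm_eq_abs, abs_of_pos hr]
      nlinarith [norm_nonneg w])
    rw [← h1.tsum_eq]
    refine tsum_congr fun j => ?_
    rw [hb, mul_pow]
    ring
  refine ⟨plusS b, fun x => ?_, plus_plusS hsum, fun z hz v => ?_⟩
  · rw [plusS_apply hsum, hval _ (norm_e' x).le]
  · rw [ev_plusS hsum hz, hval _ hz.le]

theorem disc_alg {G : ℂ → ℂ} (hc : ContinuousOn G (closedBall 0 1))
    (hd : DifferentiableOn ℂ G (ball 0 1)) {A : CT} (hA : ∀ x, A x = G (e x)) :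
    Plus A ∧ ∀ z : ℂ, ‖z‖ < 1 → ∀ v : Hardy, ev z (T A v) = G z * ev z v := by
  -- uniform continuity
  have huc : UniformContinuousOn G (closedBall 0 1) :=
    (isCompact_closedBall (0 : ℂ) 1).uniformContinuousOn_of_continuous hc
  set rr : ℕ → ℝ := fun n => 1 - 1 / ((n : ℝ) + 2) with hrr
  have hr0 : ∀ n, 0 < rr n := by
    intro n
    have : 1 / ((n : ℝ) + 2) < 1 := by
      rw [div_lt_one (by positivity)]
      linarith [(Nat.cast_nonneg n : (0 : ℝ) ≤ n)]
    rw [hrr]
    simp only
    linarith
  have hr1 : ∀ n, rr n < 1 := by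
    intro n
    have : 0 < 1 / ((n : ℝ) + 2) := by positivity
    rw [hrr]
    simp only
    linarith
  have hlim : Tendsto rr atTop (𝓝 1) := by
    have h1 : Tendsto (fun n : ℕ => 1 / ((n : ℝ) + 2)) atTop (𝓝 0) := by
      have h2 := tendsto_one_div_add_atTop_nhds_zero_nat (𝕜 := ℝ)
      have h3 := h2.comp (tendsto_add_atTop_nat 1)
      refine h3.congr fun n => ?_
      simp only [Function.comp]
      push_cast
      ring
    have h2 := h1.const_sub 1
    rwa [sub_zero] at h2
  choose B hB1 hB2 hB3 using fun n => dil hd (hr0 n) (hr1 n)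
  have hAB : Tendsto B atTop (𝓝 A) := by
    rw [tendsto_iff_norm_sub_tendsto_zero]
    rw [Metric.tendsto_atTop]
    intro ε hε
    rw [Metric.uniformContinuousOn_iff] at huc
    obtain ⟨δ, hδ, hu⟩ := huc (ε / 2) (half_pos hε)
    obtain ⟨N, hN⟩ := (Metric.tendsto_atTop.1 hlim) δ hδ
    refine ⟨N, fun n hn => ?_⟩
    rw [Real.dist_eq, sub_zero, abs_of_nonneg (norm_nonneg _)]
    refine lt_of_le_of_lt ?_ (half_lt_self hε)
    rw [ContinuousMap.norm_le _ (half_pos hε).le]
    intro x
    rw [ContinuousMap.sub_apply, hA, hB1, ← dist_eq_norm]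
    have hx : ‖(rr n : ℂ) * e x‖ = rr n := by
      rw [norm_mul, norm_e' x, mul_one, Complex.norm_real, Real.norm_eq_abs, abs_of_pos (hr0 n)]
    refine (hu _ ?_ _ ?_ ?_).le
    · rw [mem_closedBall_zero_iff, hx]
      exact (hr1 n).le
    · rw [mem_closedBall_zero_iff, norm_e' x]
    · have h1 := hN n hn
      rw [Real.dist_eq] at h1
      rw [dist_eq_norm]
      have h2 : (rr n : ℂ) * e x - e x = ((rr n - 1 : ℝ) : ℂ) * e x := by
        push_cast
        ring
      rw [h2, norm_mul, norm_e' x, mul_one, Complex.norm_real, Real.norm_eq_abs]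
      exact h1
  refine ⟨fun n hn => ?_, fun z hz v => ?_⟩
  · have h1 : Tendsto (fun k => fcK n (B k)) atTop (𝓝 (fcK n A)) :=
      ((fcK n).continuous.tendsto A).comp hAB
    have h2 : (fun k => fcK n (B k)) = fun _ => 0 := by
      funext k
      rw [fcK_apply]
      exact hB2 k n hn
    rw [h2] at h1
    have h3 := tendsto_nhds_unique h1 tendsto_const_nhds
    rw [fcK_apply] at h3
    exact h3
  · obtain ⟨TL, hTL⟩ := exists_TL
    set L : CT →L[ℂ] ℂ := (ev z).comp ((ContinuousLinearMap.apply ℂ Hardy v).comp TL) with hL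
    have hLa : ∀ u : CT, L u = ev z (T u v) := by
      intro u
      rw [← hTL]
      rfl
    have h1 : Tendsto (fun k => L (B k)) atTop (𝓝 (L A)) := (L.continuous.tendsto A).comp hAB
    have h2 : (fun k => L (B k)) = fun k => G (rr k * z) * ev z v := by
      funext k
      rw [hLa, hB3 k z hz v]
    rw [h2] at h1
    have h3 : Tendsto (fun k => G (rr k * z)) atTop (𝓝 (G z)) := by
      have h4 : ContinuousAt G z := by
        refine (hd.differentiableAt (isOpen_ball.mem_nhds ?_)).continuousAt
        simpa using hz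
      have h5 : Tendsto (fun k => (rr k : ℂ) * z) atTop (𝓝 z) := by
        have h6 : Tendsto (fun k => ((rr k : ℝ) : ℂ)) atTop (𝓝 ((1 : ℝ) : ℂ)) :=
          (Complex.continuous_ofReal.tendsto 1).comp hlim
        have h7 := h6.mul_const z
        rwa [Complex.ofReal_one, one_mul] at h7
      exact h4.tendsto.comp h5
    have h4 := tendsto_nhds_unique h1 (h3.mul_const (ev z v))
    rw [← hLa]
    exact h4

end Pool.Agent.TBirJ
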