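import Pool.Agent.TBirJ.Def

/-!
# The index of a bounded symbol

`Ix.unique`: for `n < m` the operator `TM` of the symbol with `-m` is `T (fourier (n - m))` times the one with `-n` (`TM_minus`), and `T (fourier (-k))`, `k > 0`, is not injective. `Ix.nhds`: the units are open and the operator is affine in
`l`. `Ix.of_preconnected`: the level sets are open and disjoint. `Ix.large`: `1 - phi / l`, `TM` of it is near `1`. `Ix.ne_val`: an invertible Toeplitz operator has a symbol bounded below a.e. (`isUnit_of_TM`, `ae_ge_of_isUnit`), but `phi - l` is small near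
`z`. `Ix.inj`: `Tp phi - l = TM (z ^ (-n) (phi - l)) * T (fourier n)` (`TM_plus`). `spec_ix`: `spec_eq`. `Sm.of_iq`: the points `t j` are all equal to `z0`; there is one, because otherwise the symbol is
small near `z0` (as in `Ix.ne_val`). `Iq.mem`: `z` is one of the `t j` for the same reason. `reg1_of_iq`: `bij_iff` (TBirC/Stm.lean), see the proof of `reg_fac` in TBirC/Fin.lean.
-/

set_option autoImplicit false

open MeasureTheory Complex Set Filter Topology Metric AddCircle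
open scoped ComplexConjugate InnerProductSpace ENNReal

namespace Pool.Agent.TBirJ

open Pool.Agent.TBir Pool.Agent.TBirG Pool.Agent.TBirC
open Pool.Agent.TBirP (E qT)

variable {phi : ℂ → ℂ} {l q z0 : ℂ} {n m x : ℤ}

namespace IxAux

open Pool.Agent.TBirC.PsiAux

theorem mono_ne : (mono 0 : Hardy) ≠ 0 := by
  intro h
  have h1 := ev_mono (z := 0) (by simp) 0
  rw [h, map_zero, pow_zero] at h1
  exact zero_ne_one h1

theorem not_unit_zero : ¬ IsUnit (0 : Op) := by
  intro h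
  rw [isUnit_zero_iff] at h
  have h1 : (0 : Op) (mono 0) = (1 : Op) (mono 0) := by rw [h]
  exact mono_ne h1.symm

/-- the symbol of an invertible Toeplitz operator is essentially bounded -/
theorem memLp_of_unit {a : UnitAddCircle → ℂ} (h : IsUnit (TM (mf a))) : MemLp a ∞ mu0 := by
  by_contra hcon
  have h1 : mf a = 0 := by
    unfold mf
    rw [dif_neg hcon]
  have h2 : TM (0 : Op2) = 0 := by
    have := TM_smul 0 (0 : Op2)
    rwa [zero_smul, zero_smul] at this
  rw [h1, h2] at h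
  exact not_unit_zero h

theorem not_unit_neg {k : ℤ} (hk : k < 0) : ¬ IsUnit (T (fourier k)) := by
  intro h
  obtain ⟨N, hN⟩ := h.exists_left_inv
  have h1 : (N * T (fourier k)) (mono 0) = mono 0 := by
    rw [hN]
    rfl
  have h2 : (N * T (fourier k)) (mono 0) = N (T (fourier k) (mono 0)) := rfl
  rw [h2, idx_T_neg_mono hk, map_zero] at h1
  exact mono_ne h1.symm

/-- the symbol of an invertible Toeplitz operator does not tend to zero at a point -/
theorem not_small {a : UnitAddCircle → ℂ} (h : IsUnit (TM (mf a))) (x0 : UnitAddCircle) :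
    ¬ Tendsto a (𝓝 x0) (𝓝 0) := by
  intro ht
  have ha := memLp_of_unit h
  obtain ⟨h1, -⟩ := isUnit_of_TM (Cm.mf _) h
  obtain ⟨c, hc, h2⟩ := ae_ge_of_isUnit ha h1
  have h3 : ∀ᶠ x in 𝓝 x0, ‖a x‖ < c := by
    have h4 := ht.norm
    rw [norm_zero] at h4
    exact h4.eventually_lt_const hc
  obtain ⟨U, hU, hUo, hx0⟩ := _root_.mem_nhds_iff.1 h3
  have h5 : Dense {x : UnitAddCircle | c ≤ ‖a x‖} := Measure.dense_of_ae h2
  obtain ⟨y, hy1, hy2⟩ := h5.inter_open_nonempty U hUo ⟨x0, hx0⟩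
  have h6 : ‖a y‖ < c := hU hy1
  exact absurd hy2 (not_le.2 h6)

theorem tend_phi {z : ℂ} {x0 : UnitAddCircle} (hx : e x0 = z) (ha : AnalyticAt ℂ phi z) :
    Tendsto (fun x : UnitAddCircle => phi (e x) - phi z) (𝓝 x0) (𝓝 0) := by
  have h1 : Tendsto (fun x : UnitAddCircle => phi (e x)) (𝓝 x0) (𝓝 (phi z)) := by
    have h2 : Tendsto e (𝓝 x0) (𝓝 z) := by
      rw [← hx]
      exact cont_e.tendsto x0
    exact ha.continuousAt.tendsto.comp h2
  have h3 := h1.sub_const (phi z)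
  rwa [sub_self] at h3

theorem tend_pow (k : ℤ) (x0 : UnitAddCircle) :
    Tendsto (fun x : UnitAddCircle => e x ^ k) (𝓝 x0) (𝓝 (e x0 ^ k)) :=
  (cont_e.zpow₀ k fun x => Or.inl (e_ne x)).tendsto x0

theorem memLp_phi (hb : MemLp (fun x : UnitAddCircle => phi (e x)) ∞ mu0) (l : ℂ) :
    MemLp (fun x : UnitAddCircle => phi (e x) - l) ∞ mu0 := hb.sub (memLp_const l)

theorem memLp_sym (hb : MemLp (fun x : UnitAddCircle => phi (e x)) ∞ mu0) (k : ℤ) (l : ℂ) :
    MemLp (fun x : UnitAddCircle => e x ^ k * (phi (e x) - l)) ∞ mu0 := by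
  have h1 := memLp_mul (memLp_ct (fourier k)) (memLp_phi hb l)
  simpa only [four_e] using h1

theorem tp_sub (hb : MemLp (fun x : UnitAddCircle => phi (e x)) ∞ mu0) (l : ℂ) :
    TM (mf fun x => phi (e x) - l) = Tp phi - l • (1 : Op) := by
  rw [mf_sub hb (memLp_const l), mf_const, TM_sub, TM_algebraMap, Algebra.algebraMap_eq_smul_one]
  rfl

/-- `Tp phi - l = TM (z ^ (-n) (phi - l)) * T (fourier n)` for `n ≥ 0`. -/
theorem tp_fac (hb : MemLp (fun x : UnitAddCircle => phi (e x)) ∞ mu0) (hn : 0 ≤ n) (l : ℂ) :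
    Tp phi - l • (1 : Op) = TM (mf fun x => e x ^ (-n) * (phi (e x) - l)) * T (fourier n) := by
  rw [← tp_sub hb, ← TM_plus _ (plus_fourier hn), ← mf_ct,
    ← mf_mul (memLp_sym hb _ l) (memLp_ct _)]
  congr 1
  refine mf_congr (Filter.Eventually.of_forall fun x => ?_)
  simp only [four_e]
  rw [mul_right_comm, ← zpow_add₀ (e_ne x), neg_add_cancel, zpow_zero, one_mul]

theorem ix_zero (hb : MemLp (fun x : UnitAddCircle => phi (e x)) ∞ mu0) :
    Ix phi l 0 ↔ IsUnit (Tp phi - l • (1 : Op)) := by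
  unfold Ix
  simp only [neg_zero, zpow_zero, one_mul]
  rw [tp_sub hb]

theorem inj_fourier (hn : 0 ≤ n) {u : Hardy} (hu : T (fourier n) u = 0) : u = 0 := by
  obtain ⟨k, rfl⟩ := Int.eq_ofNat_of_zero_le hn
  have h1 : (T (fourier (-(k : ℤ))) * T (fourier (k : ℤ))) u = u := by
    rw [T_fourier_neg_mul]
    rfl
  have h2 : (T (fourier (-(k : ℤ))) * T (fourier (k : ℤ))) u =
    T (fourier (-(k : ℤ))) (T (fourier (k : ℤ)) u) := rfl
  rw [h2, hu, map_zero] at h1
  exact h1.symm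

theorem lt_false (h : Ix phi l n) (h' : Ix phi l m) (hnm : n < m) : False := by
  unfold Ix at h h'
  have h1 := memLp_of_unit h
  have h2 : mf (fun x => e x ^ (-m) * (phi (e x) - l)) =
      mul (fourier (n - m)) * mf (fun x => e x ^ (-n) * (phi (e x) - l)) := by
    rw [← mf_ct, ← mf_mul (memLp_ct _) h1]
    refine mf_congr (Filter.Eventually.of_forall fun x => ?_)
    simp only [four_e]
    rw [← mul_assoc, ← zpow_add₀ (e_ne x)]
    congr 2
    ring
  rw [h2, TM_minus _ (minus_fourier (by omega))] at h'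
  obtain ⟨u, hu⟩ := h
  have h3 : IsUnit (T (fourier (n - m)) * (u : Op)) := by rw [hu]; exact h'
  exact not_unit_neg (by omega : n - m < 0) (u.isUnit_mul_units _ |>.1 h3)

end IxAux

open IxAux Pool.Agent.TBirC.PsiAux

theorem Ix.unique (h : Ix phi l n) (h' : Ix phi l m) : n = m := by
  rcases lt_trichotomy n m with h1 | h1 | h1
  · exact (lt_false h h' h1).elim
  · exact h1
  · exact (lt_false h' h h1).elim

theorem Ix.nhds (hb : MemLp (fun x : UnitAddCircle => phi (e x)) ∞ mu0) (h : Ix phi l n) :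
    ∀ᶠ l' in 𝓝 l, Ix phi l' n := by
  have h0 := memLp_sym hb (-n) 0
  have h1 : ∀ l' : ℂ, TM (mf fun x => e x ^ (-n) * (phi (e x) - l')) =
      TM (mf fun x => e x ^ (-n) * (phi (e x) - 0)) - l' • T (fourier (-n)) := by
    intro l'
    have h2 : mf (fun x => e x ^ (-n) * (phi (e x) - l')) =
        mf (fun x => e x ^ (-n) * (phi (e x) - 0)) - l' • mul (fourier (-n)) := by
      have h3 : l' • mul (fourier (-n)) = mf (fun x => (l' • (fourier (-n)) : CT) x) := by
        rw [mf_ct, mul_smul_ct]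
      rw [h3, ← mf_sub h0 (memLp_ct _)]
      refine mf_congr (Filter.Eventually.of_forall fun x => ?_)
      simp only [ContinuousMap.smul_apply, four_e, smul_eq_mul]
      ring
    rw [h2, TM_sub, TM_smul, TM_mul]
  have h2 : Continuous fun l' : ℂ => TM (mf fun x => e x ^ (-n) * (phi (e x) - l')) := by
    have h3 : (fun l' : ℂ => TM (mf fun x => e x ^ (-n) * (phi (e x) - l'))) =
        fun l' : ℂ => TM (mf fun x => e x ^ (-n) * (phi (e x) - 0)) - l' • T (fourier (-n)) :=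
      funext h1
    rw [h3]
    fun_prop
  exact h2.continuousAt.eventually (Units.isOpen.mem_nhds h)

theorem Ix.of_preconnected (hb : MemLp (fun x : UnitAddCircle => phi (e x)) ∞ mu0) {A : Set ℂ}
    (hA : IsPreconnected A) (hJ : ∀ l ∈ A, ∃ n, Ix phi l n) {l l' : ℂ} (hl : l ∈ A) (hl' : l' ∈ A)
    (h : Ix phi l n) : Ix phi l' n := by
  by_contra hcon
  have hU : IsOpen {w | Ix phi w n} := isOpen_iff_mem_nhds.2 fun w hw => Ix.nhds hb hw
  have hV : IsOpen {w | ∃ m, m ≠ n ∧ Ix phi w m} := isOpen_iff_mem_nhds.2 fun w hw => by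
    obtain ⟨m, hm, hw⟩ := hw
    filter_upwards [Ix.nhds hb hw] with w' hw'
    exact ⟨m, hm, hw'⟩
  obtain ⟨w, hw, hw1, m, hm, hw2⟩ := hA _ _ hU hV (by
      intro w hw
      obtain ⟨m, hm⟩ := hJ w hw
      by_cases hmn : m = n
      · left
        rw [hmn] at hm
        exact hm
      · right
        exact ⟨m, hmn, hm⟩) ⟨l, hl, h⟩ (by
      obtain ⟨m, hm⟩ := hJ l' hl'
      refine ⟨l', hl', m, ?_, hm⟩
      rintro rfl
      exact hcon hm)
  exact hm (Ix.unique hw2 hw1)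

theorem Ix.large (hb : MemLp (fun x : UnitAddCircle => phi (e x)) ∞ mu0) :
    ∃ R : ℝ, ∀ l : ℂ, R < ‖l‖ → Ix phi l 0 := by
  refine ⟨‖Tp phi‖ * ‖(1 : Op)‖, fun l hl => ?_⟩
  rw [ix_zero hb]
  have h1 := spectrum.mem_resolventSet_of_norm_lt_mul (𝕜 := ℂ) hl
  rw [spectrum.mem_resolventSet_iff, Algebra.algebraMap_eq_smul_one] at h1
  rw [← neg_sub, IsUnit.neg_iff]
  exact h1

theorem Ix.ne_val (hb : MemLp (fun x : UnitAddCircle => phi (e x)) ∞ mu0) (h : Ix phi l n) {z : ℂ}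
    (hz : ‖z‖ = 1) (ha : AnalyticAt ℂ phi z) : phi z ≠ l := by
  rintro rfl
  obtain ⟨x0, hx0⟩ := PsiAux.exists_e (mem_sphere_zero_iff_norm.2 hz)
  refine not_small h x0 ?_
  have h1 := (tend_pow (-n) x0).mul (tend_phi hx0 ha)
  rwa [mul_zero] at h1

theorem Ix.inj (hb : MemLp (fun x : UnitAddCircle => phi (e x)) ∞ mu0) (hn : 0 ≤ n)
    (h : Ix phi l n) {u : Hardy} (hu : (Tp phi - l • (1 : Op)) u = 0) : u = 0 := by
  rw [tp_fac hb hn] at hu
  have h1 : (TM (mf fun x => e x ^ (-n) * (phi (e x) - l))) (T (fourier n) u) = 0 := hu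
  have h2 := (ContinuousLinearMap.isUnit_iff_bijective.1 h).1
  apply inj_fourier hn
  apply h2
  rw [h1, map_zero]

theorem Ix.rg (hb : MemLp (fun x : UnitAddCircle => phi (e x)) ∞ mu0) (h : Ix phi l 0) (f : Hardy) :
    RgJ phi f l :=
  (ContinuousLinearMap.isUnit_iff_bijective.1 ((ix_zero hb).1 h)).2 f

theorem spec_ix (hb : MemLp (fun x : UnitAddCircle => phi (e x)) ∞ mu0) (l : ℂ) :
    l ∈ Spec phi ↔ ¬ Ix phi l 0 := by
  rw [spec_eq hb, spectrum.mem_iff, ix_zero hb, Algebra.algebraMap_eq_smul_one, ← IsUnit.neg_iff,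
    neg_sub]
  rfl

theorem Sm.iq (h : Sm phi z0 x) : Iq phi (phi z0) x := by
  obtain ⟨h1, h2, h3, h4⟩ := h
  refine ⟨1, fun _ => z0, fun i j _ => Subsingleton.elim i j, fun _ => ⟨h1, h2, rfl, h3⟩, ?_⟩
  simpa only [Fin.prod_univ_one] using h4

/-- a point which is sent to `q` is one of the points `t j` -/
theorem IxAux.mem_t {k : ℕ} {t : Fin k → ℂ}
    (h : IsUnit (TM (mf fun y => e y ^ (-x) * ((phi (e y) - q) / ∏ j, (e y - t j))))) {z : ℂ}
    (hz : ‖z‖ = 1) (ha : AnalyticAt ℂ phi z) (hq : phi z = q) : ∃ j, t j = z := by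
  by_contra hcon
  push Not at hcon
  obtain ⟨x0, hx0⟩ := PsiAux.exists_e (mem_sphere_zero_iff_norm.2 hz)
  refine not_small h x0 ?_
  have h1 : Tendsto (fun y : UnitAddCircle => ∏ j, (e y - t j)) (𝓝 x0) (𝓝 (∏ j, (z - t j))) := by
    refine tendsto_finsetProd _ fun j _ => ?_
    rw [← hx0]
    exact (cont_e.tendsto x0).sub_const _
  have h2 : ∏ j, (z - t j) ≠ 0 := by
    rw [Finset.prod_ne_zero_iff]
    exact fun j _ => sub_ne_zero.2 (hcon j).symm
  have h3 := tend_phi hx0 ha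
  rw [hq] at h3
  have h4 := (tend_pow (-x) x0).mul (h3.div h1 h2)
  rwa [zero_div, mul_zero] at h4

theorem Sm.of_iq (hb : MemLp (fun x : UnitAddCircle => phi (e x)) ∞ mu0) (h : Iq phi q x)
    (hz0 : ‖z0‖ = 1) (ha : AnalyticAt ℂ phi z0) (hq : phi z0 = q)
    (hu : ∀ z, ‖z‖ = 1 → AnalyticAt ℂ phi z → phi z = q → z = z0) : Sm phi z0 x := by
  obtain ⟨k, t, ht, hj, hun⟩ := h
  obtain ⟨j, hjz⟩ := mem_t hun hz0 ha hq
  have h1 : ∀ i, t i = z0 := fun i => hu _ (hj i).1 (hj i).2.1 (hj i).2.2.1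
  have h2 : ∀ i, i = j := fun i => ht ((h1 i).trans (h1 j).symm)
  refine ⟨hz0, ha, ?_, ?_⟩
  · rw [← hjz]
    exact (hj j).2.2.2
  · have h3 : ∀ y : UnitAddCircle, ∏ i, (e y - t i) = e y - z0 := by
      intro y
      rw [Fintype.prod_eq_single j fun i hi => absurd (h2 i) hi, h1 j]
    simp only [h3] at hun
    rw [hq]
    exact hun

theorem Iq.mem (hb : MemLp (fun x : UnitAddCircle => phi (e x)) ∞ mu0) (h : Iq phi q x) {z : ℂ}
    (hz : ‖z‖ = 1) (ha : AnalyticAt ℂ phi z) (hq : phi z = q) : deriv phi z ≠ 0 := by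
  obtain ⟨k, t, ht, hj, hun⟩ := h
  obtain ⟨j, hjz⟩ := mem_t hun hz ha hq
  rw [← hjz]
  exact (hj j).2.2.2

theorem reg1_of_iq (hb : MemLp (fun x : UnitAddCircle => phi (e x)) ∞ mu0) (h : Iq phi q x) :
    Reg1 phi q := by
  obtain ⟨k, t, ht, hj, hun⟩ := h
  refine ⟨k, t, -x, ht, hj, ?_⟩
  exact (bij_iff (phi := fun w => w ^ (-x) * ((phi w - q) / ∏ j, (w - t j)))
    (memLp_of_unit hun)).2 hun

end Pool.Agent.TBirJ
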