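import Pool.Agent.TBirJ.Nfj
import Pool.Agent.TBirP.VolP

/-!
# The completed curve

`gam_compact`: `Gam` is `phi` of the circle without `F` with the limit points `u t`, `v t` and the segments; a sequence of values `phi z_n`, `z_n` to `z`: `z` not in `F`: continuity; `z = t` in `F`: limit `u t` or `v t` (one side). `gam_vol`: as `vol_nbhd` in TBirP/VolP.lean: `Gam` is a finite union of
Lipschitz images of intervals (near `t` in `F` the function is Lipschitz on each side, `core_lip` in TBirP/GrC.lean; compactness), a segment is one; each Lipschitz image of an interval `[0, 1]` has the estimate. `gam_dense`: volume zero. `pwj_null`: the level sets are finite off `F` (as `level_fin`).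
-/

set_option autoImplicit false

open MeasureTheory Complex Set Filter Topology Metric AddCircle
open scoped ComplexConjugate InnerProductSpace ENNReal

namespace Pool.Agent.TBirJ

open Pool.Agent.TBir Pool.Agent.TBirG Pool.Agent.TBirC
open Pool.Agent.TBirP (E qT)

variable {phi : ℂ → ℂ} {F : Finset ℂ} {u v : ℂ → ℂ}

/-- Compact sets with small neighbourhoods. -/
private def QQ (S : Set ℂ) : Prop :=
  IsCompact S ∧ ∃ A : ℝ, 0 < A ∧ ∀ eps : ℝ, 0 < eps → eps ≤ 1 →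
    volume {l : ℂ | ∃ s ∈ S, dist l s ≤ eps} ≤ ENNReal.ofReal (A * eps)

private theorem qq_empty : QQ ∅ := by
  refine ⟨isCompact_empty, 1, one_pos, fun eps _ _ => ?_⟩
  have h1 : {l : ℂ | ∃ s ∈ (∅ : Set ℂ), dist l s ≤ eps} = ∅ := by
    ext l
    simp
  rw [h1, measure_empty]
  exact bot_le

private theorem qq_union {S T : Set ℂ} (hS : QQ S) (hT : QQ T) : QQ (S ∪ T) := by
  obtain ⟨cS, A, hA, hA'⟩ := hS
  obtain ⟨cT, B, hB, hB'⟩ := hT
  refine ⟨cS.union cT, A + B, by positivity, fun eps he he1 => ?_⟩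
  have h1 : {l : ℂ | ∃ s ∈ S ∪ T, dist l s ≤ eps} ⊆
      {l : ℂ | ∃ s ∈ S, dist l s ≤ eps} ∪ {l : ℂ | ∃ s ∈ T, dist l s ≤ eps} := by
    rintro l ⟨s, hs | hs, h⟩
    · exact Or.inl ⟨s, hs, h⟩
    · exact Or.inr ⟨s, hs, h⟩
  calc volume {l : ℂ | ∃ s ∈ S ∪ T, dist l s ≤ eps} ≤
      volume ({l : ℂ | ∃ s ∈ S, dist l s ≤ eps} ∪ {l : ℂ | ∃ s ∈ T, dist l s ≤ eps}) :=
        measure_mono h1
    _ ≤ volume {l : ℂ | ∃ s ∈ S, dist l s ≤ eps} + volume {l : ℂ | ∃ s ∈ T, dist l s ≤ eps} :=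
        measure_union_le _ _
    _ ≤ ENNReal.ofReal (A * eps) + ENNReal.ofReal (B * eps) :=
        add_le_add (hA' eps he he1) (hB' eps he he1)
    _ = ENNReal.ofReal ((A + B) * eps) := by
        rw [← ENNReal.ofReal_add (by positivity) (by positivity), add_mul]

private theorem qq_curve {g : ℝ → ℂ} {d K : ℝ} (hd : 0 < d) (hK : 0 ≤ K)
    (hg : ∀ x y : ℝ, 0 ≤ x → x ≤ d → 0 ≤ y → y ≤ d → ‖g x - g y‖ ≤ K * |x - y|) :
    QQ (g '' Icc 0 d) := by
  have hpi := Real.pi_pos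
  have hc : ContinuousOn g (Icc 0 d) := by
    have h1 : LipschitzOnWith ⟨K, hK⟩ g (Icc 0 d) :=
      LipschitzOnWith.of_dist_le_mul fun x hx y hy => by
        rw [dist_eq_norm, Real.dist_eq]
        exact hg x y hx.1 hx.2 hy.1 hy.2
    exact h1.continuousOn
  refine ⟨isCompact_Icc.image_of_continuousOn hc, (d + 2) * (Real.pi * (1 + K) ^ 2), by positivity,
    fun eps he he1 => ?_⟩
  set n : ℕ := ⌈d / eps⌉₊ with hn
  have hsub : {l : ℂ | ∃ s ∈ g '' Icc 0 d, dist l s ≤ eps} ⊆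
      ⋃ j ∈ Finset.range (n + 1), closedBall (g (j * eps : ℝ)) ((1 + K) * eps) := by
    rintro l ⟨_, ⟨t, ⟨ht0, ht1⟩, rfl⟩, hl⟩
    have hj0 : 0 ≤ t / eps := by positivity
    have hj1 : (⌊t / eps⌋₊ : ℝ) ≤ t / eps := Nat.floor_le hj0
    have hj2 : t / eps < ⌊t / eps⌋₊ + 1 := Nat.lt_floor_add_one _
    have hjn : ⌊t / eps⌋₊ < n + 1 := by
      have h1 : t / eps ≤ d / eps := by gcongr
      have h2 : (⌊t / eps⌋₊ : ℝ) ≤ n := hj1.trans (h1.trans (Nat.le_ceil _))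
      exact Nat.lt_succ_of_le (by exact_mod_cast h2)
    refine mem_iUnion₂.mpr ⟨⌊t / eps⌋₊, Finset.mem_range.mpr hjn, ?_⟩
    rw [mem_closedBall]
    have h3 : (⌊t / eps⌋₊ : ℝ) * eps ≤ t := (le_div_iff₀ he).mp hj1
    have hd' : |t - ⌊t / eps⌋₊ * eps| ≤ eps := by
      have h4 : t < (⌊t / eps⌋₊ + 1) * eps := (div_lt_iff₀ he).mp hj2
      rw [abs_of_nonneg (by linarith)]
      linarith
    have h5 := hg t (⌊t / eps⌋₊ * eps) ht0 ht1 (by positivity) (h3.trans ht1)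
    rw [← dist_eq_norm] at h5
    have h6 : K * |t - ⌊t / eps⌋₊ * eps| ≤ K * eps := by gcongr
    calc dist l (g (⌊t / eps⌋₊ * eps : ℝ))
        ≤ dist l (g t) + dist (g t) (g (⌊t / eps⌋₊ * eps : ℝ)) := dist_triangle _ _ _
      _ ≤ eps + K * eps := add_le_add hl (h5.trans h6)
      _ = (1 + K) * eps := by ring
  calc volume {l : ℂ | ∃ s ∈ g '' Icc 0 d, dist l s ≤ eps}
      ≤ volume (⋃ j ∈ Finset.range (n + 1), closedBall (g (j * eps : ℝ)) ((1 + K) * eps)) :=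
        measure_mono hsub
    _ ≤ ∑ j ∈ Finset.range (n + 1), volume (closedBall (g (j * eps : ℝ)) ((1 + K) * eps)) :=
        measure_biUnion_finset_le _ _
    _ = ∑ j ∈ Finset.range (n + 1), ENNReal.ofReal (Real.pi * ((1 + K) * eps) ^ 2) := by
        refine Finset.sum_congr rfl fun j _ => ?_
        rw [Complex.volume_closedBall, ← ENNReal.ofReal_pow (by positivity),
          ENNReal.ofReal_mul hpi.le, mul_comm]
        congr 1
        rw [← NNReal.coe_real_pi, ENNReal.ofReal_coe_nnreal]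
    _ = ENNReal.ofReal (((n : ℝ) + 1) * (Real.pi * ((1 + K) * eps) ^ 2)) := by
        rw [Finset.sum_const, Finset.card_range, nsmul_eq_mul,
          ENNReal.ofReal_mul (p := (n : ℝ) + 1) (by positivity), ← ENNReal.ofReal_natCast,
          Nat.cast_add, Nat.cast_one]
    _ ≤ ENNReal.ofReal ((d + 2) * (Real.pi * (1 + K) ^ 2) * eps) := by
        refine ENNReal.ofReal_le_ofReal ?_
        have hnle : ((n : ℝ) + 1) ≤ (d + 2) / eps := by
          have h1 : (n : ℝ) < d / eps + 1 := Nat.ceil_lt_add_one (by positivity)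
          have h2 : (1 : ℝ) ≤ 1 / eps := by rw [le_div_iff₀ he]; linarith
          have h3 : (d + 2) / eps = d / eps + 1 / eps + 1 / eps := by ring
          rw [h3]
          linarith
        have h7 : ((n : ℝ) + 1) * (Real.pi * ((1 + K) * eps) ^ 2) ≤
            (d + 2) / eps * (Real.pi * ((1 + K) * eps) ^ 2) := by gcongr
        refine h7.trans (le_of_eq ?_)
        field_simp

private theorem qq_segment (a b : ℂ) : QQ (segment ℝ a b) := by
  rw [segment_eq_image']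
  refine qq_curve one_pos (norm_nonneg (b - a)) fun x y _ _ _ _ => ?_
  rw [add_sub_add_left_eq_sub, ← sub_smul, norm_smul, Real.norm_eq_abs, mul_comm]

private theorem qq_segs (F : Finset ℂ) (u v : ℂ → ℂ) : QQ (⋃ t ∈ F, segment ℝ (u t) (v t)) := by
  classical
  induction F using Finset.induction_on with
  | empty =>
    have h1 : (⋃ t ∈ (∅ : Finset ℂ), segment ℝ (u t) (v t)) = ∅ := by simp
    rw [h1]
    exact qq_empty
  | insert a s ha ih =>
    rw [Finset.set_biUnion_insert]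
    exact qq_union (qq_segment _ _) ih

private theorem vlj_lip {psi : ℂ → ℂ} {t : ℂ} (h : AnalyticAt ℂ psi t) (s : ℝ) :
    ∃ d > 0, ∃ K : ℝ, 0 ≤ K ∧ ∀ x y : ℝ, 0 ≤ x → x ≤ d → 0 ≤ y → y ≤ d →
      ‖psi (t * E (s * x)) - psi (t * E (s * y))‖ ≤ K * |x - y| := by
  have h0 : AnalyticAt ℂ psi (t * exp ((s : ℂ) * 0 * I)) := by simpa using h
  have hk : AnalyticAt ℂ (fun w : ℂ => psi (t * exp ((s : ℂ) * w * I))) 0 :=
    AnalyticAt.comp (g := psi) (f := fun w : ℂ => t * exp ((s : ℂ) * w * I)) h0 (by fun_prop)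
  obtain ⟨K, S, hS, hK⟩ := hk.hasStrictDerivAt.hasStrictFDerivAt.exists_lipschitzOnWith
  obtain ⟨ε, hε, hb⟩ := Metric.mem_nhds_iff.mp hS
  refine ⟨ε / 2, by positivity, K, K.2, ?_⟩
  intro x y hx hx2 hy hy2
  have hmem : ∀ z : ℝ, 0 ≤ z → z ≤ ε / 2 → (z : ℂ) ∈ S := by
    intro z h1 h2
    apply hb
    rw [mem_ball_zero_iff, Complex.norm_real, Real.norm_of_nonneg h1]
    linarith
  have h1 := hK.dist_le_mul _ (hmem x hx hx2) _ (hmem y hy hy2)
  rw [dist_eq_norm, dist_eq_norm, ← Complex.ofReal_sub, Complex.norm_real, Real.norm_eq_abs] at h1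
  have h2 : ∀ z : ℝ, psi (t * E (s * z)) = psi (t * exp ((s : ℂ) * z * I)) := fun z => by
    unfold E
    push_cast
    rfl
  rw [h2, h2]
  exact h1

private theorem vlj_E_ne {y : ℝ} (h0 : y ≠ 0) (h1 : |y| < 2 * Real.pi) : E y ≠ 1 := by
  intro h
  unfold E at h
  rw [Complex.exp_eq_one_iff] at h
  obtain ⟨n, hn⟩ := h
  have h2 : (y : ℂ) = n * (2 * Real.pi) := by
    apply mul_right_cancel₀ I_ne_zero
    rw [hn]
    ring
  have h3 : y = n * (2 * Real.pi) := by exact_mod_cast h2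
  have hn0 : n ≠ 0 := by
    rintro rfl
    apply h0
    rw [h3]
    simp
  have h4 : (1 : ℝ) ≤ |(n : ℝ)| := by exact_mod_cast Int.one_le_abs hn0
  have hpi : 0 < 2 * Real.pi := by positivity
  rw [h3, abs_mul, abs_of_pos hpi] at h1
  nlinarith

private theorem vlj_E_mem (x : ℝ) : ‖E x‖ = 1 := by
  unfold E
  exact Complex.norm_exp_ofReal_mul_I x

private theorem vlj_E_cont : Continuous E := by
  unfold E
  fun_prop

private theorem vlj_not_F {t : ℂ} (ht : ‖t‖ = 1) {s : ℝ} (hs : s = 1 ∨ s = -1) (F : Finset ℂ) :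
    ∀ᶠ x : ℝ in 𝓝[>] 0, t * E (s * x) ∉ F := by
  classical
  have ht0 : t ≠ 0 := norm_pos_iff.1 (by rw [ht]; exact one_pos)
  have hc : Continuous fun x : ℝ => t * E (s * x) :=
    continuous_const.mul (vlj_E_cont.comp (continuous_const.mul continuous_id))
  have h1 : ∀ᶠ x : ℝ in 𝓝 0, t * E (s * x) ∈ ((F.erase t : Finset ℂ) : Set ℂ)ᶜ := by
    refine hc.continuousAt.eventually_mem
      ((F.erase t).finite_toSet.isClosed.isOpen_compl.mem_nhds ?_)
    intro h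
    have h2 : t * E (s * 0) = t := by simp [E]
    rw [h2] at h
    exact (Finset.notMem_erase t F) h
  have h2 : ∀ᶠ x : ℝ in 𝓝[>] 0, x < 2 * Real.pi :=
    nhdsWithin_le_nhds (Iio_mem_nhds (by positivity))
  filter_upwards [nhdsWithin_le_nhds h1, h2, self_mem_nhdsWithin] with x h3 h4 h5 h6
  rw [mem_Ioi] at h5
  apply h3
  rw [Finset.mem_coe, Finset.mem_erase]
  refine ⟨fun h7 => ?_, h6⟩
  have h8 : E (s * x) = 1 := by
    apply mul_left_cancel₀ ht0
    rw [h7, mul_one]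
  refine vlj_E_ne ?_ ?_ h8
  · rcases hs with rfl | rfl
    · rw [one_mul]
      exact h5.ne'
    · rw [neg_one_mul]
      exact neg_ne_zero.2 h5.ne'
  · rcases hs with rfl | rfl
    · rwa [one_mul, abs_of_pos h5]
    · rwa [neg_one_mul, abs_neg, abs_of_pos h5]

private theorem vlj_piece {t : ℂ} (ht : ‖t‖ = 1) {s : ℝ} (hs : s = 1 ∨ s = -1) {psi : ℂ → ℂ}
    (ha : AnalyticAt ℂ psi t) (h0 : psi t ∈ Gam phi F u v)
    (hpsi : ∀ᶠ x : ℝ in 𝓝[>] 0, phi (t * E (s * x)) = psi (t * E (s * x))) :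
    ∃ d > 0, ∃ S : Set ℂ, QQ S ∧ S ⊆ Gam phi F u v ∧ psi t ∈ S ∧
      ∀ x : ℝ, 0 < x → x ≤ d → phi (t * E (s * x)) ∈ S := by
  obtain ⟨d1, hd1, K, hK, hlip⟩ := vlj_lip ha s
  obtain ⟨d2, hd2, hd2'⟩ := mem_nhdsGT_iff_exists_Ioc_subset.1 (hpsi.and (vlj_not_F ht hs F))
  have ht0 : psi (t * E (s * 0)) = psi t := by simp [E]
  rw [mem_Ioi] at hd2
  refine ⟨min d1 d2, lt_min hd1 hd2, (fun x : ℝ => psi (t * E (s * x))) '' Icc 0 (min d1 d2),
    qq_curve (lt_min hd1 hd2) hK fun x y hx hx' hy hy' =>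
      hlip x y hx (hx'.trans (min_le_left _ _)) hy (hy'.trans (min_le_left _ _)), ?_,
    ⟨0, ⟨le_rfl, (lt_min hd1 hd2).le⟩, ht0⟩, ?_⟩
  · rintro _ ⟨x, ⟨hx0, hx1⟩, rfl⟩
    rcases hx0.eq_or_lt with rfl | hx0
    · show psi (t * E (s * 0)) ∈ _
      rw [ht0]
      exact h0
    · obtain ⟨h1, h2⟩ := hd2' ⟨hx0, hx1.trans (min_le_right _ _)⟩
      left
      refine ⟨t * E (s * x), ⟨?_, h2⟩, h1⟩
      rw [mem_sphere_zero_iff_norm, norm_mul, ht, vlj_E_mem, one_mul]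
  · intro x hx0 hx1
    obtain ⟨h1, -⟩ := hd2' ⟨hx0, hx1.trans (min_le_right _ _)⟩
    exact ⟨x, ⟨hx0.le, hx1⟩, h1.symm⟩

private theorem vlj_arg {t : ℂ} (ht : ‖t‖ = 1) :
    Tendsto (fun z : ℂ => arg (z / t)) (𝓝 t) (𝓝 0) := by
  have ht0 : t ≠ 0 := norm_pos_iff.1 (by rw [ht]; exact one_pos)
  have h1 : ContinuousAt arg (t / t) := by
    rw [div_self ht0]
    exact continuousAt_arg (by simp)
  have h2 : ContinuousAt (fun z : ℂ => z / t) t := by fun_prop
  have h3 : ContinuousAt (fun z : ℂ => arg (z / t)) t :=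
    ContinuousAt.comp (f := fun z : ℂ => z / t) (g := arg) h1 h2
  have h4 := h3.tendsto
  rwa [div_self ht0, arg_one] at h4

private theorem vlj_E_arg {t z : ℂ} (ht : ‖t‖ = 1) (hz : ‖z‖ = 1) : t * E (arg (z / t)) = z := by
  have ht0 : t ≠ 0 := norm_pos_iff.1 (by rw [ht]; exact one_pos)
  have h4 : ‖z / t‖ = 1 := by rw [norm_div, ht, hz, div_one]
  have h5 := Complex.norm_mul_exp_arg_mul_I (z / t)
  rw [h4, ofReal_one, one_mul] at h5
  unfold E
  rw [h5, mul_div_cancel₀ _ ht0]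

private theorem vlj_nhds (h : PwJ phi F u v) {t : ℂ} (ht : t ∈ sphere (0 : ℂ) 1) :
    ∃ W ∈ 𝓝[sphere (0 : ℂ) 1] t, ∃ S : Set ℂ, QQ S ∧ S ⊆ Gam phi F u v ∧
      ∀ z ∈ W, z ∈ sphere (0 : ℂ) 1 → z ∉ F → phi z ∈ S := by
  have ht1 : ‖t‖ = 1 := mem_sphere_zero_iff_norm.1 ht
  obtain ⟨psi1, ha1, h01, he1, hn1⟩ : ∃ psi, AnalyticAt ℂ psi t ∧ psi t ∈ Gam phi F u v ∧
      (∀ᶠ x : ℝ in 𝓝[>] 0, phi (t * E (1 * x)) = psi (t * E (1 * x))) ∧ (t ∉ F → psi t = phi t) := by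
    by_cases htF : t ∈ F
    · obtain ⟨psi, h1, h2⟩ := h.right t htF
      refine ⟨psi, h1.1, ?_, h1.2.2, fun h3 => absurd htF h3⟩
      rw [h2]
      exact Or.inr (mem_iUnion₂.2 ⟨t, htF, right_mem_segment _ _ _⟩)
    · exact ⟨phi, (h.reg t ht htF).1, Or.inl ⟨t, ⟨ht, htF⟩, rfl⟩, Eventually.of_forall fun _ => rfl,
        fun _ => rfl⟩
  obtain ⟨psi2, ha2, h02, he2⟩ : ∃ psi, AnalyticAt ℂ psi t ∧ psi t ∈ Gam phi F u v ∧
      (∀ᶠ x : ℝ in 𝓝[>] 0, phi (t * E (-1 * x)) = psi (t * E (-1 * x))) := by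
    by_cases htF : t ∈ F
    · obtain ⟨psi, h1, h2⟩ := h.left t htF
      refine ⟨psi, h1.1, ?_, h1.2.2⟩
      rw [h2]
      exact Or.inr (mem_iUnion₂.2 ⟨t, htF, left_mem_segment _ _ _⟩)
    · exact ⟨phi, (h.reg t ht htF).1, Or.inl ⟨t, ⟨ht, htF⟩, rfl⟩, Eventually.of_forall fun _ => rfl⟩
  obtain ⟨d1, hd1, S1, q1, s1, m1, p1⟩ := vlj_piece ht1 (Or.inl rfl) ha1 h01 he1
  obtain ⟨d2, hd2, S2, q2, s2, m2, p2⟩ := vlj_piece ht1 (Or.inr rfl) ha2 h02 he2
  have hW : ∀ᶠ z in 𝓝 t, -d2 < arg (z / t) ∧ arg (z / t) < d1 := by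
    have h1 := vlj_arg ht1
    exact (h1.eventually (lt_mem_nhds (by linarith : -d2 < 0))).and (h1.eventually (gt_mem_nhds hd1))
  refine ⟨{z | -d2 < arg (z / t) ∧ arg (z / t) < d1}, nhdsWithin_le_nhds hW, S1 ∪ S2,
    qq_union q1 q2, union_subset s1 s2, ?_⟩
  rintro z ⟨hz1, hz2⟩ hz hzF
  have hzt := vlj_E_arg ht1 (mem_sphere_zero_iff_norm.1 hz)
  rcases lt_trichotomy (arg (z / t)) 0 with h3 | h3 | h3
  · right
    have h4 := p2 (-arg (z / t)) (by linarith) (by linarith)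
    rwa [neg_mul_neg, one_mul, hzt] at h4
  · left
    have h4 : z = t := by
      rw [h3] at hzt
      rw [← hzt]
      simp [E]
    rw [h4] at hzF ⊢
    rw [← hn1 hzF]
    exact m1
  · left
    have h4 := p1 (arg (z / t)) h3 hz2.le
    rwa [one_mul, hzt] at h4

private theorem vlj_QQ (h : PwJ phi F u v) : QQ (Gam phi F u v) := by
  obtain ⟨S, hS, hS', hS''⟩ := (isCompact_sphere (0 : ℂ) 1).induction_on
    (p := fun W => ∃ S : Set ℂ, QQ S ∧ S ⊆ Gam phi F u v ∧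
      ∀ z ∈ W, z ∈ sphere (0 : ℂ) 1 → z ∉ F → phi z ∈ S)
    ⟨∅, qq_empty, empty_subset _, fun z hz => hz.elim⟩
    (fun s t hst ⟨S, h1, h2, h3⟩ => ⟨S, h1, h2, fun z hz => h3 z (hst hz)⟩)
    (fun s t ⟨S, h1, h2, h3⟩ ⟨S', h1', h2', h3'⟩ => ⟨S ∪ S', qq_union h1 h1', union_subset h2 h2',
      fun z hz hz' hz'' => hz.elim (fun h4 => Or.inl (h3 z h4 hz' hz''))
        fun h4 => Or.inr (h3' z h4 hz' hz'')⟩)
    (fun t ht => vlj_nhds h ht)
  have h1 : Gam phi F u v = S ∪ ⋃ t ∈ F, segment ℝ (u t) (v t) := by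
    apply Subset.antisymm
    · rintro _ (⟨z, ⟨hz, hzF⟩, rfl⟩ | hl)
      · exact Or.inl (hS'' z hz hz hzF)
      · exact Or.inr hl
    · exact union_subset hS' subset_union_right
  rw [h1]
  exact qq_union hS (qq_segs F u v)

private theorem vlj_null_F : mu0 {x : UnitAddCircle | e x ∈ F} = 0 := by
  apply PsiAux.null
  exact (F.finite_toSet).preimage (f := e) (fun x _ y _ hxy => PsiAux.e_inj hxy)

private theorem vlj_e_mem (x : UnitAddCircle) : e x ∈ sphere (0 : ℂ) 1 := by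
  rw [mem_sphere_zero_iff_norm]
  exact PsiAux.norm_e' x

private theorem vlj_cont (h : PwJ phi F u v) : ContinuousOn phi (sphere 0 1 \ F) :=
  fun z hz => (h.reg z hz.1 hz.2).1.continuousAt.continuousWithinAt

theorem gam_compact (h : PwJ phi F u v) : IsCompact (Gam phi F u v) := (vlj_QQ h).1

theorem memLp_pwj (h : PwJ phi F u v) :
    MemLp (fun x : UnitAddCircle => phi (e x)) ∞ mu0 := by
  obtain ⟨R, hR⟩ := (gam_compact h).isBounded.exists_norm_le
  have h1 : ∀ᵐ x ∂mu0, x ∈ {x : UnitAddCircle | e x ∈ F}ᶜ := by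
    rw [ae_iff]
    simpa using vlj_null_F (F := F)
  have hop : IsOpen {x : UnitAddCircle | e x ∈ F}ᶜ :=
    (F.finite_toSet.isClosed.preimage PsiAux.cont_e).isOpen_compl
  have hcont : ContinuousOn (fun x : UnitAddCircle => phi (e x)) {x : UnitAddCircle | e x ∈ F}ᶜ :=
    (vlj_cont h).comp PsiAux.cont_e.continuousOn fun x hx => ⟨vlj_e_mem x, hx⟩
  have h2 : AEStronglyMeasurable (fun x : UnitAddCircle => phi (e x)) mu0 := by
    have h3 := hcont.aestronglyMeasurable (μ := mu0) hop.measurableSet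
    rwa [Measure.restrict_eq_self_of_ae_mem h1] at h3
  refine memLp_top_of_bound h2 R ?_
  filter_upwards [h1] with x hx
  exact hR _ (Or.inl ⟨e x, ⟨vlj_e_mem x, hx⟩, rfl⟩)

theorem gam_ne (h : PwJ phi F u v) : (Gam phi F u v).Nonempty := by
  by_contra hcon
  have h1 : {x : UnitAddCircle | e x ∈ F} = univ := by
    rw [eq_univ_iff_forall]
    intro x
    by_contra hx
    exact hcon ⟨phi (e x), Or.inl ⟨e x, ⟨vlj_e_mem x, hx⟩, rfl⟩⟩
  have h2 := vlj_null_F (F := F)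
  rw [h1, measure_univ] at h2
  exact one_ne_zero h2

theorem gam_vol (h : PwJ phi F u v) : ∃ A : ℝ, 0 < A ∧ ∀ eps : ℝ, 0 < eps → eps ≤ 1 →
    volume {l : ℂ | infDist l (Gam phi F u v) ≤ eps} ≤ ENNReal.ofReal (A * eps) := by
  obtain ⟨hc, A, hA, hA'⟩ := vlj_QQ h
  refine ⟨A, hA, fun eps he he1 => (measure_mono fun l hl => ?_).trans (hA' eps he he1)⟩
  obtain ⟨s, hs, hls⟩ := hc.exists_infDist_eq_dist (gam_ne h) l
  exact ⟨s, hs, by rw [← hls]; exact hl⟩

theorem gam_dense (h : PwJ phi F u v) : Dense (Gam phi F u v)ᶜ := by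
  rw [← interior_eq_empty_iff_dense_compl]
  apply Measure.interior_eq_empty_of_null (μ := volume)
  obtain ⟨A, hA, hv⟩ := gam_vol h
  have h1 : ∀ eps : ℝ, 0 < eps → eps ≤ 1 →
      volume (Gam phi F u v) ≤ ENNReal.ofReal (A * eps) := by
    intro eps he he1
    refine (measure_mono fun l hl => ?_).trans (hv eps he he1)
    rw [mem_setOf_eq, infDist_zero_of_mem hl]
    exact he.le
  have h2 : Tendsto (fun eps : ℝ => ENNReal.ofReal (A * eps)) (𝓝[>] 0) (𝓝 0) := by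
    have h3 : Tendsto (fun eps : ℝ => A * eps) (𝓝[>] 0) (𝓝 0) := by
      have h4 : Tendsto (fun eps : ℝ => A * eps) (𝓝 0) (𝓝 (A * 0)) :=
        (continuous_const.mul continuous_id).tendsto 0
      rw [mul_zero] at h4
      exact h4.mono_left nhdsWithin_le_nhds
    have h5 := ENNReal.tendsto_ofReal h3
    rwa [ENNReal.ofReal_zero] at h5
  have h6 : ∀ᶠ eps : ℝ in 𝓝[>] 0, volume (Gam phi F u v) ≤ ENNReal.ofReal (A * eps) := by
    have h7 : ∀ᶠ eps : ℝ in 𝓝[>] 0, eps ≤ 1 := nhdsWithin_le_nhds (Iic_mem_nhds one_pos)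
    filter_upwards [h7, self_mem_nhdsWithin] with eps he1 he
    exact h1 eps he he1
  exact le_antisymm (ge_of_tendsto h2 h6) bot_le

private theorem vlj_side_or {psi psi' : ℂ → ℂ} {t : ℂ} (ht : ‖t‖ = 1) (h : SideJ phi psi t 1)
    (h' : SideJ phi psi' t (-1)) :
    ∀ᶠ z in 𝓝[≠] t, z ∈ sphere (0 : ℂ) 1 → phi z = psi z ∨ phi z = psi' z := by
  have hc := vlj_arg ht
  have h1 := h.2.2
  have h2 := h'.2.2
  rw [eventually_nhdsWithin_iff] at h1 h2
  have h3 : Tendsto (fun z : ℂ => -arg (z / t)) (𝓝 t) (𝓝 0) := by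
    have := hc.neg
    rwa [neg_zero] at this
  filter_upwards [nhdsWithin_le_nhds (hc.eventually h1), nhdsWithin_le_nhds (h3.eventually h2),
    self_mem_nhdsWithin] with z hz1 hz2 hzt' hz
  have hzt := vlj_E_arg ht (mem_sphere_zero_iff_norm.1 hz)
  rcases lt_trichotomy (arg (z / t)) 0 with h4 | h4 | h4
  · right
    have h5 := hz2 (show (0 : ℝ) < -arg (z / t) by linarith)
    rwa [neg_mul_neg, one_mul, hzt] at h5
  · exfalso
    apply hzt'
    rw [h4] at hzt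
    show z = t
    rw [← hzt]
    simp [E]
  · left
    have h5 := hz1 h4
    rwa [one_mul, hzt] at h5

theorem pwj_level (h : PwJ phi F u v) (b : ℂ) :
    {z : ℂ | z ∈ sphere (0 : ℂ) 1 ∧ z ∉ F ∧ phi z = b}.Finite := by
  by_contra hinf
  obtain ⟨t, ht, hacc⟩ := Set.Infinite.exists_accPt_of_subset_isCompact hinf
    (isCompact_sphere (0 : ℂ) 1) (fun z hz => hz.1)
  rw [accPt_iff_frequently_nhdsNE] at hacc
  apply hacc
  by_cases htF : t ∈ F
  · obtain ⟨psi, h1, -⟩ := h.right t htF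
    obtain ⟨psi', h2, -⟩ := h.left t htF
    have h3 := vlj_side_or (mem_sphere_zero_iff_norm.1 ht) h1 h2
    filter_upwards [h3, Pool.Agent.TBirP.not_freq (b := b) h1.1 h1.2.1,
      Pool.Agent.TBirP.not_freq (b := b) h2.1 h2.2.1] with z z1 z2 z3 hz
    rcases z1 hz.1 with h4 | h4
    · exact z2 (h4.symm.trans hz.2.2)
    · exact z3 (h4.symm.trans hz.2.2)
  · obtain ⟨h1, h2⟩ := h.reg t ht htF
    have h3 : ¬ ∀ᶠ z in 𝓝 t, phi z = phi t := by
      intro h4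
      apply h2
      have h5 : phi =ᶠ[𝓝 t] fun _ => phi t := h4
      rw [h5.deriv_eq, deriv_const]
    filter_upwards [Pool.Agent.TBirP.not_freq (b := b) h1 h3] with z z1 hz
    exact z1 hz.2.2

theorem pwj_null (h : PwJ phi F u v) (b : ℂ) : mu0 {x : UnitAddCircle | phi (e x) = b} = 0 := by
  have h1 := (pwj_level h b).preimage (f := e) (fun x _ y _ hxy => PsiAux.e_inj hxy)
  refine measure_mono_null (fun x hx => ?_) (measure_union_null (PsiAux.null h1) (vlj_null_F (F := F)))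
  by_cases hxF : e x ∈ F
  · exact Or.inr hxF
  · exact Or.inl ⟨vlj_e_mem x, hxF, hx⟩

end Pool.Agent.TBirJ
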