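import Pool.Agent.TBirJ.Unj
import Pool.Agent.TBirJ.Vlj
import Pool.Agent.TBirJ.Ixb
import Pool.Agent.TBirC.Wi

/-!
# Winding numbers and indices

`wj_ix`: `kap t = b - a`, `g = h - sum kap t * ch r t` extends continuously (`ext_cont`), `isUnit_expJ`, `mf_congr`. `exists_wj`: `normal_form` for `phi - l`, `kap t = Complex.log ((v t - l) / (u t - l))`: `l` is not on the segment, so the quotient is in the slit plane and
`|im (kap t)| < pi`; `h = g + sum kap t * ch r t`. `exists_iq`: the points `t j` of the circle without `F` with `phi = q` are finitely many (`pwj_level`), `psi = (phi - q) / prod (z - t j)` extends continuously without zeros over the `t j` (value `phi' (t j) / prod_(i ≠ j) (t j - t i)`,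
see `exists_inq` in TBirP/Inx.lean and `wiU` in TBirC/Wi.lean), the one-sided limits at `t` in `F` are not zero (`u t ≠ q`, `v t ≠ q`), their quotient is `(v t - q) / (u t - q)`: in the slit plane. `normal_form`, `isUnit_expJ`. `exists_sm`: `exists_iq` and `Sm.of_iq`; a point `z'` of `F` where `phi` is analytic has
`phi z' = u z'`, on the segment.
-/

set_option autoImplicit false

open MeasureTheory Complex Set Filter Topology Metric AddCircle
open scoped ComplexConjugate InnerProductSpace ENNReal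

namespace Pool.Agent.TBirJ

open Pool.Agent.TBir Pool.Agent.TBirG Pool.Agent.TBirC
open Pool.Agent.TBirP (E qT)

variable {phi : ℂ → ℂ} {F : Finset ℂ} {u v : ℂ → ℂ} {l q z : ℂ} {n : ℤ}

namespace WjA

theorem norm_E (x : ℝ) : ‖E x‖ = 1 := by
  unfold E
  exact Complex.norm_exp_ofReal_mul_I x

theorem E_zero : E 0 = 1 := by
  unfold E
  rw [ofReal_zero, zero_mul, exp_zero]

theorem E_cont : Continuous E := by
  unfold E
  fun_prop

theorem tend_E (t : ℂ) (s : ℝ) : Tendsto (fun x : ℝ => t * E (s * x)) (𝓝[>] 0) (𝓝 t) := by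
  have h1 : Continuous fun x : ℝ => t * E (s * x) := by
    have := E_cont
    fun_prop
  have h2 := h1.tendsto 0
  rw [mul_zero, E_zero, mul_one] at h2
  exact h2.mono_left nhdsWithin_le_nhds

theorem tend_R (t : ℂ) : Tendsto (fun x : ℝ => t * E x) (𝓝[>] 0) (𝓝 t) := by
  have h1 := tend_E t 1
  simpa only [one_mul] using h1

theorem tend_L (t : ℂ) : Tendsto (fun x : ℝ => t * E (-x)) (𝓝[>] 0) (𝓝 t) := by
  have h1 := tend_E t (-1)
  simpa only [neg_one_mul] using h1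

theorem mem_sph {t : ℂ} (ht : ‖t‖ = 1) (x : ℝ) : t * E x ∈ sphere (0 : ℂ) 1 := by
  rw [mem_sphere_zero_iff_norm, norm_mul, norm_E, ht, one_mul]

theorem he (x : UnitAddCircle) : e x ∈ sphere (0 : ℂ) 1 := by
  rw [mem_sphere_zero_iff_norm]
  exact PsiAux.norm_e' x

theorem ae_notin (S : Finset ℂ) : ∀ᵐ x ∂mu0, e x ∉ S := by
  have hnull : mu0 {x : UnitAddCircle | e x ∈ S} = 0 := by
    apply wi_null
    exact S.finite_toSet.preimage fun x _ y _ hxy => wi_e_inj hxy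
  rw [ae_iff]
  simpa using hnull

theorem ne_seg {l a b : ℂ} (h : l ∉ segment ℝ a b) : a - l ≠ 0 ∧ b - l ≠ 0 := by
  refine ⟨fun h1 => h ?_, fun h1 => h ?_⟩
  · rw [← sub_eq_zero.1 h1]
    exact left_mem_segment ℝ a b
  · rw [← sub_eq_zero.1 h1]
    exact right_mem_segment ℝ a b

theorem log_im {l a b : ℂ} (h : l ∉ segment ℝ a b) :
    |(Complex.log ((b - l) / (a - l))).im| < Real.pi := by
  obtain ⟨h1, h2⟩ := ne_seg h
  rw [Complex.log_im, abs_lt]
  refine ⟨Complex.neg_pi_lt_arg _, lt_of_le_of_ne (Complex.arg_le_pi _) fun h3 => h ?_⟩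
  rw [Complex.arg_eq_pi_iff] at h3
  obtain ⟨h4, h5⟩ := h3
  obtain ⟨s, hs⟩ : ∃ s : ℝ, s = -((b - l) / (a - l)).re := ⟨_, rfl⟩
  have hs0 : 0 < s := by rw [hs]; linarith
  have h6 : (b - l) / (a - l) = ((-s : ℝ) : ℂ) := by
    apply Complex.ext
    · rw [hs, neg_neg, ofReal_re]
    · rw [h5, ofReal_im]
  rw [div_eq_iff h1] at h6
  have hs1 : (1 + s : ℂ) ≠ 0 := by
    have : ((1 + s : ℝ) : ℂ) ≠ 0 := ofReal_ne_zero.2 (by positivity)
    rwa [ofReal_add, ofReal_one] at this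
  refine ⟨s / (1 + s), 1 / (1 + s), by positivity, by positivity, by field_simp; ring, ?_⟩
  have h7 : b + s * a = (1 + s) * l := by
    push_cast at h6
    linear_combination h6
  rw [real_smul, real_smul]
  push_cast
  field_simp
  linear_combination h7

/-- The one-sided limits of the sum of the jumps. -/
theorem sum_lim (hF : ∀ t ∈ F, ‖t‖ = 1) {r : ℝ} (hr : Rad F r) (kap : ℂ → ℂ) {t0 : ℂ}
    (ht0 : t0 ∈ F) : ∃ c : ℂ,
    Tendsto (fun x : ℝ => ∑ t ∈ F, kap t * (ch r t (t0 * E (-x)) : ℂ)) (𝓝[>] 0)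
      (𝓝 (c - kap t0 / 2)) ∧
    Tendsto (fun x : ℝ => ∑ t ∈ F, kap t * (ch r t (t0 * E x) : ℂ)) (𝓝[>] 0)
      (𝓝 (c + kap t0 / 2)) := by
  classical
  have h1 : ∀ (f : ℝ → ℝ), Tendsto (fun x : ℝ => t0 * E (f x)) (𝓝[>] 0) (𝓝 t0) →
      Tendsto (fun x : ℝ => ∑ t ∈ F.erase t0, kap t * (ch r t (t0 * E (f x)) : ℂ)) (𝓝[>] 0)
        (𝓝 (∑ t ∈ F.erase t0, kap t * (ch r t t0 : ℂ))) := by
    intro f hf
    refine tendsto_finsetSum _ fun t ht => ?_
    have htF : t ∈ F := Finset.mem_of_mem_erase ht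
    have htt : t ≠ t0 := Finset.ne_of_mem_erase ht
    have h2 := ch_cont hr.1 hr.2.1 (hF t htF) t0
      ⟨mem_sphere_zero_iff_norm.2 (hF t0 ht0), fun h3 => htt (mem_singleton_iff.1 h3).symm⟩
    have h3 : Tendsto (fun x : ℝ => t0 * E (f x)) (𝓝[>] 0) (𝓝[sphere 0 1 \ {t}] t0) := by
      refine tendsto_nhdsWithin_iff.2 ⟨hf, ?_⟩
      filter_upwards [hf.eventually_ne htt.symm] with x hx
      exact ⟨mem_sph (hF t0 ht0) _, hx⟩
    have h4 := h2.tendsto.comp h3
    exact ((continuous_ofReal.tendsto _).comp h4).const_mul (kap t)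
  refine ⟨∑ t ∈ F.erase t0, kap t * (ch r t t0 : ℂ), ?_, ?_⟩
  · have h2 := h1 (fun x => -x) (tend_L t0)
    have h3 := ((continuous_ofReal.tendsto _).comp (ch_left hr.1 (hF t0 ht0))).const_mul (kap t0)
    have h4 := h3.add h2
    have h5 : kap t0 * ((-(1 / 2) : ℝ) : ℂ) + ∑ t ∈ F.erase t0, kap t * (ch r t t0 : ℂ) =
        (∑ t ∈ F.erase t0, kap t * (ch r t t0 : ℂ)) - kap t0 / 2 := by
      push_cast
      ring
    rw [h5] at h4
    refine h4.congr fun x => ?_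
    exact Finset.add_sum_erase F (fun t => kap t * (ch r t (t0 * E (-x)) : ℂ)) ht0
  · have h2 := h1 (fun x => x) (tend_R t0)
    have h3 := ((continuous_ofReal.tendsto _).comp (ch_right hr.1 (hF t0 ht0))).const_mul (kap t0)
    have h4 := h3.add h2
    have h5 : kap t0 * ((1 / 2 : ℝ) : ℂ) + ∑ t ∈ F.erase t0, kap t * (ch r t t0 : ℂ) =
        (∑ t ∈ F.erase t0, kap t * (ch r t t0 : ℂ)) + kap t0 / 2 := by
      push_cast
      ring
    rw [h5] at h4
    refine h4.congr fun x => ?_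
    exact Finset.add_sum_erase F (fun t => kap t * (ch r t (t0 * E x) : ℂ)) ht0

theorem sum_cont (hF : ∀ t ∈ F, ‖t‖ = 1) {r : ℝ} (hr : Rad F r) (kap : ℂ → ℂ) :
    ContinuousOn (fun z : ℂ => ∑ t ∈ F, kap t * (ch r t z : ℂ)) (sphere 0 1 \ F) := by
  refine continuousOn_finsetSum _ fun t ht => ?_
  refine ContinuousOn.mul continuousOn_const ?_
  refine continuous_ofReal.comp_continuousOn ?_
  refine (ch_cont hr.1 hr.2.1 (hF t ht)).mono fun z hz => ⟨hz.1, fun h1 => hz.2 ?_⟩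
  rw [mem_singleton_iff.1 h1]
  exact ht

theorem wi_cont' {q : ℂ} {Z : Finset ℂ} {S : Set ℂ} (hc : ContinuousOn phi S)
    (hZ : ∀ z ∈ Z, DifferentiableAt ℂ phi z ∧ phi z = q) :
    ContinuousOn (wiU phi q Z) S := by
  classical
  intro z hz
  by_cases h : z ∈ Z
  · have h1 : wiU phi q Z =ᶠ[𝓝 z] fun w => dslope phi z w / ∏ i ∈ Z.erase z, (w - i) := by
      have h2 : ((Z.erase z : Finset ℂ) : Set ℂ)ᶜ ∈ 𝓝 z :=
        (Z.erase z).finite_toSet.isClosed.isOpen_compl.mem_nhds fun h1 =>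
          (Finset.mem_erase.1 (Finset.mem_coe.1 h1)).1 rfl
      filter_upwards [h2] with w hw
      have hw' : w ∉ Z.erase z := fun h3 => hw (Finset.mem_coe.2 h3)
      by_cases hwz : w = z
      · rw [hwz, dslope_same]
        unfold wiU
        rw [if_pos h]
      · have h3 : w ∉ Z := fun h3 => hw' (Finset.mem_erase.2 ⟨hwz, h3⟩)
        unfold wiU
        rw [if_neg h3, dslope_of_ne _ hwz, slope_def_field, (hZ z h).2,
          ← Finset.mul_prod_erase Z _ h, div_div]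
    refine (ContinuousAt.congr ?_ h1.symm).continuousWithinAt
    refine (continuousAt_dslope_same.2 (hZ z h).1).div ?_ (wi_prod_ne fun h1 => ?_)
    · fun_prop
    · exact (Finset.mem_erase.1 h1).1 rfl
  · have h1 : wiU phi q Z =ᶠ[𝓝 z] fun w => (phi w - q) / ∏ i ∈ Z, (w - i) := by
      have h2 : ((Z : Finset ℂ) : Set ℂ)ᶜ ∈ 𝓝 z :=
        Z.finite_toSet.isClosed.isOpen_compl.mem_nhds h
      filter_upwards [h2] with w hw
      unfold wiU
      rw [if_neg fun h3 => hw (Finset.mem_coe.2 h3)]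
    have h3 : ContinuousWithinAt (fun w => (phi w - q) / ∏ i ∈ Z, (w - i)) S z := by
      refine ((hc z hz).sub continuousWithinAt_const).div ?_ (wi_prod_ne h)
      fun_prop
    exact h3.congr_of_eventuallyEq (h1.filter_mono nhdsWithin_le_nhds) h1.eq_of_nhds

/-- The one-sided limits of the quotient. -/
theorem wi_lim {q a : ℂ} {Z : Finset ℂ} {t : ℂ} (ht : t ∉ Z) {f : ℝ → ℂ}
    (hf : Tendsto f (𝓝[>] 0) (𝓝 t)) (hp : Tendsto (fun x => phi (f x)) (𝓝[>] 0) (𝓝 a)) :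
    Tendsto (fun x => wiU phi q Z (f x)) (𝓝[>] 0) (𝓝 ((a - q) / ∏ i ∈ Z, (t - i))) := by
  classical
  have h1 : Tendsto (fun x => ∏ i ∈ Z, (f x - i)) (𝓝[>] 0) (𝓝 (∏ i ∈ Z, (t - i))) :=
    tendsto_finsetProd _ fun i _ => hf.sub_const i
  have h2 := (hp.sub_const q).div h1 (wi_prod_ne ht)
  have h3 : ((Z : Finset ℂ) : Set ℂ)ᶜ ∈ 𝓝 t :=
    Z.finite_toSet.isClosed.isOpen_compl.mem_nhds ht
  refine h2.congr' ?_
  filter_upwards [hf h3] with x hx
  unfold wiU
  rw [if_neg fun h4 => hx (Finset.mem_coe.2 h4)]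
  rfl

end WjA

open WjA

theorem wj_ix (h : PwJ phi F u v) (hW : Wj phi F l n) : Ix phi l n := by
  classical
  obtain ⟨H, hH, hlim, hphi⟩ := hW
  choose! a b ha hb hab using hlim
  obtain ⟨r, hr⟩ := exists_rad h.circ
  obtain ⟨kap, hkap⟩ : ∃ kap : ℂ → ℂ, kap = fun t => b t - a t := ⟨_, rfl⟩
  obtain ⟨g, hg, hgG, -⟩ := ext_cont h.circ
    (G := fun z => H z - ∑ t ∈ F, kap t * (ch r t z : ℂ)) (hH.sub (sum_cont h.circ hr kap)) (by
      intro t ht
      obtain ⟨c, hc1, hc2⟩ := sum_lim h.circ hr kap ht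
      refine ⟨(a t + b t) / 2 - c, ?_, ?_⟩
      · have h1 := (ha t ht).sub hc1
        have h2 : a t - (c - kap t / 2) = (a t + b t) / 2 - c := by
          rw [hkap]
          ring
        rw [h2] at h1
        exact h1
      · have h1 := (hb t ht).sub hc2
        have h2 : b t - (c + kap t / 2) = (a t + b t) / 2 - c := by
          rw [hkap]
          ring
        rw [h2] at h1
        exact h1)
  have h1 := isUnit_expJ h.circ hr hg (kap := kap) fun t ht => by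
    rw [hkap]
    exact hab t ht
  unfold Ix
  rw [mf_congr (b := fun x => exp (g (e x) + ∑ t ∈ F, kap t * (ch r t (e x) : ℂ))) ?_]
  · exact h1
  · filter_upwards [ae_notin F] with x hx
    rw [hphi (e x) (he x) hx, hgG (e x) (he x) hx, ← mul_assoc, ← zpow_add₀ (PsiAux.e_ne x),
      neg_add_cancel, zpow_zero, one_mul, sub_add_cancel]

theorem exists_wj (h : PwJ phi F u v) (hl : l ∉ Gam phi F u v) : ∃ n, Wj phi F l n := by
  classical
  obtain ⟨r, hr⟩ := exists_rad h.circ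
  have hseg : ∀ t ∈ F, l ∉ segment ℝ (u t) (v t) := fun t ht h1 =>
    hl (Or.inr (mem_iUnion₂.2 ⟨t, ht, h1⟩))
  have hne : ∀ z ∈ sphere (0 : ℂ) 1, z ∉ F → phi z - l ≠ 0 := fun z hz hzF h1 =>
    hl (Or.inl ⟨z, ⟨hz, hzF⟩, sub_eq_zero.1 h1⟩)
  obtain ⟨kap, hkap⟩ : ∃ kap : ℂ → ℂ, kap = fun t => Complex.log ((v t - l) / (u t - l)) :=
    ⟨_, rfl⟩
  obtain ⟨n, g, hg, hng⟩ := normal_form h.circ hr (psi := fun z => phi z - l)
    (h.cont.sub continuousOn_const) hne (a := fun t => u t - l) (b := fun t => v t - l) (kap := kap)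
    (fun t ht => (h.lim_left ht).sub_const l) (fun t ht => (h.lim_right ht).sub_const l)
    (fun t ht => (ne_seg (hseg t ht)).1) (fun t ht => (ne_seg (hseg t ht)).2)
    (fun t ht => by
      rw [hkap]
      exact Complex.exp_log (div_ne_zero (ne_seg (hseg t ht)).2 (ne_seg (hseg t ht)).1))
  refine ⟨n, fun z => g z + ∑ t ∈ F, kap t * (ch r t z : ℂ),
    (hg.mono sdiff_subset).add (sum_cont h.circ hr kap), fun t ht => ?_, hng⟩
  obtain ⟨c, hc1, hc2⟩ := sum_lim h.circ hr kap ht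
  have hgt : ∀ f : ℝ → ℝ, Tendsto (fun x : ℝ => t * E (f x)) (𝓝[>] 0) (𝓝 t) →
      Tendsto (fun x : ℝ => g (t * E (f x))) (𝓝[>] 0) (𝓝 (g t)) := by
    intro f hf
    refine (hg t (mem_sphere_zero_iff_norm.2 (h.circ t ht))).tendsto.comp
      (tendsto_nhdsWithin_iff.2 ⟨hf, ?_⟩)
    exact Filter.Eventually.of_forall fun x => mem_sph (h.circ t ht) _
  refine ⟨g t + (c - kap t / 2), g t + (c + kap t / 2), (hgt (fun x => -x) (tend_L t)).add hc1,
    (hgt (fun x => x) (tend_R t)).add hc2, ?_⟩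
  have h1 : g t + (c + kap t / 2) - (g t + (c - kap t / 2)) = kap t := by ring
  rw [h1, hkap]
  exact log_im (hseg t ht)

theorem exists_iq (h : PwJ phi F u v) (hq : ∀ t ∈ F, q ∉ segment ℝ (u t) (v t)) :
    ∃ x, Iq phi q x := by
  classical
  obtain ⟨r, hr⟩ := exists_rad h.circ
  have hfin := pwj_level h q
  obtain ⟨Z, hZdef⟩ : ∃ Z : Finset ℂ, Z = hfin.toFinset := ⟨_, rfl⟩
  have hZ : ∀ z, z ∈ Z ↔ z ∈ sphere (0 : ℂ) 1 ∧ z ∉ F ∧ phi z = q := fun z => by
    rw [hZdef, Set.Finite.mem_toFinset]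
    rfl
  have hreg : ∀ z ∈ Z, AnalyticAt ℂ phi z ∧ deriv phi z ≠ 0 := fun z hz =>
    h.reg z ((hZ z).1 hz).1 ((hZ z).1 hz).2.1
  have hcont : ContinuousOn (wiU phi q Z) (sphere 0 1 \ F) :=
    wi_cont' h.cont fun z hz => ⟨(hreg z hz).1.differentiableAt, ((hZ z).1 hz).2.2⟩
  have hne : ∀ z ∈ sphere (0 : ℂ) 1, z ∉ F → wiU phi q Z z ≠ 0 := fun z hz hzF =>
    wi_ne (fun w hw => (hreg w hw).2) fun h1 h2 => h1 ((hZ _).2 ⟨hz, hzF, h2⟩)
  have htZ : ∀ t ∈ F, t ∉ Z := fun t ht h1 => ((hZ t).1 h1).2.1 ht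
  have hseg := fun t ht => ne_seg (hq t ht)
  obtain ⟨kap, hkap⟩ : ∃ kap : ℂ → ℂ, kap = fun t => Complex.log ((v t - q) / (u t - q)) :=
    ⟨_, rfl⟩
  obtain ⟨n, g, hg, hng⟩ := normal_form h.circ hr (psi := wiU phi q Z) hcont hne
    (a := fun t => (u t - q) / ∏ i ∈ Z, (t - i)) (b := fun t => (v t - q) / ∏ i ∈ Z, (t - i))
    (kap := kap) (fun t ht => wi_lim (htZ t ht) (tend_L t) (h.lim_left ht))
    (fun t ht => wi_lim (htZ t ht) (tend_R t) (h.lim_right ht))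
    (fun t ht => div_ne_zero (hseg t ht).1 (wi_prod_ne (htZ t ht)))
    (fun t ht => div_ne_zero (hseg t ht).2 (wi_prod_ne (htZ t ht)))
    (fun t ht => by
      rw [hkap, div_div_div_cancel_right₀ (wi_prod_ne (htZ t ht))]
      exact Complex.exp_log (div_ne_zero (hseg t ht).2 (hseg t ht).1))
  obtain ⟨t, ht⟩ : ∃ t : Fin Z.card → ℂ, t = fun j => (Z.equivFin.symm j : ℂ) := ⟨_, rfl⟩
  have hinj : Function.Injective t := fun i j hij => by
    rw [ht] at hij
    exact Z.equivFin.symm.injective (Subtype.ext hij)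
  have htm : ∀ j, t j ∈ Z := fun j => by
    rw [ht]
    exact (Z.equivFin.symm j).2
  have hprod : ∀ w : ℂ, ∏ j, (w - t j) = ∏ i ∈ Z, (w - i) := fun w => by
    rw [ht, ← Finset.prod_coe_sort Z fun i => w - i]
    exact Equiv.prod_comp Z.equivFin.symm fun i => w - (i : ℂ)
  refine ⟨n, Z.card, t, hinj, fun j => ⟨?_, (hreg _ (htm j)).1, ((hZ _).1 (htm j)).2.2,
    (hreg _ (htm j)).2⟩, ?_⟩
  · rw [← mem_sphere_zero_iff_norm]
    exact ((hZ _).1 (htm j)).1
  have h1 := isUnit_expJ h.circ hr hg (kap := kap) fun t ht => by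
    rw [hkap]
    exact log_im (hq t ht)
  rw [mf_congr (b := fun x => exp (g (e x) + ∑ t ∈ F, kap t * (ch r t (e x) : ℂ))) ?_]
  · exact h1
  · filter_upwards [ae_notin F, ae_notin Z] with x hx hx2
    have h2 := hng (e x) (he x) hx
    unfold wiU at h2
    rw [if_neg hx2] at h2
    rw [hprod, h2, ← mul_assoc, ← zpow_add₀ (PsiAux.e_ne x), neg_add_cancel, zpow_zero, one_mul]

theorem exists_sm (h : PwJ phi F u v) (hz : ‖z‖ = 1) (hzF : z ∉ F)
    (hs : ∀ t ∈ F, phi z ∉ segment ℝ (u t) (v t))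
    (hu : ∀ z' : ℂ, ‖z'‖ = 1 → z' ∉ F → phi z' = phi z → z' = z) : ∃ x, Sm phi z x := by
  obtain ⟨x, hx⟩ := exists_iq h hs
  refine ⟨x, Sm.of_iq (memLp_pwj h) hx hz (h.reg z (mem_sphere_zero_iff_norm.2 hz) hzF).1 rfl
    fun z' hz' ha hq => ?_⟩
  by_cases hF' : z' ∈ F
  · exfalso
    apply hs z' hF'
    have h1 : Tendsto (fun x : ℝ => phi (z' * E (-x))) (𝓝[>] 0) (𝓝 (phi z')) :=
      ha.continuousAt.tendsto.comp (tend_L z')
    rw [← hq, tendsto_nhds_unique h1 (h.lim_left hF')]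
    exact left_mem_segment ℝ _ _
  · exact hu z' hz' hF' hq

end Pool.Agent.TBirJ
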