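import Pool.Agent.TBirJ.Lpj
import Pool.Agent.TBirJ.Kpj
import Pool.Agent.TBirJ.Wjj

/-!
# Growth of the resolvent

`d = infDist l Gam`. Normal form (`Wj`, `ext_cont`): `phi z - l = z ^ n * exp (g z + sum kap t * ch r t z)`, `kap t` = jump. `|re (g + sum)| = |log |phi - l|| ≤ log (C / d)`, so `|re g| ≤ C log (C / d)` (`kap_bd`); the oscillation of `im g` is bounded by a constant
(`angJ`, `|im kap| < pi`), subtract a multiple of `2 pi I` so that `|im g| ≤ C`; `g ∘ E` is Lipschitz with the constant `C / d ^ 2` (`lip_logJ`, and `|kap| ≤ C / d`, `ch r t ∘ E` is Lipschitz with constant `1 / (2 r)` off `t`; `g` is continuous, so the estimate holds across the points of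
`E ⁻¹ F`). `poi` (TBirP/Poi.lean) with `δ = c d ^ k`: `g = p + m + s`, `‖s‖ ≤ c d / 8`, `|re p|, |re m| ≤ C log (C / d)`. `|im (s + sum kap t * ch)| ≤ c d / 8 + (pi - c d) / 2`, so `exp (s + sum)` has real part `≥ c' d ^ N`: `coer`. The operator is
`T (exp m) * TM (mf (exp (s + sum))) * T (fourier n * exp p)`, each factor is bounded below by a power of `d` (see `lb_exp` in TBirP/LbP.lean).
-/

set_option autoImplicit false

open MeasureTheory Complex Set Filter Topology Metric AddCircle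
open scoped ComplexConjugate InnerProductSpace ENNReal

namespace Pool.Agent.TBirJ

open Pool.Agent.TBir Pool.Agent.TBirG Pool.Agent.TBirC
open Pool.Agent.TBirP (E qT)

variable {phi : ℂ → ℂ} {F : Finset ℂ} {u v : ℂ → ℂ}

private theorem gw_E_cont : Continuous E := by
  unfold E
  fun_prop

private theorem gw_E_mem (x : ℝ) : E x ∈ sphere (0 : ℂ) 1 := Pool.Agent.TBirP.lg_E_mem x

private theorem gw_E_add (x y : ℝ) : E (x + y) = E x * E y := by
  unfold E
  rw [← Complex.exp_add]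
  congr 1
  push_cast
  ring

private theorem gw_E_int (k : ℤ) : E (2 * Real.pi * k) = 1 := by
  unfold E
  rw [Complex.exp_eq_one_iff]
  exact ⟨k, by push_cast; ring⟩

private theorem gw_E_inj {x s : ℝ} (h : E s = E x) (hs : |s - x| < 2 * Real.pi) : s = x := by
  unfold E at h
  obtain ⟨n, hn⟩ := Complex.exp_eq_exp_iff_exists_int.1 h
  have h1 : s = x + n * (2 * Real.pi) := by
    have h2 := congrArg Complex.im hn
    simpa using h2
  have h3 : s - x = n * (2 * Real.pi) := by linarith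
  rw [h3, abs_mul, abs_of_pos (by positivity : 0 < 2 * Real.pi)] at hs
  have h4 : |(n : ℝ)| < 1 := by
    by_contra hcon
    push Not at hcon
    have := mul_le_mul_of_nonneg_right hcon (by positivity : 0 ≤ 2 * Real.pi)
    linarith
  have h5 : n = 0 := by
    have h6 : |n| < 1 := by exact_mod_cast h4
    exact Int.abs_lt_one_iff.1 h6
  rw [h5] at h1
  simpa using h1

/-- the points over `F` are isolated -/
private theorem gw_isol (F : Finset ℂ) (x : ℝ) : ∃ δ > 0, ∀ s, |s - x| < δ → s ≠ x → E s ∉ F := by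
  have h1 : ∀ t ∈ F, ∀ᶠ s in 𝓝[≠] x, E s ≠ t := by
    intro t _
    by_cases ht : E x = t
    · have h2 : ∀ᶠ s in 𝓝 x, |s - x| < 2 * Real.pi := by
        have := Metric.ball_mem_nhds x (by positivity : 0 < 2 * Real.pi)
        filter_upwards [this] with s hs
        rwa [mem_ball, Real.dist_eq] at hs
      filter_upwards [nhdsWithin_le_nhds h2, self_mem_nhdsWithin] with s hs hne hEs
      exact hne (gw_E_inj (hEs.trans ht.symm) hs)
    · exact nhdsWithin_le_nhds (gw_E_cont.continuousAt.eventually_ne ht)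
  have h2 : ∀ᶠ s in 𝓝[≠] x, E s ∉ F := by
    have h3 := (Finset.eventually_all F (l := 𝓝[≠] x)).2 h1
    filter_upwards [h3] with s hs hF
    exact hs _ hF rfl
  rw [eventually_nhdsWithin_iff, Metric.eventually_nhds_iff] at h2
  obtain ⟨δ, hδ, h⟩ := h2
  exact ⟨δ, hδ, fun s hs hne => h (by rwa [Real.dist_eq]) hne⟩

private theorem gw_dense {f : ℝ → ℝ} (hf : Continuous f) {M : ℝ} (h : ∀ s, E s ∉ F → f s ≤ M)
    (s : ℝ) : f s ≤ M := by
  obtain ⟨δ, hδ, hi⟩ := gw_isol F s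
  have h1 : Tendsto f (𝓝[>] s) (𝓝 (f s)) := hf.continuousAt.mono_left nhdsWithin_le_nhds
  refine le_of_tendsto h1 ?_
  have h2 : ∀ᶠ y in 𝓝[>] s, y ∈ Ioo s (s + δ) := Ioo_mem_nhdsGT (by linarith)
  filter_upwards [h2] with y hy
  apply h
  apply hi y
  · rw [abs_of_pos (by linarith [hy.1])]
    linarith [hy.2]
  · exact hy.1.ne'

private theorem gw_lip {f : ℝ → ℂ} (hf : Continuous f) {L : ℝ}
    (h : ∀ x y, x ≤ y → (∀ s ∈ Icc x y, E s ∉ F) → ‖f x - f y‖ ≤ L * |x - y|) (x y : ℝ)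
    (hxy : x ≤ y) : ‖f x - f y‖ ≤ L * (y - x) := by
  refine Pool.Agent.TBirP.interval_ind (R := fun x y => ‖f x - f y‖ ≤ L * (y - x)) ?_ ?_ ?_ x y hxy
  · intro a b c _ _ h1 h2
    have h3 := norm_add_le (f a - f b) (f b - f c)
    rw [sub_add_sub_cancel] at h3
    have : L * (c - a) = L * (b - a) + L * (c - b) := by ring
    linarith
  · intro x
    obtain ⟨δ, hδ, hi⟩ := gw_isol F x
    refine ⟨δ / 2, by positivity, fun y hxy hy => ?_⟩
    rcases hxy.eq_or_lt with rfl | hlt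
    · simp
    · have h1 : Tendsto (fun s => ‖f s - f y‖) (𝓝[>] x) (𝓝 ‖f x - f y‖) :=
        ((hf.sub continuous_const).norm.continuousAt).mono_left nhdsWithin_le_nhds
      have h2 : Tendsto (fun s => L * (y - s)) (𝓝[>] x) (𝓝 (L * (y - x))) := by
        have : Continuous fun s : ℝ => L * (y - s) := by fun_prop
        exact this.continuousAt.mono_left nhdsWithin_le_nhds
      refine le_of_tendsto_of_tendsto h1 h2 ?_
      have h3 : ∀ᶠ s in 𝓝[>] x, s ∈ Ioo x y := Ioo_mem_nhdsGT hlt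
      filter_upwards [h3] with s hs
      have h4 := h s y hs.2.le (fun w hw => by
        apply hi w
        · rw [abs_of_pos (by linarith [hw.1, hs.1])]
          linarith [hw.2]
        · linarith [hw.1, hs.1] )
      rwa [abs_sub_comm, abs_of_pos (by linarith [hs.2])] at h4
  · intro x
    obtain ⟨δ, hδ, hi⟩ := gw_isol F x
    refine ⟨δ / 2, by positivity, fun y hxy hy => ?_⟩
    rcases hy.eq_or_lt with rfl | hlt
    · simp
    · have h1 : Tendsto (fun s => ‖f y - f s‖) (𝓝[<] x) (𝓝 ‖f y - f x‖) :=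
        ((continuous_const.sub hf).norm.continuousAt).mono_left nhdsWithin_le_nhds
      have h2 : Tendsto (fun s => L * (s - y)) (𝓝[<] x) (𝓝 (L * (x - y))) := by
        have : Continuous fun s : ℝ => L * (s - y) := by fun_prop
        exact this.continuousAt.mono_left nhdsWithin_le_nhds
      refine le_of_tendsto_of_tendsto h1 h2 ?_
      have h3 : ∀ᶠ s in 𝓝[<] x, s ∈ Ioo y x := Ioo_mem_nhdsLT hlt
      filter_upwards [h3] with s hs
      have h4 := h y s hs.1.le (fun w hw => by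
        apply hi w
        · rw [abs_sub_comm, abs_of_pos (by linarith [hw.2, hs.2])]
          linarith [hw.1]
        · linarith [hw.2, hs.2] )
      rwa [abs_sub_comm, abs_of_pos (by linarith [hs.1])] at h4

/-- `ch r t` on an interval of length `2 pi` which begins at `t` -/
private theorem gw_ch_eq {r t : ℝ} (hr : 0 < r) (hr' : r < Real.pi) {s : ℝ} (hs : 0 < s)
    (hs' : s < 2 * Real.pi) : ch r (E t) (E (t + s)) =
      1 / 2 * max 0 (1 - s / r) - 1 / 2 * max 0 (1 - (2 * Real.pi - s) / r) := by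
  have hq : E (t + s) / E t = E s := by
    rw [gw_E_add, mul_comm, mul_div_assoc, div_self (Pool.Agent.TBirP.lg_ne (gw_E_mem t)), mul_one]
  unfold ch
  rw [hq]
  rcases le_or_gt s Real.pi with h | h
  · have ha : arg (E s) = s := by
      unfold E
      rw [Complex.arg_exp_mul_I, toIocMod_eq_self]
      constructor
      · linarith
      · linarith
    rw [ha, if_pos hs, abs_of_pos hs]
    have h1 : max 0 (1 - (2 * Real.pi - s) / r) = 0 := by
      apply max_eq_left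
      have : 1 ≤ (2 * Real.pi - s) / r := by
        rw [le_div_iff₀ hr]
        linarith
      linarith
    rw [h1]
    ring
  · have ha : arg (E s) = s - 2 * Real.pi := by
      unfold E
      rw [Complex.arg_exp_mul_I]
      have h2 : toIocMod Real.two_pi_pos (-Real.pi) s =
          toIocMod Real.two_pi_pos (-Real.pi) (s - 2 * Real.pi) := by
        rw [toIocMod_sub]
      rw [h2, toIocMod_eq_self]
      constructor
      · linarith
      · linarith
    have hneg : s - 2 * Real.pi < 0 := by linarith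
    rw [ha, if_neg (not_lt.2 hneg.le), abs_of_neg hneg]
    have h1 : max 0 (1 - s / r) = 0 := by
      apply max_eq_left
      have : 1 ≤ s / r := by
        rw [le_div_iff₀ hr]
        linarith
      linarith
    rw [h1]
    have h2 : -(s - 2 * Real.pi) = 2 * Real.pi - s := by ring
    rw [h2]
    ring

private theorem gw_max_lip {a b : ℝ} : |max 0 a - max 0 b| ≤ |a - b| := by
  have := abs_max_sub_max_le_max 0 a 0 b
  simpa using this

private theorem gw_ch_lip {r : ℝ} {t : ℂ} (hr : 0 < r) (hr' : r < Real.pi) (ht : ‖t‖ = 1) {x y : ℝ}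
    (hxy : x ≤ y) (h : ∀ s ∈ Icc x y, E s ≠ t) :
    |ch r t (E x) - ch r t (E y)| ≤ 1 / r * |x - y| := by
  obtain ⟨θ, hθ⟩ : ∃ θ : ℝ, t = E θ := by
    refine ⟨arg t, ?_⟩
    have := Complex.norm_mul_exp_arg_mul_I t
    rw [ht, Complex.ofReal_one, one_mul] at this
    exact this.symm
  have hpi : 0 < 2 * Real.pi := by positivity
  -- all points of the interval are in the same period
  set k : ℤ := ⌊(x - θ) / (2 * Real.pi)⌋ with hk
  have hk1 : (k : ℝ) * (2 * Real.pi) ≤ x - θ := by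
    have := Int.floor_le ((x - θ) / (2 * Real.pi))
    rwa [le_div_iff₀ hpi] at this
  have hk2 : x - θ < (k + 1) * (2 * Real.pi) := by
    have := Int.lt_floor_add_one ((x - θ) / (2 * Real.pi))
    rwa [div_lt_iff₀ hpi] at this
  have hne : ∀ j : ℤ, ∀ s ∈ Icc x y, s ≠ θ + 2 * Real.pi * j := by
    intro j s hs hsj
    apply h s hs
    rw [hsj, gw_E_add, gw_E_int, mul_one, hθ]
  have hall : ∀ s ∈ Icc x y, 0 < s - θ - 2 * Real.pi * k ∧ s - θ - 2 * Real.pi * k < 2 * Real.pi := by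
    intro s hs
    constructor
    · have h1 : θ + 2 * Real.pi * k ≤ x := by linarith
      have h2 : θ + 2 * Real.pi * k ≤ s := h1.trans hs.1
      rcases h2.eq_or_lt with h3 | h3
      · exact absurd h3.symm (hne k s hs)
      · linarith
    · by_contra hcon
      push Not at hcon
      have h2 : θ + 2 * Real.pi * ((k + 1 : ℤ) : ℝ) ∈ Icc x y := by
        constructor
        · push_cast
          linarith
        · push_cast
          linarith [hs.2]
      exact hne (k + 1) _ h2 rfl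
  have hval : ∀ s ∈ Icc x y, ch r t (E s) = 1 / 2 * max 0 (1 - (s - θ - 2 * Real.pi * k) / r) -
      1 / 2 * max 0 (1 - (2 * Real.pi - (s - θ - 2 * Real.pi * k)) / r) := by
    intro s hs
    obtain ⟨h1, h2⟩ := hall s hs
    rw [← gw_ch_eq (t := θ) hr hr' h1 h2, hθ]
    congr 1
    have : θ + (s - θ - 2 * Real.pi * k) = s + 2 * Real.pi * ((-k : ℤ) : ℝ) := by
      push_cast
      ring
    rw [this, gw_E_add, gw_E_int, mul_one]
  rw [hval x ⟨le_rfl, hxy⟩, hval y ⟨hxy, le_rfl⟩]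
  have e1 := gw_max_lip (a := 1 - (x - θ - 2 * Real.pi * k) / r)
    (b := 1 - (y - θ - 2 * Real.pi * k) / r)
  have e2 := gw_max_lip (a := 1 - (2 * Real.pi - (x - θ - 2 * Real.pi * k)) / r)
    (b := 1 - (2 * Real.pi - (y - θ - 2 * Real.pi * k)) / r)
  have f1 : 1 - (x - θ - 2 * Real.pi * k) / r - (1 - (y - θ - 2 * Real.pi * k) / r) =
      -((x - y) / r) := by ring
  have f2 : 1 - (2 * Real.pi - (x - θ - 2 * Real.pi * k)) / r -
      (1 - (2 * Real.pi - (y - θ - 2 * Real.pi * k)) / r) = (x - y) / r := by ring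
  rw [f1, abs_neg, abs_div, abs_of_pos hr] at e1
  rw [f2, abs_div, abs_of_pos hr] at e2
  have e1' := abs_le.1 e1
  have e2' := abs_le.1 e2
  have e3 : 1 / r * |x - y| = |x - y| / r := by ring
  rw [e3, abs_le]
  constructor <;> linarith [e1'.1, e1'.2, e2'.1, e2'.2]

/-- at most one of the functions `ch` is not zero -/
private theorem gw_sum_le {r : ℝ} (hr : Rad F r) {c : ℂ → ℝ} {M : ℝ} (hM : 0 ≤ M)
    (hc : ∀ t ∈ F, |c t| ≤ M) {z : ℂ} (hz : ‖z‖ = 1) : |∑ t ∈ F, c t * ch r t z| ≤ 1 / 2 * M := by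
  by_cases h : ∃ t ∈ F, ch r t z ≠ 0
  · obtain ⟨t, ht, h0⟩ := h
    rw [Finset.sum_eq_single t]
    · rw [abs_mul]
      have h1 := ch_abs (t := t) hr.1 z
      have h2 := hc t ht
      nlinarith [abs_nonneg (c t), abs_nonneg (ch r t z)]
    · intro t' ht' hne
      have : ch r t' z = 0 := by
        by_contra h1
        exact hne (hr.2.2 z hz t' ht' t ht h1 h0)
      rw [this, mul_zero]
    · intro h1
      exact absurd ht h1
  · push Not at h
    rw [Finset.sum_eq_zero fun t ht => by rw [h t ht, mul_zero], abs_zero]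
    positivity

/-! ### The continuous part -/

private theorem gw_lift {t : ℂ} (ht : ‖t‖ = 1) : ∃ θ : ℝ, t = E θ := by
  refine ⟨arg t, ?_⟩
  have := Complex.norm_mul_exp_arg_mul_I t
  rw [ht, Complex.ofReal_one, one_mul] at this
  exact this.symm

private theorem gw_mul_mem {t : ℂ} (ht : ‖t‖ = 1) (x : ℝ) : t * E x ∈ sphere (0 : ℂ) 1 := by
  rw [mem_sphere_zero_iff_norm, norm_mul, ht, one_mul]
  exact mem_sphere_zero_iff_norm.1 (gw_E_mem x)

/-- the curve `x ↦ t E (s x)`, `x > 0`, avoids `F` and tends to `t` -/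
private theorem gw_near (F : Finset ℂ) {t : ℂ} (ht : ‖t‖ = 1) {σ : ℝ} (hσ : σ = 1 ∨ σ = -1) :
    (∀ᶠ x : ℝ in 𝓝[>] 0, t * E (σ * x) ∉ F) ∧
      Tendsto (fun x : ℝ => t * E (σ * x)) (𝓝[>] 0) (𝓝 t) := by
  obtain ⟨θ, hθ⟩ := gw_lift ht
  obtain ⟨δ, hδ, hi⟩ := gw_isol F θ
  have hσ0 : σ ≠ 0 := by rcases hσ with h | h <;> rw [h] <;> norm_num
  have hσ1 : |σ| = 1 := by rcases hσ with h | h <;> rw [h] <;> simp
  constructor
  · have h1 : ∀ᶠ x : ℝ in 𝓝[>] 0, x ∈ Ioo 0 δ := Ioo_mem_nhdsGT hδ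
    filter_upwards [h1] with x hx
    rw [hθ, ← gw_E_add]
    apply hi
    · rw [add_sub_cancel_left, abs_mul, hσ1, one_mul, abs_of_pos hx.1]
      exact hx.2
    · intro h
      have : σ * x = 0 := by linarith
      rcases mul_eq_zero.1 this with h2 | h2
      · exact hσ0 h2
      · exact hx.1.ne' h2
  · have hc : Continuous fun x : ℝ => t * E (σ * x) :=
      continuous_const.mul (gw_E_cont.comp (continuous_const.mul continuous_id))
    have h1 : Tendsto (fun x : ℝ => t * E (σ * x)) (𝓝[>] 0) (𝓝 (t * E (σ * 0))) :=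
      hc.continuousAt.mono_left nhdsWithin_le_nhds
    have h2 : t * E (σ * 0) = t := by
      have : E 0 = 1 := by
        unfold E
        simp
      rw [mul_zero, this, mul_one]
    rwa [h2] at h1

private theorem gw_ch_lim {r : ℝ} (hr : 0 < r) (hr' : r < Real.pi) (hF : ∀ t ∈ F, ‖t‖ = 1)
    {t : ℂ} (ht : t ∈ F) (kap : ℂ → ℂ) :
    Tendsto (fun x : ℝ => ∑ s ∈ F, kap s * (ch r s (t * E (-x)) : ℂ)) (𝓝[>] 0)
      (𝓝 (∑ s ∈ F, kap s * ((if s = t then -(1 / 2) else ch r s t : ℝ) : ℂ))) ∧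
    Tendsto (fun x : ℝ => ∑ s ∈ F, kap s * (ch r s (t * E x) : ℂ)) (𝓝[>] 0)
      (𝓝 (∑ s ∈ F, kap s * ((if s = t then 1 / 2 else ch r s t : ℝ) : ℂ))) := by
  have key : ∀ σ : ℝ, (σ = 1 ∨ σ = -1) → ∀ s ∈ F, s ≠ t →
      Tendsto (fun x : ℝ => ch r s (t * E (σ * x))) (𝓝[>] 0) (𝓝 (ch r s t)) := by
    intro σ hσ s hs hne
    have h1 : ContinuousWithinAt (ch r s) (sphere 0 1 \ {s}) t := by
      apply ch_cont hr hr' (hF s hs)
      exact ⟨mem_sphere_zero_iff_norm.2 (hF t ht), fun h => hne (mem_singleton_iff.1 h).symm⟩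
    obtain ⟨-, h2⟩ := gw_near F (hF t ht) hσ
    refine h1.tendsto.comp (tendsto_nhdsWithin_iff.2 ⟨h2, ?_⟩)
    have h3 : ∀ᶠ x : ℝ in 𝓝[>] 0, t * E (σ * x) ≠ s := h2.eventually_ne hne.symm
    filter_upwards [h3] with x hx
    exact ⟨gw_mul_mem (hF t ht) _, hx⟩
  constructor
  · refine tendsto_finsetSum F fun s hs => ?_
    refine Tendsto.mul tendsto_const_nhds ?_
    refine (Complex.continuous_ofReal.tendsto _).comp ?_
    by_cases hst : s = t
    · rw [if_pos hst, hst]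
      exact ch_left hr (hF t ht)
    · rw [if_neg hst]
      have := key (-1) (Or.inr rfl) s hs hst
      simpa using this
  · refine tendsto_finsetSum F fun s hs => ?_
    refine Tendsto.mul tendsto_const_nhds ?_
    refine (Complex.continuous_ofReal.tendsto _).comp ?_
    by_cases hst : s = t
    · rw [if_pos hst, hst]
      exact ch_right hr (hF t ht)
    · rw [if_neg hst]
      have := key 1 (Or.inl rfl) s hs hst
      simpa using this

private theorem gw_ext (h : PwJ phi F u v) {r : ℝ} (hr : Rad F r) {l : ℂ} {n : ℤ} {g1 : ℂ → ℂ}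
    (hg : ContinuousOn g1 (sphere 0 1 \ F))
    (hlim : ∀ t ∈ F, ∃ a b : ℂ, Tendsto (fun x : ℝ => g1 (t * E (-x))) (𝓝[>] 0) (𝓝 a) ∧
      Tendsto (fun x : ℝ => g1 (t * E x)) (𝓝[>] 0) (𝓝 b) ∧ |(b - a).im| < Real.pi)
    (hfac : ∀ z ∈ sphere (0 : ℂ) 1, z ∉ F → phi z - l = z ^ n * exp (g1 z)) :
    ∃ (kap g : ℂ → ℂ), ContinuousOn g (sphere 0 1) ∧
      (∀ z ∈ sphere (0 : ℂ) 1, z ∉ F → g1 z = g z + ∑ t ∈ F, kap t * (ch r t z : ℂ)) ∧
      ∀ t ∈ F, |(kap t).im| < Real.pi ∧ exp (kap t) = (v t - l) / (u t - l) := by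
  classical
  choose! a b ha hb hab using hlim
  obtain ⟨kap, hkap⟩ : ∃ kap : ℂ → ℂ, kap = fun t => b t - a t := ⟨_, rfl⟩
  have hcS : ContinuousOn (fun z => ∑ t ∈ F, kap t * (ch r t z : ℂ)) (sphere 0 1 \ F) := by
    refine continuousOn_finsetSum F fun t ht => ?_
    refine continuousOn_const.mul ?_
    refine Complex.continuous_ofReal.comp_continuousOn ?_
    refine (ch_cont hr.1 hr.2.1 (h.circ t ht)).mono ?_
    intro z hz
    exact ⟨hz.1, fun hzt => hz.2 (by rw [mem_singleton_iff.1 hzt]; exact ht)⟩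
  obtain ⟨g, hgc, hgG, -⟩ := ext_cont h.circ (G := fun z => g1 z - ∑ t ∈ F, kap t * (ch r t z : ℂ))
    (hg.sub hcS) (by
      intro t ht
      obtain ⟨l1, l2⟩ := gw_ch_lim hr.1 hr.2.1 h.circ ht kap
      refine ⟨a t - ∑ s ∈ F, kap s * ((if s = t then -(1 / 2) else ch r s t : ℝ) : ℂ),
        (ha t ht).sub l1, ?_⟩
      have e1 : a t - ∑ s ∈ F, kap s * ((if s = t then -(1 / 2) else ch r s t : ℝ) : ℂ) =
          b t - ∑ s ∈ F, kap s * ((if s = t then 1 / 2 else ch r s t : ℝ) : ℂ) := by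
        have e2 : ∑ s ∈ F, kap s * ((if s = t then 1 / 2 else ch r s t : ℝ) : ℂ) -
            ∑ s ∈ F, kap s * ((if s = t then -(1 / 2) else ch r s t : ℝ) : ℂ) = kap t := by
          rw [← Finset.sum_sub_distrib, Finset.sum_eq_single t]
          · rw [if_pos rfl, if_pos rfl, ← mul_sub]
            push_cast
            ring
          · intro s _ hst
            rw [if_neg hst, if_neg hst, sub_self]
          · intro h1
            exact absurd ht h1
        have e3 : kap t = b t - a t := by rw [hkap]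
        rw [e3] at e2
        linear_combination e2
      rw [e1]
      exact (hb t ht).sub l2)
  refine ⟨kap, g, hgc, fun z hz hzF => ?_, fun t ht => ⟨?_, ?_⟩⟩
  · rw [hgG z hz hzF]
    ring
  · have := hab t ht
    rw [hkap]
    exact this
  · have ht1 := h.circ t ht
    have ht0 : t ≠ 0 := by
      intro h0
      rw [h0, norm_zero] at ht1
      exact zero_ne_one ht1
    obtain ⟨n1, n2⟩ := gw_near F ht1 (σ := 1) (Or.inl rfl)
    obtain ⟨m1, m2⟩ := gw_near F ht1 (σ := -1) (Or.inr rfl)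
    simp only [one_mul] at n1 n2
    simp only [neg_one_mul] at m1 m2
    have hR : v t - l = t ^ n * exp (b t) := by
      have l1 : Tendsto (fun x : ℝ => phi (t * E x) - l) (𝓝[>] 0) (𝓝 (v t - l)) :=
        (h.lim_right ht).sub tendsto_const_nhds
      have l2 : Tendsto (fun x : ℝ => (t * E x) ^ n * exp (g1 (t * E x))) (𝓝[>] 0)
          (𝓝 (t ^ n * exp (b t))) :=
        (n2.zpow₀ n (Or.inl ht0)).mul ((Complex.continuous_exp.tendsto _).comp (hb t ht))
      refine tendsto_nhds_unique l1 (l2.congr' ?_)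
      filter_upwards [n1] with x hx
      exact (hfac _ (gw_mul_mem ht1 x) hx).symm
    have hL : u t - l = t ^ n * exp (a t) := by
      have l1 : Tendsto (fun x : ℝ => phi (t * E (-x)) - l) (𝓝[>] 0) (𝓝 (u t - l)) :=
        (h.lim_left ht).sub tendsto_const_nhds
      have l2 : Tendsto (fun x : ℝ => (t * E (-x)) ^ n * exp (g1 (t * E (-x)))) (𝓝[>] 0)
          (𝓝 (t ^ n * exp (a t))) :=
        (m2.zpow₀ n (Or.inl ht0)).mul ((Complex.continuous_exp.tendsto _).comp (ha t ht))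
      refine tendsto_nhds_unique l1 (l2.congr' ?_)
      filter_upwards [m1] with x hx
      exact (hfac _ (gw_mul_mem ht1 _) hx).symm
    have e3 : kap t = b t - a t := by rw [hkap]
    have hne : t ^ n ≠ 0 := zpow_ne_zero _ ht0
    rw [hR, hL, e3, Complex.exp_sub, mul_div_mul_left _ _ hne]

/-! ### The operator -/

open Pool.Agent.TBirR (LB)

/-- The Fourier coefficient as a continuous functional. -/
private noncomputable def gw_fc (n : ℤ) : CT →L[ℂ] ℂ :=
  LinearMap.mkContinuous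
    { toFun := fun f => fourierCoeff f n
      map_add' := by
        intro f g
        exact congrFun (fourierCoeff.add (f.continuous.integrable_of_hasCompactSupport
          (HasCompactSupport.of_compactSpace _)) (g.continuous.integrable_of_hasCompactSupport
          (HasCompactSupport.of_compactSpace _))) n
      map_smul' := by
        intro c f
        exact fourierCoeff.const_smul f c n } 1 (by
    intro f
    change ‖fourierCoeff f n‖ ≤ 1 * ‖f‖
    rw [one_mul]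
    unfold fourierCoeff
    refine (norm_integral_le_integral_norm _).trans ?_
    refine (integral_mono_of_nonneg (ae_of_all _ fun _ => norm_nonneg _)
      (integrable_const ‖f‖) (ae_of_all _ fun x => ?_)).trans ?_
    · simp only [norm_smul]
      have : ‖(fourier (-n) : CT) x‖ = 1 := Circle.norm_coe _
      rw [this, one_mul]
      exact f.norm_coe_le_norm x
    · simp)

private theorem gw_fc_apply (n : ℤ) (f : CT) : gw_fc n f = fourierCoeff f n := rfl

/-- The exponential of a symbol. -/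
private noncomputable def gw_ex (p : CT) : CT := ⟨fun x => exp (p x), by fun_prop⟩

private theorem gw_ex_apply (p : CT) (x : UnitAddCircle) : gw_ex p x = exp (p x) := rfl

private theorem gw_ex_hasSum (p : CT) :
    HasSum (fun n : ℕ => ((n.factorial : ℂ)⁻¹) • p ^ n) (gw_ex p) := by
  have h1 : HasSum (fun n : ℕ => ((n.factorial : ℂ)⁻¹) • p ^ n) (NormedSpace.exp p) :=
    NormedSpace.exp_series_hasSum_exp' p
  have h2 : NormedSpace.exp p = gw_ex p := by
    ext x
    have h3 := h1.mapL (ContinuousMap.evalCLM ℂ x)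
    have h4 : HasSum (fun n : ℕ => ((n.factorial : ℂ)⁻¹) • (p x) ^ n) (NormedSpace.exp (p x)) :=
      NormedSpace.exp_series_hasSum_exp' (p x)
    have h5 : (fun n : ℕ => ContinuousMap.evalCLM ℂ x (((n.factorial : ℂ)⁻¹) • p ^ n)) =
        fun n : ℕ => ((n.factorial : ℂ)⁻¹) • (p x) ^ n := by
      funext n
      rfl
    rw [h5] at h3
    have h6 := h3.unique h4
    rw [gw_ex_apply, Complex.exp_eq_exp_ℂ]
    exact h6
  rw [← h2]
  exact h1

private theorem gw_plus_ex {p : CT} (hp : Plus p) : Plus (gw_ex p) := by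
  have h1 : ∀ k : ℕ, Plus (p ^ k) := by
    intro k
    induction k with
    | zero =>
      rw [pow_zero]
      have := plus_algebraMap (1 : ℂ)
      rwa [map_one] at this
    | succ k ih =>
      rw [pow_succ]
      exact ih.mul hp
  intro n hn
  have h2 := (gw_ex_hasSum p).mapL (gw_fc n)
  have h3 : (fun k : ℕ => gw_fc n (((k.factorial : ℂ)⁻¹) • p ^ k)) = fun _ => 0 := by
    funext k
    rw [map_smul, gw_fc_apply, h1 k n hn, smul_zero]
  rw [h3] at h2
  exact h2.unique hasSum_zero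

private theorem gw_minus_ex {p : CT} (hp : Minus p) : Minus (gw_ex p) := by
  have h1 : ∀ k : ℕ, Minus (p ^ k) := by
    intro k
    induction k with
    | zero =>
      rw [pow_zero]
      have := minus_algebraMap (1 : ℂ)
      rwa [map_one] at this
    | succ k ih =>
      rw [pow_succ]
      exact ih.mul hp
  intro n hn
  have h2 := (gw_ex_hasSum p).mapL (gw_fc n)
  have h3 : (fun k : ℕ => gw_fc n (((k.factorial : ℂ)⁻¹) • p ^ k)) = fun _ => 0 := by
    funext k
    rw [map_smul, gw_fc_apply, h1 k n hn, smul_zero]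
  rw [h3] at h2
  exact h2.unique hasSum_zero

private theorem gw_ex_neg_mul (p : CT) : gw_ex (-p) * gw_ex p = 1 := by
  ext x
  rw [ContinuousMap.mul_apply, gw_ex_apply, gw_ex_apply, ContinuousMap.neg_apply,
    ← Complex.exp_add, neg_add_cancel, Complex.exp_zero, ContinuousMap.one_apply]

private theorem gw_norm_ex_neg {p : CT} {a : ℝ} (ha : ∀ x, |(p x).re| ≤ a) :
    ‖gw_ex (-p)‖ ≤ Real.exp a := by
  rw [ContinuousMap.norm_le _ (Real.exp_pos _).le]
  intro x
  rw [gw_ex_apply, Complex.norm_exp, ContinuousMap.neg_apply, Complex.neg_re]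
  exact Real.exp_le_exp.2 ((neg_le_abs _).trans (ha x))

private theorem gw_lb {p m : CT} {W Psi : UnitAddCircle → ℂ} (hp : Plus p) (hm : Minus m) {n : ℤ}
    (hn : 0 ≤ n) (hW : MemLp W ∞ mu0) {c : ℝ} (hc : 0 < c) (hcW : ∀ᵐ x ∂mu0, c ≤ (W x).re)
    (hPsi : Psi =ᵐ[mu0] fun x => exp (m x) * (W x * (e x ^ n * exp (p x)))) {a b : ℝ}
    (ha : ∀ x, |(p x).re| ≤ a) (hb : ∀ x, |(m x).re| ≤ b) :
    LB (c * Real.exp (-(a + b))) (TM (mf Psi)) := by
  have hnp : Plus (-p) := by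
    have : (-p : CT) = 0 - p := by rw [zero_sub]
    rw [this]
    refine Plus.sub ?_ hp
    have := plus_algebraMap (0 : ℂ)
    rwa [map_zero] at this
  have hnm : Minus (-m) := by
    have : (-m : CT) = 0 - m := by rw [zero_sub]
    rw [this]
    refine Minus.sub ?_ hm
    have := minus_algebraMap (0 : ℂ)
    rwa [map_zero] at this
  have hfac : mf Psi = mul (gw_ex m) * (mf W * mul (fourier n * gw_ex p)) := by
    rw [mf_congr hPsi, ← mf_ct (gw_ex m), ← mf_ct (fourier n * gw_ex p), ← mf_mul hW (memLp_ct _),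
      ← mf_mul (memLp_ct _) (memLp_mul hW (memLp_ct _))]
    congr 1
    funext x
    rw [ContinuousMap.mul_apply, gw_ex_apply, gw_ex_apply, wi_fourier_e]
  have hpp : Plus (fourier n * gw_ex p) := (plus_fourier hn).mul (gw_plus_ex hp)
  have hT : TM (mf Psi) = T (gw_ex m) * (TM (mf W) * (T (fourier n) * T (gw_ex p))) := by
    rw [hfac, TM_minus _ (gw_minus_ex hm), TM_plus _ hpp, T_mul_right _ (gw_plus_ex hp)]
  have l1 : LB (Real.exp a)⁻¹ (T (gw_ex p)) := by
    refine LB.of_left (Real.exp_pos _) ((norm_T_le _).trans (gw_norm_ex_neg ha)) ?_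
    rw [← T_mul_right _ (gw_plus_ex hp), gw_ex_neg_mul, T_one]
  have l2 : LB (Real.exp b)⁻¹ (T (gw_ex m)) := by
    refine LB.of_left (Real.exp_pos _) ((norm_T_le _).trans (gw_norm_ex_neg hb)) ?_
    rw [← T_mul_left (gw_minus_ex hnm), gw_ex_neg_mul, T_one]
  have l3 : LB c (TM (mf W)) := fun w => (coer hW hc hcW).2 w
  have l4 : LB 1 (T (fourier n)) := Pool.Agent.TBirR.lb_fourier hn
  rw [hT]
  have l5 := l2.mul (by positivity) (l3.mul hc.le (l4.mul (by norm_num) l1))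
  have e1 : (Real.exp b)⁻¹ * (c * (1 * (Real.exp a)⁻¹)) = c * Real.exp (-(a + b)) := by
    rw [neg_add, Real.exp_add, Real.exp_neg, Real.exp_neg]
    ring
  rwa [e1] at l5

private theorem gw_Tp {phi : ℂ → ℂ} (hb : MemLp (fun x : UnitAddCircle => phi (e x)) ∞ mu0) (l : ℂ) :
    Tp phi - l • (1 : Op) = TM (mf fun x => phi (e x) - l) := by
  rw [mf_sub hb (memLp_const l), mf_const, TM_sub, TM_algebraMap, Algebra.algebraMap_eq_smul_one]
  rfl

/-! ### The theorem -/

private theorem gw_adjust {l : ℂ} {n : ℤ} {g : ℂ → ℂ} {z1 : ℂ}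
    (hg : ContinuousOn g (sphere 0 1 \ F))
    (hlim : ∀ t ∈ F, ∃ a b : ℂ, Tendsto (fun x : ℝ => g (t * E (-x))) (𝓝[>] 0) (𝓝 a) ∧
      Tendsto (fun x : ℝ => g (t * E x)) (𝓝[>] 0) (𝓝 b) ∧ |(b - a).im| < Real.pi)
    (hfac : ∀ z ∈ sphere (0 : ℂ) 1, z ∉ F → phi z - l = z ^ n * exp (g z)) :
    ∃ k : ℂ → ℂ, ContinuousOn k (sphere 0 1 \ F) ∧
      (∀ t ∈ F, ∃ a b : ℂ, Tendsto (fun x : ℝ => k (t * E (-x))) (𝓝[>] 0) (𝓝 a) ∧
        Tendsto (fun x : ℝ => k (t * E x)) (𝓝[>] 0) (𝓝 b) ∧ |(b - a).im| < Real.pi) ∧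
      (∀ z ∈ sphere (0 : ℂ) 1, z ∉ F → phi z - l = z ^ n * exp (k z)) ∧ |(k z1).im| ≤ Real.pi := by
  obtain ⟨j, hj⟩ : ∃ j : ℤ, j = round ((g z1).im / (2 * Real.pi)) := ⟨_, rfl⟩
  refine ⟨fun z => g z - j * (2 * Real.pi * I), hg.sub continuousOn_const, ?_, fun z hz hzF => ?_, ?_⟩
  · intro t ht
    obtain ⟨a, b, h1, h2, h3⟩ := hlim t ht
    refine ⟨a - j * (2 * Real.pi * I), b - j * (2 * Real.pi * I), h1.sub tendsto_const_nhds,
      h2.sub tendsto_const_nhds, ?_⟩
    rwa [sub_sub_sub_cancel_right]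
  · rw [hfac z hz hzF, Complex.exp_sub, Complex.exp_int_mul_two_pi_mul_I, div_one]
  · have h1 : (g z1 - j * (2 * Real.pi * I)).im = (g z1).im - j * (2 * Real.pi) := by
      simp
    rw [h1]
    have h2 := abs_sub_round ((g z1).im / (2 * Real.pi))
    rw [← hj] at h2
    have hpi : 0 < 2 * Real.pi := by positivity
    have h3 : (g z1).im - j * (2 * Real.pi) = ((g z1).im / (2 * Real.pi) - j) * (2 * Real.pi) := by
      field_simp
    rw [h3, abs_mul, abs_of_pos hpi]
    calc |(g z1).im / (2 * Real.pi) - j| * (2 * Real.pi) ≤ 1 / 2 * (2 * Real.pi) :=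
          mul_le_mul_of_nonneg_right h2 hpi.le
      _ = Real.pi := by ring

private theorem gw_e_eq (x : ℝ) : e (x : UnitAddCircle) = E (2 * Real.pi * x) := by
  rw [e_coe, circleMap, E]
  simp

private theorem gw_e_mem (x : UnitAddCircle) : e x ∈ sphere (0 : ℂ) 1 := by
  rw [mem_sphere_zero_iff_norm]
  exact norm_e x

/-- a bound on the circle without `F` holds on the circle -/
private theorem gw_bound {f : ℂ → ℝ} (hf : ContinuousOn f (sphere 0 1)) {M : ℝ}
    (h : ∀ z ∈ sphere (0 : ℂ) 1, z ∉ F → f z ≤ M) (z : ℂ) (hz : z ∈ sphere (0 : ℂ) 1) : f z ≤ M := by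
  obtain ⟨θ, rfl⟩ := gw_lift (mem_sphere_zero_iff_norm.1 hz)
  have hc : Continuous fun s : ℝ => f (E s) := hf.comp_continuous gw_E_cont gw_E_mem
  exact gw_dense hc (fun s hs => h _ (gw_E_mem s) hs) θ

/-- the real part of the exponential in a half plane -/
private theorem gw_re_exp {w : ℂ} {R η : ℝ} (h1 : |w.re| ≤ R) (h2 : |w.im| ≤ Real.pi / 2 - η)
    (h0 : 0 ≤ η) : Real.exp (-R) * (2 / Real.pi * η) ≤ (exp w).re := by
  have hpi := Real.pi_pos
  have hη : η ≤ Real.pi / 2 := by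
    have := abs_nonneg w.im
    linarith
  have h3 : 2 / Real.pi * η ≤ Real.cos w.im := by
    calc 2 / Real.pi * η ≤ Real.sin η := Real.mul_le_sin h0 hη
      _ = Real.cos (Real.pi / 2 - η) := (Real.cos_pi_div_two_sub η).symm
      _ ≤ Real.cos |w.im| := Real.cos_le_cos_of_nonneg_of_le_pi (abs_nonneg _) (by linarith) h2
      _ = Real.cos w.im := Real.cos_abs _
  rw [Complex.exp_re]
  refine mul_le_mul (Real.exp_le_exp.2 ?_) h3 (by positivity) (Real.exp_pos _).le
  have := neg_abs_le w.re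
  linarith

private theorem gw_sum_re {r : ℝ} (kap : ℂ → ℂ) (z : ℂ) :
    (∑ t ∈ F, kap t * (ch r t z : ℂ)).re = ∑ t ∈ F, (kap t).re * ch r t z := by
  rw [Complex.re_sum]
  refine Finset.sum_congr rfl fun t _ => ?_
  rw [Complex.re_mul_ofReal]

private theorem gw_sum_im {r : ℝ} (kap : ℂ → ℂ) (z : ℂ) :
    (∑ t ∈ F, kap t * (ch r t z : ℂ)).im = ∑ t ∈ F, (kap t).im * ch r t z := by
  rw [Complex.im_sum]
  refine Finset.sum_congr rfl fun t _ => ?_
  rw [Complex.im_mul_ofReal]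

theorem growJ (h : PwJ phi F u v) : ∃ (C : ℝ) (N : ℕ), 0 < C ∧ ∀ l ∉ Gam phi F u v,
    infDist l (Gam phi F u v) ≤ 1 → ∀ n : ℤ, 0 ≤ n → Wj phi F l n → ∀ w : Hardy,
      ‖w‖ ≤ C * (infDist l (Gam phi F u v))⁻¹ ^ N * ‖(Tp phi - l • (1 : Op)) w‖ := by
  classical
  obtain ⟨A0, hA0⟩ := angJ h
  obtain ⟨C1, hC1, hlip⟩ := lip_logJ h
  obtain ⟨C2, hC2, hpoi⟩ := Pool.Agent.TBirP.poi
  obtain ⟨C3, c3, hC3, hc3, hkb⟩ := kap_bd h
  obtain ⟨r, hr⟩ := exists_rad h.circ
  obtain ⟨δ1, hδ1, hi1⟩ := gw_isol F 0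
  obtain ⟨z1, hz1⟩ : ∃ z1 : ℂ, z1 = E (δ1 / 2) := ⟨_, rfl⟩
  have hz1m : z1 ∈ sphere (0 : ℂ) 1 := by rw [hz1]; exact gw_E_mem _
  have hz1F : z1 ∉ F := by
    rw [hz1]
    apply hi1
    · rw [sub_zero, abs_of_pos (by positivity)]
      linarith
    · positivity
  have hJc : IsCompact (Gam phi F u v) := gam_compact h
  have hJn : (Gam phi F u v).Nonempty := gam_ne h
  obtain ⟨B, hB⟩ := hJc.isBounded.exists_norm_le
  have hB0 : 0 ≤ B := by
    obtain ⟨w, hw⟩ := hJn
    exact (norm_nonneg _).trans (hB w hw)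
  have hpi := Real.pi_pos
  obtain ⟨A, hA⟩ : ∃ A : ℝ, A = max A0 0 := ⟨_, rfl⟩
  have hA00 : 0 ≤ A := by rw [hA]; exact le_max_right _ _
  have hAA : A0 ≤ A := by rw [hA]; exact le_max_left _ _
  obtain ⟨M2, hM2⟩ : ∃ M2 : ℝ, M2 = Real.pi + A + Real.pi / 2 := ⟨_, rfl⟩
  have hM20 : 0 ≤ M2 := by rw [hM2]; positivity
  obtain ⟨K0, hK0⟩ : ∃ K0 : ℝ, K0 = Real.log (2 * B + 2) := ⟨_, rfl⟩
  have hK00 : 0 ≤ K0 := by rw [hK0]; exact Real.log_nonneg (by linarith)
  obtain ⟨D3, hD3⟩ : ∃ D3 : ℝ, D3 = max C3 1 := ⟨_, rfl⟩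
  have hD31 : 1 ≤ D3 := by rw [hD3]; exact le_max_right _ _
  have hD3C : C3 ≤ D3 := by rw [hD3]; exact le_max_left _ _
  have hD30 : 0 < D3 := by linarith
  obtain ⟨d3, hd3⟩ : ∃ d3 : ℝ, d3 = min c3 1 := ⟨_, rfl⟩
  have hd31 : d3 ≤ 1 := by rw [hd3]; exact min_le_right _ _
  have hd3c : d3 ≤ c3 := by rw [hd3]; exact min_le_left _ _
  have hd30 : 0 < d3 := by rw [hd3]; exact lt_min hc3 one_pos
  obtain ⟨C4, hC4⟩ : ∃ C4 : ℝ, C4 = C1 + F.card * ((D3 + Real.pi) * (1 / r)) := ⟨_, rfl⟩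
  have hr0 : 0 < r := hr.1
  have hC40 : 0 < C4 := by
    rw [hC4]
    have : 0 ≤ (F.card : ℝ) * ((D3 + Real.pi) * (1 / r)) := by positivity
    linarith
  obtain ⟨c0, hc0⟩ : ∃ c0 : ℝ, c0 = min (d3 / (16 * Real.pi * C2 * C4)) (1 / 2) := ⟨_, rfl⟩
  have hc00 : 0 < c0 := by rw [hc0]; exact lt_min (by positivity) (by norm_num)
  have hc01 : c0 ≤ 1 / 2 := by rw [hc0]; exact min_le_right _ _
  have hc02 : c0 * (16 * Real.pi * C2 * C4) ≤ d3 := by
    have h1 : c0 ≤ d3 / (16 * Real.pi * C2 * C4) := by rw [hc0]; exact min_le_left _ _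
    rwa [le_div_iff₀ (by positivity)] at h1
  obtain ⟨K1, hK1⟩ : ∃ K1 : ℝ, K1 = 2 * K0 + Real.log D3 +
    2 * C2 * M2 * (1 + 2 * Real.log (1 / c0)) := ⟨_, rfl⟩
  obtain ⟨K2, hK2⟩ : ∃ K2 : ℝ, K2 = 3 + 8 * C2 * M2 := ⟨_, rfl⟩
  obtain ⟨c5, hc5⟩ : ∃ c5 : ℝ, c5 = Real.exp (-1) * d3 / (8 * D3) := ⟨_, rfl⟩
  have hc50 : 0 < c5 := by
    rw [hc5]
    have := Real.exp_pos (-1)
    positivity
  refine ⟨c5⁻¹ * Real.exp K1, 2 + ⌈K2⌉₊, by positivity, ?_⟩
  intro l hl hd1 n hn hW w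
  obtain ⟨g0, hg0, hglim0, hg0'⟩ := hW
  obtain ⟨g1, hg1, hglim, hg1', hgz1⟩ := gw_adjust (z1 := z1) hg0 hglim0 hg0'
  obtain ⟨kap, g, hgc, hgg, hkap⟩ := gw_ext h hr hg1 hglim hg1'
  obtain ⟨d, hd⟩ : ∃ d : ℝ, d = infDist l (Gam phi F u v) := ⟨_, rfl⟩
  have hd0 : 0 < d := by rw [hd]; exact (hJc.isClosed.notMem_iff_infDist_pos hJn).1 hl
  have hkbd : ∀ t ∈ F, |(kap t).im| ≤ Real.pi - c3 * d ∧ Real.exp |(kap t).re| ≤ C3 * d⁻¹ := by
    intro t ht
    rw [hd]
    exact hkb l hl hd1 t ht (kap t) (hkap t ht).2 (hkap t ht).1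
  have hlipl := hlip l n g1 hg1 hglim hg1' hd1
  rw [← hd] at hd1 hlipl ⊢
  have hdinv : 1 ≤ d⁻¹ := (one_le_inv₀ hd0).2 hd1
  obtain ⟨lg, hlg⟩ : ∃ lg : ℝ, lg = Real.log (1 / d) := ⟨_, rfl⟩
  have hld : 0 ≤ lg := by
    rw [hlg]
    exact Real.log_nonneg (by rw [le_div_iff₀ hd0]; linarith)
  have hlD : 0 ≤ Real.log D3 := Real.log_nonneg hD31
  -- the jumps
  have hkre : ∀ t ∈ F, |(kap t).re| ≤ Real.log D3 + lg := by
    intro t ht
    have h1 : Real.exp |(kap t).re| ≤ D3 * (1 / d) := by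
      rw [one_div]
      exact (hkbd t ht).2.trans (mul_le_mul_of_nonneg_right hD3C (by positivity))
    have h2 := Real.log_le_log (Real.exp_pos _) h1
    rwa [Real.log_exp, Real.log_mul hD30.ne' (by positivity), ← hlg] at h2
  have hkim : ∀ t ∈ F, |(kap t).im| ≤ Real.pi - d3 * d := by
    intro t ht
    have h1 := (hkbd t ht).1
    have h2 : d3 * d ≤ c3 * d := mul_le_mul_of_nonneg_right hd3c hd0.le
    linarith
  have hknorm : ∀ t ∈ F, ‖kap t‖ ≤ (D3 + Real.pi) * d⁻¹ := by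
    intro t ht
    have h1 := Complex.norm_le_abs_re_add_abs_im (kap t)
    have h2 : |(kap t).re| ≤ D3 * d⁻¹ := by
      have h3 := Real.add_one_le_exp |(kap t).re|
      have h4 := (hkbd t ht).2.trans (mul_le_mul_of_nonneg_right hD3C (by positivity))
      linarith
    have h5 : |(kap t).im| ≤ Real.pi * d⁻¹ := by
      have h6 := (hkap t ht).1
      have h7 : Real.pi * 1 ≤ Real.pi * d⁻¹ := mul_le_mul_of_nonneg_left hdinv hpi.le
      linarith
    rw [add_mul]
    linarith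
  -- the imaginary part of g
  have him1 : ∀ z ∈ sphere (0 : ℂ) 1, z ∉ F → |(g1 z).im| ≤ Real.pi + A := by
    intro z hz hzF
    have h1 := (hA0 l n g1 hg1 hglim hg1').2 z hz hzF z1 hz1m hz1F
    have h2 : |(g1 z).im| ≤ |(g1 z).im - (g1 z1).im| + |(g1 z1).im| := by
      have := abs_add_le ((g1 z).im - (g1 z1).im) (g1 z1).im
      rwa [sub_add_cancel] at this
    linarith
  have him2 : ∀ z ∈ sphere (0 : ℂ) 1, z ∉ F → |(g z).im| ≤ M2 := by
    intro z hz hzF
    have h1 := congrArg Complex.im (hgg z hz hzF)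
    rw [Complex.add_im, gw_sum_im] at h1
    have h2 := gw_sum_le (c := fun t => (kap t).im) hr hpi.le
      (fun t ht => (hkap t ht).1.le) (mem_sphere_zero_iff_norm.1 hz)
    have h3 := him1 z hz hzF
    have h4 : (g z).im = (g1 z).im - ∑ t ∈ F, (kap t).im * ch r t z := by linarith
    rw [h4, hM2]
    have h5 := abs_sub (g1 z).im (∑ t ∈ F, (kap t).im * ch r t z)
    linarith
  have him : ∀ z ∈ sphere (0 : ℂ) 1, |(g z).im| ≤ M2 := by
    intro z hz
    exact gw_bound (f := fun z => |(g z).im|) ((Complex.continuous_im.comp_continuousOn hgc).abs)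
      him2 z hz
  -- the real part of g
  obtain ⟨M1, hM1⟩ : ∃ M1 : ℝ, M1 = lg + K0 + 1 / 2 * (Real.log D3 + lg) := ⟨_, rfl⟩
  have hre1 : ∀ z ∈ sphere (0 : ℂ) 1, z ∉ F → |(g1 z).re| ≤ lg + K0 := by
    intro z hz hzF
    have hmem : phi z ∈ Gam phi F u v := Or.inl ⟨z, ⟨hz, hzF⟩, rfl⟩
    have h1 : Real.exp (g1 z).re = ‖phi z - l‖ := by
      rw [hg1' z hz hzF, norm_mul, norm_zpow, mem_sphere_zero_iff_norm.1 hz, one_zpow, one_mul,
        Complex.norm_exp]
    have h2 : d ≤ ‖phi z - l‖ := by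
      rw [← dist_eq_norm, dist_comm, hd]
      exact infDist_le_dist_of_mem hmem
    have h3 : ‖phi z - l‖ ≤ 2 * B + 2 := by
      obtain ⟨w, hw, hwd⟩ := hJc.exists_infDist_eq_dist hJn l
      have e1 : ‖l‖ ≤ ‖l - w‖ + ‖w‖ := by
        have := norm_add_le (l - w) w
        rwa [sub_add_cancel] at this
      have e2 : ‖l - w‖ ≤ 1 := by
        rw [← dist_eq_norm, ← hwd, ← hd]
        exact hd1
      have e3 := hB w hw
      have e4 := hB (phi z) hmem
      have e5 := norm_sub_le (phi z) l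
      linarith
    have h4 : (g1 z).re = Real.log ‖phi z - l‖ := by rw [← h1, Real.log_exp]
    have h5 : Real.log d ≤ Real.log ‖phi z - l‖ := Real.log_le_log hd0 h2
    have h6 : Real.log ‖phi z - l‖ ≤ K0 := by
      rw [hK0]
      exact Real.log_le_log (hd0.trans_le h2) h3
    have h7 : lg = - Real.log d := by rw [hlg, one_div, Real.log_inv]
    rw [abs_le, h4]
    constructor
    · rw [h7]
      linarith
    · linarith
  have hsre : ∀ z : ℂ, ‖z‖ = 1 → |∑ t ∈ F, (kap t).re * ch r t z| ≤ 1 / 2 * (Real.log D3 + lg) :=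
    fun z hz => gw_sum_le (c := fun t => (kap t).re) hr (by linarith) hkre hz
  have hre2 : ∀ z ∈ sphere (0 : ℂ) 1, z ∉ F → |(g z).re| ≤ M1 := by
    intro z hz hzF
    have h1 := congrArg Complex.re (hgg z hz hzF)
    rw [Complex.add_re, gw_sum_re] at h1
    have h2 := hsre z (mem_sphere_zero_iff_norm.1 hz)
    have h3 := hre1 z hz hzF
    have h4 : (g z).re = (g1 z).re - ∑ t ∈ F, (kap t).re * ch r t z := by linarith
    rw [h4, hM1]
    have h5 := abs_sub (g1 z).re (∑ t ∈ F, (kap t).re * ch r t z)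
    linarith
  have hre : ∀ z ∈ sphere (0 : ℂ) 1, |(g z).re| ≤ M1 := by
    intro z hz
    exact gw_bound (f := fun z => |(g z).re|) ((Complex.continuous_re.comp_continuousOn hgc).abs)
      hre2 z hz
  -- the Lipschitz bound
  have hlip1 : ∀ x y : ℝ, x ≤ y → (∀ s ∈ Icc x y, E s ∉ F) →
      ‖g (E x) - g (E y)‖ ≤ C4 * d⁻¹ * |x - y| := by
    intro x y hxy hF
    have h1 := hgg _ (gw_E_mem x) (hF x ⟨le_rfl, hxy⟩)
    have h2 := hgg _ (gw_E_mem y) (hF y ⟨hxy, le_rfl⟩)
    have h3 : g (E x) - g (E y) = (g1 (E x) - g1 (E y)) -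
        ∑ t ∈ F, kap t * ((ch r t (E x) - ch r t (E y) : ℝ) : ℂ) := by
      have h4 : ∑ t ∈ F, kap t * ((ch r t (E x) - ch r t (E y) : ℝ) : ℂ) =
          ∑ t ∈ F, kap t * (ch r t (E x) : ℂ) - ∑ t ∈ F, kap t * (ch r t (E y) : ℂ) := by
        rw [← Finset.sum_sub_distrib]
        refine Finset.sum_congr rfl fun t _ => ?_
        push_cast
        ring
      rw [h4, h1, h2]
      ring
    have h5 := hlipl x y hxy hF
    have h6 : ‖∑ t ∈ F, kap t * ((ch r t (E x) - ch r t (E y) : ℝ) : ℂ)‖ ≤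
        F.card * ((D3 + Real.pi) * d⁻¹ * (1 / r * |x - y|)) := by
      refine (norm_sum_le _ _).trans ?_
      rw [← nsmul_eq_mul]
      refine Finset.sum_le_card_nsmul _ _ _ fun t ht => ?_
      rw [norm_mul, Complex.norm_real, Real.norm_eq_abs]
      refine mul_le_mul (hknorm t ht) ?_ (abs_nonneg _) (by positivity)
      exact gw_ch_lip hr.1 hr.2.1 (h.circ t ht) hxy fun s hs hst => hF s hs (by rw [hst]; exact ht)
    rw [h3]
    refine (norm_sub_le _ _).trans ((add_le_add h5 h6).trans (le_of_eq ?_))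
    rw [hC4]
    ring
  have hcE : Continuous fun s : ℝ => g (E s) := hgc.comp_continuous gw_E_cont gw_E_mem
  have hlip2 : ∀ x y : ℝ, ‖g (E x) - g (E y)‖ ≤ C4 * d⁻¹ * |x - y| := by
    intro x y
    rcases le_total x y with hxy | hxy
    · have := gw_lip hcE hlip1 x y hxy
      rwa [abs_sub_comm, abs_of_nonneg (by linarith)]
    · have := gw_lip hcE hlip1 y x hxy
      rw [norm_sub_rev, abs_of_nonneg (by linarith)]
      exact this
  -- the factorisation
  obtain ⟨H, hHx⟩ : ∃ H : CT, ∀ x, H x = g (e x) :=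
    ⟨⟨fun x => g (e x), hgc.comp_continuous wi_e_cont gw_e_mem⟩, fun x => rfl⟩
  obtain ⟨δ, hδ⟩ : ∃ δ : ℝ, δ = (c0 * d ^ 2) ^ 2 := ⟨_, rfl⟩
  have hcd : 0 < c0 * d ^ 2 := by positivity
  have hdd : d ^ 2 ≤ 1 := pow_le_one₀ hd0.le hd1
  have hcd1 : c0 * d ^ 2 ≤ 1 / 2 := by
    calc c0 * d ^ 2 ≤ 1 / 2 * 1 := mul_le_mul hc01 hdd (by positivity) (by norm_num)
      _ = 1 / 2 := by norm_num
  have hsq : Real.sqrt δ = c0 * d ^ 2 := by rw [hδ]; exact Real.sqrt_sq hcd.le
  have hδ0 : 0 < δ := by rw [hδ]; positivity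
  obtain ⟨p, m, hp, hm, hs, hap, ham⟩ := hpoi H (C4 * d⁻¹ * (2 * Real.pi)) M1
    M2 δ (by positivity) hδ0 (by rw [hδ]; nlinarith) (by
      intro x y
      rw [hHx, hHx, gw_e_eq, gw_e_eq]
      refine (hlip2 _ _).trans (le_of_eq ?_)
      have : 2 * Real.pi * x - 2 * Real.pi * y = 2 * Real.pi * (x - y) := by ring
      rw [this, abs_mul, abs_of_pos (by positivity : (0 : ℝ) < 2 * Real.pi)]
      ring) (fun x => by rw [hHx]; exact hre _ (gw_e_mem x))
    (fun x => by rw [hHx]; exact him _ (gw_e_mem x))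
  have hs' : ‖H - p - m‖ ≤ d3 * d / 8 := by
    refine hs.trans ?_
    rw [hsq]
    have h1 : C2 * (C4 * d⁻¹ * (2 * Real.pi)) * (c0 * d ^ 2) =
        c0 * (16 * Real.pi * C2 * C4) / 8 * d * (d⁻¹ * d) := by
      ring
    rw [h1, inv_mul_cancel₀ hd0.ne', mul_one]
    have h2 := mul_le_mul_of_nonneg_right hc02 hd0.le
    linarith
  obtain ⟨s, hsd⟩ : ∃ s : CT, s = H - p - m := ⟨_, rfl⟩
  rw [← hsd] at hs'
  obtain ⟨W, hWd⟩ : ∃ W : UnitAddCircle → ℂ, W = fun x =>
    exp (s x + ∑ t ∈ F, kap t * (ch r t (e x) : ℂ)) := ⟨_, rfl⟩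
  have hWm : MemLp W ∞ mu0 := by
    have h1 := memLp_mul (memLp_ct (gw_ex s)) (memLp_nf h.circ hr (g := fun _ => 0)
      continuousOn_const kap)
    have h2 : W = fun x => gw_ex s x * exp (0 + ∑ t ∈ F, kap t * (ch r t (e x) : ℂ)) := by
      rw [hWd]
      funext x
      rw [gw_ex_apply, ← Complex.exp_add, zero_add]
    rw [h2]
    exact h1
  obtain ⟨c, hc⟩ : ∃ c : ℝ, c = c5 * d ^ 2 := ⟨_, rfl⟩
  have hc00' : 0 < c := by rw [hc]; positivity
  have hdd3 : d3 * d ≤ 1 := by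
    calc d3 * d ≤ 1 * 1 := mul_le_mul hd31 hd1 hd0.le zero_le_one
      _ = 1 := one_mul 1
  have hcW : ∀ x, c ≤ (W x).re := by
    intro x
    have hx1 : ‖e x‖ = 1 := norm_e x
    have hsx : ‖s x‖ ≤ d3 * d / 8 := (s.norm_coe_le_norm x).trans hs'
    have r1 : |(s x + ∑ t ∈ F, kap t * (ch r t (e x) : ℂ)).re| ≤ 1 + (Real.log D3 + lg) := by
      rw [Complex.add_re, gw_sum_re]
      have h1 := abs_add_le (s x).re (∑ t ∈ F, (kap t).re * ch r t (e x))
      have h2 := Complex.abs_re_le_norm (s x)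
      have h3 := hsre (e x) hx1
      linarith
    have r2 : |(s x + ∑ t ∈ F, kap t * (ch r t (e x) : ℂ)).im| ≤ Real.pi / 2 - 3 / 8 * (d3 * d) := by
      rw [Complex.add_im, gw_sum_im]
      have h1 := abs_add_le (s x).im (∑ t ∈ F, (kap t).im * ch r t (e x))
      have h2 := Complex.abs_im_le_norm (s x)
      have h3 := gw_sum_le (c := fun t => (kap t).im) hr
        (by linarith [Real.pi_gt_three] : (0 : ℝ) ≤ Real.pi - d3 * d) hkim hx1
      linarith
    have h4 := gw_re_exp r1 r2 (by positivity)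
    rw [hWd]
    refine le_trans ?_ h4
    have h5 : Real.exp (-(1 + (Real.log D3 + lg))) = Real.exp (-1) * (D3⁻¹ * d) := by
      rw [neg_add, Real.exp_add, neg_add, Real.exp_add, Real.exp_neg (Real.log D3),
        Real.exp_log hD30]
      have : Real.exp (-lg) = d := by
        rw [hlg, one_div, Real.log_inv, neg_neg, Real.exp_log hd0]
      rw [this]
    rw [h5, hc, hc5]
    have h6 : 1 / 8 ≤ 2 / Real.pi * (3 / 8) := by
      rw [div_mul_eq_mul_div, le_div_iff₀ hpi]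
      linarith [Real.pi_lt_four]
    have he1 := Real.exp_pos (-1)
    calc Real.exp (-1) * d3 / (8 * D3) * d ^ 2
        = Real.exp (-1) * (D3⁻¹ * d) * (1 / 8 * (d3 * d)) := by
          rw [div_eq_mul_inv, mul_inv]
          ring
      _ ≤ Real.exp (-1) * (D3⁻¹ * d) * (2 / Real.pi * (3 / 8) * (d3 * d)) := by
          refine mul_le_mul_of_nonneg_left (mul_le_mul_of_nonneg_right h6 (by positivity)) ?_
          positivity
      _ = Real.exp (-1) * (D3⁻¹ * d) * (2 / Real.pi * (3 / 8 * (d3 * d))) := by ring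
  have hPsi : (fun x : UnitAddCircle => phi (e x) - l) =ᵐ[mu0]
      fun x => exp (m x) * (W x * (e x ^ n * exp (p x))) := by
    have hnull : mu0 {x : UnitAddCircle | e x ∈ F} = 0 := by
      apply PsiAux.null
      exact F.finite_toSet.preimage fun x _ y _ hxy => PsiAux.e_inj hxy
    have hae : ∀ᵐ x ∂mu0, e x ∉ F := by
      rw [ae_iff]
      simpa using hnull
    filter_upwards [hae] with x hx
    rw [hg1' _ (gw_e_mem x) hx, hgg _ (gw_e_mem x) hx, hWd]
    have h1 : g (e x) = m x + s x + p x := by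
      rw [hsd, ContinuousMap.sub_apply, ContinuousMap.sub_apply, hHx]
      ring
    simp only [h1, Complex.exp_add]
    ring
  obtain ⟨a, ha⟩ : ∃ a : ℝ, a = M1 + C2 * (1 + Real.log (1 / δ)) * M2 := ⟨_, rfl⟩
  rw [← ha] at hap ham
  have hlb := gw_lb hp hm hn hWm hc00' (Eventually.of_forall hcW) hPsi hap ham w
  rw [← gw_Tp (memLp_pwj h)] at hlb
  have hlδ : Real.log (1 / δ) = 2 * Real.log (1 / c0) + 4 * lg := by
    have : 1 / δ = (1 / c0) ^ 2 * (1 / d) ^ 4 := by
      rw [hδ]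
      field_simp
    rw [this, Real.log_mul (by positivity) (by positivity), Real.log_pow, Real.log_pow, hlg]
    push_cast
    ring
  have hab : a + a = K1 + K2 * lg := by
    rw [ha, hlδ, hK1, hK2, hM1]
    ring
  have hexp : Real.exp (a + a) ≤ Real.exp K1 * d⁻¹ ^ ⌈K2⌉₊ := by
    rw [hab, Real.exp_add]
    refine mul_le_mul_of_nonneg_left ?_ (Real.exp_pos _).le
    have h1 : d⁻¹ ^ ⌈K2⌉₊ = Real.exp (⌈K2⌉₊ * lg) := by
      rw [mul_comm, hlg, Real.exp_mul, Real.exp_log (by positivity), Real.rpow_natCast, one_div]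
    rw [h1]
    exact Real.exp_le_exp.2 (mul_le_mul_of_nonneg_right (Nat.le_ceil K2) hld)
  have hfin : ‖w‖ ≤ c⁻¹ * Real.exp (a + a) * ‖(Tp phi - l • (1 : Op)) w‖ := by
    have h2 := mul_le_mul_of_nonneg_left hlb (by positivity : (0 : ℝ) ≤ c⁻¹ * Real.exp (a + a))
    have h3 : c⁻¹ * Real.exp (a + a) * (c * Real.exp (-(a + a)) * ‖w‖) = ‖w‖ := by
      rw [Real.exp_neg]
      field_simp
    rwa [h3] at h2
  refine hfin.trans (mul_le_mul_of_nonneg_right ?_ (norm_nonneg _))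
  calc c⁻¹ * Real.exp (a + a) ≤ c⁻¹ * (Real.exp K1 * d⁻¹ ^ ⌈K2⌉₊) :=
        mul_le_mul_of_nonneg_left hexp (by positivity)
    _ = c5⁻¹ * Real.exp K1 * d⁻¹ ^ (2 + ⌈K2⌉₊) := by
        rw [hc, mul_inv, pow_add, inv_pow, inv_pow]
        ring

end Pool.Agent.TBirJ
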