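import Pool.Agent.TBirJ.Sdj
import Pool.Agent.TBirC.Fin

/-!
# Both signs

`U1 = {l | ∃ n > 0, Ix phi l n}`, `U2 = {l | ∃ n < 0, Ix phi l n}`, open (`Ix.nhds`), disjoint (`Ix.unique`), nonempty. `Spec phi = {l | ¬ Ix phi l 0}` (`spec_ix`) is closed and contains `U1`, `U2`. A point of `Spec phi` off `K = Gam` is in `U1 ∪ U2` (`exists_wj`, `wj_ix`); a point of `K` is in the closure of
`U1 ∪ U2`: points of the segments by `jc_sides` (one of the numbers `m + 1`, `m` is not `0`), values of simple points by `exists_sm`, `sm_sides`, other points of `K` are limits of values of simple points (`inj`). `Q = closure U1 ∩ closure U2` contains no point off `K` (`Ix.nhds`), no point of a segment and no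
value of a simple point (the numbers near it are `m + 1`, `m`), so it is in the set of the values of the points which are not simple: finite (`inj`, `pwj_level`), and its points are regular: `exists_iq` (`sep`), `reg1_of_iq`. `Spec phi \ Q` is the disjoint union of `closure U1 \ Q` and
`closure U2 \ Q`: not preconnected. `main_disc`. See `neg_core` in TBirP/SpQ.lean.
-/

set_option autoImplicit false

open MeasureTheory Complex Set Filter Topology Metric AddCircle
open scoped ComplexConjugate InnerProductSpace ENNReal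

namespace Pool.Agent.TBirJ

open Pool.Agent.TBir Pool.Agent.TBirG Pool.Agent.TBirC
open Pool.Agent.TBirP (E qT)

variable {phi : ℂ → ℂ} {F : Finset ℂ} {u v : ℂ → ℂ}

private theorem ngj_perf : Preperfect (sphere (0 : ℂ) 1) := by
  refine (isPreconnected_sphere (E := ℂ) ?_ 0 1).preperfect_of_nontrivial ?_
  · rw [Complex.rank_real_complex]
    exact Nat.one_lt_ofNat
  · refine ⟨1, ?_, -1, ?_, ?_⟩
    · rw [mem_sphere_zero_iff_norm, norm_one]
    · rw [mem_sphere_zero_iff_norm, norm_neg, norm_one]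
    · norm_num

/-- The circle without a finite set is dense in the circle. -/
private theorem ngj_dense {T : Set ℂ} (hT : T.Finite) {z : ℂ} (hz : z ∈ sphere (0 : ℂ) 1) :
    z ∈ closure (sphere (0 : ℂ) 1 \ T) := by
  by_cases hzT : z ∈ T
  · have h1 : AccPt z (𝓟 (sphere (0 : ℂ) 1)) := ngj_perf z hz
    rw [accPt_iff_frequently] at h1
    have h2 : ∀ᶠ y in 𝓝 z, y ∉ T \ {z} := by
      have h3 : IsClosed (T \ {z}) := (hT.subset sdiff_subset).isClosed
      exact h3.isOpen_compl.mem_nhds fun h4 => h4.2 rfl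
    rw [mem_closure_iff_frequently]
    refine (h1.and_eventually h2).mono ?_
    rintro y ⟨⟨hyz, hy⟩, hyT⟩
    exact ⟨hy, fun h5 => hyT ⟨h5, hyz⟩⟩
  · exact subset_closure ⟨hz, hzT⟩

/-- The points which are not simple. -/
private def NN (phi : ℂ → ℂ) (F : Finset ℂ) : Set ℂ :=
  {z | z ∈ sphere (0 : ℂ) 1 ∧ z ∉ F ∧ ∃ z' ∈ sphere (0 : ℂ) 1, z' ∉ F ∧ phi z' = phi z ∧ z' ≠ z}

private theorem ngj_nn (h : JCross phi F u v) : (NN phi F).Finite := by
  obtain ⟨D, hD, hinj⟩ := h.inj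
  have h1 : (D ∪ ⋃ d ∈ D, {z : ℂ | z ∈ sphere (0 : ℂ) 1 ∧ z ∉ F ∧ phi z = phi d}).Finite :=
    hD.union (hD.biUnion fun d _ => pwj_level h.toPwJ (phi d))
  refine h1.subset ?_
  rintro z ⟨hz, hzF, z', hz', hzF', hq, hne⟩
  by_cases hzD : z ∈ D
  · exact Or.inl hzD
  · by_cases hzD' : z' ∈ D
    · exact Or.inr (mem_biUnion hzD' ⟨hz, hzF, hq.symm⟩)
    · refine (hne (hinj ⟨hz', ?_⟩ ⟨hz, ?_⟩ hq)).elim
      · rintro (h2 | h2)
        · exact hzF' h2
        · exact hzD' h2
      · rintro (h2 | h2)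
        · exact hzF h2
        · exact hzD h2

/-- The points with a positive number. -/
private def Up (phi : ℂ → ℂ) : Set ℂ := {l | ∃ n : ℤ, 0 < n ∧ Ix phi l n}

/-- The points with a negative number. -/
private def Um (phi : ℂ → ℂ) : Set ℂ := {l | ∃ n : ℤ, n < 0 ∧ Ix phi l n}

/-- Every point with two sides is in the closure. -/
private theorem ngj_sides {K : Set ℂ} {q : ℂ} {m : ℤ} (h : Sides phi K q m) :
    q ∈ closure (Up phi ∪ Um phi) := by
  obtain ⟨A, B, -, -, hA, hB, hAc, hBc, -⟩ := h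
  rcases lt_trichotomy m 0 with hm | hm | hm
  · have hBO : B ⊆ Up phi ∪ Um phi := fun l hl => Or.inr ⟨m, hm, hB l hl⟩
    exact closure_mono hBO hBc
  · have hAO : A ⊆ Up phi ∪ Um phi := fun l hl => Or.inl ⟨m + 1, by omega, hA l hl⟩
    exact closure_mono hAO hAc
  · have hBO : B ⊆ Up phi ∪ Um phi := fun l hl => Or.inl ⟨m, hm, hB l hl⟩
    exact closure_mono hBO hBc

/-- A point with two sides is not in both closures. -/
private theorem ngj_not {K : Set ℂ} (hK : Dense Kᶜ) (o1 : IsOpen (Up phi)) (o2 : IsOpen (Um phi)) {q : ℂ} {m : ℤ}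
    (h : Sides phi K q m) (h1 : q ∈ closure (Up phi)) (h2 : q ∈ closure (Um phi)) : False := by
  obtain ⟨A, B, -, -, hA, hB, -, -, hev⟩ := h
  obtain ⟨V, hV, hVo, hqV⟩ := _root_.eventually_nhds_iff.1 hev
  have key : ∀ U : Set ℂ, IsOpen U → q ∈ closure U → ∃ l ∈ U, Ix phi l (m + 1) ∨ Ix phi l m := by
    intro U hU hq
    have h3 : (V ∩ U).Nonempty := mem_closure_iff.1 hq V hVo hqV
    obtain ⟨l, ⟨hlV, hlU⟩, hlK⟩ := hK.inter_open_nonempty _ (hVo.inter hU) h3
    rcases hV l hlV hlK with h4 | h4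
    · exact ⟨l, hlU, Or.inl (hA l h4)⟩
    · exact ⟨l, hlU, Or.inr (hB l h4)⟩
  obtain ⟨l, ⟨n, hn, hl⟩, h3⟩ := key _ o1 h1
  obtain ⟨l', ⟨n', hn', hl'⟩, h4⟩ := key _ o2 h2
  have h5 : 0 ≤ m := by
    rcases h3 with h3 | h3
    · have := hl.unique h3
      omega
    · have := hl.unique h3
      omega
  rcases h4 with h4 | h4
  · have := hl'.unique h4
    omega
  · have := hl'.unique h4
    omega

private theorem ngj_nonempty {U Q : Set ℂ} (o : IsOpen U) (n : U.Nonempty) (hQ : Q.Finite) :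
    (U \ Q).Nonempty := by
  obtain ⟨w, hw⟩ := n
  exact ((infinite_of_mem_nhds w (o.mem_nhds hw)).sdiff hQ).nonempty

theorem jc_neg (h : JCross phi F u v) {l l' : ℂ} {n n' : ℤ} (hl : Wj phi F l n) (hn : n < 0)
    (hl' : Wj phi F l' n') (hn' : 0 < n') : ¬ BIR H2 (IsToeplitz phi) := by
  have hb := memLp_pwj h.toPwJ
  set K := Gam phi F u v with hKdef
  have hKd : Dense Kᶜ := gam_dense h.toPwJ
  have hoff : ∀ l ∉ K, ∃ n : ℤ, Ix phi l n := fun l hl => by
    obtain ⟨n, hn⟩ := exists_wj h.toPwJ hl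
    exact ⟨n, wj_ix h.toPwJ hn⟩
  have o1 : IsOpen (Up phi) := by
    rw [isOpen_iff_mem_nhds]
    rintro w ⟨k, hk, hw⟩
    filter_upwards [hw.nhds hb] with w' hw'
    exact ⟨k, hk, hw'⟩
  have o2 : IsOpen (Um phi) := by
    rw [isOpen_iff_mem_nhds]
    rintro w ⟨k, hk, hw⟩
    filter_upwards [hw.nhds hb] with w' hw'
    exact ⟨k, hk, hw'⟩
  have n1 : (Up phi).Nonempty := ⟨l', n', hn', wj_ix h.toPwJ hl'⟩
  have n2 : (Um phi).Nonempty := ⟨l, n, hn, wj_ix h.toPwJ hl⟩
  -- simple points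
  have hsm : ∀ z ∈ sphere (0 : ℂ) 1, z ∉ F → z ∉ NN phi F → ∃ x : ℤ, Sides phi K (phi z) x := by
    intro z hz hzF hzN
    obtain ⟨x, hx⟩ := exists_sm (z := z) h.toPwJ (mem_sphere_zero_iff_norm.1 hz) hzF
      (fun t ht => h.sep t ht z hz hzF) (fun z' hz' hzF' hq => by
        by_contra hne
        exact hzN ⟨hz, hzF, z', mem_sphere_zero_iff_norm.2 hz', hzF', hq, hne⟩)
    exact ⟨x, sm_sides hb hoff hx⟩
  -- the curve is in the closure
  have hKcl : K ⊆ closure (Up phi ∪ Um phi) := by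
    rintro q (⟨z, ⟨hz, hzF⟩, rfl⟩ | hq)
    · have hd := ngj_dense ((F.finite_toSet).union (ngj_nn h)) hz
      have hc : ContinuousWithinAt phi (sphere (0 : ℂ) 1 \ (↑F ∪ NN phi F)) z :=
        ((h.reg z hz hzF).1.continuousAt).continuousWithinAt
      have h1 := hc.mem_closure_image hd
      have h2 : phi '' (sphere (0 : ℂ) 1 \ (↑F ∪ NN phi F)) ⊆ closure (Up phi ∪ Um phi) := by
        rintro q ⟨w, ⟨hw, hwT⟩, rfl⟩
        obtain ⟨x, hx⟩ := hsm w hw (fun h3 => hwT (Or.inl h3)) (fun h3 => hwT (Or.inr h3))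
        exact ngj_sides hx
      exact closure_minimal h2 isClosed_closure h1
    · rw [mem_iUnion₂] at hq
      obtain ⟨t, ht, hqt⟩ := hq
      obtain ⟨m, hm⟩ := jc_sides h ht hqt
      exact ngj_sides hm
  have hsub : Spec phi ⊆ closure (Up phi) ∪ closure (Um phi) := by
    intro q hq
    rw [← closure_union]
    by_cases hqK : q ∈ K
    · exact hKcl hqK
    · obtain ⟨k, hk⟩ := hoff q hqK
      rw [spec_ix hb] at hq
      refine subset_closure ?_
      rcases lt_trichotomy k 0 with h0 | h0 | h0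
      · exact Or.inr ⟨k, h0, hk⟩
      · rw [h0] at hk
        exact (hq hk).elim
      · exact Or.inl ⟨k, h0, hk⟩
  have hS1 : Up phi ⊆ Spec phi := by
    rintro q ⟨k, hk, hq⟩
    rw [spec_ix hb]
    intro h0
    have := hq.unique h0
    omega
  have hS2 : Um phi ⊆ Spec phi := by
    rintro q ⟨k, hk, hq⟩
    rw [spec_ix hb]
    intro h0
    have := hq.unique h0
    omega
  -- the common points
  have hQ : ∀ q ∈ closure (Up phi) ∩ closure (Um phi), q ∈ phi '' NN phi F ∧
      ∀ t ∈ F, q ∉ segment ℝ (u t) (v t) := by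
    rintro q ⟨hq1, hq2⟩
    have hseg : ∀ t ∈ F, q ∉ segment ℝ (u t) (v t) := by
      intro t ht hqt
      obtain ⟨m, hm⟩ := jc_sides h ht hqt
      exact ngj_not hKd o1 o2 hm hq1 hq2
    refine ⟨?_, hseg⟩
    by_cases hqK : q ∈ K
    · rcases hqK with ⟨z, ⟨hz, hzF⟩, rfl⟩ | hq
      · by_cases hzN : z ∈ NN phi F
        · exact ⟨z, hzN, rfl⟩
        · obtain ⟨x, hx⟩ := hsm z hz hzF hzN
          exact (ngj_not hKd o1 o2 hx hq1 hq2).elim
      · rw [mem_iUnion₂] at hq
        obtain ⟨t, ht, hqt⟩ := hq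
        exact (hseg t ht hqt).elim
    · obtain ⟨k, hk⟩ := hoff q hqK
      obtain ⟨V, hV, hVo, hqV⟩ := _root_.eventually_nhds_iff.1 (hk.nhds hb)
      obtain ⟨w, hwV, ⟨i, hi, hw⟩⟩ := mem_closure_iff.1 hq1 V hVo hqV
      obtain ⟨w', hwV', ⟨j, hj, hw'⟩⟩ := mem_closure_iff.1 hq2 V hVo hqV
      have h1 := hw.unique (hV w hwV)
      have h2 := hw'.unique (hV w' hwV')
      omega
  have hfin : (closure (Up phi) ∩ closure (Um phi)).Finite :=
    ((ngj_nn h).image phi).subset fun q hq => (hQ q hq).1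
  have hne : ∀ U : Set ℂ, IsOpen U → U.Nonempty → U ⊆ Spec phi →
      ((Spec phi \ (closure (Up phi) ∩ closure (Um phi))) ∩ closure U).Nonempty := by
    intro U o n hUO
    obtain ⟨w, hw, hwQ⟩ := ngj_nonempty o n hfin
    exact ⟨w, ⟨hUO hw, hwQ⟩, subset_closure hw⟩
  refine (main_disc hb hfin (fun q hq => Or.inl ?_) ?_).2
  · obtain ⟨x, hx⟩ := exists_iq h.toPwJ (hQ q hq).2
    exact reg1_of_iq hb hx
  · intro hpre
    rw [isPreconnected_closed_iff] at hpre
    obtain ⟨y, hy, hy'⟩ := hpre (closure (Up phi)) (closure (Um phi)) isClosed_closure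
      isClosed_closure (sdiff_subset.trans hsub) (hne _ o1 n1 hS1) (hne _ o2 n2 hS2)
    exact hy.2 hy'

end Pool.Agent.TBirJ
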