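import Pool.Agent.TBirJ.Sgj
import Pool.Agent.TBirJ.DiscA

/-!
# Removal on the segments

Notation as in Sgj.lean (proof of `seg_local`). `rem_seg`: the same `n` (`≥ 0` by `hnn` and `seg_local`). `a z = exp (Complex.log (1 - z / t) / 2)` is continuous on the closed disc, `a t = 0` (as a function on the circle it is a symbol `a`, plus: it is the uniform limit of `(1 - r z / t)^(1/2)`, `r < 1`, whose Fourier series are power series).
`w = conj a / a = exp (i (pi - y) / 2)`, so `z ^ (-n) * w * (phi - q) = exp (g + sum kap * ch + i (pi - y) / 2)` is of the normal form with `kap t + pi * I` at `t` (imaginary part `0`): `U q` is a unit, `U l = TM (mf (z ^ (-n) * w * (phi - l)))` is affine in `l`, a unit near `q`, `V l = Ring.inverse (U l)` is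
differentiable. `T (conj a) * (Tp phi - l) = TM (mf (conj a * (phi - l))) = TM (mf (z ^ (-n) w (phi - l)) * mul (z ^ n a)) = U l * T (fourier n * a)` (`TM_minus`, `TM_plus`). So `T (fourier n * a) (hh l) = V l (T (conj a) f)` and `ev z` of the left side is `z ^ n * a z * ev z (hh l)`:
`G l = ev z (V l (T (conj a) f)) / (z ^ n * a z)`.
-/

set_option autoImplicit false

open MeasureTheory Complex Set Filter Topology Metric AddCircle
open scoped ComplexConjugate InnerProductSpace ENNReal

namespace Pool.Agent.TBirJ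

open Pool.Agent.TBir Pool.Agent.TBirG Pool.Agent.TBirC
open Pool.Agent.TBirP (E qT)

variable {phi : ℂ → ℂ} {F : Finset ℂ} {u v : ℂ → ℂ} {q t : ℂ}

namespace SgkAux

open Pool.Agent.TBirC.PsiAux IxAux

/-- the square root of `1 - z / t` -/
noncomputable def aF (t z : ℂ) : ℂ := (1 - z / t) ^ (1 / 2 : ℂ)

/-- the argument of `1 - z / t` -/
noncomputable def th (t z : ℂ) : ℝ := arg (1 - z / t)

/-- the quotient of the conjugate of `aF` and `aF` -/
noncomputable def wF (t z : ℂ) : ℂ := exp (-((th t z : ℂ) * I))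

theorem re_nonneg {t z : ℂ} (ht : ‖t‖ = 1) (hz : ‖z‖ ≤ 1) : 0 ≤ (1 - z / t).re := by
  have h1 : (z / t).re ≤ ‖z / t‖ := Complex.re_le_norm _
  rw [norm_div, ht, div_one] at h1
  rw [sub_re, one_re]
  linarith

theorem slit {t z : ℂ} (ht : ‖t‖ = 1) (hz : ‖z‖ ≤ 1) (hzt : z ≠ t) : 1 - z / t ∈ slitPlane := by
  have ht0 : t ≠ 0 := by
    intro h
    rw [h, norm_zero] at ht
    exact zero_ne_one ht
  rw [mem_slitPlane_iff]
  by_contra hcon
  push Not at hcon
  obtain ⟨h1, h2⟩ := hcon
  have h3 := re_nonneg ht hz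
  have h4 : 1 - z / t = 0 := Complex.ext (le_antisymm h1 h3) h2
  apply hzt
  field_simp at h4
  linear_combination -h4

theorem aF_ne {t z : ℂ} (ht : ‖t‖ = 1) (hz : ‖z‖ ≤ 1) (hzt : z ≠ t) : aF t z ≠ 0 := by
  unfold aF
  rw [Ne, cpow_eq_zero_iff]
  rintro ⟨h, -⟩
  exact slitPlane_ne_zero (slit ht hz hzt) h

theorem aF_cont {t : ℂ} (ht : ‖t‖ = 1) : ContinuousOn (aF t) (closedBall 0 1) := by
  intro z hz
  rw [mem_closedBall_zero_iff] at hz
  have h1 : ContinuousAt (fun x : ℂ => x ^ (1 / 2 : ℂ)) (1 - z / t) :=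
    continuousAt_cpow_const_of_re_pos (Or.inl (re_nonneg ht hz)) (by norm_num)
  have h2 : ContinuousAt (fun z : ℂ => 1 - z / t) z := by fun_prop
  exact (ContinuousAt.comp (f := fun z : ℂ => 1 - z / t) (g := fun x : ℂ => x ^ (1 / 2 : ℂ)) h1
    h2).continuousWithinAt

theorem aF_diff {t : ℂ} (ht : ‖t‖ = 1) : DifferentiableOn ℂ (aF t) (ball 0 1) := by
  intro z hz
  rw [mem_ball_zero_iff] at hz
  have hzt : z ≠ t := by
    rintro rfl
    linarith
  have h2 : DifferentiableAt ℂ (fun z : ℂ => 1 - z / t) z := by fun_prop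
  exact (h2.cpow_const (slit ht hz.le hzt)).differentiableWithinAt

theorem conj_aF (t z : ℂ) : conj (aF t z) = wF t z * aF t z := by
  unfold aF wF th
  by_cases h : 1 - z / t = 0
  · rw [h, zero_cpow (by norm_num), map_zero, mul_zero]
  · rw [cpow_def_of_ne_zero h, ← exp_conj, ← Complex.exp_add]
    congr 1
    rw [map_mul]
    have h1 : conj (Complex.log (1 - z / t)) = Complex.log (1 - z / t) -
        2 * ((arg (1 - z / t) : ℂ) * I) := by
      apply Complex.ext
      · simp [Complex.log_re]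
      · simp [Complex.log_im]
        ring
    rw [h1]
    have h2 : conj (1 / 2 : ℂ) = 1 / 2 := by
      have h3 : (1 / 2 : ℂ) = ((1 / 2 : ℝ) : ℂ) := by
        push_cast
        rfl
      rw [h3, conj_ofReal]
    rw [h2]
    ring

theorem norm_wF (t z : ℂ) : ‖wF t z‖ = 1 := by
  unfold wF
  rw [← neg_mul, ← ofReal_neg]
  exact Complex.norm_exp_ofReal_mul_I _

theorem wF_ne (t z : ℂ) : wF t z ≠ 0 := exp_ne_zero _

theorem meas_wF (t : ℂ) : Measurable (wF t) := by
  unfold wF th
  have h1 : Measurable fun z : ℂ => arg (1 - z / t) :=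
    Complex.measurable_arg.comp (by fun_prop)
  fun_prop

theorem memLp_wF (t : ℂ) : MemLp (fun x : UnitAddCircle => wF t (e x)) ∞ mu0 := by
  refine memLp_top_of_bound ?_ 1 ?_
  · exact ((meas_wF t).comp cont_e.measurable).aestronglyMeasurable
  · exact Filter.Eventually.of_forall fun x => (norm_wF t _).le

theorem th_cont {t z : ℂ} (ht : ‖t‖ = 1) (hz : ‖z‖ ≤ 1) (hzt : z ≠ t) : ContinuousAt (th t) z := by
  unfold th
  have h2 : ContinuousAt (fun z : ℂ => 1 - z / t) z := by fun_prop
  exact ContinuousAt.comp (f := fun z : ℂ => 1 - z / t) (g := arg)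
    (continuousAt_arg (slit ht hz hzt)) h2

theorem wF_cont {t z : ℂ} (ht : ‖t‖ = 1) (hz : ‖z‖ ≤ 1) (hzt : z ≠ t) : ContinuousAt (wF t) z := by
  unfold wF
  have h1 := th_cont ht hz hzt
  have h2 : ContinuousAt (fun z => ((th t z : ℝ) : ℂ)) z :=
    Complex.continuous_ofReal.continuousAt.comp h1
  exact (Complex.continuous_exp.continuousAt).comp ((h2.mul continuousAt_const).neg)

theorem norm_E (x : ℝ) : ‖E x‖ = 1 := Complex.norm_exp_ofReal_mul_I x

theorem E_ne (x : ℝ) : E x ≠ 0 := exp_ne_zero _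

theorem E_tend (s : ℝ) : Tendsto (fun x : ℝ => E (s * x)) (𝓝[>] 0) (𝓝 1) := by
  have h1 : Continuous fun x : ℝ => E (s * x) := by
    unfold Pool.Agent.TBirP.E
    fun_prop
  have h2 := (h1.tendsto 0).mono_left (nhdsWithin_le_nhds (s := Ioi 0))
  simpa [Pool.Agent.TBirP.E] using h2

theorem th_right {t : ℂ} (ht : ‖t‖ = 1) :
    Tendsto (fun x : ℝ => th t (t * E x)) (𝓝[>] 0) (𝓝 (-(Real.pi / 2))) := by
  have ht0 : t ≠ 0 := by
    intro h
    rw [h, norm_zero] at ht
    exact zero_ne_one ht
  have h1 : Tendsto (fun x : ℝ => (x - Real.pi) / 2) (𝓝[>] 0) (𝓝 (-(Real.pi / 2))) := by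
    have h2 : Continuous fun x : ℝ => (x - Real.pi) / 2 := by fun_prop
    have h3 := (h2.tendsto 0).mono_left (nhdsWithin_le_nhds (s := Ioi 0))
    have h4 : (0 - Real.pi) / 2 = -(Real.pi / 2) := by ring
    rwa [h4] at h3
  refine h1.congr' ?_
  have h5 : ∀ᶠ x : ℝ in 𝓝[>] 0, x < Real.pi :=
    nhdsWithin_le_nhds (Iio_mem_nhds Real.pi_pos)
  filter_upwards [h5, self_mem_nhdsWithin] with x hx hx0
  rw [mem_Ioi] at hx0
  unfold th
  have h6 : 1 - t * E x / t = ((2 * Real.sin (x / 2) : ℝ) : ℂ) *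
      (Complex.cos (((x - Real.pi) / 2 : ℝ) : ℂ) + Complex.sin (((x - Real.pi) / 2 : ℝ) : ℂ) * I) := by
    have e1 : t * E x / t = E x := by field_simp
    have e2 : E x = Complex.cos x + Complex.sin x * I := by
      unfold Pool.Agent.TBirP.E
      exact Complex.exp_mul_I _
    rw [e1, e2, ← Complex.ofReal_cos, ← Complex.ofReal_sin, ← Complex.ofReal_cos,
      ← Complex.ofReal_sin]
    have e3 : Real.cos ((x - Real.pi) / 2) = Real.sin (x / 2) := by
      rw [sub_div, Real.cos_sub_pi_div_two]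
    have e4 : Real.sin ((x - Real.pi) / 2) = -Real.cos (x / 2) := by
      rw [sub_div, Real.sin_sub_pi_div_two]
    have e5 : Real.cos x = 1 - 2 * Real.sin (x / 2) ^ 2 := by
      have := Real.cos_two_mul (x / 2)
      rw [mul_div_cancel₀ x (two_ne_zero)] at this
      have h7 := Real.sin_sq_add_cos_sq (x / 2)
      linarith
    have e6 : Real.sin x = 2 * Real.sin (x / 2) * Real.cos (x / 2) := by
      have := Real.sin_two_mul (x / 2)
      rwa [mul_div_cancel₀ x (two_ne_zero)] at this
    rw [e3, e4, e5, e6]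
    push_cast
    ring
  rw [h6]
  symm
  apply Complex.arg_mul_cos_add_sin_mul_I
  · have : 0 < Real.sin (x / 2) := Real.sin_pos_of_pos_of_lt_pi (by linarith) (by linarith)
    positivity
  · constructor <;> linarith [Real.pi_pos]

theorem th_left {t : ℂ} (ht : ‖t‖ = 1) :
    Tendsto (fun x : ℝ => th t (t * E (-x))) (𝓝[>] 0) (𝓝 (Real.pi / 2)) := by
  have ht0 : t ≠ 0 := by
    intro h
    rw [h, norm_zero] at ht
    exact zero_ne_one ht
  have h1 := (th_right ht).neg
  rw [neg_neg] at h1
  refine h1.congr' ?_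
  have h5 : ∀ᶠ x : ℝ in 𝓝[>] 0, x < Real.pi :=
    nhdsWithin_le_nhds (Iio_mem_nhds Real.pi_pos)
  filter_upwards [h5, self_mem_nhdsWithin] with x hx hx0
  rw [mem_Ioi] at hx0
  unfold th
  have e1 : ∀ y : ℝ, t * E y / t = E y := fun y => by field_simp
  have e2 : E (-x) = conj (E x) := by
    unfold Pool.Agent.TBirP.E
    rw [← exp_conj, map_mul, conj_I, conj_ofReal]
    push_cast
    ring_nf
  have e3 : (1 : ℂ) - E (-x) = conj (1 - E x) := by rw [map_sub, map_one, e2]
  have hne : E x ≠ t⁻¹ * t := by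
    rw [inv_mul_cancel₀ ht0]
    unfold Pool.Agent.TBirP.E
    intro h
    rw [Complex.exp_eq_one_iff] at h
    obtain ⟨n, hn⟩ := h
    have h8 : (x : ℂ) = ((n * (2 * Real.pi) : ℝ) : ℂ) := by
      have h9 := mul_right_cancel₀ I_ne_zero (hn.trans (by ring : (n : ℂ) * (2 * Real.pi * I) =
        (n * (2 * Real.pi)) * I))
      rw [h9]
      push_cast
      ring
    have h9 : x = n * (2 * Real.pi) := by exact_mod_cast h8
    have h10 : (0 : ℝ) < n := by
      by_contra hcon
      push Not at hcon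
      nlinarith [Real.pi_pos]
    have h11 : (1 : ℝ) ≤ n := by exact_mod_cast (by exact_mod_cast h10 : (0 : ℤ) < n)
    nlinarith [Real.pi_pos]
  have hsl : 1 - E x ∈ slitPlane := by
    have h7 := slit (t := 1) (z := E x) (by simp) (norm_E x).le (by
      rw [inv_mul_cancel₀ ht0] at hne
      exact hne)
    rwa [div_one] at h7
  rw [e1, e1, e3, arg_conj, if_neg]
  intro h
  rw [mem_slitPlane_iff_arg] at hsl
  exact hsl.1 h

theorem wF_right {t : ℂ} (ht : ‖t‖ = 1) :
    Tendsto (fun x : ℝ => wF t (t * E x)) (𝓝[>] 0) (𝓝 I) := by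
  unfold wF
  have h1 : Tendsto (fun x : ℝ => -((th t (t * E x) : ℂ) * I)) (𝓝[>] 0)
      (𝓝 (-(((-(Real.pi / 2) : ℝ) : ℂ) * I))) :=
    (((Complex.continuous_ofReal.tendsto _).comp (th_right ht)).mul_const I).neg
  have h2 := (Complex.continuous_exp.tendsto _).comp h1
  have h3 : exp (-(((-(Real.pi / 2) : ℝ) : ℂ) * I)) = I := by
    have : -(((-(Real.pi / 2) : ℝ) : ℂ) * I) = (Real.pi : ℂ) / 2 * I := by
      push_cast
      ring
    rw [this, Complex.exp_pi_div_two_mul_I]
  rw [h3] at h2
  exact h2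

theorem wF_left {t : ℂ} (ht : ‖t‖ = 1) :
    Tendsto (fun x : ℝ => wF t (t * E (-x))) (𝓝[>] 0) (𝓝 (-I)) := by
  unfold wF
  have h1 : Tendsto (fun x : ℝ => -((th t (t * E (-x)) : ℂ) * I)) (𝓝[>] 0)
      (𝓝 (-(((Real.pi / 2 : ℝ) : ℂ) * I))) :=
    (((Complex.continuous_ofReal.tendsto _).comp (th_left ht)).mul_const I).neg
  have h2 := (Complex.continuous_exp.tendsto _).comp h1
  have h3 : exp (-(((Real.pi / 2 : ℝ) : ℂ) * I)) = -I := by
    have : -(((Real.pi / 2 : ℝ) : ℂ) * I) = -(Real.pi : ℂ) / 2 * I := by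
      push_cast
      ring
    rw [this, Complex.exp_neg_pi_div_two_mul_I]
  rw [h3] at h2
  exact h2

/-- the factor in front of the quotient of the one-sided limits -/
noncomputable def sg (t t' : ℂ) : ℂ := if t' = t then -1 else 1

theorem sg_ne (t t' : ℂ) : sg t t' ≠ 0 := by
  unfold sg
  split_ifs <;> norm_num

/-- the normal form of `w (phi - l)` -/
theorem nf (h : PwJ phi F u v) (ht : ‖t‖ = 1) {r : ℝ} (hr : Rad F r) {l : ℂ}
    (hu : ∀ t' ∈ F, u t' ≠ l) (hv : ∀ t' ∈ F, v t' ≠ l)
    (h0 : ∀ z ∈ sphere (0 : ℂ) 1, z ∉ F → phi z ≠ l) (htF : t ∈ F) {kap : ℂ → ℂ}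
    (hk : ∀ t' ∈ F, exp (kap t') = sg t t' * ((v t' - l) / (u t' - l))) :
    ∃ (n : ℤ) (g : ℂ → ℂ), ContinuousOn g (sphere 0 1) ∧ ∀ z ∈ sphere (0 : ℂ) 1, z ∉ F →
      wF t z * (phi z - l) = z ^ n * exp (g z + ∑ t' ∈ F, kap t' * (ch r t' z : ℂ)) := by
  have hEr : ∀ t' : ℂ, Tendsto (fun x : ℝ => t' * E x) (𝓝[>] 0) (𝓝 t') := by
    intro t'
    have h1 := (E_tend 1).const_mul t'
    simpa using h1
  have hEl : ∀ t' : ℂ, Tendsto (fun x : ℝ => t' * E (-x)) (𝓝[>] 0) (𝓝 t') := by
    intro t'
    have h1 := (E_tend (-1)).const_mul t'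
    simpa using h1
  refine normal_form (F := F) (psi := fun z => wF t z * (phi z - l)) h.circ hr ?_ ?_
    (a := fun t' => (if t' = t then -I else wF t t') * (u t' - l))
    (b := fun t' => (if t' = t then I else wF t t') * (v t' - l)) ?_ ?_ ?_ ?_ ?_
  · intro z hz
    have hz1 : ‖z‖ = 1 := mem_sphere_zero_iff_norm.1 hz.1
    have hzt : z ≠ t := by
      rintro rfl
      exact hz.2 htF
    exact ((wF_cont ht hz1.le hzt).continuousWithinAt).mul
      ((h.cont z hz).sub continuousWithinAt_const)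
  · intro z hz hzF
    exact mul_ne_zero (wF_ne _ _) (sub_ne_zero.2 (h0 z hz hzF))
  · intro t' ht'
    have h1 := (h.lim_left ht').sub_const l
    by_cases htt : t' = t
    · subst htt
      rw [if_pos rfl]
      exact (wF_left ht).mul h1
    · rw [if_neg htt]
      have h2 := (wF_cont ht (h.circ t' ht').le htt).tendsto.comp (hEl t')
      exact h2.mul h1
  · intro t' ht'
    have h1 := (h.lim_right ht').sub_const l
    by_cases htt : t' = t
    · subst htt
      rw [if_pos rfl]
      exact (wF_right ht).mul h1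
    · rw [if_neg htt]
      have h2 := (wF_cont ht (h.circ t' ht').le htt).tendsto.comp (hEr t')
      exact h2.mul h1
  · intro t' ht'
    refine mul_ne_zero ?_ (sub_ne_zero.2 (hu t' ht'))
    split_ifs
    · exact neg_ne_zero.2 I_ne_zero
    · exact wF_ne _ _
  · intro t' ht'
    refine mul_ne_zero ?_ (sub_ne_zero.2 (hv t' ht'))
    split_ifs
    · exact I_ne_zero
    · exact wF_ne _ _
  · intro t' ht'
    rw [hk t' ht']
    have h1 : u t' - l ≠ 0 := sub_ne_zero.2 (hu t' ht')
    unfold sg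
    split_ifs
    · have := I_ne_zero
      field_simp
    · have := wF_ne t t'
      field_simp

theorem ae_F (F : Finset ℂ) : ∀ᵐ x : UnitAddCircle ∂mu0, e x ∉ F := by
  rw [ae_iff]
  apply null
  have h1 : {x : UnitAddCircle | ¬ e x ∉ F} = e ⁻¹' (F : Set ℂ) := by
    ext x
    simp
  rw [h1]
  exact F.finite_toSet.preimage (fun x _ y _ hxy => e_inj hxy)

theorem unit_of_nf (hF : ∀ t ∈ F, ‖t‖ = 1) {r : ℝ} (hr : Rad F r) {psi : ℂ → ℂ} {n : ℤ}
    {g kap : ℂ → ℂ} (hg : ContinuousOn g (sphere 0 1)) (hk : ∀ t ∈ F, |(kap t).im| < Real.pi)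
    (h : ∀ z ∈ sphere (0 : ℂ) 1, z ∉ F →
      psi z = z ^ n * exp (g z + ∑ t ∈ F, kap t * (ch r t z : ℂ))) :
    IsUnit (TM (mf fun x => e x ^ (-n) * psi (e x))) := by
  have h1 := isUnit_expJ hF hr hg hk
  have h2 : mf (fun x => e x ^ (-n) * psi (e x)) =
      mf (fun x => exp (g (e x) + ∑ t ∈ F, kap t * (ch r t (e x) : ℂ))) := by
    apply mf_congr
    filter_upwards [ae_F F] with x hx
    rw [h (e x) (mem_sphere_zero_iff_norm.2 (norm_e' x)) hx, ← mul_assoc, ← zpow_add₀ (e_ne x),
      neg_add_cancel, zpow_zero, one_mul]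
  rw [h2]
  exact h1

theorem im_log_lt {x : ℂ} (hx : x ∈ slitPlane) : |(Complex.log x).im| < Real.pi := by
  rw [Complex.log_im, abs_lt]
  rw [mem_slitPlane_iff_arg] at hx
  exact ⟨neg_pi_lt_arg x, lt_of_le_of_ne (arg_le_pi x) hx.1⟩

theorem slit_ratio {a b l : ℂ} (h : l ∉ segment ℝ a b) : (b - l) / (a - l) ∈ slitPlane := by
  have ha : a - l ≠ 0 := by
    intro h0
    apply h
    rw [← sub_eq_zero.1 h0]
    exact left_mem_segment ℝ a b
  rw [mem_slitPlane_iff]
  by_contra hcon
  push Not at hcon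
  obtain ⟨h1, h2⟩ := hcon
  set c : ℝ := -((b - l) / (a - l)).re with hc
  have hc0 : 0 ≤ c := by rw [hc]; linarith
  have h3 : (b - l) / (a - l) = -(c : ℂ) := by
    apply Complex.ext
    · rw [hc]
      simp
    · rw [h2]
      simp
  have h4 : b - l = -(c : ℂ) * (a - l) := by
    rw [← h3]
    field_simp
  apply h
  have h5 : (0 : ℝ) < 1 + c := by linarith
  refine ⟨c / (1 + c), 1 / (1 + c), by positivity, by positivity, ?_, ?_⟩
  · field_simp
    ring
  · have h6 : (1 + (c : ℂ)) ≠ 0 := by exact_mod_cast h5.ne'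
    simp only [Complex.real_smul]
    push_cast
    field_simp
    linear_combination h4

theorem opp_ratio {a b q : ℂ} (hq : q ∈ segment ℝ a b) (h1 : q ≠ a) (h2 : q ≠ b) :
    ∃ c : ℝ, 0 < c ∧ (b - q) / (a - q) = -(c : ℂ) := by
  obtain ⟨x, y, hx, hy, hxy, hq⟩ := hq
  simp only [Complex.real_smul] at hq
  have hx' : (x : ℂ) + y = 1 := by exact_mod_cast hxy
  have hx0 : 0 < x := by
    rcases hx.lt_or_eq with h | h
    · exact h
    · exfalso
      apply h2
      rw [← hq, ← h]
      rw [← h] at hx'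
      push_cast at hx' ⊢
      rw [zero_add] at hx'
      rw [hx']
      ring
  have hy0 : 0 < y := by
    rcases hy.lt_or_eq with h | h
    · exact h
    · exfalso
      apply h1
      rw [← hq, ← h]
      rw [← h] at hx'
      push_cast at hx' ⊢
      rw [add_zero] at hx'
      rw [hx']
      ring
  refine ⟨x / y, by positivity, ?_⟩
  have ha : a - q ≠ 0 := sub_ne_zero.2 h1.symm
  have hyc : (y : ℂ) ≠ 0 := by exact_mod_cast hy0.ne'
  rw [div_eq_iff ha]
  push_cast
  field_simp
  linear_combination hq - q * hx'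

theorem plus_minus {A : CT} (hA : Plus A) : Minus (star A) := by
  intro n hn
  rw [fourierCoeff_star, hA (-n) (by omega), map_zero]

/-- the continuous part of the logarithm of `w` -/
theorem gw_exists (ht : ‖t‖ = 1) {r : ℝ} (hr0 : 0 < r) (hr1 : r < Real.pi) :
    ∃ g : ℂ → ℂ, ContinuousOn g (sphere 0 1) ∧ ∀ z ∈ sphere (0 : ℂ) 1, z ≠ t →
      g z = (th t z : ℂ) * I + Real.pi * I * (ch r t z : ℂ) := by
  have hR : Tendsto (fun x : ℝ => (th t (t * E x) : ℂ) * I + Real.pi * I * (ch r t (t * E x) : ℂ))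
      (𝓝[>] 0) (𝓝 0) := by
    have h1 := (((Complex.continuous_ofReal.tendsto _).comp (th_right ht)).mul_const I).add
      (((Complex.continuous_ofReal.tendsto _).comp (ch_right hr0 ht)).const_mul ((Real.pi : ℂ) * I))
    have h2 : ((-(Real.pi / 2) : ℝ) : ℂ) * I + Real.pi * I * ((1 / 2 : ℝ) : ℂ) = 0 := by
      push_cast
      ring
    rw [h2] at h1
    exact h1
  have hL : Tendsto (fun x : ℝ => (th t (t * E (-x)) : ℂ) * I +
      Real.pi * I * (ch r t (t * E (-x)) : ℂ)) (𝓝[>] 0) (𝓝 0) := by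
    have h1 := (((Complex.continuous_ofReal.tendsto _).comp (th_left ht)).mul_const I).add
      (((Complex.continuous_ofReal.tendsto _).comp (ch_left hr0 ht)).const_mul ((Real.pi : ℂ) * I))
    have h2 : ((Real.pi / 2 : ℝ) : ℂ) * I + Real.pi * I * ((-(1 / 2) : ℝ) : ℂ) = 0 := by
      push_cast
      ring
    rw [h2] at h1
    exact h1
  obtain ⟨g, hg, hg1, -⟩ := ext_cont (F := {t})
    (G := fun z => (th t z : ℂ) * I + Real.pi * I * (ch r t z : ℂ)) (by
      intro t' ht'
      rw [Finset.mem_singleton.1 ht']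
      exact ht) (by
      rw [Finset.coe_singleton]
      refine ContinuousOn.add (ContinuousOn.mul ?_ continuousOn_const)
        (ContinuousOn.mul continuousOn_const ?_)
      · intro z hz
        have hz1 : ‖z‖ = 1 := mem_sphere_zero_iff_norm.1 hz.1
        exact (Complex.continuous_ofReal.continuousAt.comp
          (th_cont ht hz1.le hz.2)).continuousWithinAt
      · exact Complex.continuous_ofReal.comp_continuousOn (ch_cont hr0 hr1 ht)) (by
      intro t' ht'
      rw [Finset.mem_singleton.1 ht']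
      exact ⟨0, hL, hR⟩)
  refine ⟨g, hg, fun z hz hzt => ?_⟩
  exact hg1 z hz (by rwa [Finset.mem_singleton])

/-- from the normal form of `w (phi - l)` to that of `phi - l` -/
theorem ix_of_nf (h : PwJ phi F u v) (ht : t ∈ F) {r : ℝ} (hr : Rad F r) {l : ℂ} {n : ℤ}
    {g kap : ℂ → ℂ} (hg : ContinuousOn g (sphere 0 1))
    (hk : ∀ t' ∈ F, t' ≠ t → |(kap t').im| < Real.pi)
    (hkt : 0 < (kap t).im ∧ (kap t).im < Real.pi)
    (hnf : ∀ z ∈ sphere (0 : ℂ) 1, z ∉ F →
      wF t z * (phi z - l) = z ^ n * exp (g z + ∑ t' ∈ F, kap t' * (ch r t' z : ℂ))) :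
    Ix phi l n := by
  classical
  have ht1 := h.circ t ht
  obtain ⟨gw, hgw, hgw1⟩ := gw_exists ht1 hr.1 hr.2.1
  unfold Ix
  refine unit_of_nf (psi := fun z => phi z - l) h.circ hr (g := fun z => g z + gw z)
    (kap := fun t' => kap t' - if t' = t then (Real.pi : ℂ) * I else 0) (hg.add hgw) ?_ ?_
  · intro t' ht'
    by_cases htt : t' = t
    · subst htt
      simp only [if_true, sub_im, mul_im, ofReal_re, I_im, mul_one, ofReal_im, I_re, mul_zero,
        add_zero]
      rw [abs_lt]
      constructor <;> linarith [hkt.1, hkt.2]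
    · simp only [if_neg htt, sub_zero]
      exact hk t' ht' htt
  · intro z hz hzF
    have hzt : z ≠ t := by
      rintro rfl
      exact hzF ht
    have h1 := hnf z hz hzF
    have h2 := hgw1 z hz hzt
    have h3 : ∑ t' ∈ F, (kap t' - if t' = t then (Real.pi : ℂ) * I else 0) * (ch r t' z : ℂ) =
        ∑ t' ∈ F, kap t' * (ch r t' z : ℂ) - Real.pi * I * (ch r t z : ℂ) := by
      simp only [sub_mul, Finset.sum_sub_distrib, ite_mul, zero_mul]
      rw [Finset.sum_ite_eq' F t, if_pos ht]
    have h4 : exp ((th t z : ℂ) * I) * wF t z = 1 := by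
      unfold wF
      rw [← Complex.exp_add, add_neg_cancel, Complex.exp_zero]
    calc phi z - l = exp ((th t z : ℂ) * I) * (wF t z * (phi z - l)) := by
          rw [← mul_assoc, h4, one_mul]
      _ = z ^ n * (exp ((th t z : ℂ) * I) *
          exp (g z + ∑ t' ∈ F, kap t' * (ch r t' z : ℂ))) := by rw [h1]; ring
      _ = _ := by
          rw [← Complex.exp_add, h3, h2]
          congr 2
          ring

end SgkAux

open SgkAux Pool.Agent.TBirC.PsiAux IxAux

theorem rem_seg (h : PwJ phi F u v) (ht : t ∈ F) (hq : q ∈ segment ℝ (u t) (v t)) (h1 : q ≠ u t)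
    (h2 : q ≠ v t) (h3 : ∀ z ∈ sphere (0 : ℂ) 1, z ∉ F → phi z ≠ q)
    (h4 : ∀ t' ∈ F, t' ≠ t → q ∉ segment ℝ (u t') (v t'))
    (hnn : ∀ l n, Ix phi l n → 0 ≤ n) (K : Set ℂ) : Rem phi K q := by
  classical
  have ht1 := h.circ t ht
  obtain ⟨r, hr⟩ := exists_rad h.circ
  have hb := memLp_pwj h
  obtain ⟨c, hc, hcr⟩ := opp_ratio hq h1 h2
  -- at `q`
  have huq : ∀ t' ∈ F, u t' ≠ q := by
    intro t' ht' h0
    by_cases htt : t' = t
    · subst htt
      exact h1 h0.symm
    · apply h4 t' ht' htt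
      rw [← h0]
      exact left_mem_segment ℝ _ _
  have hvq : ∀ t' ∈ F, v t' ≠ q := by
    intro t' ht' h0
    by_cases htt : t' = t
    · subst htt
      exact h2 h0.symm
    · apply h4 t' ht' htt
      rw [← h0]
      exact right_mem_segment ℝ _ _
  have hexp : ∀ l : ℂ, (∀ t' ∈ F, u t' ≠ l) → (∀ t' ∈ F, v t' ≠ l) → ∀ t' ∈ F,
      exp (Complex.log (sg t t' * ((v t' - l) / (u t' - l)))) =
        sg t t' * ((v t' - l) / (u t' - l)) := by
    intro l hul hvl t' ht'
    apply Complex.exp_log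
    exact mul_ne_zero (sg_ne _ _) (div_ne_zero (sub_ne_zero.2 (hvl t' ht'))
      (sub_ne_zero.2 (hul t' ht')))
  obtain ⟨n, g, hg, hnf⟩ := nf h ht1 hr huq hvq h3 ht (hexp q huq hvq)
  set U : ℂ → Op := fun l => TM (mf fun x => e x ^ (-n) * (wF t (e x) * (phi (e x) - l))) with hU
  have hUq : IsUnit (U q) := by
    refine unit_of_nf (psi := fun z => wF t z * (phi z - q)) h.circ hr hg ?_ hnf
    intro t' ht'
    apply im_log_lt
    by_cases htt : t' = t
    · subst htt
      rw [hcr]
      unfold sg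
      rw [if_pos rfl]
      have h5 : (-1 : ℂ) * -(c : ℂ) = (c : ℂ) := by ring
      rw [h5]
      exact Complex.ofReal_mem_slitPlane.2 hc
    · unfold sg
      rw [if_neg htt, one_mul]
      exact slit_ratio (h4 t' ht' htt)
  -- `U` is affine
  set M0 : Op2 := mf fun x => e x ^ (-n) * (wF t (e x) * phi (e x)) with hM0
  set M1 : Op2 := mf fun x => e x ^ (-n) * wF t (e x) with hM1
  have hw := memLp_wF t
  have hm1 : MemLp (fun x : UnitAddCircle => e x ^ (-n) * wF t (e x)) ∞ mu0 := by
    have h5 := memLp_mul (memLp_ct (fourier (-n))) hw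
    simpa only [four_e] using h5
  have hm0 : MemLp (fun x : UnitAddCircle => e x ^ (-n) * (wF t (e x) * phi (e x))) ∞ mu0 := by
    have h5 := memLp_mul (memLp_ct (fourier (-n))) (memLp_mul hw hb)
    simpa only [four_e] using h5
  have haff' : ∀ l : ℂ, mf (fun x => e x ^ (-n) * (wF t (e x) * (phi (e x) - l))) =
      M0 - l • M1 := by
    intro l
    have h5 : l • M1 = mf (fun x => l * (e x ^ (-n) * wF t (e x))) := by
      rw [mf_mul (memLp_const l) hm1, mf_const, Algebra.algebraMap_eq_smul_one, smul_mul_assoc,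
        one_mul]
    rw [h5, hM0, ← mf_sub hm0 (memLp_mul (memLp_const l) hm1)]
    refine mf_congr (Filter.Eventually.of_forall fun x => ?_)
    simp only
    ring
  have haff : ∀ l : ℂ, U l = TM M0 - l • TM M1 := by
    intro l
    rw [hU]
    simp only
    rw [haff', TM_sub, TM_smul]
  have hUd : Differentiable ℂ U := by
    have h5 : U = fun l => TM M0 - l • TM M1 := funext haff
    rw [h5]
    fun_prop
  obtain ⟨s, hs, hUs⟩ : ∃ s > 0, ∀ l ∈ ball q s, IsUnit (U l) := by
    have h5 : ∀ᶠ l in 𝓝 q, IsUnit (U l) :=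
      hUd.continuous.continuousAt.eventually (Units.isOpen.mem_nhds hUq)
    obtain ⟨s, hs, h6⟩ := Metric.eventually_nhds_iff_ball.1 h5
    exact ⟨s, hs, h6⟩
  -- `n` is not negative
  have hn : 0 ≤ n := by
    have huv : v t - u t ≠ 0 := by
      intro h0
      have h5 : v t = u t := sub_eq_zero.1 h0
      rw [h5, segment_same] at hq
      exact h1 hq
    set O : Set ℂ := ball q s ∩ {l | 0 < ((u t - l) * conj (v t - u t)).im} with hO
    have hOo : IsOpen O := by
      refine isOpen_ball.inter ?_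
      exact isOpen_lt continuous_const (Complex.continuous_im.comp (by fun_prop))
    have hOne : O.Nonempty := by
      obtain ⟨ε, hε, hε1⟩ : ∃ ε : ℝ, 0 < ε ∧ ε * ‖v t - u t‖ < s := by
        refine ⟨s / (2 * ‖v t - u t‖), by positivity, ?_⟩
        have : 0 < ‖v t - u t‖ := norm_pos_iff.2 huv
        field_simp
        linarith
      refine ⟨q - (ε : ℂ) * I * (v t - u t), ?_, ?_⟩
      · rw [mem_ball, dist_eq_norm]
        have h5 : q - (ε : ℂ) * I * (v t - u t) - q = -((ε : ℂ) * I * (v t - u t)) := by ring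
        rw [h5, norm_neg, norm_mul, norm_mul, Complex.norm_I, mul_one, Complex.norm_real,
          Real.norm_eq_abs, abs_of_pos hε]
        exact hε1
      · obtain ⟨x, y, hx, hy, hxy, hq'⟩ := hq
        simp only [Complex.real_smul] at hq'
        have hx' : (x : ℂ) + y = 1 := by exact_mod_cast hxy
        have h5 : u t - (q - (ε : ℂ) * I * (v t - u t)) =
            (-(y : ℂ) + (ε : ℂ) * I) * (v t - u t) := by
          rw [← hq']
          linear_combination (-u t) * hx'
        change 0 < ((u t - (q - (ε : ℂ) * I * (v t - u t))) * conj (v t - u t)).im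
        rw [h5, mul_assoc, Complex.mul_conj]
        have h6 : 0 < Complex.normSq (v t - u t) := Complex.normSq_pos.2 huv
        simp
        positivity
    obtain ⟨l, hlO, hlG⟩ := (gam_dense h).inter_open_nonempty O hOo hOne
    have hlG' : l ∉ Gam phi F u v := hlG
    unfold Gam at hlG'
    rw [mem_union, not_or] at hlG'
    have hseg : ∀ t' ∈ F, l ∉ segment ℝ (u t') (v t') := by
      intro t' ht' hmem
      apply hlG'.2
      rw [mem_iUnion₂]
      exact ⟨t', ht', hmem⟩
    have hphi : ∀ z ∈ sphere (0 : ℂ) 1, z ∉ F → phi z ≠ l := by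
      intro z hz hzF h0
      exact hlG'.1 ⟨z, ⟨hz, hzF⟩, h0⟩
    have hul : ∀ t' ∈ F, u t' ≠ l := fun t' ht' h0 => hseg t' ht' (by
      rw [← h0]
      exact left_mem_segment ℝ _ _)
    have hvl : ∀ t' ∈ F, v t' ≠ l := fun t' ht' h0 => hseg t' ht' (by
      rw [← h0]
      exact right_mem_segment ℝ _ _)
    obtain ⟨n', g', hg', hnf'⟩ := nf h ht1 hr hul hvl hphi ht (hexp l hul hvl)
    -- the imaginary part at `t`
    have him : 0 < (sg t t * ((v t - l) / (u t - l))).im := by
      have hul' : u t - l ≠ 0 := sub_ne_zero.2 (hul t ht)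
      have h5 : sg t t * ((v t - l) / (u t - l)) = -1 - (v t - u t) / (u t - l) := by
        unfold sg
        rw [if_pos rfl]
        field_simp
        ring
      have h6 : ((v t - u t) / (u t - l)).im =
          -(((u t - l) * conj (v t - u t)).im / Complex.normSq (u t - l)) := by
        rw [Complex.div_im, Complex.mul_im, Complex.conj_re, Complex.conj_im]
        ring
      rw [h5, sub_im, h6]
      have h7 : 0 < Complex.normSq (u t - l) := Complex.normSq_pos.2 hul'
      have h8 : 0 < ((u t - l) * conj (v t - u t)).im := hlO.2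
      have h9 : 0 < ((u t - l) * conj (v t - u t)).im / Complex.normSq (u t - l) := by positivity
      have h10 : (-1 : ℂ).im = 0 := by simp
      rw [h10]
      linarith
    have hkt : 0 < (Complex.log (sg t t * ((v t - l) / (u t - l)))).im ∧
        (Complex.log (sg t t * ((v t - l) / (u t - l)))).im < Real.pi := by
      rw [Complex.log_im]
      constructor
      · have h5 : 0 ≤ arg (sg t t * ((v t - l) / (u t - l))) := arg_nonneg_iff.2 him.le
        rcases h5.lt_or_eq with h6 | h6
        · exact h6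
        · exfalso
          have h7 := (arg_eq_zero_iff.1 h6.symm).2
          rw [h7] at him
          exact lt_irrefl _ him
      · refine lt_of_le_of_ne (arg_le_pi _) fun h6 => ?_
        have h7 := (arg_eq_pi_iff.1 h6).2
        rw [h7] at him
        exact lt_irrefl _ him
    have hk : ∀ t' ∈ F, t' ≠ t →
        |(Complex.log (sg t t' * ((v t' - l) / (u t' - l)))).im| < Real.pi := by
      intro t' ht' htt
      apply im_log_lt
      unfold sg
      rw [if_neg htt, one_mul]
      exact slit_ratio (hseg t' ht')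
    have hunit' : IsUnit (TM (mf fun x => e x ^ (-n') * (wF t (e x) * (phi (e x) - l)))) := by
      refine unit_of_nf (psi := fun z => wF t z * (phi z - l)) h.circ hr hg' ?_ hnf'
      intro t' ht'
      by_cases htt : t' = t
      · subst htt
        rw [abs_lt]
        exact ⟨by linarith [hkt.1, Real.pi_pos], hkt.2⟩
      · exact hk t' ht' htt
    have hunit : IsUnit (TM (mf fun x => e x ^ (-n) * (wF t (e x) * (phi (e x) - l)))) :=
      hUs l hlO.1
    have hnn' : n' = n := by
      have i1 : Ix (fun z => wF t z * (phi z - l)) 0 n' := by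
        unfold Ix
        simpa only [sub_zero] using hunit'
      have i2 : Ix (fun z => wF t z * (phi z - l)) 0 n := by
        unfold Ix
        simpa only [sub_zero] using hunit
      exact Ix.unique i1 i2
    subst hnn'
    exact hnn l _ (ix_of_nf h ht hr hg' hk hkt hnf')
  -- the symbol `a`
  have hcont : Continuous fun x : UnitAddCircle => aF t (e x) := by
    refine (aF_cont ht1).comp_continuous cont_e fun x => ?_
    rw [mem_closedBall_zero_iff, norm_e' x]
  set A : CT := ⟨fun x => aF t (e x), hcont⟩ with hA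
  have hAx : ∀ x, A x = aF t (e x) := fun x => rfl
  obtain ⟨hAp, hAev⟩ := disc_alg (aF_cont ht1) (aF_diff ht1) hAx
  have hBp : Plus (fourier n * A) := (plus_fourier hn).mul hAp
  -- the factorisation
  have hfac : ∀ l : ℂ, T (star A) * (Tp phi - l • (1 : Op)) = U l * T (fourier n * A) := by
    intro l
    rw [← tp_sub hb, ← TM_minus _ (plus_minus hAp), hU]
    simp only
    rw [← TM_plus _ hBp]
    congr 1
    have hsym : MemLp (fun x : UnitAddCircle => e x ^ (-n) * (wF t (e x) * (phi (e x) - l))) ∞ mu0 := by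
      have h5 := memLp_mul (memLp_ct (fourier (-n))) (memLp_mul hw (memLp_phi hb l))
      simpa only [four_e] using h5
    rw [← mf_ct, ← mf_ct, ← mf_mul (memLp_ct _) (memLp_phi hb l), ← mf_mul hsym (memLp_ct _)]
    refine mf_congr (Filter.Eventually.of_forall fun x => ?_)
    simp only [ContinuousMap.mul_apply, four_e, hAx]
    have h5 : (star A : CT) x = conj (aF t (e x)) := rfl
    rw [h5, conj_aF]
    have h6 : e x ^ (-n) * e x ^ n = 1 := by
      rw [← zpow_add₀ (e_ne x), neg_add_cancel, zpow_zero]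
    linear_combination (-(wF t (e x) * aF t (e x) * (phi (e x) - l))) * h6
  -- the solutions
  intro f hh hsol z hz hz0
  have hzt : z ≠ t := by
    rintro rfl
    linarith
  have haz : aF t z ≠ 0 := aF_ne ht1 hz.le hzt
  have hzn : z ^ n ≠ 0 := zpow_ne_zero _ hz0
  refine ⟨s, hs, fun l => ev z (Ring.inverse (U l) (T (star A) f)) / (z ^ n * aF t z), ?_, ?_⟩
  · intro l hl
    have h5 : DifferentiableAt ℂ (fun l => Ring.inverse (U l)) l :=
      (differentiableAt_inverse (𝕜 := ℂ) (hUs l hl)).comp l (hUd l)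
    have h6 : DifferentiableAt ℂ (fun l => ev z (Ring.inverse (U l) (T (star A) f))) l := by
      have h7 : DifferentiableAt ℂ (fun l => Ring.inverse (U l) (T (star A) f)) l :=
        h5.clm_apply (differentiableAt_const _)
      exact (ev z).differentiableAt.comp l h7
    exact (h6.div_const _).differentiableWithinAt
  · intro l hl hlK
    have h5 : U l (T (fourier n * A) (hh l)) = T (star A) f := by
      have h6 := congrArg (fun P : Op => P (hh l)) (hfac l)
      have h7 : T (star A) ((Tp phi - l • (1 : Op)) (hh l)) = U l (T (fourier n * A) (hh l)) := h6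
      rw [← h7, hsol l hlK]
    have h6 : Ring.inverse (U l) (T (star A) f) = T (fourier n * A) (hh l) := by
      rw [← h5]
      have h7 : Ring.inverse (U l) * U l = 1 := Ring.inverse_mul_cancel _ (hUs l hl)
      have h8 := congrArg (fun P : Op => P (T (fourier n * A) (hh l))) h7
      exact h8
    simp only
    rw [h6]
    have h7 : ev z (T (fourier n * A) (hh l)) = z ^ n * (aF t z * ev z (hh l)) := by
      have hBx : ∀ x, (fourier n * A : CT) x = e x ^ n * aF t (e x) := by
        intro x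
        rw [ContinuousMap.mul_apply, four_e, hAx]
      obtain ⟨k, rfl⟩ := Int.eq_ofNat_of_zero_le hn
      have h8 := (disc_alg (G := fun z => z ^ k * aF t z) (A := fourier (k : ℤ) * A)
        ((continuous_pow k).continuousOn.mul (aF_cont ht1))
        ((differentiable_pow k).differentiableOn.mul (aF_diff ht1)) (fun x => by
          rw [hBx, zpow_natCast])).2 z hz (hh l)
      rw [h8, zpow_natCast]
      ring
    rw [h7]
    field_simp

end Pool.Agent.TBirJ
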