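import Pool.Agent.TBirJ.Mnj
import Pool.Agent.TBirJ.Gwj
import Pool.Agent.TBirJ.Sgk
import Pool.Agent.TBirJ.Ngj
import Pool.Agent.TBirJ.Adj

/-!
# The criterion for symbols with jumps

`jc_dat`: `K = Gam phi F u v`. `nn`: if `Ix phi l n` then by `Ix.nhds` and `gam_dense` there is `l'` off `K` with `Ix phi l' n`, `exists_wj`, `wj_ix`, `Ix.unique`. `sim`: a point not in `F` which is not simple has a partner, one of the two is in `D`, `pwj_level`; `exists_sm`. `rem`: the exceptions are among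
`u t`, `v t`: off `K` and for `q = phi z`: `exists_iq`, the number `x` is `≥ 0` (a winding number near `q`: for one point over `q` by `exists_sm`, `sm_sides`; for more points by `half`, `iq_half`; for `q` off `K` by `Ix`), `exists_chartJ`, `ChartJ.rem`; on an open segment `rem_seg`. `link`: `t` not in `F`: the first
alternative, as for `rem`; `t ∈ F`: `S` is the segment, `a = u t`, `b = v t` (`jc_sides`, `PwJ.lim_left`, `PwJ.lim_right`). `sides`: only values of points which are not simple. `grow`: `growJ`. `jc_main`: as `pc_main`, `bir_iff_TM`, `ci_pstar`, `exists_unique_TM`.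
-/

set_option autoImplicit false

open MeasureTheory Complex Set Filter Topology Metric AddCircle
open scoped ComplexConjugate InnerProductSpace ENNReal

namespace Pool.Agent.TBirJ

open Pool.Agent.TBir Pool.Agent.TBirG Pool.Agent.TBirC
open Pool.Agent.TBirP (E qT)

variable {phi : ℂ → ℂ} {F : Finset ℂ} {u v : ℂ → ℂ}

/-- An analytic value at a point of `F` is the one-sided limit. -/
private theorem fj_an (h : PwJ phi F u v) {z : ℂ} (hz : z ∈ F) (ha : AnalyticAt ℂ phi z) :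
    phi z = u z := by
  have h1 := h.lim_left hz
  have h2 : Tendsto (fun x : ℝ => phi (z * E (-x))) (𝓝[>] 0) (𝓝 (phi z)) := by
    have h3 : Tendsto (fun x : ℝ => z * E (-x)) (𝓝[>] 0) (𝓝 z) := by
      have h4 : Continuous fun x : ℝ => z * E (-x) := by
        unfold E
        fun_prop
      have h5 := h4.tendsto 0
      have h6 : z * E (-0) = z := by simp [E]
      rw [h6] at h5
      exact h5.mono_left nhdsWithin_le_nhds
    exact ha.continuousAt.tendsto.comp h3
  exact tendsto_nhds_unique h2 h1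

private theorem fj_ix (h : PwJ phi F u v) (hw : ∀ l n, Wj phi F l n → 0 ≤ n) :
    ∀ l n, Ix phi l n → 0 ≤ n := by
  intro l n hl
  have h1 := Ix.nhds (memLp_pwj h) hl
  obtain ⟨l', h2, h3⟩ := (gam_dense h).inter_nhds_nonempty h1
  obtain ⟨n', h4⟩ := exists_wj h h2
  have h3' : Ix phi l' n := h3
  rw [h3'.unique (wj_ix h h4)]
  exact hw l' n' h4

/-- The number of a regular value is nonnegative. -/
private theorem fj_nn (h : JCross phi F u v) (hnn : ∀ l n, Ix phi l n → 0 ≤ n) {q : ℂ} {x : ℤ}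
    (hq : ∀ t ∈ F, q ∉ segment ℝ (u t) (v t)) (hI : Iq phi q x) : 0 ≤ x := by
  have hF : ∀ z : ℂ, ‖z‖ = 1 → AnalyticAt ℂ phi z → phi z = q → z ∉ F := by
    intro z _ ha hz hzF
    apply hq z hzF
    rw [← hz, fj_an h.toPwJ hzF ha]
    exact left_mem_segment ℝ _ _
  obtain ⟨w, hw⟩ : ∃ w : ℂ, ∀ z : ℂ, ‖z‖ = 1 → AnalyticAt ℂ phi z → phi z = q →
      0 < (conj w * (I * (z * deriv phi z))).re := by
    by_cases h1 : ∃ z1 ∈ sphere (0 : ℂ) 1, z1 ∉ F ∧ phi z1 = q
    · obtain ⟨z1, hz1, hz1F, hz1q⟩ := h1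
      by_cases h2 : ∃ z2 ∈ sphere (0 : ℂ) 1, z2 ∉ F ∧ phi z2 = q ∧ z2 ≠ z1
      · obtain ⟨z2, hz2, hz2F, hz2q, hne⟩ := h2
        obtain ⟨w, hw⟩ := h.half z1 hz1 hz1F z2 hz2 hz2F hne.symm (hz1q.trans hz2q.symm)
        exact ⟨w, fun z hz ha hzq => hw z (mem_sphere_zero_iff_norm.2 hz) (hF z hz ha hzq)
          (hzq.trans hz1q.symm)⟩
      · push Not at h2
        refine ⟨I * (z1 * deriv phi z1), fun z hz ha hzq => ?_⟩
        have h3 : z = z1 := h2 z (mem_sphere_zero_iff_norm.2 hz) (hF z hz ha hzq) hzq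
        have hz10 : z1 ≠ 0 := by
          rintro rfl
          rw [mem_sphere_zero_iff_norm, norm_zero] at hz1
          exact zero_ne_one hz1
        rw [h3, ← Complex.normSq_eq_conj_mul_self, Complex.ofReal_re, Complex.normSq_pos]
        exact mul_ne_zero I_ne_zero (mul_ne_zero hz10 (h.reg z1 hz1 hz1F).2)
    · exact ⟨0, fun z hz ha hzq =>
        absurd ⟨z, mem_sphere_zero_iff_norm.2 hz, hF z hz ha hzq, hzq⟩ h1⟩
  obtain ⟨l, hl⟩ := (iq_half (memLp_pwj h.toPwJ) hI hw).exists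
  exact hnn l x hl

private theorem fj_arg {t : ℂ} (ht : ‖t‖ = 1) : Tendsto (fun z : ℂ => arg (z / t)) (𝓝 t) (𝓝 0) := by
  have ht0 : t ≠ 0 := by
    rintro rfl
    rw [norm_zero] at ht
    exact zero_ne_one ht
  have h1 : ContinuousAt arg (t / t) := by
    rw [div_self ht0]
    exact continuousAt_arg (by simp)
  have h2 : ContinuousAt (fun z : ℂ => z / t) t := by fun_prop
  have h3 : ContinuousAt (fun z : ℂ => arg (z / t)) t :=
    ContinuousAt.comp (f := fun z : ℂ => z / t) (g := arg) h1 h2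
  have h4 := h3.tendsto
  rwa [div_self ht0, arg_one] at h4

private theorem fj_arg_eq {t z : ℂ} (ht : ‖t‖ = 1) (hz : ‖z‖ = 1) :
    t * E (arg (z / t)) = z := by
  have ht0 : t ≠ 0 := by
    rintro rfl
    rw [norm_zero] at ht
    exact zero_ne_one ht
  have h4 : ‖z / t‖ = 1 := by
    rw [norm_div, ht, hz, div_one]
  have h5 := Complex.norm_mul_exp_arg_mul_I (z / t)
  rw [h4, ofReal_one, one_mul] at h5
  unfold E
  rw [h5, mul_div_cancel₀ _ ht0]

private theorem fj_near (h : PwJ phi F u v) {t : ℂ} (ht : t ∈ F) {eps : ℝ} (heps : 0 < eps) :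
    ∃ s > 0, ∀ z ∈ ball t s, ‖z‖ = 1 → z ≠ t →
      dist (phi z) (u t) < eps ∨ dist (phi z) (v t) < eps := by
  have htn := h.circ t ht
  have h1 := (h.lim_left ht).eventually (ball_mem_nhds _ heps)
  have h2 := (h.lim_right ht).eventually (ball_mem_nhds _ heps)
  rw [eventually_nhdsWithin_iff] at h1 h2
  obtain ⟨d, hd, h3⟩ := Metric.eventually_nhds_iff_ball.1 (h1.and h2)
  have h4 := (fj_arg htn).eventually (ball_mem_nhds 0 hd)
  obtain ⟨s, hs, h5⟩ := Metric.eventually_nhds_iff_ball.1 h4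
  refine ⟨s, hs, fun z hz hz1 hzt => ?_⟩
  have h6 : arg (z / t) ∈ ball (0 : ℝ) d := h5 z hz
  have h7 := fj_arg_eq htn hz1
  rcases lt_trichotomy (arg (z / t)) 0 with h8 | h8 | h8
  · left
    have h6' : -arg (z / t) ∈ ball (0 : ℝ) d := by
      rw [mem_ball, dist_zero_right] at h6 ⊢
      rwa [norm_neg]
    have h9 := (h3 _ h6').1 (show (0 : ℝ) < -arg (z / t) by linarith)
    rw [neg_neg, h7] at h9
    exact h9
  · exfalso
    apply hzt
    rw [h8] at h7
    rw [← h7]
    simp [E]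
  · right
    have h9 := (h3 _ h6).2 h8
    rw [h7] at h9
    exact h9

/-- The link over a point of `F`. -/
private theorem fj_link (h : JCross phi F u v) (hnn : ∀ l n, Ix phi l n → 0 ≤ n) {t : ℂ}
    (ht : t ∈ F) : LinkOn phi (Gam phi F u v) t (segment ℝ (u t) (v t)) (u t) (v t) := by
  refine ⟨(convex_segment _ _).isPreconnected, left_mem_segment ℝ _ _, right_mem_segment ℝ _ _,
    fun q hq => ?_, fun eps heps => fj_near h.toPwJ ht heps⟩
  obtain ⟨m, hm⟩ := jc_sides h ht hq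
  refine ⟨m, ?_, hm⟩
  obtain ⟨A, B, -, -, -, hB, -, hcB, -⟩ := hm
  obtain ⟨l, hl⟩ := closure_nonempty_iff.1 ⟨q, hcB⟩
  exact hnn l m (hB l hl)

private theorem fj_sim (h : JCross phi F u v) : {z : ℂ | ‖z‖ = 1 ∧ ∀ x, ¬ Sm phi z x}.Finite := by
  obtain ⟨D, hD, hinj⟩ := h.inj
  have hfin : ((F : Set ℂ) ∪ D ∪ ⋃ b ∈ phi '' D, {z : ℂ | z ∈ sphere (0 : ℂ) 1 ∧ z ∉ F ∧
      phi z = b}).Finite := by
    refine ((F.finite_toSet).union hD).union ?_
    exact (hD.image phi).biUnion fun b _ => pwj_level h.toPwJ b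
  refine hfin.subset ?_
  rintro z ⟨hz, hzs⟩
  by_contra hcon
  simp only [mem_union, not_or] at hcon
  obtain ⟨⟨hzF, hzD⟩, hzU⟩ := hcon
  have hzF' : z ∉ F := hzF
  have hzsph : z ∈ sphere (0 : ℂ) 1 := mem_sphere_zero_iff_norm.2 hz
  obtain ⟨x, hx⟩ := exists_sm h.toPwJ hz hzF' (fun t ht => h.sep t ht z hzsph hzF')
    (fun z' hz' hz'F he => by
      by_contra hne
      have hz'D : z' ∉ D := by
        intro hD'
        apply hzU
        exact mem_iUnion₂.2 ⟨phi z', ⟨z', hD', rfl⟩, hzsph, hzF', he.symm⟩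
      apply hne
      refine hinj ⟨mem_sphere_zero_iff_norm.2 hz', ?_⟩ ⟨hzsph, ?_⟩ he
      · rintro (h1 | h1)
        · exact hz'F h1
        · exact hz'D h1
      · rintro (h1 | h1)
        · exact hzF' h1
        · exact hzD h1)
  exact hzs x hx

theorem jc_dat (h : JCross phi F u v) (hw : ∀ l n, Wj phi F l n → 0 ≤ n) :
    Dat phi (Gam phi F u v) := by
  have hb := memLp_pwj h.toPwJ
  have hnn := fj_ix h.toPwJ hw
  have hoff : ∀ l ∉ Gam phi F u v, ∃ n : ℤ, Ix phi l n := by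
    intro l hl
    obtain ⟨n, hn⟩ := exists_wj h.toPwJ hl
    exact ⟨n, wj_ix h.toPwJ hn⟩
  refine
    { hb := hb
      closed := (gam_compact h.toPwJ).isClosed
      ne := gam_ne h.toPwJ
      dense := gam_dense h.toPwJ
      vol := gam_vol h.toPwJ
      null := pwj_null h.toPwJ
      off := hoff
      nn := hnn
      grow := ?_
      sim := fj_sim h
      rem := ?_
      link := ?_
      sides := ?_ }
  · obtain ⟨C, N, hC, hg⟩ := growJ h.toPwJ
    refine ⟨C, N, hC, fun l hl hl1 w => ?_⟩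
    obtain ⟨n, hn⟩ := exists_wj h.toPwJ hl
    exact hg l hl hl1 n (hw l n hn) hn w
  · refine ((F.finite_toSet.image u).union (F.finite_toSet.image v)).subset ?_
    intro q hq
    by_contra hcon
    rw [mem_union, not_or] at hcon
    obtain ⟨hqu, hqv⟩ := hcon
    apply hq
    by_cases hs : ∃ t ∈ F, q ∈ segment ℝ (u t) (v t)
    · obtain ⟨t, ht, hqs⟩ := hs
      refine rem_seg h.toPwJ ht hqs (fun h1 => hqu ⟨t, ht, h1.symm⟩)
        (fun h1 => hqv ⟨t, ht, h1.symm⟩) ?_ ?_ hnn _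
      · intro z hz hzF he
        apply h.sep t ht z hz hzF
        rw [he]
        exact hqs
      · intro t' ht' hne hq'
        exact Set.disjoint_left.1 (h.seg t ht t' ht' hne.symm) hqs hq'
    · push Not at hs
      obtain ⟨x, hI⟩ := exists_iq h.toPwJ hs
      obtain ⟨c, hc⟩ := exists_chartJ hb hI
      exact c.rem (by rw [hc]; exact fj_nn h hnn hs hI)
  · intro t ht
    by_cases htF : t ∈ F
    · exact Or.inr ⟨_, _, _, fj_link h hnn htF⟩
    · left
      have hts : t ∈ sphere (0 : ℂ) 1 := mem_sphere_zero_iff_norm.2 ht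
      have hs : ∀ t' ∈ F, phi t ∉ segment ℝ (u t') (v t') := fun t' ht' => h.sep t' ht' t hts htF
      obtain ⟨x, hI⟩ := exists_iq h.toPwJ hs
      exact ⟨(h.reg t hts htF).1, x, fj_nn h hnn hs hI, hI⟩
  · refine ((fj_sim h).image phi).subset ?_
    rintro q ⟨hqK, hq1, hq2⟩
    rcases hqK with ⟨z, ⟨hz, hzF⟩, rfl⟩ | hqK
    · refine ⟨z, ⟨mem_sphere_zero_iff_norm.1 hz, fun x hx => ?_⟩, rfl⟩
      exact hq1 z x hx rfl
    · exfalso
      obtain ⟨t, ht, hqs⟩ := mem_iUnion₂.1 hqK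
      exact hq2 t (h.circ t ht) _ _ _ (fj_link h hnn ht) hqs

theorem jc_main (h : JCross phi F u v) : (∀ f ∈ H2, ∃! g, IsToeplitz phi f g) ∧
    (BIR H2 (IsToeplitz phi) ↔
      ¬ ∃ (l l' : ℂ) (n n' : ℤ), Wj phi F l n ∧ Wj phi F l' n' ∧ n < 0 ∧ 0 < n') := by
  have hb := memLp_pwj h.toPwJ
  refine ⟨exists_unique_TM hb, ?_, ?_⟩
  · rintro hB ⟨l, l', n, n', hl, hl', hn, hn'⟩
    exact jc_neg h hl hn hl' hn' hB
  · intro hno
    rw [bir_iff_TM hb]
    change CompletelyIrreducible (Tp phi)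
    by_cases hw : ∀ l n, Wj phi F l n → 0 ≤ n
    · exact main_datJ (jc_dat h hw)
    · push Not at hw
      obtain ⟨l, n, hl, hn⟩ := hw
      rw [← ci_pstar hb]
      refine main_datJ (jc_dat h.pstar fun l' n' h' => ?_)
      by_contra hc
      push Not at hc
      rw [show l' = conj (conj l') from (Complex.conj_conj l').symm, wj_pstar_iff] at h'
      exact hno ⟨l, conj l', n, -n', hl, h', hn, by omega⟩

end Pool.Agent.TBirJ
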