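import Pool.Agent.TBirJ.Exj

/-!
# The sides of a simple point, points with tangent vectors in a half plane

`sm_sides`: as `sim_local` in TBirP/Inx.lean (chart from `h.iq`, one branch by `c.zer`, `c.off` for `l ∉ K`). `iq_half`: as `dbl_inner` in TBirP/NrmC.lean and `pc_half` in TBirP/CrsH.lean (`v = - I * w`, all `‖g j (q + s v)‖ > 1` for small `s > 0`).
-/

set_option autoImplicit false

open MeasureTheory Complex Set Filter Topology Metric AddCircle
open scoped ComplexConjugate InnerProductSpace ENNReal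

namespace Pool.Agent.TBirJ

open Pool.Agent.TBir Pool.Agent.TBirG Pool.Agent.TBirC
open Pool.Agent.TBirP (E qT)

variable {phi : ℂ → ℂ} {q : ℂ} {x : ℤ}

/-- The norm grows along a ray. -/
private theorem ij_grow {g : ℂ → ℂ} {q v g' : ℂ} (hg : HasDerivAt g g' q) (h1 : ‖g q‖ = 1)
    (hv : 0 < (v * g' / g q).re) : ∀ᶠ s : ℝ in 𝓝[>] 0, 1 < ‖g (q + s * v)‖ := by
  have hq0 : g q ≠ 0 := norm_pos_iff.1 (by rw [h1]; exact one_pos)
  have h2 : HasDerivAt (fun s : ℝ => q + (s : ℂ) * v) v 0 := by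
    have h3 : HasDerivAt (fun s : ℝ => (s : ℂ)) 1 0 := Complex.ofRealCLM.hasDerivAt
    simpa using (h3.mul_const v).const_add q
  have h4 : HasDerivAt (fun s : ℝ => g (q + (s : ℂ) * v)) (g' * v) 0 := by
    have h5 : HasDerivAt g g' ((fun s : ℝ => q + (s : ℂ) * v) 0) := by simpa using hg
    exact HasDerivAt.comp (0 : ℝ) h5 h2
  have h6 : HasDerivAt (fun s : ℝ => (g (q + (s : ℂ) * v) / g q).re) ((g' * v / g q).re) 0 := by
    have h7 := h4.div_const (g q)
    exact (Complex.reCLM.hasFDerivAt.comp_hasDerivAt (0 : ℝ) h7)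
  rw [hasDerivAt_iff_tendsto_slope_zero] at h6
  have h8 := (h6.mono_left (nhdsGT_le_nhdsNE (0 : ℝ))).eventually
    (lt_mem_nhds (show 0 < (g' * v / g q).re by rwa [mul_comm g' v]))
  filter_upwards [h8, self_mem_nhdsWithin] with s hs hs0
  have hs0' : 0 < s := hs0
  rw [zero_add, smul_eq_mul] at hs
  have h9 : 0 < (g (q + (s : ℂ) * v) / g q).re - (g (q + ((0 : ℝ) : ℂ) * v) / g q).re := by
    exact (pos_iff_pos_of_mul_pos hs).1 (inv_pos.2 hs0')
  have h10 : (g (q + ((0 : ℝ) : ℂ) * v) / g q) = 1 := by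
    rw [Complex.ofReal_zero, zero_mul, add_zero, div_self hq0]
  rw [h10, one_re] at h9
  have h11 : (g (q + (s : ℂ) * v) / g q).re ≤ ‖g (q + (s : ℂ) * v)‖ := by
    have h12 := Complex.re_le_norm (g (q + (s : ℂ) * v) / g q)
    rwa [norm_div, h1, div_one] at h12
  linarith

private theorem ij_div (u w : ℂ) :
    u / w = conj (conj u * w) / ((Complex.normSq w : ℝ) : ℂ) := by
  rw [div_eq_mul_inv u w, Complex.inv_def, map_mul, Complex.conj_conj, Complex.ofReal_inv,
    ← mul_assoc, div_eq_mul_inv]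

/-- Inversion in the circle. -/
private noncomputable def ji (u : ℂ) : ℂ := (conj u)⁻¹

private theorem ji_ji (u : ℂ) : ji (ji u) = u := by
  unfold ji
  rw [map_inv₀, Complex.conj_conj, inv_inv]

private theorem norm_ji (u : ℂ) : ‖ji u‖ = ‖u‖⁻¹ := by
  unfold ji
  rw [norm_inv, Complex.norm_conj]

private theorem ji_cont {u : ℂ} (hu : u ≠ 0) : ContinuousAt ji u := by
  unfold ji
  exact (Complex.continuous_conj.continuousAt).inv₀ ((map_ne_zero _).2 hu)

private theorem ji_fix {z : ℂ} (hz : ‖z‖ = 1) : ji z = z := by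
  have hz0 : z ≠ 0 := norm_pos_iff.1 (by rw [hz]; exact one_pos)
  unfold ji
  rw [inv_eq_iff_eq_inv, eq_comm]
  apply inv_eq_of_mul_eq_one_left
  rw [Complex.conj_mul', hz]
  norm_num

private theorem ij_surj {z : ℂ} (hz' : ‖z‖ = 1) : ∃ t, e t = z := by
  let c : Circle := ⟨z, by simpa [Submonoid.unitSphere] using hz'⟩
  refine ⟨(AddCircle.homeomorphCircle (T := (1 : ℝ)) one_ne_zero).symm c, ?_⟩
  unfold e
  have h := (AddCircle.homeomorphCircle (T := (1 : ℝ)) one_ne_zero).apply_symm_apply c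
  rw [AddCircle.homeomorphCircle_apply] at h
  rw [h]

/-- the symbol of an invertible operator is essentially bounded -/
private theorem ij_memLp {u : UnitAddCircle → ℂ} (h : IsUnit (TM (mf u))) : MemLp u ∞ mu0 := by
  by_contra h0
  have h1 : mf u = 0 := by
    unfold mf
    rw [dif_neg h0]
  have h2 : TM (mf u) = 0 := by
    rw [h1]
    ext f
    change (proj (0 : L2)) = 0
    exact map_zero proj
  obtain ⟨N, hN⟩ := h.exists_left_inv
  rw [h2, mul_zero] at hN
  have h3 : (mono 0 : Hardy) = 0 := by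
    have h4 := congrArg (fun A : Op => A (mono 0)) hN
    exact h4.symm
  have h5 := ev_mono (z := 0) (by simp) 0
  rw [h3, map_zero, pow_zero] at h5
  exact zero_ne_one h5

/-- the symbol of an invertible operator does not vanish at points of continuity -/
private theorem ij_ne {u : UnitAddCircle → ℂ} (h : IsUnit (TM (mf u))) {y0 : UnitAddCircle}
    (hc : ContinuousAt u y0) : u y0 ≠ 0 := by
  intro h0
  obtain ⟨c, hc0, hae⟩ := ae_ge_of_isUnit (ij_memLp h) (isUnit_of_TM (Cm.mf u) h).1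
  have hev : ∀ᶠ y in 𝓝 y0, ‖u y‖ < c := by
    have h1 : Tendsto (fun y => ‖u y‖) (𝓝 y0) (𝓝 0) := by
      have h2 := hc.norm.tendsto
      simp only [h0, norm_zero] at h2
      exact h2
    exact h1.eventually (gt_mem_nhds hc0)
  have hd : Dense {y | c ≤ ‖u y‖} := Measure.dense_of_ae hae
  have h3 := (mem_closure_iff_frequently.1 (hd y0)).and_eventually hev
  obtain ⟨y, hy1, hy2⟩ := h3.exists
  exact absurd hy2 (not_lt.2 hy1)

/-- a simple point is the only point of its level -/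
private theorem ij_unique {z1 : ℂ} (h : Sm phi z1 x) {z : ℂ} (hz : ‖z‖ = 1)
    (ha : AnalyticAt ℂ phi z) (hq : phi z = phi z1) : z = z1 := by
  by_contra hne
  obtain ⟨-, -, -, hu⟩ := h
  obtain ⟨y0, rfl⟩ := ij_surj hz
  have he0 : e y0 ≠ 0 := norm_pos_iff.1 (by rw [hz]; exact one_pos)
  have hec : ContinuousAt e y0 := continuous_e.continuousAt
  refine ij_ne hu (y0 := y0) ?_ ?_
  · have h1 : ContinuousAt (fun y => phi (e y)) y0 :=
      ContinuousAt.comp (g := phi) (f := e) ha.continuousAt hec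
    exact (hec.zpow₀ _ (Or.inl he0)).mul
      ((h1.sub continuousAt_const).div (hec.sub continuousAt_const) (sub_ne_zero.2 hne))
  · simp only [hq, sub_self, zero_div, mul_zero]

theorem sm_sides (hb : MemLp (fun x : UnitAddCircle => phi (e x)) ∞ mu0) {K : Set ℂ}
    (hK : ∀ l ∉ K, ∃ n : ℤ, Ix phi l n) {z1 : ℂ} (h : Sm phi z1 x) : Sides phi K (phi z1) x := by
  obtain ⟨c, hcx⟩ := exists_chartJ hb h.iq
  have hsim : ∀ z : ℂ, ‖z‖ = 1 → AnalyticAt ℂ phi z → phi z = phi z1 → z = z1 :=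
    fun z hz ha hq => ij_unique h hz ha hq
  obtain ⟨hn1, han, hd, -⟩ := h
  have hqs : phi z1 ∈ ball (phi z1) c.s := mem_ball_self c.s_pos
  have hqR : phi z1 ∈ ball (phi z1) c.B.R := mem_ball_self c.B.R_pos
  have hz10 : z1 ≠ 0 := norm_pos_iff.1 (by rw [hn1]; exact one_pos)
  -- one branch
  obtain ⟨j0, hj0⟩ := (c.zer _ hqs z1 hn1 han).1 rfl
  have hone : ∀ j, j = j0 := by
    intro j
    have h3 := hsim _ (c.B.norm_q j) (c.B.an j) (c.B.inv j _ hqR)
    exact c.inj _ hqs j j0 (by rw [h3, hj0])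
  -- a small ball
  have hloc := c.loc j0
  rw [hj0] at hloc
  obtain ⟨r, hr, hball⟩ := Metric.eventually_nhds_iff_ball.1 (hloc.and han.eventually_analyticAt)
  have hcon : ContinuousOn phi (ball z1 r) := fun w hw =>
    (hball w hw).2.continuousAt.continuousWithinAt
  -- the radius for the inversion
  have hiv : ∀ᶠ u in 𝓝 z1, ji u ∈ ball z1 r := by
    have h2 := (ji_cont hz10).eventually_mem (s := ball z1 r)
      (by rw [ji_fix hn1]; exact ball_mem_nhds _ hr)
    exact h2
  obtain ⟨r1, hr1, hball1⟩ := Metric.eventually_nhds_iff_ball.1 (hiv.and (eventually_ne_nhds hz10))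
  set r2 : ℝ := min r r1 with hr2
  have hr20 : 0 < r2 := lt_min hr hr1
  set U : Set ℂ := ball z1 r2 ∩ ball 0 1 with hU
  have hUpre : IsPreconnected U := ((convex_ball z1 r2).inter (convex_ball 0 1)).isPreconnected
  have hUr : ∀ u ∈ U, u ∈ ball z1 r := fun u hu => ball_subset_ball (min_le_left _ _) hu.1
  have hUr1 : ∀ u ∈ U, u ∈ ball z1 r1 := fun u hu => ball_subset_ball (min_le_right _ _) hu.1
  have hUcl : z1 ∈ closure U := by
    rw [Metric.mem_closure_iff]
    intro ε hε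
    obtain ⟨w, hw, hw1⟩ := tendsto_in hn1 (lt_min hε hr20)
    refine ⟨w, ⟨ball_subset_ball (min_le_right _ _) hw, by simpa using hw1⟩, ?_⟩
    rw [dist_comm]
    exact lt_of_lt_of_le (mem_ball.1 hw) (min_le_left _ _)
  have hivU : IsPreconnected (ji '' U) := by
    refine hUpre.image _ fun u hu => ?_
    exact (ji_cont (hball1 u (hUr1 u hu)).2).continuousWithinAt
  refine ⟨phi '' U, phi '' (ji '' U), hUpre.image _ (hcon.mono hUr), ?_, ?_, ?_, ?_, ?_, ?_⟩
  · refine hivU.image _ (hcon.mono ?_)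
    rintro _ ⟨u, hu, rfl⟩
    exact (hball1 u (hUr1 u hu)).1
  · rintro _ ⟨w, hw, rfl⟩
    have hw1 : ‖w‖ < 1 := by simpa using hw.2
    obtain ⟨h3, h4⟩ := (hball w (hUr w hw)).1
    have h5 := c.wn _ h3 (fun j => by rw [hone j, h4]; exact hw1.ne)
    have h6 : (Finset.univ.filter fun j => ‖c.B.g j (phi w)‖ < 1) = {j0} := by
      ext j
      rw [Finset.mem_filter, Finset.mem_singleton]
      refine ⟨fun _ => hone j, fun hj => ⟨Finset.mem_univ _, ?_⟩⟩
      rw [hj, h4]
      exact hw1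
    rw [h6, Finset.card_singleton, hcx] at h5
    exact_mod_cast h5
  · rintro _ ⟨_, ⟨u, hu, rfl⟩, rfl⟩
    have hu1 : ‖u‖ < 1 := by simpa using hu.2
    have hu0 : 0 < ‖u‖ := norm_pos_iff.2 (hball1 u (hUr1 u hu)).2
    have hw1 : 1 < ‖ji u‖ := by
      rw [norm_ji]
      exact (one_lt_inv₀ hu0).2 hu1
    have hwr := (hball1 u (hUr1 u hu)).1
    obtain ⟨h3, h4⟩ := (hball _ hwr).1
    have h5 := c.wn _ h3 (fun j => by rw [hone j, h4]; exact hw1.ne')
    have h6 : (Finset.univ.filter fun j => ‖c.B.g j (phi (ji u))‖ < 1) = ∅ := by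
      apply Finset.filter_eq_empty_iff.2
      intro j _
      rw [hone j, h4]
      exact not_lt.2 hw1.le
    rw [h6, Finset.card_empty, hcx, Nat.cast_zero, add_zero] at h5
    exact h5
  · exact ContinuousWithinAt.mem_closure_image han.continuousAt.continuousWithinAt hUcl
  · refine ContinuousWithinAt.mem_closure_image han.continuousAt.continuousWithinAt ?_
    have h2 := ContinuousWithinAt.mem_closure_image
      ((ji_cont hz10).continuousWithinAt (s := U)) hUcl
    rwa [ji_fix hn1] at h2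
  · have hgc : ContinuousAt (c.B.g j0) (phi z1) :=
      ((c.B.diff j0).differentiableAt (ball_mem_nhds _ c.B.R_pos)).continuousAt
    have h2 : ∀ᶠ l in 𝓝 (phi z1), c.B.g j0 l ∈ ball z1 r2 :=
      hgc.eventually_mem (by rw [hj0]; exact ball_mem_nhds _ hr20)
    have h3 : ∀ᶠ l in 𝓝 (phi z1), ji (c.B.g j0 l) ∈ ball z1 r2 := by
      have h4 : ContinuousAt (fun l => ji (c.B.g j0 l)) (phi z1) :=
        ContinuousAt.comp (g := ji) (f := c.B.g j0) (by rw [hj0]; exact ji_cont hz10) hgc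
      exact h4.eventually_mem (by rw [hj0, ji_fix hn1]; exact ball_mem_nhds _ hr20)
    filter_upwards [h2, h3, ball_mem_nhds (phi z1) c.B.R_pos, ball_mem_nhds (phi z1) c.s_pos]
      with l hl2 hl3 hlR hls hlK
    have hinv : phi (c.B.g j0 l) = l := c.B.inv j0 l hlR
    obtain ⟨n, hn⟩ := hK l hlK
    have hne := c.off l hls n hn j0
    rcases lt_or_gt_of_ne hne with h5 | h5
    · exact Or.inl ⟨c.B.g j0 l, ⟨hl2, by simpa using h5⟩, hinv⟩
    · refine Or.inr ⟨c.B.g j0 l, ⟨ji (c.B.g j0 l), ⟨hl3, ?_⟩, ji_ji _⟩, hinv⟩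
      rw [mem_ball_zero_iff, norm_ji]
      exact inv_lt_one_of_one_lt₀ h5

theorem iq_half (hb : MemLp (fun x : UnitAddCircle => phi (e x)) ∞ mu0) (hI : Iq phi q x) {w : ℂ}
    (hw : ∀ z : ℂ, ‖z‖ = 1 → AnalyticAt ℂ phi z → phi z = q →
      0 < (conj w * (I * (z * deriv phi z))).re) : ∃ᶠ l in 𝓝 q, Ix phi l x := by
  obtain ⟨c, hcx⟩ := exists_chartJ hb hI
  have hqs : q ∈ ball q c.s := mem_ball_self c.s_pos
  have hqR : q ∈ ball q c.B.R := mem_ball_self c.B.R_pos
  have hd : ∀ j, HasDerivAt (c.B.g j) (deriv (c.B.g j) q) q := fun j =>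
    ((c.B.diff j).differentiableAt (ball_mem_nhds _ c.B.R_pos)).hasDerivAt
  have hpos : ∀ j, 0 < ((-I * w) * deriv (c.B.g j) q / c.B.g j q).re := by
    intro j
    have hn := c.B.norm_q j
    have hq := c.B.inv j q hqR
    have hgj0 : c.B.g j q ≠ 0 := norm_pos_iff.1 (by rw [hn]; exact one_pos)
    have han := c.B.an j
    have h8 := hw _ hn han hq
    have hne : deriv phi (c.B.g j q) ≠ 0 := by
      intro h0
      rw [h0, mul_zero, mul_zero, mul_zero, Complex.zero_re] at h8
      exact lt_irrefl _ h8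
    have hchain : deriv phi (c.B.g j q) * deriv (c.B.g j) q = 1 := by
      have h3 : HasDerivAt (fun l => phi (c.B.g j l))
          (deriv phi (c.B.g j q) * deriv (c.B.g j) q) q :=
        HasDerivAt.comp q han.differentiableAt.hasDerivAt (hd j)
      have h4 : (fun l => phi (c.B.g j l)) =ᶠ[𝓝 q] fun l => l := by
        filter_upwards [ball_mem_nhds q c.B.R_pos] with l hl
        exact c.B.inv j l hl
      exact (h3.congr_of_eventuallyEq h4.symm).unique (hasDerivAt_id _)
    have h7 : deriv (c.B.g j) q = (deriv phi (c.B.g j q))⁻¹ :=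
      eq_inv_of_mul_eq_one_right hchain
    set v : ℂ := I * (c.B.g j q * deriv phi (c.B.g j q)) with hv
    have hv0 : v ≠ 0 := mul_ne_zero I_ne_zero (mul_ne_zero hgj0 hne)
    have h9 : (-I * w) * deriv (c.B.g j) q / c.B.g j q = w / v := by
      rw [h7, hv]
      field_simp
      rw [Complex.I_sq]
      ring
    rw [h9, ij_div w v, Complex.div_ofReal_re, Complex.conj_re]
    exact div_pos h8 (Complex.normSq_pos.2 hv0)
  have htend : ∀ v : ℂ, Tendsto (fun s : ℝ => q + (s : ℂ) * v) (𝓝[>] 0) (𝓝 q) := by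
    intro v
    have h3 : Continuous fun s : ℝ => q + (s : ℂ) * v := by fun_prop
    have h4 := (h3.tendsto 0).mono_left (nhdsWithin_le_nhds (s := Ioi (0 : ℝ)))
    simpa using h4
  have hev : ∀ᶠ s : ℝ in 𝓝[>] 0, Ix phi (q + (s : ℂ) * (-I * w)) x := by
    filter_upwards [eventually_all.2 fun j => ij_grow (hd j) (c.B.norm_q j) (hpos j),
      htend _ (ball_mem_nhds q c.s_pos)] with s hs hsb
    have h5 := c.wn _ hsb fun j => (hs j).ne'
    have h6 : (Finset.univ.filter fun j => ‖c.B.g j (q + (s : ℂ) * (-I * w))‖ < 1) = ∅ := by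
      apply Finset.filter_eq_empty_iff.2
      intro j _
      exact not_lt.2 (hs j).le
    rw [h6, Finset.card_empty, hcx, Nat.cast_zero, add_zero] at h5
    exact h5
  exact (htend _).frequently hev.frequently

end Pool.Agent.TBirJ
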