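import Pool.Agent.TBirJ.Trj
import Pool.Agent.TBirJ.Inj

/-!
# Jumps

`Sides.jmp`: `tr_preconnectedJ` on `A` and on `B`. `Jmp.near`: if `q'` is near `q`, the numbers `m' + 1`, `m'` near `q'` are in `{m + 1, m}` (at points `l` arbitrarily near `q'`, so near `q`; `Ix.unique`), so `m' = m`, and the traces agree by `TrJ.unique`.
`Jmp.of_sm`: `sm_sides`, `Sides.jmp`, `tr_jumpJ` (`phi w` tends to `phi z1` for `w` to `z1`), `TrJ.unique`, `Ix.unique`. `jmp_const`: the function `q ↦ c q` on the preconnected set `S` is locally constant by `Jmp.near`.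
`link_col`: `c` from `jmp_const`; for `z1` near `t` the value `phi z1` is near `a` or near `b` (choose `eps` from `Jmp.near` at `a` and at `b`), `Jmp.of_sm`.
-/

set_option autoImplicit false

open MeasureTheory Complex Set Filter Topology Metric AddCircle
open scoped ComplexConjugate InnerProductSpace ENNReal

namespace Pool.Agent.TBirJ

open Pool.Agent.TBir Pool.Agent.TBirG Pool.Agent.TBirC
open Pool.Agent.TBirP (E qT)

variable {phi : ℂ → ℂ} {K : Set ℂ} {P : Op}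

/-- the numbers and the traces at two points -/
private theorem lj_key (hP : P * Tp phi = Tp phi * P) {m m' : ℕ} {tau tau' c c' l1 l2 : ℂ}
    (h1 : (Ix phi l1 (m + 1) ∧ TrJ phi P l1 (m + 1) (tau + c)) ∨
      (Ix phi l1 m ∧ TrJ phi P l1 m tau))
    (h2 : (Ix phi l2 (m + 1) ∧ TrJ phi P l2 (m + 1) (tau + c)) ∨
      (Ix phi l2 m ∧ TrJ phi P l2 m tau))
    (a1 : Ix phi l1 (m' + 1)) (b1 : TrJ phi P l1 (m' + 1) (tau' + c')) (a2 : Ix phi l2 m')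
    (b2 : TrJ phi P l2 m' tau') : c' = c := by
  have hm : (m' : ℤ) = m := by
    rcases h1 with h1 | h1
    · have e1 := Ix.unique a1 h1.1
      omega
    · have e1 := Ix.unique a1 h1.1
      rcases h2 with h2 | h2
      · have e2 := Ix.unique a2 h2.1
        omega
      · have e2 := Ix.unique a2 h2.1
        omega
  have h3 : TrJ phi P l1 (m + 1) (tau + c) := by
    rcases h1 with h1 | h1
    · exact h1.2
    · have e1 := Ix.unique a1 h1.1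
      omega
  have h4 : TrJ phi P l2 m tau := by
    rcases h2 with h2 | h2
    · have e1 := Ix.unique a2 h2.1
      omega
    · exact h2.2
  have e1 := (TrJ.unique hP b1 h3).2
  have e2 := (TrJ.unique hP b2 h4).2
  rw [e2] at e1
  exact add_left_cancel e1

/-- points off `K` near a point of the domain of index `n` -/
private theorem lj_freq (hb : MemLp (fun x : UnitAddCircle => phi (e x)) ∞ mu0) (hd : Dense Kᶜ)
    {q : ℂ} {A : Set ℂ} {n : ℤ} (hA : ∀ l ∈ A, Ix phi l n) (hq : q ∈ closure A) :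
    ∃ᶠ l in 𝓝 q, Ix phi l n ∧ l ∉ K := by
  rw [frequently_iff]
  intro U hU
  obtain ⟨V, hVU, hVo, hqV⟩ := _root_.mem_nhds_iff.1 hU
  obtain ⟨l, hlV, hlA⟩ := mem_closure_iff.1 hq V hVo hqV
  have h1 := (Ix.nhds hb (hA l hlA)).and (hVo.mem_nhds hlV)
  obtain ⟨W, hW, hWo, hlW⟩ := _root_.mem_nhds_iff.1 h1
  obtain ⟨l', hl', hK'⟩ := mem_closure_iff.1 (hd l) W hWo hlW
  exact ⟨l', hVU (hW hl').2, (hW hl').1, hK'⟩

theorem Sides.jmp (hb : MemLp (fun x : UnitAddCircle => phi (e x)) ∞ mu0) (hKc : IsClosed K)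
    (hK : ∀ l ∉ K, ∃ n : ℤ, Ix phi l n) (hd : Dense Kᶜ) (hP2 : P * P = P)
    (hP : P * Tp phi = Tp phi * P) {q : ℂ} {m : ℕ} (h : Sides phi K q m) :
    ∃ c : ℂ, Jmp phi K P q c := by
  obtain ⟨A, B, hA, hB, hA1, hB1, hqA, hqB, hn⟩ := h
  obtain ⟨tauA, htA⟩ : ∃ tau : ℂ, ∀ l ∈ A, TrJ phi P l (m + 1) tau := by
    refine tr_preconnectedJ hb hP2 hP hA (fun l hl => ?_)
    push_cast
    exact hA1 l hl
  obtain ⟨tauB, htB⟩ := tr_preconnectedJ hb hP2 hP hB hB1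
  refine ⟨tauA - tauB, m, tauB, ?_, lj_freq hb hd hA1 hqA, lj_freq hb hd hB1 hqB⟩
  filter_upwards [hn] with l hl hlK
  rcases hl hlK with h1 | h1
  · left
    refine ⟨hA1 l h1, ?_⟩
    have h2 : tauB + (tauA - tauB) = tauA := by ring
    rw [h2]
    exact htA l h1
  · exact Or.inr ⟨hB1 l h1, htB l h1⟩

theorem Jmp.near (hP : P * Tp phi = Tp phi * P) {q c : ℂ} (h : Jmp phi K P q c) :
    ∀ᶠ q' in 𝓝 q, ∀ c', Jmp phi K P q' c' → c' = c := by
  obtain ⟨m, tau, H1, -, -⟩ := h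
  filter_upwards [eventually_eventually_nhds.2 H1] with q' hq' c' h'
  obtain ⟨m', tau', G1, G2, G3⟩ := h'
  obtain ⟨l1, ⟨⟨a1, k1⟩, f1⟩, g1⟩ := ((G2.and_eventually hq').and_eventually G1).exists
  obtain ⟨l2, ⟨⟨a2, k2⟩, f2⟩, g2⟩ := ((G3.and_eventually hq').and_eventually G1).exists
  have b1 : TrJ phi P l1 (m' + 1) (tau' + c') := by
    rcases g1 k1 with g | g
    · exact g.2
    · have e1 := Ix.unique a1 g.1
      omega
  have b2 : TrJ phi P l2 m' tau' := by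
    rcases g2 k2 with g | g
    · have e1 := Ix.unique a2 g.1
      omega
    · exact g.2
  exact lj_key hP (f1 k1) (f2 k2) a1 b1 a2 b2

/-- a point off `K` with the same number and trace, near a given point -/
private theorem lj_shift (hb : MemLp (fun x : UnitAddCircle => phi (e x)) ∞ mu0) (hd : Dense Kᶜ)
    (hP2 : P * P = P) (hP : P * Tp phi = Tp phi * P) {l : ℂ} {n : ℕ} {tau : ℂ} {Q : ℂ → Prop}
    (hQ : ∀ᶠ l' in 𝓝 l, Q l') (h : Ix phi l n) (ht : TrJ phi P l n tau) :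
    ∃ l', l' ∉ K ∧ Q l' ∧ Ix phi l' n ∧ TrJ phi P l' n tau := by
  obtain ⟨tau', h1⟩ := exists_trJ hb hP2 hP h
  have h2 := (TrJ.unique hP h1.self_of_nhds ht).2
  rw [h2] at h1
  obtain ⟨W, hW, hWo, hlW⟩ := _root_.mem_nhds_iff.1 ((hQ.and (Ix.nhds hb h)).and h1)
  obtain ⟨l', hl', hK'⟩ := mem_closure_iff.1 (hd l) W hWo hlW
  exact ⟨l', hK', (hW hl').1.1, (hW hl').1.2, (hW hl').2⟩

theorem Jmp.of_sm (hb : MemLp (fun x : UnitAddCircle => phi (e x)) ∞ mu0) (hKc : IsClosed K)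
    (hK : ∀ l ∉ K, ∃ n : ℤ, Ix phi l n) (hd : Dense Kᶜ) (hP2 : P * P = P)
    (hP : P * Tp phi = Tp phi * P) {z1 : ℂ} {m : ℕ} (h1 : Sm phi z1 m) {c1 : ℂ}
    (hcol : ColJ phi P z1 c1) : Jmp phi K P (phi z1) c1 := by
  obtain ⟨c, hc⟩ := Sides.jmp hb hKc hK hd hP2 hP (sm_sides hb hK h1)
  obtain ⟨m', tau', H1, H2, H3⟩ := hc
  obtain ⟨tau, hj⟩ := tr_jumpJ hb hP2 hP h1 hcol
  have h2 : ∀ᶠ w in 𝓝 z1, ∀ᶠ l in 𝓝 (phi w), l ∉ K →
      (Ix phi l (m' + 1) ∧ TrJ phi P l (m' + 1) (tau' + c)) ∨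
      (Ix phi l m' ∧ TrJ phi P l m' tau') :=
    h1.2.1.continuousAt.eventually (eventually_eventually_nhds.2 H1)
  obtain ⟨eps, heps, h3⟩ := Metric.eventually_nhds_iff_ball.1 h2
  obtain ⟨⟨w, hw, a2, b2⟩, w', hw', a1, b1⟩ := hj eps heps
  obtain ⟨l2, k2, f2, a2, b2⟩ := lj_shift hb hd hP2 hP (h3 w hw) a2 b2
  obtain ⟨l1, k1, f1, a1, b1⟩ := lj_shift (n := m + 1) hb hd hP2 hP (h3 w' hw')
    (by push_cast; exact a1) b1
  push_cast at a1
  have h4 : c1 = c := lj_key hP (f1 k1) (f2 k2) a1 b1 a2 b2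
  rw [h4]
  exact ⟨m', tau', H1, H2, H3⟩

theorem jmp_const (hP : P * Tp phi = Tp phi * P) {S : Set ℂ} (hS : IsPreconnected S)
    (h : ∀ q ∈ S, ∃ c, Jmp phi K P q c) : ∃ c, ∀ q ∈ S, Jmp phi K P q c := by
  rcases S.eq_empty_or_nonempty with h0 | ⟨q0, hq0⟩
  · refine ⟨0, fun q hq => ?_⟩
    rw [h0] at hq
    exact absurd hq (Set.notMem_empty q)
  obtain ⟨c0, hc0⟩ := h q0 hq0
  obtain ⟨U, hU⟩ : ∃ U : Set ℂ, U = {q | ∀ᶠ q' in 𝓝 q, ∀ c', Jmp phi K P q' c' → c' = c0} :=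
    ⟨_, rfl⟩
  obtain ⟨V, hV⟩ : ∃ V : Set ℂ, V = {q | ∃ c, c ≠ c0 ∧ ∀ᶠ q' in 𝓝 q, ∀ c',
      Jmp phi K P q' c' → c' = c} := ⟨_, rfl⟩
  have hUo : IsOpen U := by
    rw [isOpen_iff_mem_nhds]
    intro q hq
    rw [hU] at hq ⊢
    exact eventually_eventually_nhds.2 hq
  have hVo : IsOpen V := by
    rw [isOpen_iff_mem_nhds]
    intro q hq
    rw [hV] at hq
    obtain ⟨c, hc, hq⟩ := hq
    filter_upwards [eventually_eventually_nhds.2 hq] with q' hq'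
    rw [hV]
    exact ⟨c, hc, hq'⟩
  have hcov : S ⊆ U ∪ V := by
    intro q hq
    obtain ⟨c, hc⟩ := h q hq
    have h1 := Jmp.near hP hc
    by_cases hcc : c = c0
    · left
      rw [hcc] at h1
      rw [hU]
      exact h1
    · right
      rw [hV]
      exact ⟨c, hcc, h1⟩
  have hSU : (S ∩ U).Nonempty := by
    refine ⟨q0, hq0, ?_⟩
    rw [hU]
    exact Jmp.near hP hc0
  have hSV : ¬ (S ∩ V).Nonempty := by
    intro hSV
    obtain ⟨q, hq, hqU, hqV⟩ := hS U V hUo hVo hcov hSU hSV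
    rw [hU] at hqU
    rw [hV] at hqV
    obtain ⟨c, hcc, hqV⟩ := hqV
    obtain ⟨c1, hc1⟩ := h q hq
    have e1 := hqU.self_of_nhds c1 hc1
    have e2 := hqV.self_of_nhds c1 hc1
    exact hcc (e2.symm.trans e1)
  refine ⟨c0, fun q hq => ?_⟩
  have hqU : q ∈ U := (hcov hq).resolve_right fun h1 => hSV ⟨q, hq, h1⟩
  obtain ⟨c1, hc1⟩ := h q hq
  rw [hU] at hqU
  rw [← hqU.self_of_nhds c1 hc1]
  exact hc1

theorem link_col (hb : MemLp (fun x : UnitAddCircle => phi (e x)) ∞ mu0) (hKc : IsClosed K)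
    (hK : ∀ l ∉ K, ∃ n : ℤ, Ix phi l n) (hd : Dense Kᶜ) (hP2 : P * P = P)
    (hP : P * Tp phi = Tp phi * P) {t : ℂ} {S : Set ℂ} {a b : ℂ} (h : LinkOn phi K t S a b) :
    ∃ c, (∀ q ∈ S, Jmp phi K P q c) ∧ ∃ s > 0, ∀ z1 ∈ ball t s, z1 ≠ t → ∀ m : ℕ, Sm phi z1 m →
      ∀ c1, ColJ phi P z1 c1 → c1 = c := by
  obtain ⟨hS, haS, hbS, hsd, hlim⟩ := h
  obtain ⟨c, hc⟩ := jmp_const hP hS fun q hq => by
    obtain ⟨m, hm, hs⟩ := hsd q hq
    obtain ⟨k, rfl⟩ := Int.eq_ofNat_of_zero_le hm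
    exact Sides.jmp hb hKc hK hd hP2 hP hs
  refine ⟨c, hc, ?_⟩
  obtain ⟨e1, he1, h1⟩ := Metric.eventually_nhds_iff_ball.1 (Jmp.near hP (hc a haS))
  obtain ⟨e2, he2, h2⟩ := Metric.eventually_nhds_iff_ball.1 (Jmp.near hP (hc b hbS))
  obtain ⟨s, hs, h3⟩ := hlim (min e1 e2) (lt_min he1 he2)
  refine ⟨s, hs, fun z1 hz1 hne m hm c1 hc1 => ?_⟩
  have h4 := Jmp.of_sm hb hKc hK hd hP2 hP hm hc1
  rcases h3 z1 hz1 hm.1 hne with h5 | h5
  · exact h1 _ (mem_ball.2 (h5.trans_le (min_le_left _ _))) c1 h4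
  · exact h2 _ (mem_ball.2 (h5.trans_le (min_le_right _ _))) c1 h4

end Pool.Agent.TBirJ
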