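import Pool.Agent.TBirJ.Agj
import Pool.Agent.TBirJ.Vlj
import Pool.Agent.TBirP.LipH

/-!
# Lipschitz bounds of the logarithm

`lipJ`: `phi ∘ E` is Lipschitz on intervals without points of `E ⁻¹ F` (near a point of `E ⁻¹ F` it is given on each side by an analytic function, `core_lip`; compactness of a period; add over a subdivision). `lip_logJ`: as `lip_log` in TBirP/LipH.lean: locally `g` is a logarithm of `phi - l`
minus `n x I`, `|n| ≤ A`, and `‖phi - l‖ ≥ infDist l Gam`. -/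

set_option autoImplicit false

open MeasureTheory Complex Set Filter Topology Metric AddCircle
open scoped ComplexConjugate InnerProductSpace ENNReal

namespace Pool.Agent.TBirJ

open Pool.Agent.TBir Pool.Agent.TBirG Pool.Agent.TBirC
open Pool.Agent.TBirP (E qT)

variable {phi : ℂ → ℂ} {F : Finset ℂ} {u v : ℂ → ℂ}

private theorem lpj_norm_E (x : ℝ) : ‖E x‖ = 1 := by
  unfold E
  exact Complex.norm_exp_ofReal_mul_I x

private theorem lpj_cont_E : Continuous E := by
  unfold E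
  fun_prop

private theorem lpj_mem_E (x : ℝ) : E x ∈ sphere (0 : ℂ) 1 := by
  rw [mem_sphere_zero_iff_norm]
  exact lpj_norm_E x

private theorem lpj_E_add (x y : ℝ) : E (x + y) = E x * E y := by
  unfold E
  rw [← Complex.exp_add]
  congr 1
  push_cast
  ring

private theorem lpj_E_sub (x : ℝ) (n : ℤ) : E (x - n * (2 * Real.pi)) = E x := by
  unfold E
  have h1 := Complex.exp_periodic.sub_int_mul_eq (x := x * I) n
  rw [← h1]
  congr 1
  push_cast
  ring

private theorem lpj_lip {psi : ℂ → ℂ} {t : ℂ} (h : AnalyticAt ℂ psi t) (s : ℝ) :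
    ∃ d > 0, ∃ K : ℝ, 0 ≤ K ∧ ∀ x y : ℝ, 0 ≤ x → x ≤ d → 0 ≤ y → y ≤ d →
      ‖psi (t * E (s * x)) - psi (t * E (s * y))‖ ≤ K * |x - y| := by
  have h0 : AnalyticAt ℂ psi (t * exp ((s : ℂ) * 0 * I)) := by simpa using h
  have hk : AnalyticAt ℂ (fun w : ℂ => psi (t * exp ((s : ℂ) * w * I))) 0 :=
    AnalyticAt.comp (g := psi) (f := fun w : ℂ => t * exp ((s : ℂ) * w * I)) h0 (by fun_prop)
  obtain ⟨K, S, hS, hK⟩ := hk.hasStrictDerivAt.hasStrictFDerivAt.exists_lipschitzOnWith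
  obtain ⟨ε, hε, hb⟩ := Metric.mem_nhds_iff.mp hS
  refine ⟨ε / 2, by positivity, K, K.2, ?_⟩
  intro x y hx hx2 hy hy2
  have hmem : ∀ z : ℝ, 0 ≤ z → z ≤ ε / 2 → (z : ℂ) ∈ S := by
    intro z h1 h2
    apply hb
    rw [mem_ball_zero_iff, Complex.norm_real, Real.norm_of_nonneg h1]
    linarith
  have h1 := hK.dist_le_mul _ (hmem x hx hx2) _ (hmem y hy hy2)
  rw [dist_eq_norm, dist_eq_norm, ← Complex.ofReal_sub, Complex.norm_real, Real.norm_eq_abs] at h1
  have h2 : ∀ z : ℝ, psi (t * E (s * z)) = psi (t * exp ((s : ℂ) * z * I)) := fun z => by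
    unfold E
    push_cast
    rfl
  rw [h2, h2]
  exact h1

private theorem lpj_side (h : PwJ phi F u v) (x : ℝ) {s : ℝ} (hs : s = 1 ∨ s = -1) :
    ∃ δ > 0, ∃ K : ℝ, 0 ≤ K ∧ ∀ r r' : ℝ, 0 ≤ r → r ≤ δ → 0 ≤ r' → r' ≤ δ →
      E (x + s * r) ∉ F → E (x + s * r') ∉ F →
      ‖phi (E (x + s * r)) - phi (E (x + s * r'))‖ ≤ K * |r - r'| := by
  obtain ⟨psi, ha, d, hd, he⟩ : ∃ psi, AnalyticAt ℂ psi (E x) ∧ ∃ d > 0, ∀ r : ℝ, 0 ≤ r → r ≤ d →
      E (x + s * r) ∉ F → phi (E (x + s * r)) = psi (E x * E (s * r)) := by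
    by_cases htF : E x ∈ F
    · obtain ⟨psi, h1⟩ : ∃ psi, SideJ phi psi (E x) s := by
        rcases hs with rfl | rfl
        · obtain ⟨psi, h1, -⟩ := h.right _ htF
          exact ⟨psi, h1⟩
        · obtain ⟨psi, h1, -⟩ := h.left _ htF
          exact ⟨psi, h1⟩
      obtain ⟨d, hd, hd'⟩ := mem_nhdsGT_iff_exists_Ioc_subset.1 h1.2.2
      refine ⟨psi, h1.1, d, hd, fun r hr hrd hrF => ?_⟩
      rcases hr.eq_or_lt with rfl | hr
      · rw [mul_zero, add_zero] at hrF
        exact absurd htF hrF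
      · rw [lpj_E_add]
        exact hd' ⟨hr, hrd⟩
    · refine ⟨phi, (h.reg _ (lpj_mem_E x) htF).1, 1, one_pos, fun r _ _ _ => by rw [lpj_E_add]⟩
  obtain ⟨d', hd', K, hK, h1⟩ := lpj_lip ha s
  refine ⟨min d d', lt_min hd hd', K, hK, fun r r' hr hrd hr' hrd' h2 h3 => ?_⟩
  rw [he r hr (hrd.trans (min_le_left _ _)) h2, he r' hr' (hrd'.trans (min_le_left _ _)) h3]
  exact h1 r r' hr (hrd.trans (min_le_right _ _)) hr' (hrd'.trans (min_le_right _ _))

private theorem lpj_Icc (h : PwJ phi F u v) (a b : ℝ) (hab : a ≤ b) :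
    ∃ K : ℝ, 0 ≤ K ∧ ∀ y z : ℝ, a ≤ y → y ≤ z → z ≤ b → (∀ s ∈ Icc y z, E s ∉ F) →
      ‖phi (E y) - phi (E z)‖ ≤ K * |y - z| := by
  refine Pool.Agent.TBirP.interval_ind (R := fun a b => ∃ K : ℝ, 0 ≤ K ∧ ∀ y z : ℝ, a ≤ y →
    y ≤ z → z ≤ b → (∀ s ∈ Icc y z, E s ∉ F) → ‖phi (E y) - phi (E z)‖ ≤ K * |y - z|)
    ?_ ?_ ?_ a b hab
  · rintro a b c hab hbc ⟨K1, h1, h1'⟩ ⟨K2, h2, h2'⟩
    refine ⟨max K1 K2, h1.trans (le_max_left _ _), ?_⟩
    intro y z hy hyz hz hF
    have l1 := le_max_left K1 K2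
    have l2 := le_max_right K1 K2
    rcases le_total z b with hzb | hzb
    · exact (h1' y z hy hyz hzb hF).trans (mul_le_mul_of_nonneg_right l1 (abs_nonneg _))
    · rcases le_total b y with hby | hby
      · exact (h2' y z hby hyz hz hF).trans (mul_le_mul_of_nonneg_right l2 (abs_nonneg _))
      · have k1 := h1' y b hy hby le_rfl fun s hs => hF s ⟨hs.1, hs.2.trans hzb⟩
        have k2 := h2' b z le_rfl hzb hz fun s hs => hF s ⟨hby.trans hs.1, hs.2⟩
        rw [abs_of_nonpos (by linarith)] at k1 k2 ⊢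
        calc ‖phi (E y) - phi (E z)‖ = ‖(phi (E y) - phi (E b)) + (phi (E b) - phi (E z))‖ := by
              congr 1
              ring
          _ ≤ ‖phi (E y) - phi (E b)‖ + ‖phi (E b) - phi (E z)‖ := norm_add_le _ _
          _ ≤ K1 * -(y - b) + K2 * -(b - z) := add_le_add k1 k2
          _ ≤ max K1 K2 * -(y - b) + max K1 K2 * -(b - z) :=
              add_le_add (mul_le_mul_of_nonneg_right l1 (by linarith))
                (mul_le_mul_of_nonneg_right l2 (by linarith))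
          _ = max K1 K2 * -(y - z) := by ring
  · intro x
    obtain ⟨δ, hδ, K, hK, h1⟩ := lpj_side h x (Or.inl rfl)
    refine ⟨δ, hδ, fun y' hy hy2 => ⟨K, hK, fun y z hxy hyz hzy hF => ?_⟩⟩
    have e1 : x + 1 * (y - x) = y := by ring
    have e2 : x + 1 * (z - x) = z := by ring
    have h2 := h1 (y - x) (z - x) (by linarith) (by linarith) (by linarith) (by linarith)
      (by rw [e1]; exact hF y ⟨le_rfl, hyz⟩) (by rw [e2]; exact hF z ⟨hyz, le_rfl⟩)
    rwa [e1, e2, show y - x - (z - x) = y - z by ring] at h2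
  · intro x
    obtain ⟨δ, hδ, K, hK, h1⟩ := lpj_side h x (Or.inr rfl)
    refine ⟨δ, hδ, fun y' hy hy2 => ⟨K, hK, fun y z hxy hyz hzy hF => ?_⟩⟩
    have e1 : x + -1 * (x - y) = y := by ring
    have e2 : x + -1 * (x - z) = z := by ring
    have h2 := h1 (x - y) (x - z) (by linarith) (by linarith) (by linarith) (by linarith)
      (by rw [e1]; exact hF y ⟨le_rfl, hyz⟩) (by rw [e2]; exact hF z ⟨hyz, le_rfl⟩)
    rwa [e1, e2, show x - y - (x - z) = -(y - z) by ring, abs_neg] at h2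

/-- Subdivision. -/
private theorem lpj_glob {G : ℝ → ℂ} {L r : ℝ} (hr : 0 < r) {x y : ℝ} (hxy : x ≤ y)
    (h : ∀ s t : ℝ, x ≤ s → s ≤ t → t ≤ y → t - s ≤ r → ‖G t - G s‖ ≤ L * (t - s)) :
    ‖G y - G x‖ ≤ L * (y - x) := by
  obtain ⟨N, hN⟩ := exists_nat_gt ((y - x) / r)
  have hN0 : (0 : ℝ) < N := lt_of_le_of_lt (div_nonneg (by linarith) hr.le) hN
  have hNr : (y - x) / N ≤ r := by
    rw [div_lt_iff₀ hr] at hN
    rw [div_le_iff₀ hN0]
    linarith
  have hw : 0 ≤ (y - x) / N := div_nonneg (by linarith) hN0.le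
  set p : ℕ → ℝ := fun i => x + i * ((y - x) / N) with hp
  have hp0 : p 0 = x := by simp [hp]
  have hpN : p N = y := by
    simp only [hp]
    field_simp
    ring
  have hstep : ∀ i, p (i + 1) - p i = (y - x) / N := by
    intro i
    simp only [hp]
    push_cast
    ring
  have hlo : ∀ i, x ≤ p i := fun i => by
    simp only [hp]
    have : 0 ≤ (i : ℝ) * ((y - x) / N) := mul_nonneg (Nat.cast_nonneg _) hw
    linarith
  have hhi : ∀ i, i < N → p (i + 1) ≤ y := fun i hi => by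
    rw [← hpN]
    simp only [hp]
    have : ((i + 1 : ℕ) : ℝ) ≤ N := by exact_mod_cast hi
    have := mul_le_mul_of_nonneg_right this hw
    linarith
  have hsum : G y - G x = ∑ i ∈ Finset.range N, (G (p (i + 1)) - G (p i)) := by
    rw [Finset.sum_range_sub (fun i => G (p i)), hp0, hpN]
  rw [hsum]
  calc ‖∑ i ∈ Finset.range N, (G (p (i + 1)) - G (p i))‖
      ≤ ∑ i ∈ Finset.range N, ‖G (p (i + 1)) - G (p i)‖ := norm_sum_le _ _
    _ ≤ ∑ _i ∈ Finset.range N, L * ((y - x) / N) := by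
        refine Finset.sum_le_sum fun i hi => ?_
        have h1 := h (p i) (p (i + 1)) (hlo i) (by linarith [hstep i])
          (hhi i (Finset.mem_range.1 hi)) (by rw [hstep]; exact hNr)
        rwa [hstep] at h1
    _ = L * (y - x) := by
        rw [Finset.sum_const, Finset.card_range, nsmul_eq_mul]
        field_simp

theorem lipJ (h : PwJ phi F u v) : ∃ K : ℝ, 0 ≤ K ∧ ∀ x y : ℝ, x ≤ y → (∀ s ∈ Icc x y, E s ∉ F) →
    ‖phi (E x) - phi (E y)‖ ≤ K * |x - y| := by
  have hpi := Real.pi_pos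
  have hp : 0 < 2 * Real.pi := by positivity
  obtain ⟨K, hK, h1⟩ := lpj_Icc h 0 (2 * (2 * Real.pi)) (by positivity)
  refine ⟨K, hK, fun x y hxy hF => ?_⟩
  have key : ∀ s t : ℝ, x ≤ s → s ≤ t → t ≤ y → t - s ≤ 2 * Real.pi →
      ‖phi (E t) - phi (E s)‖ ≤ K * (t - s) := by
    intro s t hs hst ht hd
    set n : ℤ := ⌊s / (2 * Real.pi)⌋ with hn
    have n1 : (n : ℝ) * (2 * Real.pi) ≤ s := (le_div_iff₀ hp).mp (Int.floor_le _)
    have n2 : s < (n + 1) * (2 * Real.pi) := (div_lt_iff₀ hp).mp (Int.lt_floor_add_one _)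
    have k1 := h1 (s - n * (2 * Real.pi)) (t - n * (2 * Real.pi)) (by linarith) (by linarith)
      (by linarith) (fun w hw => by
        have h2 := hF (w + n * (2 * Real.pi)) ⟨by linarith [hw.1], by linarith [hw.2]⟩
        have h3 := lpj_E_sub (w + n * (2 * Real.pi)) n
        rw [add_sub_cancel_right] at h3
        rwa [h3])
    rw [lpj_E_sub, lpj_E_sub,
      show s - n * (2 * Real.pi) - (t - n * (2 * Real.pi)) = s - t by ring,
      abs_of_nonpos (by linarith), norm_sub_rev] at k1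
    linarith
  have h2 := lpj_glob (G := fun t => phi (E t)) hp hxy key
  rw [abs_of_nonpos (by linarith), norm_sub_rev]
  linarith

private theorem lpj_E_ne {y : ℝ} (h0 : y ≠ 0) (h1 : |y| < 2 * Real.pi) : E y ≠ 1 := by
  intro h
  unfold E at h
  rw [Complex.exp_eq_one_iff] at h
  obtain ⟨n, hn⟩ := h
  have h2 : (y : ℂ) = n * (2 * Real.pi) := by
    apply mul_right_cancel₀ I_ne_zero
    rw [hn]
    ring
  have h3 : y = n * (2 * Real.pi) := by exact_mod_cast h2
  have hn0 : n ≠ 0 := by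
    rintro rfl
    apply h0
    rw [h3]
    simp
  have h4 : (1 : ℝ) ≤ |(n : ℝ)| := by exact_mod_cast Int.one_le_abs hn0
  have hpi : 0 < 2 * Real.pi := by positivity
  rw [h3, abs_mul, abs_of_pos hpi] at h1
  nlinarith

private theorem lpj_not_F {t : ℂ} (ht : ‖t‖ = 1) {s : ℝ} (hs : s = 1 ∨ s = -1) (F : Finset ℂ) :
    ∀ᶠ x : ℝ in 𝓝[>] 0, t * E (s * x) ∉ F := by
  classical
  have ht0 : t ≠ 0 := norm_pos_iff.1 (by rw [ht]; exact one_pos)
  have hc : Continuous fun x : ℝ => t * E (s * x) :=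
    continuous_const.mul (lpj_cont_E.comp (continuous_const.mul continuous_id))
  have h1 : ∀ᶠ x : ℝ in 𝓝 0, t * E (s * x) ∈ ((F.erase t : Finset ℂ) : Set ℂ)ᶜ := by
    refine hc.continuousAt.eventually_mem
      ((F.erase t).finite_toSet.isClosed.isOpen_compl.mem_nhds ?_)
    intro h
    have h2 : t * E (s * 0) = t := by simp [E]
    rw [h2] at h
    exact (Finset.notMem_erase t F) h
  have h2 : ∀ᶠ x : ℝ in 𝓝[>] 0, x < 2 * Real.pi :=
    nhdsWithin_le_nhds (Iio_mem_nhds (by positivity))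
  filter_upwards [nhdsWithin_le_nhds h1, h2, self_mem_nhdsWithin] with x h3 h4 h5 h6
  rw [mem_Ioi] at h5
  apply h3
  rw [Finset.mem_coe, Finset.mem_erase]
  refine ⟨fun h7 => ?_, h6⟩
  have h8 : E (s * x) = 1 := by
    apply mul_left_cancel₀ ht0
    rw [h7, mul_one]
  refine lpj_E_ne ?_ ?_ h8
  · rcases hs with rfl | rfl
    · rw [one_mul]
      exact h5.ne'
    · rw [neg_one_mul]
      exact neg_ne_zero.2 h5.ne'
  · rcases hs with rfl | rfl
    · rwa [one_mul, abs_of_pos h5]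
    · rwa [neg_one_mul, abs_neg, abs_of_pos h5]

private theorem lpj_lim {psi : ℂ → ℂ} {l c a t : ℂ} {n : ℤ} {g : ℂ → ℂ} (ht : ‖t‖ = 1) {s : ℝ}
    (hs : s = 1 ∨ s = -1) (hfac : ∀ z ∈ sphere (0 : ℂ) 1, z ∉ F → psi z - l = z ^ n * exp (g z))
    (h1 : Tendsto (fun x : ℝ => psi (t * E (s * x))) (𝓝[>] 0) (𝓝 c))
    (h2 : Tendsto (fun x : ℝ => g (t * E (s * x))) (𝓝[>] 0) (𝓝 a)) :
    c - l = t ^ n * exp a := by
  have ht0 : t ≠ 0 := norm_pos_iff.1 (by rw [ht]; exact one_pos)
  have h3 : Tendsto (fun x : ℝ => t * E (s * x)) (𝓝[>] 0) (𝓝 t) := by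
    have hc : Continuous fun x : ℝ => t * E (s * x) :=
      continuous_const.mul (lpj_cont_E.comp (continuous_const.mul continuous_id))
    have h4 := hc.tendsto 0
    have h5 : t * E (s * 0) = t := by simp [E]
    rw [h5] at h4
    exact h4.mono_left nhdsWithin_le_nhds
  have h4 : Tendsto (fun x : ℝ => (t * E (s * x)) ^ n * exp (g (t * E (s * x)))) (𝓝[>] 0)
      (𝓝 (t ^ n * exp a)) :=
    (h3.zpow₀ n (Or.inl ht0)).mul ((Complex.continuous_exp.tendsto a).comp h2)
  refine tendsto_nhds_unique_of_eventuallyEq (h1.sub_const l) h4 ?_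
  filter_upwards [lpj_not_F ht hs F] with x hx
  refine hfac _ ?_ hx
  rw [mem_sphere_zero_iff_norm, norm_mul, ht, lpj_norm_E, one_mul]

private theorem lpj_seg {u v l w a b : ℂ} (hw : w ≠ 0) (hu : u - l = w * exp a)
    (hv : v - l = w * exp b) (him : |(b - a).im| < Real.pi) : l ∉ segment ℝ u v := by
  rintro ⟨α, β, hα, hβ, hαβ, hl⟩
  have h1 : (α : ℂ) * (u - l) + (β : ℂ) * (v - l) = 0 := by
    have h2 : (α : ℂ) * u + (β : ℂ) * v = l := by
      rw [← hl]
      simp
    have h3 : (α : ℂ) + (β : ℂ) = 1 := by exact_mod_cast hαβ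
    linear_combination h2 - l * h3
  rw [hu, hv] at h1
  have h2 : (α : ℂ) + (β : ℂ) * exp (b - a) = 0 := by
    rw [Complex.exp_sub]
    have h3 := Complex.exp_ne_zero a
    field_simp
    apply mul_left_cancel₀ hw
    rw [mul_zero]
    linear_combination h1
  have hre := congrArg Complex.re h2
  have him' := congrArg Complex.im h2
  rw [Complex.add_re, Complex.re_ofReal_mul, Complex.exp_re, Complex.ofReal_re,
    Complex.zero_re] at hre
  rw [Complex.add_im, Complex.im_ofReal_mul, Complex.exp_im, Complex.ofReal_im, zero_add,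
    Complex.zero_im] at him'
  have hexp := Real.exp_pos (b - a).re
  rcases hβ.eq_or_lt with h4 | h4
  · rw [← h4] at hre hαβ
    linarith
  · have h5 : Real.sin (b - a).im = 0 := by
      rcases mul_eq_zero.1 him' with h6 | h6
      · exact absurd h6 h4.ne'
      · exact (mul_eq_zero.1 h6).resolve_left hexp.ne'
    rw [abs_lt] at him
    have h6 : (b - a).im = 0 := (Real.sin_eq_zero_iff_of_lt_of_lt him.1 him.2).1 h5
    rw [h6, Real.cos_zero, mul_one] at hre
    have h7 := mul_pos h4 hexp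
    linarith

private theorem lpj_notmem (h : PwJ phi F u v) {l : ℂ} {n : ℤ} {g : ℂ → ℂ}
    (hj : ∀ t ∈ F, ∃ a b : ℂ, Tendsto (fun x : ℝ => g (t * E (-x))) (𝓝[>] 0) (𝓝 a) ∧
      Tendsto (fun x : ℝ => g (t * E x)) (𝓝[>] 0) (𝓝 b) ∧ |(b - a).im| < Real.pi)
    (hfac : ∀ z ∈ sphere (0 : ℂ) 1, z ∉ F → phi z - l = z ^ n * exp (g z)) :
    l ∉ Gam phi F u v := by
  rintro (⟨z, ⟨hz, hzF⟩, hzl⟩ | hl)
  · have h1 := hfac z hz hzF
    rw [hzl, sub_self] at h1
    have hz0 : z ≠ 0 := by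
      intro h0
      rw [h0, mem_sphere_zero_iff_norm, norm_zero] at hz
      exact zero_ne_one hz
    exact mul_ne_zero (zpow_ne_zero n hz0) (Complex.exp_ne_zero _) h1.symm
  · obtain ⟨t, ht, hl⟩ := mem_iUnion₂.1 hl
    obtain ⟨a, b, ha, hb, him⟩ := hj t ht
    have ht1 := h.circ t ht
    have ht0 : t ≠ 0 := norm_pos_iff.1 (by rw [ht1]; exact one_pos)
    have e1 := lpj_lim (F := F) (psi := phi) (s := -1) ht1 (Or.inr rfl) hfac
      (by simpa only [neg_one_mul] using h.lim_left ht) (by simpa only [neg_one_mul] using ha)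
    have e2 := lpj_lim (F := F) (psi := phi) (s := 1) ht1 (Or.inl rfl) hfac
      (by simpa only [one_mul] using h.lim_right ht) (by simpa only [one_mul] using hb)
    exact lpj_seg (zpow_ne_zero n ht0) e1 e2 him hl

/-- The step for short intervals. -/
private theorem lpj_loc {Phi : ℝ → ℂ} {G : ℝ → ℂ} {x y : ℝ} (hle : x ≤ y)
    (hG : ContinuousOn G (Icc x y)) (hP : ∀ t ∈ Icc x y, Phi t = exp (G t))
    {K d : ℝ} (hK : 0 ≤ K) (hd : 0 < d) (hd1 : ∀ t ∈ Icc x y, d ≤ ‖Phi t‖)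
    (hL : ∀ t ∈ Icc x y, ‖Phi x - Phi t‖ ≤ K * |x - t|) (hxy : K * |x - y| ≤ d / 2) :
    ‖G y - G x‖ ≤ 2 * (K / d) * |x - y| := by
  have hxm : x ∈ Icc x y := ⟨le_rfl, hle⟩
  have hym : y ∈ Icc x y := ⟨hle, le_rfl⟩
  have hPx : Phi x ≠ 0 := by
    intro h0
    have := hd1 x hxm
    rw [h0, norm_zero] at this
    linarith
  have hPc : ContinuousOn Phi (Icc x y) :=
    (Complex.continuous_exp.comp_continuousOn hG).congr hP
  set w : ℝ → ℂ := fun t => (Phi t - Phi x) / Phi x with hw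
  have hwc : ContinuousOn w (Icc x y) := by
    rw [hw]
    exact (hPc.sub continuousOn_const).div_const _
  have hwb : ∀ t ∈ Icc x y, ‖w t‖ ≤ K * |x - t| / d ∧ ‖w t‖ ≤ 1 / 2 := by
    intro t ht
    have h1 : |x - t| ≤ |x - y| := by
      rw [abs_of_nonpos (by linarith [ht.1]), abs_of_nonpos (by linarith)]
      linarith [ht.2]
    have h2 : ‖w t‖ ≤ K * |x - t| / d := by
      simp only [hw]
      rw [norm_div]
      have a1 : ‖Phi t - Phi x‖ ≤ K * |x - t| := by
        rw [norm_sub_rev]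
        exact hL t ht
      have a2 : 0 ≤ K * |x - t| := mul_nonneg hK (abs_nonneg _)
      calc ‖Phi t - Phi x‖ / ‖Phi x‖ ≤ K * |x - t| / ‖Phi x‖ :=
            div_le_div_of_nonneg_right a1 (norm_nonneg _)
        _ ≤ K * |x - t| / d := div_le_div_of_nonneg_left a2 hd (hd1 x hxm)
    refine ⟨h2, h2.trans ?_⟩
    rw [div_le_iff₀ hd]
    have := mul_le_mul_of_nonneg_left h1 hK
    linarith
  have hslit : ∀ t ∈ Icc x y, 1 + w t ∈ slitPlane := fun t ht =>
    Complex.mem_slitPlane_of_norm_lt_one (lt_of_le_of_lt (hwb t ht).2 (by norm_num))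
  set H : ℝ → ℂ := fun t => G t - G x - log (1 + w t) with hH
  have hHc : ContinuousOn H (Icc x y) := by
    rw [hH]
    refine (hG.sub continuousOn_const).sub ?_
    exact ContinuousOn.clog (continuousOn_const.add hwc) hslit
  have hexp : ∀ t ∈ Icc x y, exp (H t) = 1 := by
    intro t ht
    have hne : 1 + w t ≠ 0 := Complex.slitPlane_ne_zero (hslit t ht)
    have h1w : 1 + w t = Phi t / Phi x := by
      simp only [hw]
      field_simp
      ring
    simp only [hH]
    rw [Complex.exp_sub, Complex.exp_sub, Complex.exp_log hne, ← hP t ht, ← hP x hxm, h1w]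
    rw [h1w] at hne
    exact div_self hne
  have hHx : H x = 0 := by
    simp [hH, hw]
  have hHy : H y = 0 := by
    obtain ⟨k, hk⟩ := Complex.exp_eq_one_iff.1 (hexp y hym)
    have him : ∀ t ∈ Icc x y, ∃ m : ℤ, (H t).im = 2 * Real.pi * m := by
      intro t ht
      obtain ⟨m, hm⟩ := Complex.exp_eq_one_iff.1 (hexp t ht)
      refine ⟨m, ?_⟩
      rw [hm]
      simp
      ring
    have hfc : ContinuousOn (fun t => (H t).im) (uIcc x y) := by
      rw [uIcc_of_le hle]
      exact Complex.continuous_im.comp_continuousOn hHc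
    have hiv := intermediate_value_uIcc hfc
    rw [uIcc_of_le hle] at hiv
    have hyk : (H y).im = 2 * Real.pi * k := by
      rw [hk]
      simp
      ring
    have hx0 : (H x).im = 0 := by rw [hHx]; rfl
    have hpi := Real.pi_pos
    have hno : ∀ t ∈ Icc x y, ∀ s : ℤ, (s = 1 ∨ s = -1) → (H t).im ≠ Real.pi * s := by
      intro t ht s hs he
      obtain ⟨m, hm⟩ := him t ht
      rw [hm] at he
      have h2 : (2 * m : ℝ) = s := by
        have : Real.pi * (2 * m) = Real.pi * s := by linarith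
        exact mul_left_cancel₀ hpi.ne' this
      have h3 : (2 * m : ℤ) = s := by exact_mod_cast h2
      omega
    rcases lt_trichotomy k 0 with hk0 | hk0 | hk0
    · exfalso
      have hk1 : (k : ℝ) ≤ -1 := by
        have : k ≤ -1 := by omega
        exact_mod_cast this
      have hmem : (-Real.pi) ∈ uIcc ((H x).im) ((H y).im) := by
        rw [hx0, hyk, mem_uIcc]
        right
        constructor
        · nlinarith
        · linarith
      obtain ⟨t, ht, hte⟩ := hiv hmem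
      refine hno t ht (-1) (Or.inr rfl) ?_
      simp only at hte
      rw [hte]
      push_cast
      ring
    · rw [hk, hk0]
      simp
    · exfalso
      have hk1 : (1 : ℝ) ≤ k := by
        have : 1 ≤ k := by omega
        exact_mod_cast this
      have hmem : Real.pi ∈ uIcc ((H x).im) ((H y).im) := by
        rw [hx0, hyk, mem_uIcc]
        left
        constructor
        · exact hpi.le
        · nlinarith
      obtain ⟨t, ht, hte⟩ := hiv hmem
      refine hno t ht 1 (Or.inl rfl) ?_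
      simp only at hte
      rw [hte]
      push_cast
      ring
  have hfin : G y - G x = log (1 + w y) := by
    have : G y - G x - log (1 + w y) = 0 := hHy
    linear_combination this
  rw [hfin]
  obtain ⟨b1, b2⟩ := hwb y hym
  calc ‖log (1 + w y)‖ ≤ 3 / 2 * ‖w y‖ := Complex.norm_log_one_add_half_le_self b2
    _ ≤ 3 / 2 * (K * |x - y| / d) := by linarith
    _ ≤ 2 * (K / d) * |x - y| := by
      have : 0 ≤ K * |x - y| / d := div_nonneg (mul_nonneg hK (abs_nonneg _)) hd.le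
      have e : 2 * (K / d) * |x - y| = 2 * (K * |x - y| / d) := by ring
      rw [e]
      linarith

theorem lip_logJ (h : PwJ phi F u v) : ∃ C : ℝ, 0 < C ∧ ∀ (l : ℂ) (n : ℤ) (g : ℂ → ℂ),
    ContinuousOn g (sphere 0 1 \ F) →
    (∀ t ∈ F, ∃ a b : ℂ, Tendsto (fun x : ℝ => g (t * E (-x))) (𝓝[>] 0) (𝓝 a) ∧
      Tendsto (fun x : ℝ => g (t * E x)) (𝓝[>] 0) (𝓝 b) ∧ |(b - a).im| < Real.pi) →
    (∀ z ∈ sphere (0 : ℂ) 1, z ∉ F → phi z - l = z ^ n * exp (g z)) →
    infDist l (Gam phi F u v) ≤ 1 → ∀ x y : ℝ, x ≤ y → (∀ s ∈ Icc x y, E s ∉ F) →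
      ‖g (E x) - g (E y)‖ ≤ C * (infDist l (Gam phi F u v))⁻¹ * |x - y| := by
  obtain ⟨K, hK, hlip⟩ := lipJ h
  obtain ⟨A, hA⟩ := angJ h
  refine ⟨2 * K + |A| + 1, by positivity, ?_⟩
  intro l n g hg hj hfac hd1 x y hxy hF
  have hlJ := lpj_notmem h hj hfac
  have hd0 : 0 < infDist l (Gam phi F u v) :=
    ((gam_compact h).isClosed.notMem_iff_infDist_pos (gam_ne h)).1 hlJ
  set d := infDist l (Gam phi F u v) with hd
  set G : ℝ → ℂ := fun t => g (E t) + n * (t * I) with hG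
  have hGc : ContinuousOn G (Icc x y) := by
    rw [hG]
    refine ContinuousOn.add (hg.comp lpj_cont_E.continuousOn fun t ht => ⟨lpj_mem_E t, hF t ht⟩) ?_
    exact Continuous.continuousOn (by fun_prop)
  have hP : ∀ t ∈ Icc x y, phi (E t) - l = exp (G t) := by
    intro t ht
    rw [hfac (E t) (lpj_mem_E t) (hF t ht)]
    simp only [hG]
    rw [Complex.exp_add, mul_comm (exp (g (E t)))]
    congr 1
    unfold E
    rw [← Complex.exp_int_mul]
  have hdn : ∀ t ∈ Icc x y, d ≤ ‖phi (E t) - l‖ := by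
    intro t ht
    have h1 : phi (E t) ∈ Gam phi F u v := Or.inl ⟨E t, ⟨lpj_mem_E t, hF t ht⟩, rfl⟩
    have := infDist_le_dist_of_mem (x := l) h1
    rw [dist_comm, dist_eq_norm] at this
    exact this
  have hr : 0 < d / (2 * (K + 1)) := by positivity
  have hloc : ∀ s t : ℝ, x ≤ s → s ≤ t → t ≤ y → t - s ≤ d / (2 * (K + 1)) →
      ‖G t - G s‖ ≤ 2 * (K / d) * (t - s) := by
    intro s t hs hst ht hts
    have hsub : Icc s t ⊆ Icc x y := Icc_subset_Icc hs ht
    have h1 := lpj_loc (Phi := fun t => phi (E t) - l) hst (hGc.mono hsub)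
      (fun w hw => hP w (hsub hw)) hK hd0 (fun w hw => hdn w (hsub hw))
      (fun w hw => by
        rw [sub_sub_sub_cancel_right]
        exact hlip s w hw.1 fun r hr => hF r (hsub ⟨hr.1, hr.2.trans hw.2⟩))
      (by
        rw [le_div_iff₀ (by positivity)] at hts
        rw [abs_of_nonpos (by linarith)]
        nlinarith)
    rwa [abs_of_nonpos (by linarith), neg_sub] at h1
  have hglob := lpj_glob hr hxy hloc
  have habs : |x - y| = y - x := by rw [abs_of_nonpos (by linarith), neg_sub]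
  rw [← habs] at hglob
  have hn : |(n : ℝ)| ≤ |A| := (hA l n g hg hj hfac).1.trans (le_abs_self A)
  have hsub : g (E x) - g (E y) = -(G y - G x) - n * ((x - y : ℝ) * I) := by
    simp only [hG]
    push_cast
    ring
  have hnI : ‖(n : ℂ) * ((x - y : ℝ) * I)‖ = |(n : ℝ)| * |x - y| := by
    rw [norm_mul, norm_mul, Complex.norm_I, mul_one, Complex.norm_real, Real.norm_eq_abs]
    congr 1
    rw [Complex.norm_intCast]
  rw [hsub]
  calc ‖-(G y - G x) - n * ((x - y : ℝ) * I)‖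
      ≤ ‖-(G y - G x)‖ + ‖(n : ℂ) * ((x - y : ℝ) * I)‖ := norm_sub_le _ _
    _ ≤ 2 * (K / d) * |x - y| + |A| * |x - y| := by
        rw [norm_neg, hnI]
        exact add_le_add hglob (mul_le_mul_of_nonneg_right hn (abs_nonneg _))
    _ ≤ (2 * K + |A| + 1) * d⁻¹ * |x - y| := by
        have h1 : 1 ≤ d⁻¹ := (one_le_inv₀ hd0).2 hd1
        have h2 : |A| ≤ |A| * d⁻¹ := le_mul_of_one_le_right (abs_nonneg _) h1
        have h3 : 0 ≤ d⁻¹ := by positivity
        have h4 : 2 * (K / d) + |A| ≤ (2 * K + |A| + 1) * d⁻¹ := by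
          rw [div_eq_mul_inv]
          nlinarith
        calc 2 * (K / d) * |x - y| + |A| * |x - y| = (2 * (K / d) + |A|) * |x - y| := by ring
          _ ≤ (2 * K + |A| + 1) * d⁻¹ * |x - y| := mul_le_mul_of_nonneg_right h4 (abs_nonneg _)

end Pool.Agent.TBirJ
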