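import Pool.Agent.TBirJ.Cbj
import Pool.Agent.TBirJ.Ixb
import Pool.Agent.TBirJ.Exj
import Pool.Agent.TBirP.ZerP

/-!
# An operator with values in all ranges is zero

As TBirP/ZerP.lean: the extension is `D.rem` (near a point off `K`: `ChartJ.rem` of the chart without branches), the growth is `D.grow` with `pole_bound` and `D.vol`, `coburnJ` with `D.null`.
-/

set_option autoImplicit false

open MeasureTheory Complex Set Filter Topology Metric AddCircle
open scoped ComplexConjugate InnerProductSpace ENNReal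

namespace Pool.Agent.TBirJ

open Pool.Agent.TBir Pool.Agent.TBirG Pool.Agent.TBirC
open Pool.Agent.TBirP (E qT)

variable {phi : ℂ → ℂ} {K : Set ℂ}

/-- Off the spectrum. -/
private theorem zj_bound {A : Op} {f h : Hardy} {l : ℂ} (hl : (A - l • (1 : Op)) h = f)
    (hlt : ‖A‖ < ‖l‖) : ‖h‖ ≤ ‖f‖ / (‖l‖ - ‖A‖) := by
  have h0 : 0 < ‖l‖ - ‖A‖ := sub_pos.2 hlt
  rw [le_div_iff₀ h0]
  have h1 : l • h = A h - f := by
    rw [← hl]
    change l • h = A h - (A h - l • h)
    abel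
  have h2 : ‖l‖ * ‖h‖ ≤ ‖A‖ * ‖h‖ + ‖f‖ := by
    rw [← norm_smul, h1]
    exact (norm_sub_le _ _).trans (by gcongr; exact A.le_opNorm h)
  linarith

/-- Liouville: the case without poles. -/
private theorem zj_nil (hd : Dense Kᶜ) {f : Hardy} {hh : ℂ → Hardy}
    (hh1 : ∀ l ∉ K, (Tp phi - l • (1 : Op)) (hh l) = f)
    (hext : ∀ z : ℂ, ‖z‖ < 1 → z ≠ 0 → ∀ l0 : ℂ, ∃ r > 0, ∃ G : ℂ → ℂ,
      DifferentiableOn ℂ G (ball l0 r) ∧ ∀ l ∈ ball l0 r, l ∉ K → G l = ev z (hh l)) :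
    f = 0 := by
  have key : ∀ z : ℂ, ‖z‖ < 1 → z ≠ 0 → ∀ l ∉ K, ev z (hh l) = 0 := by
    intro z hz hz0 l hl
    obtain ⟨F', hF', hF⟩ := glue hd isOpen_univ (F := fun l => ev z (hh l))
      (fun l0 _ => hext z hz hz0 l0)
    have hdF : Differentiable ℂ F' := differentiableOn_univ.1 hF'
    have ht : Tendsto F' (cocompact ℂ) (𝓝 0) := by
      rw [tendsto_zero_iff_norm_tendsto_zero]
      have hb1 : ∀ w : ℂ, ‖Tp phi‖ < ‖w‖ → w ∉ K →
          ‖F' w‖ * (‖w‖ - ‖Tp phi‖) ≤ ‖ev z‖ * ‖f‖ := by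
        intro w hw hwK
        have h0 : 0 < ‖w‖ - ‖Tp phi‖ := sub_pos.2 hw
        rw [hF w (mem_univ w) hwK]
        have h3 : ‖ev z (hh w)‖ ≤ ‖ev z‖ * (‖f‖ / (‖w‖ - ‖Tp phi‖)) :=
          ((ev z).le_opNorm _).trans
            (mul_le_mul_of_nonneg_left (zj_bound (hh1 w hwK) hw) (norm_nonneg _))
        calc ‖ev z (hh w)‖ * (‖w‖ - ‖Tp phi‖)
            ≤ ‖ev z‖ * (‖f‖ / (‖w‖ - ‖Tp phi‖)) * (‖w‖ - ‖Tp phi‖) :=
              mul_le_mul_of_nonneg_right h3 h0.le
          _ = ‖ev z‖ * ‖f‖ := by field_simp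
      have hb2 : ∀ w : ℂ, ‖Tp phi‖ < ‖w‖ →
          ‖F' w‖ * (‖w‖ - ‖Tp phi‖) ≤ ‖ev z‖ * ‖f‖ := by
        intro w hw
        by_contra hcon
        rw [not_le] at hcon
        have hO : IsOpen {w : ℂ | ‖Tp phi‖ < ‖w‖ ∧ ‖ev z‖ * ‖f‖ < ‖F' w‖ * (‖w‖ - ‖Tp phi‖)} := by
          have hc1 : Continuous fun w : ℂ => ‖F' w‖ * (‖w‖ - ‖Tp phi‖) :=
            hdF.continuous.norm.mul (continuous_norm.sub continuous_const)
          exact (isOpen_lt continuous_const continuous_norm).inter (isOpen_lt continuous_const hc1)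
        obtain ⟨w', hw', hw'K⟩ := hd.inter_open_nonempty _ hO ⟨w, hw, hcon⟩
        exact absurd (hb1 w' hw'.1 hw'K) (not_le.2 hw'.2)
      have hb : ∀ᶠ w in cocompact ℂ, ‖F' w‖ ≤ ‖ev z‖ * (‖f‖ / (‖w‖ - ‖Tp phi‖)) := by
        have h1 : ∀ᶠ w in cocompact ℂ, ‖Tp phi‖ < ‖w‖ :=
          (tendsto_norm_cocompact_atTop (E := ℂ)).eventually_gt_atTop _
        filter_upwards [h1] with w hw
        have h0 : 0 < ‖w‖ - ‖Tp phi‖ := sub_pos.2 hw
        rw [← mul_div_assoc, le_div_iff₀ h0]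
        exact hb2 w hw
      refine squeeze_zero' (Eventually.of_forall fun _ => norm_nonneg _) hb ?_
      have h2 : Tendsto (fun w : ℂ => ‖w‖ - ‖Tp phi‖) (cocompact ℂ) atTop :=
        tendsto_atTop_add_const_right _ _ (tendsto_norm_cocompact_atTop (E := ℂ))
      have h3 : Tendsto (fun w : ℂ => ‖f‖ / (‖w‖ - ‖Tp phi‖)) (cocompact ℂ) (𝓝 0) :=
        h2.const_div_atTop _
      simpa using h3.const_mul ‖ev z‖
    rw [← hF l (mem_univ l) hl]
    exact hdF.apply_eq_of_tendsto_cocompact l ht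
  obtain ⟨l, hlJ⟩ : ∃ l : ℂ, l ∉ K := hd.nonempty
  have hO : IsOpen (ball (0 : ℂ) 1 \ {0}) := isOpen_ball.sdiff isClosed_singleton
  have h0 : hh l = 0 := by
    refine ev_ext hO ⟨1 / 2, ?_, ?_⟩ sdiff_subset fun z hz => key z (by simpa using hz.1) hz.2 l hlJ
    · rw [mem_ball_zero_iff]
      norm_num
    · rw [mem_singleton_iff]
      norm_num
  rw [← hh1 l hlJ, h0, map_zero]

/-- Poles: multiply by `Tp phi - q`, and use Coburn's lemma. -/
private theorem zj_list (D : Dat phi K) (L : List ℂ) :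
    ∀ R : Op, R * Tp phi = Tp phi * R →
    (∀ f : Hardy, ∃ hh : ℂ → Hardy, (∀ l ∉ K, (Tp phi - l • (1 : Op)) (hh l) = R f) ∧
      ∀ z : ℂ, ‖z‖ < 1 → z ≠ 0 → ∀ l0 : ℂ, ∃ r > 0, ∃ G : ℂ → ℂ,
        DifferentiableOn ℂ G (ball l0 r) ∧ ∀ l ∈ ball l0 r, l ∉ K →
          G l = (L.map fun q => l - q).prod * ev z (hh l)) → R = 0 := by
  induction L with
  | nil =>
    intro R _ hR
    refine ContinuousLinearMap.ext fun f => ?_
    obtain ⟨hh, h1, h2⟩ := hR f
    rw [zj_nil D.dense h1 fun z hz hz0 l0 => by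
      obtain ⟨r, hr, G, hG, hG'⟩ := h2 z hz hz0 l0
      exact ⟨r, hr, G, hG, fun l hl hlJ => by rw [hG' l hl hlJ]; simp⟩]
    rfl
  | cons q L ih =>
    intro R hc hR
    have h3 : (Tp phi - q • (1 : Op)) * R = 0 := by
      refine ih _ ?_ fun f => ?_
      · rw [mul_assoc, hc, ← mul_assoc, ← mul_assoc, sub_mul, mul_sub, smul_mul_assoc,
          mul_smul_comm, one_mul, mul_one]
      · obtain ⟨hh, h1, h2⟩ := hR f
        refine ⟨fun l => (l - q) • hh l + R f, fun l hl => ?_, fun z hz hz0 l0 => ?_⟩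
        · have e1 := h1 l hl
          change Tp phi ((l - q) • hh l + R f) - l • ((l - q) • hh l + R f) =
            Tp phi (R f) - q • R f
          change Tp phi (hh l) - l • hh l = R f at e1
          have e2 : Tp phi (hh l) = R f + l • hh l := by rw [← e1]; abel
          rw [map_add, map_smul, e2]
          module
        · obtain ⟨r, hr, G, hG, hG'⟩ := h2 z hz hz0 l0
          refine ⟨r, hr, fun l => G l + (L.map fun q => l - q).prod * ev z (R f),
            hG.add ((TBirR.prod_diff L).differentiableOn.mul_const _), fun l hl hlJ => ?_⟩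
          simp only
          rw [hG' l hl hlJ, map_add, map_smul, smul_eq_mul, List.map_cons, List.prod_cons]
          ring
    refine coburnJ D.hb D.null h3 ?_
    rw [mul_sub, hc, mul_smul_comm, mul_one, ← h3, sub_mul, smul_mul_assoc, one_mul]

/-- Solutions extend over the points off `K`. -/
private theorem zj_off (D : Dat phi K) {l : ℂ} (hl : l ∉ K) : Rem phi K l := by
  obtain ⟨n, hn⟩ := D.off l hl
  have hn0 := D.nn l n hn
  have hI : Iq phi l n := by
    refine ⟨0, Fin.elim0, fun i => i.elim0, fun j => j.elim0, ?_⟩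
    simpa [Ix] using hn
  obtain ⟨c, hc⟩ := exists_chartJ D.hb hI
  exact c.rem (by rw [hc]; exact hn0)

theorem zero_PJ (D : Dat phi K) {P : Op} (hP : P * Tp phi = Tp phi * P)
    (hr : ∀ f : Hardy, ∀ l ∉ K, RgJ phi (P f) l) : P = 0 := by
  obtain ⟨A, hA, hvol⟩ := D.vol
  obtain ⟨C, N, hC, hgr⟩ := D.grow
  obtain ⟨n, hn⟩ := TBirR.pole_bound D.closed D.ne hA hvol N
  obtain ⟨E, hE⟩ : ∃ E : Finset ℂ, ∀ l, l ∈ E ↔ ¬ Rem phi K l :=
    ⟨D.rem.toFinset, fun l => by rw [D.rem.mem_toFinset]; rfl⟩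
  obtain ⟨L, hL⟩ : ∃ L : List ℂ, ∀ l : ℂ, (L.map fun q => l - q).prod = ∏ q ∈ E, (l - q) ^ n := by
    clear hE
    induction E using Finset.induction_on with
    | empty => exact ⟨[], fun l => by simp⟩
    | insert a s ha ih =>
      obtain ⟨L, hL⟩ := ih
      refine ⟨List.replicate n a ++ L, fun l => ?_⟩
      rw [List.map_append, List.prod_append, hL, Finset.prod_insert ha, List.map_replicate,
        List.prod_replicate]
  refine zj_list D L P hP fun f => ?_
  have hrf : ∀ l ∉ K, ∃ u : Hardy, (Tp phi - l • (1 : Op)) u = P f := hr f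
  choose! hh hh1 using hrf
  refine ⟨hh, hh1, fun z hz hz0 l0 => ?_⟩
  by_cases hl0 : Rem phi K l0
  · obtain ⟨r, hr', G, hG, hG'⟩ := hl0 (P f) hh hh1 z hz hz0
    exact ⟨r, hr', fun l => (L.map fun q => l - q).prod * G l,
      (TBirR.prod_diff L).differentiableOn.mul hG,
      fun l hl hlJ => by simp only; rw [hG' l hl hlJ]⟩
  · have hqJ : l0 ∈ K := by
      by_contra hqJ
      exact hl0 (zj_off D hqJ)
    have h1 : ∀ᶠ l in 𝓝 l0, l ∉ {q : ℂ | ¬ Rem phi K q} \ {l0} :=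
      (D.rem.subset sdiff_subset).isClosed.isOpen_compl.mem_nhds fun h => h.2 rfl
    obtain ⟨rho', hrho', h2⟩ := Metric.eventually_nhds_iff_ball.1 h1
    obtain ⟨r, hr'⟩ : ∃ r : ℝ, r = min 1 rho' := ⟨_, rfl⟩
    have hr0 : 0 < r := by rw [hr']; exact lt_min one_pos hrho'
    obtain ⟨F', hF', hF⟩ := glue D.dense (isOpen_ball.sdiff isClosed_singleton)
      (O := ball l0 r \ {l0}) (F := fun l => ev z (hh l)) (fun l1 hl1 => by
        have h3 := h2 l1 (ball_subset_ball (by rw [hr']; exact min_le_right _ _) hl1.1)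
        have h4 : Rem phi K l1 := by
          by_contra h5
          exact h3 ⟨h5, hl1.2⟩
        exact h4 (P f) hh hh1 z hz hz0)
    obtain ⟨s, hs, G, hG, hG'⟩ := hn l0 r (‖ev z‖ * (C * ‖P f‖)) F' hr0 hF' fun l hl hlJ => by
      have hlq : l ≠ l0 := fun h => hlJ (h ▸ hqJ)
      rw [hF l ⟨hl, hlq⟩ hlJ]
      have h4 : infDist l K ≤ 1 := by
        refine (infDist_le_dist_of_mem hqJ).trans ((mem_ball.1 hl).le.trans ?_)
        rw [hr']
        exact min_le_left _ _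
      have h5 := hgr l hlJ h4 (hh l)
      rw [hh1 l hlJ] at h5
      refine ((ev z).le_opNorm _).trans ?_
      refine (mul_le_mul_of_nonneg_left h5 (norm_nonneg _)).trans (le_of_eq ?_)
      ring
    refine ⟨min s r, lt_min hs hr0, fun l => (∏ q ∈ E.erase l0, (l - q) ^ n) * G l, ?_,
      fun l hl hlJ => ?_⟩
    · refine DifferentiableOn.mul ?_ (hG.mono (ball_subset_ball (min_le_left _ _)))
      exact DifferentiableOn.fun_finsetProd fun i _ => (differentiableOn_id.sub_const _).pow _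
    · have hlq : l ≠ l0 := fun h => hlJ (h ▸ hqJ)
      simp only
      rw [hG' l (ball_subset_ball (min_le_left _ _) hl) hlq,
        hF l ⟨ball_subset_ball (min_le_right _ _) hl, hlq⟩ hlJ, hL,
        ← Finset.mul_prod_erase E (fun q => (l - q) ^ n) ((hE l0).2 hl0)]
      ring

end Pool.Agent.TBirJ
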