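import Pool.Agent.TBirJ.Mej
import Pool.Agent.TBirJ.Zej
import Pool.Agent.TBirJ.Cej
import Pool.Agent.TBirJ.Ccj

/-!
# The abstract theorem

`const_of`: all colours are equal: every `t` of the circle has a ball such that the colours of the simple points in the ball, different from `t`, are equal: `D.link`, `col_constJ`, `link_col` (inner numbers of simple points are `≥ 0`: `sm_sides`, `D.nn`, `B` is not
empty). Connectedness of the circle, as `exists_const` in TBirP/MnP.lean. If `S`, `t` are as in `LinkOn`, then the jump on `S` is the same constant (there are simple points near `t` by `D.sim`). `main_datJ`: `P` or `1 - P`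
(`ColJ.compl`) has the colour `0`: `mem_allJ`, `zero_PJ`. As `main_good` in TBirP/MnP.lean.
-/

set_option autoImplicit false

open MeasureTheory Complex Set Filter Topology Metric AddCircle
open scoped ComplexConjugate InnerProductSpace ENNReal

namespace Pool.Agent.TBirJ

open Pool.Agent.TBir Pool.Agent.TBirG Pool.Agent.TBirC
open Pool.Agent.TBirP (E qT)

variable {phi : ℂ → ℂ} {K : Set ℂ}

/-- Points of the circle outside a finite set. -/
private theorem mj_exists {E : Set ℂ} (hE : E.Finite) {z0 : ℂ} (hz0 : ‖z0‖ = 1) {eps : ℝ}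
    (heps : 0 < eps) : ∃ z ∈ ball z0 eps, ‖z‖ = 1 ∧ z ∉ E := by
  by_contra hcon
  push Not at hcon
  have h1 : sphere (0 : ℂ) 1 ∩ ball z0 eps ⊆ E := fun z hz => hcon z hz.2 (by simpa using hz.1)
  have h2 := hE.subset h1
  have hc : Continuous fun t : ℝ => z0 * Complex.exp (t * I) := by fun_prop
  have h3 : ∀ᶠ t : ℝ in 𝓝 0, z0 * Complex.exp (t * I) ∈ ball z0 eps := by
    refine hc.continuousAt.eventually (isOpen_ball.mem_nhds ?_)
    simp [heps]
  obtain ⟨δ, hδ, h4⟩ := Metric.eventually_nhds_iff_ball.1 h3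
  have h5 : (fun t : ℝ => z0 * Complex.exp (t * I)) '' (Ioo 0 (min δ 1)) ⊆
      sphere (0 : ℂ) 1 ∩ ball z0 eps := by
    rintro _ ⟨t, ht, rfl⟩
    refine ⟨?_, h4 t ?_⟩
    · simp [hz0, Complex.norm_exp_ofReal_mul_I]
    · rw [mem_ball, dist_zero_right, Real.norm_eq_abs, abs_of_pos ht.1]
      exact ht.2.trans_le (min_le_left _ _)
  have h6 : InjOn (fun t : ℝ => z0 * Complex.exp (t * I)) (Ioo 0 (min δ 1)) := by
    intro a ha b hb hab
    have hz : z0 ≠ 0 := by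
      rintro rfl
      simp at hz0
    have h7 := mul_left_cancel₀ hz hab
    rw [Complex.exp_eq_exp_iff_exists_int] at h7
    obtain ⟨n, hn⟩ := h7
    have h8 : (a : ℂ) = b + n * (2 * Real.pi) := by
      have hI := Complex.I_ne_zero
      apply mul_right_cancel₀ hI
      rw [hn]
      ring
    have h9 : a = b + n * (2 * Real.pi) := by exact_mod_cast h8
    have ha1 : a < 1 := ha.2.trans_le (min_le_right _ _)
    have hb1 : b < 1 := hb.2.trans_le (min_le_right _ _)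
    have ha0 : 0 < a := ha.1
    have hb0 : 0 < b := hb.1
    have hpi := Real.pi_gt_three
    have h10 : n = 0 := by
      by_contra hn0
      rcases lt_or_gt_of_ne hn0 with h | h
      · have : (n : ℝ) ≤ -1 := by exact_mod_cast (show n ≤ -1 by omega)
        nlinarith
      · have : (1 : ℝ) ≤ n := by exact_mod_cast (show 1 ≤ n by omega)
        nlinarith
    rw [h9, h10]
    simp
  exact (((Set.Ioo_infinite (lt_min hδ one_pos)).image h6).mono h5) h2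


private theorem mj_nonneg (D : Dat phi K) {z : ℂ} {x : ℤ} (h : Sm phi z x) : 0 ≤ x := by
  obtain ⟨A, B, -, -, -, hB, -, hclB, -⟩ := sm_sides D.hb D.off h
  obtain ⟨l, hl⟩ : B.Nonempty := closure_nonempty_iff.1 ⟨_, hclB⟩
  exact D.nn l x (hB l hl)

private theorem mj_of_sm (D : Dat phi K) {P : Op} (hP2 : P * P = P)
    (hP : P * Tp phi = Tp phi * P) {z : ℂ} {x : ℤ} (h : Sm phi z x) {c : ℂ}
    (hc : ColJ phi P z c) : Jmp phi K P (phi z) c := by
  obtain ⟨m, rfl⟩ := Int.eq_ofNat_of_zero_le (mj_nonneg D h)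
  exact Jmp.of_sm D.hb D.closed D.off D.dense hP2 hP h hc

/-- Simple points near every point of the circle. -/
private theorem mj_sm (D : Dat phi K) {z : ℂ} (hz : ‖z‖ = 1) {s : ℝ} (hs : 0 < s) :
    ∃ z2 ∈ ball z s, z2 ≠ z ∧ ∃ x, Sm phi z2 x := by
  obtain ⟨z2, h1, h2, h3⟩ := mj_exists (D.sim.union (Set.finite_singleton z)) hz hs
  rw [mem_union, not_or] at h3
  refine ⟨z2, h1, fun h => h3.2 (by rw [h]; rfl), ?_⟩
  by_contra h4
  push Not at h4
  exact h3.1 ⟨h2, h4⟩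

theorem const_of (D : Dat phi K) {P : Op} (hP2 : P * P = P) (hP : P * Tp phi = Tp phi * P) :
    ∃ c : ℂ, (c = 0 ∨ c = 1) ∧ (∀ z x, Sm phi z x → ColJ phi P z c ∧ Jmp phi K P (phi z) c) ∧
      ∀ t, ‖t‖ = 1 → ∀ S a b, LinkOn phi K t S a b → ∀ q ∈ S, Jmp phi K P q c := by
  classical
  have hex : ∀ z, (∃ x, Sm phi z x) → ∃ c : ℂ, (c = 0 ∨ c = 1) ∧ ColJ phi P z c := by
    rintro z ⟨x, hz⟩
    exact exists_colJ D.hb hz (mj_nonneg D hz) hP2 hP
  choose! cc hcc hcol using hex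
  obtain ⟨V, hV⟩ : ∃ V : ℂ → Set ℂ, V = fun k => {z | ∃ ρ > 0, ∀ z1 ∈ ball z ρ, z1 ≠ z →
      (∃ x, Sm phi z1 x) → cc z1 = k} := ⟨_, rfl⟩
  have hVo : ∀ k, IsOpen (V k) := by
    intro k
    rw [Metric.isOpen_iff, hV]
    rintro z ⟨ρ, hρ, h⟩
    refine ⟨ρ / 2, half_pos hρ, fun w hw => ?_⟩
    by_cases hwz : w = z
    · rw [hwz]
      exact ⟨ρ, hρ, h⟩
    · refine ⟨min (ρ / 2) (dist w z), lt_min (half_pos hρ) (dist_pos.2 hwz),
        fun z1 hz1 _ => h z1 ?_ ?_⟩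
      · have h1 := (mem_ball.1 hz1).trans_le (min_le_left _ _)
        rw [mem_ball] at hw ⊢
        linarith [dist_triangle z1 w z]
      · rintro rfl
        have h1 := (mem_ball.1 hz1).trans_le (min_le_right _ _)
        rw [dist_comm] at h1
        exact lt_irrefl _ h1
  have hloc : ∀ z : ℂ, ‖z‖ = 1 → ∃ s > 0, ∀ z1 ∈ ball z s, ∀ z2 ∈ ball z s, z1 ≠ z → z2 ≠ z →
      (∃ x, Sm phi z1 x) → (∃ x, Sm phi z2 x) → cc z1 = cc z2 := by
    intro z hz
    rcases D.link z hz with ⟨ha, x, hx, hI⟩ | ⟨S, a, b, hL⟩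
    · obtain ⟨s, hs, h1⟩ := col_constJ D.hb hz ha hx hI P
      refine ⟨s, hs, fun z1 hz1 z2 hz2 _ _ s1 s2 => ?_⟩
      obtain ⟨x1, e1⟩ := s1
      obtain ⟨x2, e2⟩ := s2
      exact h1 z1 hz1 z2 hz2 x1 x2 e1 e2 _ _ (hcol z1 ⟨x1, e1⟩) (hcol z2 ⟨x2, e2⟩)
    · obtain ⟨c, -, s, hs, h1⟩ := link_col D.hb D.closed D.off D.dense hP2 hP hL
      have h2 : ∀ z1 ∈ ball z s, z1 ≠ z → (∃ x, Sm phi z1 x) → cc z1 = c := by
        rintro z1 hz1 hne ⟨x1, e1⟩
        obtain ⟨m, hm⟩ := Int.eq_ofNat_of_zero_le (mj_nonneg D e1)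
        subst hm
        exact h1 z1 hz1 hne m e1 _ (hcol z1 ⟨_, e1⟩)
      exact ⟨s, hs, fun z1 hz1 z2 hz2 n1 n2 s1 s2 => (h2 z1 hz1 n1 s1).trans (h2 z2 hz2 n2 s2).symm⟩
  have hcov : sphere (0 : ℂ) 1 ⊆ V 0 ∪ V 1 := by
    intro z hz
    have hz' : ‖z‖ = 1 := by simpa using hz
    obtain ⟨s, hs, h⟩ := hloc z hz'
    obtain ⟨z2, hz2, hne2, hsim2⟩ := mj_sm D hz' hs
    have h1 : ∀ z1 ∈ ball z s, z1 ≠ z → (∃ x, Sm phi z1 x) → cc z1 = cc z2 :=
      fun z1 hz1 hn hs1 => h z1 hz1 z2 hz2 hn hne2 hs1 hsim2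
    rcases hcc z2 hsim2 with h2 | h2
    · left
      rw [hV]
      exact ⟨s, hs, fun z1 hz1 hn hs1 => (h1 z1 hz1 hn hs1).trans h2⟩
    · right
      rw [hV]
      exact ⟨s, hs, fun z1 hz1 hn hs1 => (h1 z1 hz1 hn hs1).trans h2⟩
  have hdisj : ∀ z ∈ sphere (0 : ℂ) 1, z ∈ V 0 → z ∈ V 1 → False := by
    intro z hz h0 h1
    rw [hV] at h0 h1
    obtain ⟨ρ0, hρ0, h0⟩ := h0
    obtain ⟨ρ1, hρ1, h1⟩ := h1
    obtain ⟨z2, hz2, hne2, hsim2⟩ := mj_sm D (by simpa using hz) (lt_min hρ0 hρ1)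
    have e0 := h0 z2 (ball_subset_ball (min_le_left _ _) hz2) hne2 hsim2
    have e1 := h1 z2 (ball_subset_ball (min_le_right _ _) hz2) hne2 hsim2
    rw [e0] at e1
    exact zero_ne_one e1
  have hpre : IsPreconnected (sphere (0 : ℂ) 1) := by
    refine isPreconnected_sphere ?_ _ _
    rw [Complex.rank_real_complex]
    norm_num
  have hone : ∀ k, sphere (0 : ℂ) 1 ⊆ V k → ∀ z, (∃ x, Sm phi z x) → cc z = k := by
    rintro k hk z ⟨x, hz⟩
    have hz1 : ‖z‖ = 1 := hz.1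
    have h1 := hk (show z ∈ sphere (0 : ℂ) 1 by simpa using hz1)
    rw [hV] at h1
    obtain ⟨ρ, hρ, h⟩ := h1
    obtain ⟨s, hs, h2⟩ := col_constJ D.hb hz1 hz.2.1 (mj_nonneg D hz) hz.iq P
    obtain ⟨z2, hz2, hne2, x2, hsim2⟩ := mj_sm D hz1 (lt_min hρ hs)
    have e1 := h z2 (ball_subset_ball (min_le_left _ _) hz2) hne2 ⟨x2, hsim2⟩
    rw [← e1]
    exact h2 z (mem_ball_self hs) z2 (ball_subset_ball (min_le_right _ _) hz2) x x2 hz hsim2 _ _
      (hcol z ⟨x, hz⟩) (hcol z2 ⟨x2, hsim2⟩)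
  have hfin : ∀ k : ℂ, (k = 0 ∨ k = 1) → sphere (0 : ℂ) 1 ⊆ V k →
      ∃ c : ℂ, (c = 0 ∨ c = 1) ∧ (∀ z x, Sm phi z x → ColJ phi P z c ∧ Jmp phi K P (phi z) c) ∧
      ∀ t, ‖t‖ = 1 → ∀ S a b, LinkOn phi K t S a b → ∀ q ∈ S, Jmp phi K P q c := by
    intro k hk01 hk
    have h1 : ∀ z, (∃ x, Sm phi z x) → ColJ phi P z k := by
      intro z hz
      have := hcol z hz
      rwa [hone k hk z hz] at this
    refine ⟨k, hk01, fun z x hz => ⟨h1 z ⟨x, hz⟩, mj_of_sm D hP2 hP hz (h1 z ⟨x, hz⟩)⟩, ?_⟩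
    intro t ht S a b hL q hq
    obtain ⟨c, h2, s, hs, h3⟩ := link_col D.hb D.closed D.off D.dense hP2 hP hL
    obtain ⟨z2, hz2, hne2, x2, hsim2⟩ := mj_sm D ht hs
    obtain ⟨m, hm⟩ := Int.eq_ofNat_of_zero_le (mj_nonneg D hsim2)
    subst hm
    have h4 : k = c := h3 z2 hz2 hne2 m hsim2 _ (h1 z2 ⟨_, hsim2⟩)
    rw [h4]
    exact h2 q hq
  by_cases h0 : (sphere (0 : ℂ) 1 ∩ V 0).Nonempty
  · have h1 : ¬ (sphere (0 : ℂ) 1 ∩ V 1).Nonempty := by
      intro h1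
      obtain ⟨z, hz, hz'⟩ := hpre (V 0) (V 1) (hVo 0) (hVo 1) hcov h0 h1
      exact hdisj z hz hz'.1 hz'.2
    exact hfin 0 (Or.inl rfl) fun z hz => (hcov hz).resolve_right fun h => h1 ⟨z, hz, h⟩
  · exact hfin 1 (Or.inr rfl) fun z hz => (hcov hz).resolve_left fun h => h0 ⟨z, hz, h⟩

theorem main_datJ (D : Dat phi K) : CompletelyIrreducible (Tp phi) := by
  rw [bir_iff]
  intro P hP2 hP
  have key : ∀ Q : Op, Q * Q = Q → Q * Tp phi = Tp phi * Q →
      (∀ z x, Sm phi z x → ColJ phi Q z 0) → Q = 0 := by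
    intro Q hQ2 hQ hcol
    obtain ⟨c, -, h1, h2⟩ := const_of D hQ2 hQ
    obtain ⟨z, -, -, x, hz⟩ := mj_sm D (z := 1) (by simp) one_pos
    have h3 : (0 : ℂ) = c :=
      (Jmp.near hQ (h1 z x hz).2).self_of_nhds 0 (mj_of_sm D hQ2 hQ hz (hcol z x hz))
    subst h3
    exact zero_PJ D hQ (mem_allJ D hQ2 hQ (fun z x hz => (h1 z x hz).2) h2)
  obtain ⟨c, hc, hcol, -⟩ := const_of D hP2 hP
  rcases hc with rfl | rfl
  · exact Or.inl (key P hP2 hP fun z x hz => (hcol z x hz).1)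
  · right
    have h1 : (1 - P) * (1 - P) = 1 - P := by
      rw [mul_sub, mul_one, sub_mul, one_mul, hP2, sub_self, sub_zero]
    have h2 : (1 - P) * Tp phi = Tp phi * (1 - P) := by
      rw [sub_mul, mul_sub, hP, one_mul, mul_one]
    have h3 := key (1 - P) h1 h2 fun z x hz => by
      have := (hcol z x hz).1.compl
      rwa [sub_self] at this
    rw [sub_eq_zero] at h3
    exact h3.symm

end Pool.Agent.TBirJ
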