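import Pool.Agent.TBirJ.Def
import Pool.Agent.TBirP.Lg

/-!
# Normal form of a function with jumps

`ch r t` is a function on the circle with support near `t`, continuous off `t`, with the limit `-1/2` on the left and `1/2` on the right of `t`. `normal_form`: the function `psi z * exp (- sum kap t * ch r t z)` has at each `t` in `F` equal one-sided limits (left `a t * exp (kap t / 2)`,
right `b t * exp (- kap t / 2)`), so by `ext_cont` it extends to a continuous function without zeros on the circle (the values at `t` are these limits), and `exists_log` (TBirP/Lg.lean) gives `n` and `g`.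
`Rad F r`: the supports for different points of `F` are disjoint.
-/

set_option autoImplicit false

open MeasureTheory Complex Set Filter Topology Metric AddCircle
open scoped ComplexConjugate InnerProductSpace ENNReal

namespace Pool.Agent.TBirJ

open Pool.Agent.TBir Pool.Agent.TBirG Pool.Agent.TBirC
open Pool.Agent.TBirP (E qT)

/-- A function on the circle with the jump `1` at `t`. -/
noncomputable def ch (r : ℝ) (t z : ℂ) : ℝ :=
  (if 0 < arg (z / t) then 1 / 2 else -(1 / 2)) * max 0 (1 - |arg (z / t)| / r)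

/-- The radius `r` separates the points of `F`. -/
def Rad (F : Finset ℂ) (r : ℝ) : Prop :=
  0 < r ∧ r < Real.pi ∧ ∀ z : ℂ, ‖z‖ = 1 → ∀ t ∈ F, ∀ t' ∈ F, ch r t z ≠ 0 → ch r t' z ≠ 0 → t = t'

variable {phi : ℂ → ℂ} {F : Finset ℂ} {u v : ℂ → ℂ} {r : ℝ} {t : ℂ}

private theorem arg_E {x : ℝ} (h1 : -Real.pi < x) (h2 : x ≤ Real.pi) : arg (E x) = x := by
  unfold E
  rw [Complex.exp_mul_I]
  exact Complex.arg_cos_add_sin_mul_I ⟨h1, h2⟩

private theorem norm_E (x : ℝ) : ‖E x‖ = 1 := by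
  unfold E
  exact Complex.norm_exp_ofReal_mul_I x

private theorem t_ne {t : ℂ} (ht : ‖t‖ = 1) : t ≠ 0 := by
  rintro rfl
  simp at ht

private theorem div_E {t : ℂ} (ht : ‖t‖ = 1) (x : ℝ) : t * E x / t = E x := by
  rw [mul_comm, mul_div_assoc, div_self (t_ne ht), mul_one]

private theorem nm_div {t z : ℂ} (ht : ‖t‖ = 1) (hz : ‖z‖ = 1) : ‖z / t‖ = 1 := by
  rw [norm_div, ht, hz, div_one]

private theorem eq_E {t z : ℂ} (ht : ‖t‖ = 1) (hz : ‖z‖ = 1) : z = t * E (arg (z / t)) := by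
  have h1 := Complex.norm_mul_exp_arg_mul_I (z / t)
  rw [nm_div ht hz, Complex.ofReal_one, one_mul] at h1
  unfold E
  rw [h1, mul_comm, div_mul_cancel₀ _ (t_ne ht)]

private theorem arg_tendsto {t : ℂ} (ht : ‖t‖ = 1) :
    Tendsto (fun z : ℂ => arg (z / t)) (𝓝 t) (𝓝 0) := by
  have h1 : ContinuousAt (fun z : ℂ => arg (z / t)) t := by
    have h2 : ContinuousAt arg (t / t) := by
      rw [div_self (t_ne ht)]
      exact Complex.continuousAt_arg Complex.one_mem_slitPlane
    exact ContinuousAt.comp (f := fun z : ℂ => z / t) (g := arg) h2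
      (continuousAt_id.div_const t)
  have h3 : arg (t / t) = 0 := by
    rw [div_self (t_ne ht)]
    exact Complex.arg_one
  have h4 := h1.tendsto
  rwa [h3] at h4

private theorem ch_supp {r : ℝ} {t z : ℂ} (hr : 0 < r) (h : ch r t z ≠ 0) : |arg (z / t)| < r := by
  by_contra hc
  push Not at hc
  apply h
  unfold ch
  have h1 : 1 - |arg (z / t)| / r ≤ 0 := by
    rw [sub_nonpos, one_le_div hr]
    exact hc
  rw [max_eq_left h1, mul_zero]

private theorem ch_self {r : ℝ} {t : ℂ} (ht : ‖t‖ = 1) : ch r t t ≠ 0 := by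
  unfold ch
  rw [div_self (t_ne ht), Complex.arg_one]
  simp

private theorem dist_arg {t z : ℂ} (ht : ‖t‖ = 1) (hz : ‖z‖ = 1) : ‖z - t‖ ≤ |arg (z / t)| := by
  have h1 : z - t = t * (exp (I * (arg (z / t) : ℝ)) - 1) := by
    have h2 := eq_E ht hz
    unfold E at h2
    rw [mul_comm I]
    conv_lhs => rw [h2]
    ring
  rw [h1, norm_mul, ht, one_mul]
  exact Real.norm_exp_I_mul_ofReal_sub_one_le

theorem exists_rad (hF : ∀ t ∈ F, ‖t‖ = 1) : ∃ r, Rad F r := by
  have h1 : ∀ t ∈ F, ∀ᶠ r : ℝ in 𝓝[>] 0, ∀ t' ∈ F, t ≠ t' → 2 * r < ‖t - t'‖ := by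
    intro t _
    rw [Finset.eventually_all]
    intro t' _
    by_cases htt : t = t'
    · exact Eventually.of_forall fun r h => absurd htt h
    · have h2 : 0 < ‖t - t'‖ / 2 := by
        have := norm_pos_iff.2 (sub_ne_zero.2 htt)
        positivity
      have h3 : ∀ᶠ r : ℝ in 𝓝[>] 0, r < ‖t - t'‖ / 2 :=
        mem_nhdsWithin_of_mem_nhds (Iio_mem_nhds h2)
      filter_upwards [h3] with r hr _
      linarith
  have h4 : ∀ᶠ r : ℝ in 𝓝[>] 0, ∀ t ∈ F, ∀ t' ∈ F, t ≠ t' → 2 * r < ‖t - t'‖ := by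
    rw [Finset.eventually_all]
    exact h1
  have h5 : ∀ᶠ r : ℝ in 𝓝[>] 0, r < Real.pi :=
    mem_nhdsWithin_of_mem_nhds (Iio_mem_nhds Real.pi_pos)
  have h6 : ∀ᶠ r : ℝ in 𝓝[>] 0, 0 < r := eventually_mem_nhdsWithin
  obtain ⟨r, h7, h8, h9⟩ := (h4.and (h5.and h6)).exists
  refine ⟨r, h9, h8, ?_⟩
  intro z hz t ht t' ht' hc hc'
  by_contra hne
  have e1 := (dist_arg (hF t ht) hz).trans_lt (ch_supp h9 hc)
  have e2 := (dist_arg (hF t' ht') hz).trans_lt (ch_supp h9 hc')
  have e3 := h7 t ht t' ht' hne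
  have e4 : ‖t - t'‖ ≤ ‖z - t‖ + ‖z - t'‖ := by
    have : t - t' = (z - t') - (z - t) := by ring
    rw [this]
    refine (norm_sub_le _ _).trans (le_of_eq (add_comm _ _))
  linarith

theorem ch_cont (hr : 0 < r) (hr' : r < Real.pi) (ht : ‖t‖ = 1) :
    ContinuousOn (ch r t) (sphere 0 1 \ {t}) := by
  rintro z ⟨hz, hzt⟩
  have hz1 : ‖z‖ = 1 := mem_sphere_zero_iff_norm.1 hz
  have hzt' : z ≠ t := hzt
  have hw0 : z / t ≠ 0 := by
    have := nm_div ht hz1
    intro h
    rw [h] at this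
    simp at this
  have hdiv : ContinuousAt (fun z : ℂ => z / t) z := continuousAt_id.div_const t
  -- the absolute value of the argument is continuous
  have habs : ContinuousAt (fun z : ℂ => |arg (z / t)|) z := by
    have h1 : ContinuousAt (fun w : ℂ => InnerProductGeometry.angle (1 : ℂ) w) (z / t) := by
      have h2 := InnerProductGeometry.continuousAt_angle (x := ((1 : ℂ), z / t)) one_ne_zero hw0
      exact ContinuousAt.comp (f := fun w : ℂ => ((1 : ℂ), w)) (g := fun y : ℂ × ℂ =>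
        InnerProductGeometry.angle y.1 y.2) h2 (by fun_prop)
    have h3 : ContinuousAt (fun z : ℂ => InnerProductGeometry.angle (1 : ℂ) (z / t)) z :=
      ContinuousAt.comp (f := fun z : ℂ => z / t)
        (g := fun w : ℂ => InnerProductGeometry.angle (1 : ℂ) w) h1 hdiv
    refine h3.congr ?_
    filter_upwards [hdiv.eventually_ne hw0] with y hy
    exact Complex.angle_one_left hy
  have hmax : ContinuousAt (fun z : ℂ => max 0 (1 - |arg (z / t)| / r)) z := by
    exact continuousAt_const.max (continuousAt_const.sub (habs.div_const r))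
  apply ContinuousAt.continuousWithinAt
  have hne1 : arg (z / t) ≠ 0 := by
    intro h
    have h2 := eq_E ht hz1
    rw [h] at h2
    apply hzt'
    rw [h2]
    simp [E]
  by_cases hpi : |arg (z / t)| = Real.pi
  · -- near the opposite point the function is zero
    have h1 : ∀ᶠ y in 𝓝 z, r < |arg (y / t)| := by
      have h2 := habs.tendsto
      rw [hpi] at h2
      exact h2.eventually (lt_mem_nhds hr')
    have h3 : ∀ᶠ y in 𝓝 z, (fun _ : ℂ => (0 : ℝ)) y = ch r t y := by
      filter_upwards [h1] with y hy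
      by_contra hc
      exact absurd (ch_supp hr (Ne.symm hc)) (not_lt.2 hy.le)
    exact continuousAt_const.congr h3
  · -- the argument is continuous
    have hslit : z / t ∈ slitPlane := by
      rw [Complex.mem_slitPlane_iff_arg]
      refine ⟨fun h => hpi ?_, hw0⟩
      rw [h, abs_of_pos Real.pi_pos]
    have harg : ContinuousAt (fun z : ℂ => arg (z / t)) z :=
      ContinuousAt.comp (f := fun z : ℂ => z / t) (g := arg)
        (Complex.continuousAt_arg hslit) hdiv
    rcases lt_or_gt_of_ne hne1 with hneg | hpos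
    · have h1 : ∀ᶠ y in 𝓝 z, arg (y / t) < 0 := harg.eventually (gt_mem_nhds hneg)
      refine (hmax.const_mul (-(1 / 2))).congr ?_
      filter_upwards [h1] with y hy
      unfold ch
      rw [if_neg (not_lt.2 hy.le)]
    · have h1 : ∀ᶠ y in 𝓝 z, 0 < arg (y / t) := harg.eventually (lt_mem_nhds hpos)
      refine (hmax.const_mul (1 / 2)).congr ?_
      filter_upwards [h1] with y hy
      unfold ch
      rw [if_pos hy]

theorem ch_left (hr : 0 < r) (ht : ‖t‖ = 1) :
    Tendsto (fun x : ℝ => ch r t (t * E (-x))) (𝓝[>] 0) (𝓝 (-(1 / 2))) := by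
  have h1 : Tendsto (fun x : ℝ => -(1 / 2) * max 0 (1 - |x| / r)) (𝓝 0) (𝓝 (-(1 / 2))) := by
    have h2 : Continuous fun x : ℝ => -(1 / 2) * max 0 (1 - |x| / r) := by fun_prop
    have h3 := h2.tendsto 0
    simpa using h3
  refine (h1.mono_left nhdsWithin_le_nhds).congr' ?_
  have h5 : ∀ᶠ x : ℝ in 𝓝[>] 0, x < Real.pi :=
    mem_nhdsWithin_of_mem_nhds (Iio_mem_nhds Real.pi_pos)
  have h6 : ∀ᶠ x : ℝ in 𝓝[>] 0, 0 < x := eventually_mem_nhdsWithin
  filter_upwards [h5, h6] with x hx hx0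
  unfold ch
  rw [div_E ht, arg_E (by linarith) (by linarith), if_neg (by linarith), abs_neg]

theorem ch_right (hr : 0 < r) (ht : ‖t‖ = 1) :
    Tendsto (fun x : ℝ => ch r t (t * E x)) (𝓝[>] 0) (𝓝 (1 / 2)) := by
  have h1 : Tendsto (fun x : ℝ => (1 / 2) * max 0 (1 - |x| / r)) (𝓝 0) (𝓝 (1 / 2)) := by
    have h2 : Continuous fun x : ℝ => (1 / 2) * max 0 (1 - |x| / r) := by fun_prop
    have h3 := h2.tendsto 0
    simpa using h3
  refine (h1.mono_left nhdsWithin_le_nhds).congr' ?_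
  have h5 : ∀ᶠ x : ℝ in 𝓝[>] 0, x < Real.pi :=
    mem_nhdsWithin_of_mem_nhds (Iio_mem_nhds Real.pi_pos)
  have h6 : ∀ᶠ x : ℝ in 𝓝[>] 0, 0 < x := eventually_mem_nhdsWithin
  filter_upwards [h5, h6] with x hx hx0
  unfold ch
  rw [div_E ht, arg_E (by linarith [Real.pi_pos]) (by linarith), if_pos hx0]

theorem ch_abs (hr : 0 < r) (z : ℂ) : |ch r t z| ≤ 1 / 2 := by
  unfold ch
  rw [abs_mul]
  have h1 : |(if 0 < arg (z / t) then (1 / 2 : ℝ) else -(1 / 2))| = 1 / 2 := by
    split_ifs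
    · exact abs_of_pos (by norm_num)
    · rw [abs_neg]
      exact abs_of_pos (by norm_num)
  have h2 : |max 0 (1 - |arg (z / t)| / r)| ≤ 1 := by
    rw [abs_of_nonneg (le_max_left _ _)]
    refine max_le zero_le_one ?_
    have : 0 ≤ |arg (z / t)| / r := div_nonneg (abs_nonneg _) hr.le
    linarith
  rw [h1]
  calc (1 / 2 : ℝ) * _ ≤ 1 / 2 * 1 := mul_le_mul_of_nonneg_left h2 (by norm_num)
    _ = 1 / 2 := mul_one _

theorem ext_cont (hF : ∀ t ∈ F, ‖t‖ = 1) {G : ℂ → ℂ} (hc : ContinuousOn G (sphere 0 1 \ F))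
    (h : ∀ t ∈ F, ∃ a, Tendsto (fun x : ℝ => G (t * E (-x))) (𝓝[>] 0) (𝓝 a) ∧
      Tendsto (fun x : ℝ => G (t * E x)) (𝓝[>] 0) (𝓝 a)) :
    ∃ g : ℂ → ℂ, ContinuousOn g (sphere 0 1) ∧ (∀ z ∈ sphere (0 : ℂ) 1, z ∉ F → g z = G z) ∧
      ∀ t ∈ F, Tendsto (fun x : ℝ => G (t * E x)) (𝓝[>] 0) (𝓝 (g t)) := by
  classical
  choose! a ha1 ha2 using h
  refine ⟨fun z => if z ∈ F then a z else G z, ?_, fun z _ hzF => if_neg hzF, fun t ht => ?_⟩
  · intro z hz
    have hz1 : ‖z‖ = 1 := mem_sphere_zero_iff_norm.1 hz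
    by_cases hzF : z ∈ F
    · -- a point of `F`
      have ht := hF z hzF
      unfold ContinuousWithinAt
      simp only [if_pos hzF]
      rw [tendsto_def]
      intro U hU
      have e1 : ∀ᶠ x : ℝ in 𝓝 0, 0 < x → G (z * E (-x)) ∈ U := by
        have := eventually_nhdsWithin_iff.1 ((ha1 z hzF).eventually_mem hU)
        simpa only [mem_Ioi] using this
      have e2 : ∀ᶠ x : ℝ in 𝓝 0, 0 < x → G (z * E x) ∈ U := by
        have := eventually_nhdsWithin_iff.1 ((ha2 z hzF).eventually_mem hU)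
        simpa only [mem_Ioi] using this
      have harg := arg_tendsto ht
      have hargn : Tendsto (fun y : ℂ => -arg (y / z)) (𝓝 z) (𝓝 0) := by
        have := harg.neg
        rwa [neg_zero] at this
      have e3 := hargn.eventually e1
      have e4 := harg.eventually e2
      have e5 : ∀ᶠ y in 𝓝 z, y ∉ F.erase z := by
        have : IsClosed ((F.erase z : Finset ℂ) : Set ℂ) := (Finset.finite_toSet _).isClosed
        exact this.isOpen_compl.mem_nhds (by simp)
      have e6 : ∀ᶠ y in 𝓝[sphere 0 1] z, y ∈ sphere (0 : ℂ) 1 := eventually_mem_nhdsWithin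
      change ∀ᶠ y in 𝓝[sphere 0 1] z, (if y ∈ F then a y else G y) ∈ U
      filter_upwards [e6, mem_nhdsWithin_of_mem_nhds e3, mem_nhdsWithin_of_mem_nhds e4,
        mem_nhdsWithin_of_mem_nhds e5] with y hy h3 h4 h5
      by_cases hyz : y = z
      · rw [hyz, if_pos hzF]
        exact mem_of_mem_nhds hU
      · have hyF : y ∉ F := fun hyF => h5 (Finset.mem_erase.2 ⟨hyz, hyF⟩)
        rw [if_neg hyF]
        have hy1 : ‖y‖ = 1 := mem_sphere_zero_iff_norm.1 hy
        have h6 := eq_E ht hy1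
        rcases lt_trichotomy (arg (y / z)) 0 with h7 | h7 | h7
        · have h8 := h3 (by linarith)
          rw [neg_neg, ← h6] at h8
          exact h8
        · exfalso
          rw [h7] at h6
          apply hyz
          rw [h6]
          simp [E]
        · have h8 := h4 h7
          rw [← h6] at h8
          exact h8
    · have h1 : ∀ᶠ y in 𝓝 z, y ∉ F := by
        have : IsClosed (F : Set ℂ) := (Finset.finite_toSet _).isClosed
        exact this.isOpen_compl.mem_nhds hzF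
      have h2 : ContinuousWithinAt G (sphere 0 1 \ F) z := hc z ⟨hz, hzF⟩
      have h3 : ContinuousWithinAt G (sphere 0 1) z := by
        have h4 : sphere (0 : ℂ) 1 \ F = sphere 0 1 ∩ (F : Set ℂ)ᶜ := rfl
        rw [h4] at h2
        exact (continuousWithinAt_inter h1).1 h2
      refine h3.congr_of_eventuallyEq ?_ (if_neg hzF)
      filter_upwards [mem_nhdsWithin_of_mem_nhds h1] with y hy
      exact if_neg hy
  · simp only [if_pos ht]
    exact ha2 t ht

theorem normal_form (hF : ∀ t ∈ F, ‖t‖ = 1) (hr : Rad F r) {psi : ℂ → ℂ}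
    (hc : ContinuousOn psi (sphere 0 1 \ F)) (h0 : ∀ z ∈ sphere (0 : ℂ) 1, z ∉ F → psi z ≠ 0)
    {a b kap : ℂ → ℂ} (ha : ∀ t ∈ F, Tendsto (fun x : ℝ => psi (t * E (-x))) (𝓝[>] 0) (𝓝 (a t)))
    (hb : ∀ t ∈ F, Tendsto (fun x : ℝ => psi (t * E x)) (𝓝[>] 0) (𝓝 (b t)))
    (ha0 : ∀ t ∈ F, a t ≠ 0) (hb0 : ∀ t ∈ F, b t ≠ 0) (hk : ∀ t ∈ F, exp (kap t) = b t / a t) :
    ∃ (n : ℤ) (g : ℂ → ℂ), ContinuousOn g (sphere 0 1) ∧ ∀ z ∈ sphere (0 : ℂ) 1, z ∉ F →
      psi z = z ^ n * exp (g z + ∑ t ∈ F, kap t * (ch r t z : ℂ)) := by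
  classical
  obtain ⟨hr0, hrpi, hsep⟩ := hr
  set S : ℂ → ℂ := fun z => ∑ t ∈ F, kap t * (ch r t z : ℂ) with hS
  have hScont : ContinuousOn S (sphere 0 1 \ F) := by
    rw [hS]
    refine continuousOn_finsetSum _ fun t ht => ?_
    refine continuousOn_const.mul ?_
    refine Complex.continuous_ofReal.comp_continuousOn ?_
    refine (ch_cont hr0 hrpi (hF t ht)).mono ?_
    rintro z ⟨hz, hzF⟩
    refine ⟨hz, ?_⟩
    rintro rfl
    exact hzF ht
  -- the other terms vanish at the points of `F`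
  have hzero : ∀ t ∈ F, ∀ t' ∈ F, t' ≠ t → ch r t' t = 0 := by
    intro t ht t' ht' hne
    by_contra hc
    exact hne (hsep t (hF t ht) t' ht' t ht hc (ch_self (hF t ht)))
  have hE0 : ∀ t : ℂ, Tendsto (fun x : ℝ => t * E x) (𝓝[>] 0) (𝓝 t) := by
    intro t
    have h1 : Continuous fun x : ℝ => t * E x := by
      unfold E
      fun_prop
    have h2 := h1.tendsto 0
    have h3 : t * E 0 = t := by simp [E]
    rw [h3] at h2
    exact h2.mono_left nhdsWithin_le_nhds
  have hE1 : ∀ t : ℂ, Tendsto (fun x : ℝ => t * E (-x)) (𝓝[>] 0) (𝓝 t) := by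
    intro t
    have h1 : Continuous fun x : ℝ => t * E (-x) := by
      unfold E
      fun_prop
    have h2 := h1.tendsto 0
    have h3 : t * E (-0) = t := by simp [E]
    rw [h3] at h2
    exact h2.mono_left nhdsWithin_le_nhds
  have hother : ∀ t ∈ F, ∀ t' ∈ F, t' ≠ t → ∀ f : ℝ → ℂ, Tendsto f (𝓝[>] 0) (𝓝 t) →
      (∀ x, ‖f x‖ = 1) → Tendsto (fun x => ch r t' (f x)) (𝓝[>] 0) (𝓝 0) := by
    intro t ht t' ht' hne f hf hf1
    have h1 : ContinuousWithinAt (ch r t') (sphere 0 1 \ {t'}) t :=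
      ch_cont hr0 hrpi (hF t' ht') t ⟨mem_sphere_zero_iff_norm.2 (hF t ht), hne.symm⟩
    have h2 : Tendsto (ch r t') (𝓝[sphere 0 1 \ {t'}] t) (𝓝 0) := by
      have := h1.tendsto
      rwa [hzero t ht t' ht' hne] at this
    refine h2.comp ?_
    refine tendsto_nhdsWithin_iff.2 ⟨hf, ?_⟩
    filter_upwards [hf.eventually_ne hne.symm] with x hx
    exact ⟨mem_sphere_zero_iff_norm.2 (hf1 x), hx⟩
  have hSl : ∀ t ∈ F, Tendsto (fun x : ℝ => S (t * E (-x))) (𝓝[>] 0) (𝓝 (kap t * (-(1 / 2)))) := by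
    intro t ht
    have h1 : ∀ t' ∈ F, Tendsto (fun x : ℝ => kap t' * (ch r t' (t * E (-x)) : ℂ)) (𝓝[>] 0)
        (𝓝 (if t' = t then kap t * (-(1 / 2)) else 0)) := by
      intro t' ht'
      by_cases h : t' = t
      · rw [if_pos h, h]
        have h2 := (Complex.continuous_ofReal.tendsto _).comp (ch_left hr0 (hF t ht))
        have h3 := h2.const_mul (kap t)
        simpa using h3
      · rw [if_neg h]
        have h2 := (Complex.continuous_ofReal.tendsto _).comp
          (hother t ht t' ht' h _ (hE1 t) fun x => by rw [norm_mul, hF t ht, norm_E, one_mul])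
        have h3 := h2.const_mul (kap t')
        simpa using h3
    have h4 := tendsto_finsetSum F h1
    rwa [Finset.sum_ite_eq' F t fun _ => kap t * (-(1 / 2)), if_pos ht] at h4
  have hSr : ∀ t ∈ F, Tendsto (fun x : ℝ => S (t * E x)) (𝓝[>] 0) (𝓝 (kap t * (1 / 2))) := by
    intro t ht
    have h1 : ∀ t' ∈ F, Tendsto (fun x : ℝ => kap t' * (ch r t' (t * E x) : ℂ)) (𝓝[>] 0)
        (𝓝 (if t' = t then kap t * (1 / 2) else 0)) := by
      intro t' ht'
      by_cases h : t' = t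
      · rw [if_pos h, h]
        have h2 := (Complex.continuous_ofReal.tendsto _).comp (ch_right hr0 (hF t ht))
        have h3 := h2.const_mul (kap t)
        simpa using h3
      · rw [if_neg h]
        have h2 := (Complex.continuous_ofReal.tendsto _).comp
          (hother t ht t' ht' h _ (hE0 t) fun x => by rw [norm_mul, hF t ht, norm_E, one_mul])
        have h3 := h2.const_mul (kap t')
        simpa using h3
    have h4 := tendsto_finsetSum F h1
    rwa [Finset.sum_ite_eq' F t fun _ => kap t * (1 / 2), if_pos ht] at h4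
  set G : ℂ → ℂ := fun z => psi z * exp (-S z) with hG
  have hGcont : ContinuousOn G (sphere 0 1 \ F) := hc.mul (hScont.neg.cexp)
  have hGl : ∀ t ∈ F, Tendsto (fun x : ℝ => G (t * E (-x))) (𝓝[>] 0)
      (𝓝 (a t * exp (-(kap t * (-(1 / 2)))))) := fun t ht =>
    (ha t ht).mul ((hSl t ht).neg.cexp)
  have hGr : ∀ t ∈ F, Tendsto (fun x : ℝ => G (t * E x)) (𝓝[>] 0)
      (𝓝 (b t * exp (-(kap t * (1 / 2))))) := fun t ht =>
    (hb t ht).mul ((hSr t ht).neg.cexp)
  have heq : ∀ t ∈ F, a t * exp (-(kap t * (-(1 / 2)))) = b t * exp (-(kap t * (1 / 2))) := by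
    intro t ht
    have h1 : b t = a t * exp (kap t) := by
      rw [hk t ht, mul_div_cancel₀ _ (ha0 t ht)]
    rw [h1, mul_assoc, ← Complex.exp_add]
    congr 2
    ring
  obtain ⟨g0, hg0, hg1, hg2⟩ := ext_cont hF hGcont fun t ht =>
    ⟨b t * exp (-(kap t * (1 / 2))), by rw [← heq t ht]; exact hGl t ht, hGr t ht⟩
  have hg0ne : ∀ z ∈ sphere (0 : ℂ) 1, g0 z ≠ 0 := by
    intro z hz
    by_cases hzF : z ∈ F
    · rw [tendsto_nhds_unique (hg2 z hzF) (hGr z hzF)]
      exact mul_ne_zero (hb0 z hzF) (Complex.exp_ne_zero _)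
    · rw [hg1 z hz hzF]
      exact mul_ne_zero (h0 z hz hzF) (Complex.exp_ne_zero _)
  obtain ⟨n, h, hh, hh'⟩ := Pool.Agent.TBirP.exists_log hg0 hg0ne
  refine ⟨n, h, hh, fun z hz hzF => ?_⟩
  have h1 := hh' z hz
  rw [hg1 z hz hzF] at h1
  have h2 : psi z = G z * exp (S z) := by
    rw [hG]
    simp only
    rw [mul_assoc, ← Complex.exp_add, neg_add_cancel, Complex.exp_zero, mul_one]
  rw [h2, h1, mul_assoc, ← Complex.exp_add]

theorem PwJ.cont (h : PwJ phi F u v) : ContinuousOn phi (sphere 0 1 \ F) := by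
  rintro z ⟨hz, hzF⟩
  exact (h.reg z hz hzF).1.continuousAt.continuousWithinAt

theorem PwJ.lim_left (h : PwJ phi F u v) (ht : t ∈ F) :
    Tendsto (fun x : ℝ => phi (t * E (-x))) (𝓝[>] 0) (𝓝 (u t)) := by
  obtain ⟨psi, ⟨h1, -, h2⟩, h3⟩ := h.left t ht
  have h4 : Tendsto (fun x : ℝ => t * E (-1 * x)) (𝓝[>] 0) (𝓝 t) := by
    have h5 : Continuous fun x : ℝ => t * E (-1 * x) := by
      unfold E
      fun_prop
    have h6 := h5.tendsto 0
    have h7 : t * E (-1 * 0) = t := by simp [E]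
    rw [h7] at h6
    exact h6.mono_left nhdsWithin_le_nhds
  have h5 := h1.continuousAt.tendsto.comp h4
  rw [h3] at h5
  refine h5.congr' ?_
  filter_upwards [h2] with x hx
  rw [Function.comp_apply, ← hx, neg_one_mul]

theorem PwJ.lim_right (h : PwJ phi F u v) (ht : t ∈ F) :
    Tendsto (fun x : ℝ => phi (t * E x)) (𝓝[>] 0) (𝓝 (v t)) := by
  obtain ⟨psi, ⟨h1, -, h2⟩, h3⟩ := h.right t ht
  have h4 : Tendsto (fun x : ℝ => t * E (1 * x)) (𝓝[>] 0) (𝓝 t) := by
    have h5 : Continuous fun x : ℝ => t * E (1 * x) := by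
      unfold E
      fun_prop
    have h6 := h5.tendsto 0
    have h7 : t * E (1 * 0) = t := by simp [E]
    rw [h7] at h6
    exact h6.mono_left nhdsWithin_le_nhds
  have h5 := h1.continuousAt.tendsto.comp h4
  rw [h3] at h5
  refine h5.congr' ?_
  filter_upwards [h2] with x hx
  rw [Function.comp_apply, ← hx, one_mul]

end Pool.Agent.TBirJ
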