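import Pool.Agent.TBirJ.Def
import Pool.Agent.TBirP.GrC

/-!
# Two radial arcs

As `two_sides` in TBirP/GrC.lean: in a small disc around `q` each circle with centre `q` meets each of the two arcs in exactly one point, which depends continuously on the radius (`inv_fun`); the complement of the two arcs in the disc consists of two sets, which are images of a product of
intervals (radius, angle between the two arcs), so connected.
-/

set_option autoImplicit false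

open MeasureTheory Complex Set Filter Topology Metric AddCircle
open scoped ComplexConjugate InnerProductSpace ENNReal

namespace Pool.Agent.TBirJ

open Pool.Agent.TBir Pool.Agent.TBirG Pool.Agent.TBirC
open Pool.Agent.TBirP (E qT)

namespace Rdj

/-- The points of the arc `k` at the distance `rho`. -/
theorem arc {q : ℂ} {k : ℝ → ℂ} {d : ℝ} (hd : 0 < d) (c : ContinuousOn k (Icc 0 d))
    (z : k 0 = q) (m : StrictMonoOn (fun x => ‖k x - q‖) (Icc 0 d)) :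
    0 < ‖k d - q‖ ∧ ∃ X : ℝ → ℝ, (∀ r ∈ Ioo 0 ‖k d - q‖, X r ∈ Ioo 0 d ∧ ‖k (X r) - q‖ = r) ∧
      ContinuousOn (fun r => k (X r)) (Ioo 0 ‖k d - q‖) ∧
      ∀ x ∈ Icc 0 d, ‖k x - q‖ ∈ Ioo 0 ‖k d - q‖ → k x = k (X ‖k x - q‖) := by
  obtain ⟨k', hk'⟩ : ∃ k' : ℝ → ℂ, ∀ x, k' x = k (max 0 (min x d)) := ⟨_, fun _ => rfl⟩
  have hmem : ∀ x : ℝ, max 0 (min x d) ∈ Icc 0 d := fun x =>
    ⟨le_max_left _ _, max_le hd.le (min_le_right _ _)⟩
  have hkc : Continuous k' := by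
    have h1 : Continuous fun x : ℝ => k (max 0 (min x d)) :=
      c.comp_continuous (by fun_prop) hmem
    exact h1.congr fun x => (hk' x).symm
  have hkk : ∀ x ∈ Icc 0 d, k' x = k x := by
    intro x hx
    rw [hk', min_eq_left hx.2, max_eq_right hx.1]
  have h0 : (0 : ℝ) ∈ Icc 0 d := ⟨le_rfl, hd.le⟩
  have hd' : d ∈ Icc 0 d := ⟨hd.le, le_rfl⟩
  have hz : ‖k' 0 - q‖ = 0 := by rw [hkk 0 h0, z, sub_self, norm_zero]
  have hmono : ∀ x y : ℝ, 0 ≤ x → x < y → y ≤ d → ‖k' x - q‖ < ‖k' y - q‖ := by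
    intro x y hx hxy hy
    rw [hkk x ⟨hx, hxy.le.trans hy⟩, hkk y ⟨hx.trans hxy.le, hy⟩]
    exact m ⟨hx, hxy.le.trans hy⟩ ⟨hx.trans hxy.le, hy⟩ hxy
  have hpos : 0 < ‖k d - q‖ := by
    have h1 := hmono 0 d le_rfl hd le_rfl
    rwa [hz, hkk d hd'] at h1
  obtain ⟨X, hX, hXc⟩ := TBirP.GrC.inv_fun (R := fun x => ‖k' x - q‖) (M := ‖k d - q‖) hd
    (hkc.sub continuous_const).norm hz hmono (by rw [hkk d hd'])
  have hXm : ∀ r ∈ Ioo 0 ‖k d - q‖, X r ∈ Icc 0 d := fun r hr => Ioo_subset_Icc_self (hX r hr).1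
  refine ⟨hpos, X, fun r hr => ⟨(hX r hr).1, ?_⟩, ?_, ?_⟩
  · have h1 := (hX r hr).2
    rwa [hkk _ (hXm r hr)] at h1
  · have h1 : ContinuousOn (fun r => k' (X r)) (Ioo 0 ‖k d - q‖) := hkc.comp_continuousOn hXc
    exact h1.congr fun r hr => (hkk _ (hXm r hr)).symm
  · intro x hx hr
    have h1 := (hX _ hr).2
    rw [hkk _ (hXm _ hr)] at h1
    have h2 := m.injOn hx (hXm _ hr) h1.symm
    rw [← h2]

end Rdj

open TBirP.GrC in
theorem two_radial {K : Set ℂ} {q : ℂ} {k1 k2 : ℝ → ℂ} {d : ℝ} (hd : 0 < d)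
    (c1 : ContinuousOn k1 (Icc 0 d)) (c2 : ContinuousOn k2 (Icc 0 d)) (z1 : k1 0 = q) (z2 : k2 0 = q)
    (m1 : StrictMonoOn (fun x => ‖k1 x - q‖) (Icc 0 d))
    (m2 : StrictMonoOn (fun x => ‖k2 x - q‖) (Icc 0 d))
    (hdis : ∀ x ∈ Icc 0 d, ∀ y ∈ Icc 0 d, k1 x = k2 y → x = 0 ∧ y = 0)
    (hK : ∀ᶠ l in 𝓝 q, l ∈ K ↔ l ∈ k1 '' Icc 0 d ∪ k2 '' Icc 0 d) :
    ∃ A B : Set ℂ, IsPreconnected A ∧ IsPreconnected B ∧ (∀ l ∈ A, l ∉ K) ∧ (∀ l ∈ B, l ∉ K) ∧
      ∀ᶠ l in 𝓝 q, l ∉ K → l ∈ A ∨ l ∈ B := by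
  have hpi := Real.pi_gt_three
  have hE : Continuous E := by
    unfold E
    fun_prop
  have hE0 : E 0 = 1 := by
    unfold E
    simp
  have hnE : ∀ x : ℝ, ‖E x‖ = 1 := fun x => Complex.norm_exp_ofReal_mul_I x
  obtain ⟨p, hp⟩ : ∃ p, p = q := ⟨_, rfl⟩
  have hpJ : p ∈ K := by
    rw [hp]
    exact hK.self_of_nhds.2 (Or.inl ⟨0, ⟨le_rfl, hd.le⟩, z1⟩)
  rw [← hp] at z1 z2 m1 m2 hK ⊢
  clear hp
  obtain ⟨hp1, X1, hX1, hX1c, hX1u⟩ := Rdj.arc hd c1 z1 m1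
  obtain ⟨hp2, X2, hX2, hX2c, hX2u⟩ := Rdj.arc hd c2 z2 m2
  rw [Metric.eventually_nhds_iff] at hK
  obtain ⟨rho0, hrho0, hK0⟩ := hK
  obtain ⟨M, hM0, hM1, hM2, hM3⟩ : ∃ M : ℝ, 0 < M ∧ M ≤ rho0 ∧ M ≤ ‖k1 d - p‖ ∧
      M ≤ ‖k2 d - p‖ :=
    ⟨min rho0 (min ‖k1 d - p‖ ‖k2 d - p‖), lt_min hrho0 (lt_min hp1 hp2),
      min_le_left _ _, (min_le_right _ _).trans (min_le_left _ _),
      (min_le_right _ _).trans (min_le_right _ _)⟩
  have hI1 : ∀ rho ∈ Ioo 0 M, rho ∈ Ioo 0 ‖k1 d - p‖ := fun rho h => ⟨h.1, h.2.trans_le hM2⟩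
  have hI2 : ∀ rho ∈ Ioo 0 M, rho ∈ Ioo 0 ‖k2 d - p‖ := fun rho h => ⟨h.1, h.2.trans_le hM3⟩
  obtain ⟨a1, ha1⟩ : ∃ a1 : ℝ → ℂ, ∀ rho, a1 rho = k1 (X1 rho) := ⟨_, fun _ => rfl⟩
  obtain ⟨a2, ha2⟩ : ∃ a2 : ℝ → ℂ, ∀ rho, a2 rho = k2 (X2 rho) := ⟨_, fun _ => rfl⟩
  have hn1 : ∀ rho ∈ Ioo 0 M, ‖a1 rho - p‖ = rho := fun rho hrho => by
    rw [ha1]; exact (hX1 rho (hI1 rho hrho)).2
  have hn2 : ∀ rho ∈ Ioo 0 M, ‖a2 rho - p‖ = rho := fun rho hrho => by
    rw [ha2]; exact (hX2 rho (hI2 rho hrho)).2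
  have hc1 : ContinuousOn a1 (Ioo 0 M) := (hX1c.mono hI1).congr fun rho _ => ha1 rho
  have hc2 : ContinuousOn a2 (Ioo 0 M) := (hX2c.mono hI2).congr fun rho _ => ha2 rho
  have h10 : ∀ rho ∈ Ioo 0 M, a1 rho - p ≠ 0 := by
    intro rho hrho h3
    have h4 := hn1 rho hrho
    rw [h3, norm_zero] at h4
    linarith [hrho.1]
  have hne : ∀ rho ∈ Ioo 0 M, a1 rho ≠ a2 rho := by
    intro rho hrho h3
    have e1 := (hX1 rho (hI1 rho hrho)).1
    have e2 := (hX2 rho (hI2 rho hrho)).1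
    rw [ha1, ha2] at h3
    have h4 := (hdis _ (Ioo_subset_Icc_self e1) _ (Ioo_subset_Icc_self e2) h3).1
    exact e1.1.ne' h4
  -- the points of the curve at distance `rho`
  have hJ : ∀ l : ℂ, ‖l - p‖ ∈ Ioo 0 M → l ∈ K → l = a1 ‖l - p‖ ∨ l = a2 ‖l - p‖ := by
    intro l hl hlK
    have h3 : dist l p < rho0 := by
      rw [dist_eq_norm]
      exact hl.2.trans_le hM1
    rcases (hK0 h3).1 hlK with h4 | h4
    · left
      obtain ⟨x, hx, rfl⟩ := h4
      rw [ha1]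
      exact hX1u x hx (hI1 _ hl)
    · right
      obtain ⟨x, hx, rfl⟩ := h4
      rw [ha2]
      exact hX2u x hx (hI2 _ hl)
  have ha1J : ∀ rho ∈ Ioo 0 M, a1 rho ∈ K := by
    intro rho hrho
    have h3 : dist (a1 rho) p < rho0 := by
      rw [dist_eq_norm, hn1 rho hrho]
      exact hrho.2.trans_le hM1
    refine (hK0 h3).2 (Or.inl ⟨X1 rho, Ioo_subset_Icc_self (hX1 rho (hI1 rho hrho)).1, ?_⟩)
    exact (ha1 rho).symm
  have ha2J : ∀ rho ∈ Ioo 0 M, a2 rho ∈ K := by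
    intro rho hrho
    have h3 : dist (a2 rho) p < rho0 := by
      rw [dist_eq_norm, hn2 rho hrho]
      exact hrho.2.trans_le hM1
    refine (hK0 h3).2 (Or.inr ⟨X2 rho, Ioo_subset_Icc_self (hX2 rho (hI2 rho hrho)).1, ?_⟩)
    exact (ha2 rho).symm
  -- the angle
  obtain ⟨w, hw⟩ : ∃ w : ℝ → ℂ, ∀ rho, w rho = (a2 rho - p) / (a1 rho - p) := ⟨_, fun _ => rfl⟩
  have hwn : ∀ rho ∈ Ioo 0 M, ‖w rho‖ = 1 := by
    intro rho hrho
    rw [hw, norm_div, hn1 rho hrho, hn2 rho hrho, div_self hrho.1.ne']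
  have hw1 : ∀ rho ∈ Ioo 0 M, w rho ≠ 1 := by
    intro rho hrho h3
    rw [hw, div_eq_one_iff_eq (h10 rho hrho)] at h3
    exact hne rho hrho (sub_left_injective h3).symm
  have hwc : ContinuousOn w (Ioo 0 M) := by
    have h3 : ContinuousOn (fun rho => (a2 rho - p) / (a1 rho - p)) (Ioo 0 M) :=
      (hc2.sub continuousOn_const).div (hc1.sub continuousOn_const) h10
    exact h3.congr fun rho _ => hw rho
  obtain ⟨al, hal⟩ : ∃ al : ℝ → ℝ, ∀ rho, al rho = Real.pi + arg (-w rho) := ⟨_, fun _ => rfl⟩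
  have hal0 : ∀ rho ∈ Ioo 0 M, E (al rho) = w rho ∧ 0 < al rho ∧ al rho < 2 * Real.pi := by
    intro rho hrho
    obtain ⟨e1, e2, e3, -⟩ := arg_rep (hwn rho hrho) (hw1 rho hrho)
    rw [hal]
    exact ⟨e1, e2, e3⟩
  have halc : ContinuousOn al (Ioo 0 M) := by
    have h3 : ContinuousOn (fun rho => Real.pi + arg (-w rho)) (Ioo 0 M) := by
      refine continuousOn_const.add fun rho hrho => ?_
      have h4 := (arg_rep (hwn rho hrho) (hw1 rho hrho)).2.2.2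
      have h5 : ContinuousWithinAt (fun rho => -w rho) (Ioo 0 M) rho := (hwc rho hrho).neg
      exact ContinuousAt.comp_continuousWithinAt (g := arg) (f := fun rho => -w rho)
        (continuousAt_arg h4) h5
    exact h3.congr fun rho _ => hal rho
  have hoff : ∀ rho ∈ Ioo 0 M, ∀ θ : ℝ, 0 < θ → θ < 2 * Real.pi → θ ≠ al rho →
      p + (a1 rho - p) * E θ ∉ K := by
    intro rho hrho θ hθ0 hθ1 hθ hl
    have hnl : ‖p + (a1 rho - p) * E θ - p‖ = rho := by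
      rw [add_sub_cancel_left, norm_mul, hn1 rho hrho, hnE, mul_one]
    obtain ⟨e1, e2, e3⟩ := hal0 rho hrho
    rcases hJ _ (by rw [hnl]; exact hrho) hl with h3 | h3
    · rw [hnl] at h3
      have h4 : (a1 rho - p) * E θ = (a1 rho - p) * 1 := by
        rw [mul_one]
        linear_combination h3
      exact E_ne_one hθ0 hθ1 (mul_left_cancel₀ (h10 rho hrho) h4)
    · rw [hnl] at h3
      have h4 : (a1 rho - p) * E θ = (a1 rho - p) * E (al rho) := by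
        rw [e1, hw, mul_div_cancel₀ _ (h10 rho hrho)]
        linear_combination h3
      have h5 := mul_left_cancel₀ (h10 rho hrho) h4
      rcases lt_or_gt_of_ne hθ with h6 | h6
      · have h7 : E (al rho - θ) = 1 := by
          have h8 := E_add (al rho - θ) θ
          rw [sub_add_cancel, ← h5] at h8
          have h9 : E θ ≠ 0 := by
            rw [← norm_pos_iff, hnE]
            exact one_pos
          have h11 : E (al rho - θ) * E θ = 1 * E θ := by rw [one_mul]; exact h8.symm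
          exact mul_right_cancel₀ h9 h11
        exact E_ne_one (by linarith) (by linarith) h7
      · have h7 : E (θ - al rho) = 1 := by
          have h8 := E_add (θ - al rho) (al rho)
          rw [sub_add_cancel, h5] at h8
          have h9 : E (al rho) ≠ 0 := by
            rw [← norm_pos_iff, hnE]
            exact one_pos
          have h11 : E (θ - al rho) * E (al rho) = 1 * E (al rho) := by
            rw [one_mul]; exact h8.symm
          exact mul_right_cancel₀ h9 h11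
        exact E_ne_one (by linarith) (by linarith) h7
  -- the two sides
  have hpre : IsPreconnected (Ioo 0 M ×ˢ Ioo (0 : ℝ) 1) :=
    (isPreconnected_Ioo).prod isPreconnected_Ioo
  have hcoe : ∀ g : ℝ × ℝ → ℝ, ContinuousOn g (Ioo 0 M ×ˢ Ioo (0 : ℝ) 1) →
      ContinuousOn (fun q : ℝ × ℝ => p + (a1 q.1 - p) * E (g q)) (Ioo 0 M ×ˢ Ioo (0 : ℝ) 1) := by
    intro g hg
    have e1 : ContinuousOn (fun q : ℝ × ℝ => a1 q.1) (Ioo 0 M ×ˢ Ioo (0 : ℝ) 1) :=
      hc1.comp continuous_fst.continuousOn (fun q hq => hq.1)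
    have e2 : ContinuousOn (fun q : ℝ × ℝ => E (g q)) (Ioo 0 M ×ˢ Ioo (0 : ℝ) 1) :=
      hE.comp_continuousOn hg
    exact continuousOn_const.add ((e1.sub continuousOn_const).mul e2)
  have hal1 : ContinuousOn (fun q : ℝ × ℝ => al q.1) (Ioo 0 M ×ˢ Ioo (0 : ℝ) 1) :=
    halc.comp continuous_fst.continuousOn (fun q hq => hq.1)
  have hcA := hcoe (fun q => q.2 * al q.1) (continuous_snd.continuousOn.mul hal1)
  have hcB := hcoe (fun q => al q.1 + q.2 * (2 * Real.pi - al q.1))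
    (hal1.add (continuous_snd.continuousOn.mul (continuousOn_const.sub hal1)))
  refine ⟨(fun q : ℝ × ℝ => p + (a1 q.1 - p) * E (q.2 * al q.1)) '' (Ioo 0 M ×ˢ Ioo (0 : ℝ) 1),
    (fun q : ℝ × ℝ => p + (a1 q.1 - p) * E (al q.1 + q.2 * (2 * Real.pi - al q.1))) ''
      (Ioo 0 M ×ˢ Ioo (0 : ℝ) 1), hpre.image _ hcA, hpre.image _ hcB, ?_, ?_, ?_⟩
  · rintro _ ⟨⟨rho, s⟩, ⟨hrho, hs'⟩, rfl⟩
    dsimp only at hrho hs' ⊢
    obtain ⟨e1, e2, e3⟩ := hal0 rho hrho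
    have e4 : 0 < s * al rho := mul_pos hs'.1 e2
    have e5 : s * al rho < al rho := by nlinarith [hs'.2]
    exact hoff rho hrho _ e4 (by linarith) e5.ne
  · rintro _ ⟨⟨rho, s⟩, ⟨hrho, hs'⟩, rfl⟩
    dsimp only at hrho hs' ⊢
    obtain ⟨e1, e2, e3⟩ := hal0 rho hrho
    have e4 : 0 < s * (2 * Real.pi - al rho) := mul_pos hs'.1 (by linarith)
    have e5 : s * (2 * Real.pi - al rho) < 2 * Real.pi - al rho := by
      have : 0 < 2 * Real.pi - al rho := by linarith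
      nlinarith [hs'.2]
    exact hoff rho hrho _ (by linarith) (by linarith) (by linarith)
  · filter_upwards [Metric.ball_mem_nhds p hM0] with l hl hlJ
    rw [mem_ball, dist_eq_norm] at hl
    obtain ⟨rho, hrho⟩ : ∃ rho, rho = ‖l - p‖ := ⟨_, rfl⟩
    rw [← hrho] at hl
    have hrho0' : 0 < rho := by
      rw [hrho, norm_pos_iff, sub_ne_zero]
      rintro rfl
      exact hlJ hpJ
    have hrI : rho ∈ Ioo 0 M := ⟨hrho0', hl⟩
    obtain ⟨e1, e2, e3⟩ := hal0 rho hrI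
    have h3 := h10 rho hrI
    obtain ⟨q, hq⟩ : ∃ q, q = (l - p) / (a1 rho - p) := ⟨_, rfl⟩
    have hq1 : ‖q‖ = 1 := by
      rw [hq, norm_div, hn1 rho hrI, ← hrho, div_self hrho0'.ne']
    have hql : l = p + (a1 rho - p) * q := by
      rw [hq, mul_div_cancel₀ _ h3]
      ring
    have hqne : q ≠ 1 := by
      rintro h4
      apply hlJ
      rw [hql, h4, mul_one, add_sub_cancel]
      exact ha1J rho hrI
    obtain ⟨f1, f2, f3, -⟩ := arg_rep hq1 hqne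
    obtain ⟨θ, hθ⟩ : ∃ θ, θ = Real.pi + arg (-q) := ⟨_, rfl⟩
    rw [← hθ] at f1 f2 f3
    have hθne : θ ≠ al rho := by
      intro h4
      apply hlJ
      rw [hql, ← f1, h4, e1, hw, mul_div_cancel₀ _ h3, add_sub_cancel]
      exact ha2J rho hrI
    rcases lt_or_gt_of_ne hθne with h4 | h4
    · left
      refine ⟨(rho, θ / al rho), ⟨hrI, ?_, ?_⟩, ?_⟩
      · exact div_pos f2 e2
      · dsimp only
        rw [div_lt_one e2]
        exact h4
      · dsimp only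
        rw [div_mul_cancel₀ _ e2.ne', f1, ← hql]
    · right
      have e4 : 0 < 2 * Real.pi - al rho := by linarith
      refine ⟨(rho, (θ - al rho) / (2 * Real.pi - al rho)), ⟨hrI, ?_, ?_⟩, ?_⟩
      · exact div_pos (by linarith) e4
      · dsimp only
        rw [div_lt_one e4]
        linarith
      · dsimp only
        rw [div_mul_cancel₀ _ e4.ne', add_sub_cancel, f1, ← hql]

end Pool.Agent.TBirJ
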