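import Pool.Agent.TBirJ.Rdj
import Pool.Agent.TBirJ.Wjj
import Pool.Agent.TBirJ.Inj
import Pool.Agent.TBirJ.Ixb
import Pool.Agent.TBirP.NrmB

/-!
# The sides of a corner

`K = Gam phi F u v`. `sides_corner`: `u t = v t = q`: near `q` the set `K` is the union of the arcs on the left and on the right of `t`, disjoint by `simple`; `two_radial`; as `corner_sides` in TBirP/NrmB.lean with simple points `z1` near `t` (`simple`, `sep`, `exists_sm`, `sm_sides`).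
-/

set_option autoImplicit false

open MeasureTheory Complex Set Filter Topology Metric AddCircle
open scoped ComplexConjugate InnerProductSpace ENNReal

namespace Pool.Agent.TBirJ

open Pool.Agent.TBir Pool.Agent.TBirG Pool.Agent.TBirC
open Pool.Agent.TBirP (E qT)

variable {phi : ℂ → ℂ} {F : Finset ℂ} {u v : ℂ → ℂ} {q t : ℂ}

namespace SdcAux

open Pool.Agent.TBirP (nb_E_mem nb_E_zero nb_E_cont nb_ne nb_arg nb_arg_eq)

/-- the radial parametrisation of one side -/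
theorem arcJ {phi psi : ℂ → ℂ} {t : ℂ} {s : ℝ} (ht : t ≠ 0) (hs : s ≠ 0)
    (h : SideJ phi psi t s) : ∃ (k : ℝ → ℂ) (d : ℝ), 0 < d ∧ ContinuousOn k (Icc 0 d) ∧
      k 0 = psi t ∧ StrictMonoOn (fun x => ‖k x - psi t‖) (Icc 0 d) ∧
      ∀ x ∈ Ioc 0 d, k x = phi (t * E (s * x)) := by
  obtain ⟨h1, h2, h3⟩ := h
  have hside : TBirP.Side psi psi t s := ⟨h1, h2, Filter.Eventually.of_forall fun _ => rfl⟩
  obtain ⟨kk, k1, k2, k3⟩ := TBirP.GrC.core ht hs hside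
  obtain ⟨δ, hδ, hd⟩ := TBirP.GrC.radial k1 k2
  obtain ⟨ε1, hε1, k4⟩ := Metric.eventually_nhds_iff_ball.1 k1.eventually_analyticAt
  rw [eventually_nhdsWithin_iff, Metric.eventually_nhds_iff] at k3 h3
  obtain ⟨ε2, hε2, k5⟩ := k3
  obtain ⟨ε3, hε3, h4⟩ := h3
  have k6 : kk 0 = psi t := by
    have := k5 (y := 0) (by simpa using hε2) (mem_Ici.2 le_rfl)
    rw [mul_zero, nb_E_zero, mul_one, ofReal_zero] at this
    exact this.symm
  obtain ⟨d, hd0, hdδ, hd1, hd2, hd3⟩ : ∃ d : ℝ, 0 < d ∧ d ≤ δ ∧ d ≤ ε1 / 2 ∧ d ≤ ε2 / 2 ∧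
      d ≤ ε3 / 2 := by
    refine ⟨min (min δ (ε1 / 2)) (min (ε2 / 2) (ε3 / 2)), by positivity, ?_, ?_, ?_, ?_⟩
    · exact (min_le_left _ _).trans (min_le_left _ _)
    · exact (min_le_left _ _).trans (min_le_right _ _)
    · exact (min_le_right _ _).trans (min_le_left _ _)
    · exact (min_le_right _ _).trans (min_le_right _ _)
  refine ⟨fun x => kk x, d, hd0, ?_, ?_, ?_, ?_⟩
  · intro x hx
    have h5 : (x : ℂ) ∈ ball (0 : ℂ) ε1 := by
      rw [mem_ball_zero_iff, Complex.norm_real, Real.norm_of_nonneg hx.1]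
      linarith [hx.2]
    have h6 : ContinuousAt (fun x : ℝ => kk x) x :=
      ContinuousAt.comp (g := kk) (f := fun x : ℝ => (x : ℂ)) (k4 _ h5).continuousAt
        Complex.continuous_ofReal.continuousAt
    exact h6.continuousWithinAt
  · simp only [ofReal_zero]
    exact k6
  · intro x hx y hy hxy
    have := hd x y hx.1 hxy (hy.2.trans hdδ)
    rw [k6] at this
    exact this
  · intro x hx
    have h5 := k5 (y := x) (by rw [Real.dist_eq, sub_zero, abs_of_pos hx.1]; linarith [hx.2])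
      (mem_Ici.2 hx.1.le)
    have h6 := h4 (y := x) (by rw [Real.dist_eq, sub_zero, abs_of_pos hx.1]; linarith [hx.2])
      (mem_Ioi.2 hx.1)
    simp only
    rw [← h5, ← h6]

theorem tE_ne {x : ℝ} (ht : ‖t‖ = 1) (hx : x ≠ 0) (h1 : |x| < 2 * Real.pi) : t * E x ≠ t := by
  intro h0
  have h2 : E x = 1 := by
    have h3 : t * E x = t * 1 := by rw [h0, mul_one]
    exact mul_left_cancel₀ (nb_ne ht) h3
  rcases lt_or_gt_of_ne hx with h3 | h3
  · rw [abs_of_neg h3] at h1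
    refine TBirP.GrC.E_ne_one (by linarith : 0 < -x) h1 ?_
    have h4 := TBirP.GrC.E_add x (-x)
    rw [add_neg_cancel, nb_E_zero, h2, one_mul] at h4
    exact h4.symm
  · rw [abs_of_pos h3] at h1
    exact TBirP.GrC.E_ne_one h3 h1 h2

theorem E_inj {x y : ℝ} (ht : ‖t‖ = 1) (hx : 0 < x + y) (h1 : x + y < 2 * Real.pi)
    (h : t * E y = t * E (-x)) : False := by
  have h2 : E y = E (-x) := mul_left_cancel₀ (nb_ne ht) h
  refine TBirP.GrC.E_ne_one hx h1 ?_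
  rw [TBirP.GrC.E_add, h2, ← TBirP.GrC.E_add, add_neg_cancel, nb_E_zero]

/-- if the values near `z0` are far from `q`, there is nothing to prove near `z0` -/
theorem far {S : Set ℂ} {z0 : ℂ} {ρ : ℝ} (hρ : 0 < ρ)
    (h : ∀ᶠ z in 𝓝 z0, ‖z‖ = 1 → z ∉ F → ρ ≤ ‖phi z - q‖) :
    ∀ᶠ p : ℂ × ℂ in 𝓝 (q, z0), ‖p.2‖ = 1 → p.2 ∉ F → phi p.2 = p.1 → p.1 ∈ S := by
  have hbq : ∀ᶠ l in 𝓝 q, l ∈ ball q ρ := Metric.ball_mem_nhds q hρ
  rw [nhds_prod_eq]
  filter_upwards [hbq.prod_inl (𝓝 z0), h.prod_inr (𝓝 q)] with p h1 h2 h3 h4 h5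
  have h6 := h2 h3 h4
  rw [h5] at h6
  have h7 : ‖p.1 - q‖ < ρ := by
    rw [← dist_eq_norm]
    exact h1
  linarith

/-- near a point of `F` the values are near the one-sided limits -/
theorem near_F (h : PwJ phi F u v) {t' : ℂ} (ht' : t' ∈ F) (hu : q ≠ u t') (hv : q ≠ v t') :
    ∃ ρ : ℝ, 0 < ρ ∧ ∀ᶠ z in 𝓝 t', ‖z‖ = 1 → z ∉ F → ρ ≤ ‖phi z - q‖ := by
  have hn : ‖t'‖ = 1 := h.circ t' ht'
  have h1 : 0 < ‖u t' - q‖ := norm_pos_iff.2 (sub_ne_zero.2 hu.symm)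
  have h2 : 0 < ‖v t' - q‖ := norm_pos_iff.2 (sub_ne_zero.2 hv.symm)
  have e1 := ((h.lim_left ht').sub_const q).norm.eventually_const_lt (half_lt_self h1)
  have e2 := ((h.lim_right ht').sub_const q).norm.eventually_const_lt (half_lt_self h2)
  rw [eventually_nhdsWithin_iff] at e1 e2
  have e3 : Tendsto (fun z : ℂ => -arg (z / t')) (𝓝 t') (𝓝 0) := by
    have := (nb_arg hn).neg
    rwa [neg_zero] at this
  refine ⟨min (‖u t' - q‖ / 2) (‖v t' - q‖ / 2), by positivity, ?_⟩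
  filter_upwards [e3.eventually e1, (nb_arg hn).eventually e2] with z g1 g2 hz hzF
  have hz' := nb_arg_eq hn (mem_sphere_zero_iff_norm.2 hz)
  have h3 : arg (z / t') ≠ 0 := by
    intro h0
    rw [h0, nb_E_zero, mul_one] at hz'
    rw [← hz'] at hzF
    exact hzF ht'
  rcases lt_or_gt_of_ne h3 with h4 | h4
  · have h5 := g1 (mem_Ioi.2 (by linarith))
    rw [neg_neg, hz'] at h5
    exact (min_le_left _ _).trans h5.le
  · have h5 := g2 (mem_Ioi.2 h4)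
    rw [hz'] at h5
    exact (min_le_right _ _).trans h5.le

/-- near a point which is not in `F` -/
theorem near_reg (h : PwJ phi F u v) {z0 : ℂ} (hz0 : ‖z0‖ = 1) (hF : z0 ∉ F) (hq : phi z0 ≠ q) :
    ∃ ρ : ℝ, 0 < ρ ∧ ∀ᶠ z in 𝓝 z0, ‖z‖ = 1 → z ∉ F → ρ ≤ ‖phi z - q‖ := by
  have h1 : 0 < ‖phi z0 - q‖ := norm_pos_iff.2 (sub_ne_zero.2 hq)
  have h2 := (h.reg z0 (mem_sphere_zero_iff_norm.2 hz0) hF).1.continuousAt.tendsto
  have h3 := (h2.sub_const q).norm.eventually_const_lt (half_lt_self h1)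
  refine ⟨_, half_pos h1, ?_⟩
  filter_upwards [h3] with z hz _ _
  exact hz.le

end SdcAux

open SdcAux
open Pool.Agent.TBirP (nb_E_mem nb_E_zero nb_E_cont nb_ne nb_arg nb_arg_eq)

theorem sides_corner (h : JCross phi F u v) (ht : t ∈ F) (he : u t = v t) :
    ∃ m : ℤ, Sides phi (Gam phi F u v) (u t) m := by
  classical
  have hpi := Real.pi_gt_three
  have hP : PwJ phi F u v := h.toPwJ
  have hn : ‖t‖ = 1 := hP.circ t ht
  have ht0 : t ≠ 0 := nb_ne hn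
  have hqseg : u t ∈ segment ℝ (u t) (v t) := left_mem_segment ℝ _ _
  obtain ⟨psi1, s1, e1⟩ := hP.left t ht
  obtain ⟨psi2, s2, e2⟩ := hP.right t ht
  obtain ⟨k1, d1, hd1, c1, z1, m1, a1⟩ := arcJ ht0 (by norm_num : (-1 : ℝ) ≠ 0) s1
  obtain ⟨k2, d2, hd2, c2, z2, m2, a2⟩ := arcJ ht0 one_ne_zero s2
  rw [e1] at z1 m1
  rw [e2, ← he] at z2 m2
  have htend : Tendsto (fun x : ℝ => t * E x) (𝓝 0) (𝓝 t) := by
    have h1 : Continuous fun x : ℝ => t * E x := continuous_const.mul nb_E_cont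
    have := h1.tendsto 0
    rwa [nb_E_zero, mul_one] at this
  -- small arguments
  obtain ⟨r, hr, hr1, hrF⟩ : ∃ r : ℝ, 0 < r ∧ r ≤ 1 ∧ ∀ x : ℝ, |x| ≤ r → x ≠ 0 →
      t * E x ∉ F ∧ ∀ z' : ℂ, ‖z'‖ = 1 → z' ∉ F → phi z' = phi (t * E x) → z' = t * E x := by
    have g1 : ∀ᶠ z in 𝓝 t, z ∉ (F : Set ℂ) \ {t} := by
      have : ((F : Set ℂ) \ {t})ᶜ ∈ 𝓝 t :=
        (F.finite_toSet.subset sdiff_subset).isClosed.isOpen_compl.mem_nhds fun h3 => h3.2 rfl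
      exact this
    have g2 := htend.eventually (g1.and (h.simple t ht))
    rw [Metric.eventually_nhds_iff] at g2
    obtain ⟨ε, hε, g3⟩ := g2
    refine ⟨min (ε / 2) 1, by positivity, min_le_right _ _, fun x hx hx0 => ?_⟩
    have hx1 : |x| ≤ ε / 2 := hx.trans (min_le_left _ _)
    have hx2 : |x| ≤ 1 := hx.trans (min_le_right _ _)
    obtain ⟨g4, g5⟩ := g3 (y := x) (by rw [Real.dist_eq, sub_zero]; linarith)
    have g6 : t * E x ≠ t := tE_ne hn hx0 (by linarith)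
    have g7 : t * E x ∉ F := fun h0 => g4 ⟨Finset.mem_coe.2 h0, g6⟩
    exact ⟨g7, g5 (mem_sphere_zero_iff_norm.1 (nb_E_mem hn x)) g7⟩
  obtain ⟨d, hd, hdd1, hdd2, hdr⟩ : ∃ d : ℝ, 0 < d ∧ d ≤ d1 ∧ d ≤ d2 ∧ d ≤ r := by
    refine ⟨min d1 (min d2 r), by positivity, min_le_left _ _, ?_, ?_⟩
    · exact (min_le_right _ _).trans (min_le_left _ _)
    · exact (min_le_right _ _).trans (min_le_right _ _)
  have i1 : Icc 0 d ⊆ Icc 0 d1 := Icc_subset_Icc_right hdd1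
  have i2 : Icc 0 d ⊆ Icc 0 d2 := Icc_subset_Icc_right hdd2
  have a1' : ∀ x ∈ Ioc 0 d, k1 x = phi (t * E (-x)) := by
    intro x hx
    rw [a1 x ⟨hx.1, hx.2.trans hdd1⟩, neg_one_mul]
  have a2' : ∀ x ∈ Ioc 0 d, k2 x = phi (t * E x) := by
    intro x hx
    rw [a2 x ⟨hx.1, hx.2.trans hdd2⟩, one_mul]
  have hmem : ∀ x : ℝ, |x| ≤ r → x ≠ 0 → phi (t * E x) ∈ Gam phi F u v := fun x hx hx0 =>
    Or.inl ⟨_, ⟨nb_E_mem hn x, (hrF x hx hx0).1⟩, rfl⟩
  have hqK : u t ∈ Gam phi F u v := Or.inr (mem_biUnion (Finset.mem_coe.2 ht) hqseg)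
  have hdis : ∀ x ∈ Icc 0 d, ∀ y ∈ Icc 0 d, k1 x = k2 y → x = 0 ∧ y = 0 := by
    intro x hx y hy hxy
    have h01 : (0 : ℝ) ∈ Icc 0 d1 := ⟨le_rfl, hd1.le⟩
    have h02 : (0 : ℝ) ∈ Icc 0 d2 := ⟨le_rfl, hd2.le⟩
    rcases hx.1.eq_or_lt with hx0 | hx0
    · refine ⟨hx0.symm, ?_⟩
      apply m2.injOn (i2 hy) h02
      simp only
      rw [← hxy, ← hx0, z1, z2]
    · rcases hy.1.eq_or_lt with hy0 | hy0
      · exfalso
        have h1 : x = 0 := by
          apply m1.injOn (i1 hx) h01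
          simp only
          rw [hxy, ← hy0, z1, z2]
        exact hx0.ne' h1
      · exfalso
        rw [a1' x ⟨hx0, hx.2⟩, a2' y ⟨hy0, hy.2⟩] at hxy
        have h1 := hrF (-x) (by rw [abs_neg, abs_of_pos hx0]; exact hx.2.trans hdr) (by linarith)
        have h2 := hrF y (by rw [abs_of_pos hy0]; exact hy.2.trans hdr) hy0.ne'
        have h3 := h1.2 _ (mem_sphere_zero_iff_norm.1 (nb_E_mem hn y)) h2.1 hxy.symm
        exact E_inj hn (by linarith) (by linarith [hx.2, hy.2]) h3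
  -- the curve near `q`
  have hK : ∀ᶠ l in 𝓝 (u t), l ∈ Gam phi F u v ↔ l ∈ k1 '' Icc 0 d ∪ k2 '' Icc 0 d := by
    have g1 : ∀ᶠ l in 𝓝 (u t), ∀ z ∈ sphere (0 : ℂ) 1, ‖z‖ = 1 → z ∉ F → phi z = l →
        l ∈ k1 '' Icc 0 d ∪ k2 '' Icc 0 d := by
      refine (isCompact_sphere (0 : ℂ) 1).eventually_forall_of_forall_eventually
        (P := fun l z => ‖z‖ = 1 → z ∉ F → phi z = l → l ∈ k1 '' Icc 0 d ∪ k2 '' Icc 0 d)
        fun z0 hz0 => ?_
      have hz0' : ‖z0‖ = 1 := mem_sphere_zero_iff_norm.1 hz0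
      by_cases hF : z0 ∈ F
      · by_cases htz : z0 = t
        · subst htz
          have g2 : ∀ᶠ z in 𝓝 z0, |arg (z / z0)| < d := by
            have := (nb_arg hn).abs
            rw [abs_zero] at this
            exact this.eventually_lt_const hd
          rw [nhds_prod_eq]
          filter_upwards [g2.prod_inr (𝓝 (u z0))] with p hp h1 h2 h3
          have h4 := nb_arg_eq hn (mem_sphere_zero_iff_norm.2 h1)
          have h5 : arg (p.2 / z0) ≠ 0 := by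
            intro h0
            rw [h0, nb_E_zero, mul_one] at h4
            rw [← h4] at h2
            exact h2 hF
          rcases lt_or_gt_of_ne h5 with h6 | h6
          · rw [abs_of_neg h6] at hp
            refine Or.inl ⟨-arg (p.2 / z0), ⟨by linarith, hp.le⟩, ?_⟩
            rw [a1' _ ⟨by linarith, hp.le⟩, neg_neg, h4, h3]
          · rw [abs_of_pos h6] at hp
            refine Or.inr ⟨arg (p.2 / z0), ⟨h6.le, hp.le⟩, ?_⟩
            rw [a2' _ ⟨h6, hp.le⟩, h4, h3]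
        · have h1 := h.seg t ht z0 hF (Ne.symm htz)
          have h2 : u t ≠ u z0 := fun h0 =>
            Set.disjoint_left.1 h1 hqseg (by rw [h0]; exact left_mem_segment ℝ _ _)
          have h3 : u t ≠ v z0 := fun h0 =>
            Set.disjoint_left.1 h1 hqseg (by rw [h0]; exact right_mem_segment ℝ _ _)
          obtain ⟨ρ, hρ, h4⟩ := near_F hP hF h2 h3
          exact far hρ h4
      · have h1 : phi z0 ≠ u t := fun h0 => h.sep t ht z0 hz0 hF (by rw [h0]; exact hqseg)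
        obtain ⟨ρ, hρ, h4⟩ := near_reg hP hz0' hF h1
        exact far hρ h4
    have g2 : ∀ᶠ l in 𝓝 (u t), ∀ t' ∈ F, t' ≠ t → l ∉ segment ℝ (u t') (v t') := by
      rw [Finset.eventually_all]
      intro t' ht'
      by_cases hne : t' = t
      · exact Filter.Eventually.of_forall fun _ h0 => absurd hne h0
      · have h1 := h.seg t ht t' ht' (Ne.symm hne)
        have h2 : IsClosed (segment ℝ (u t') (v t')) := by
          rw [← convexHull_pair]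
          exact ((Set.toFinite {u t', v t'}).isCompact_convexHull ℝ).isClosed
        filter_upwards [h2.isOpen_compl.mem_nhds (Set.disjoint_left.1 h1 hqseg)] with l hl _
        exact hl
    filter_upwards [g1, g2] with l hl1 hl2
    constructor
    · rintro (⟨z, ⟨hz, hzF⟩, hzl⟩ | hl)
      · exact hl1 z hz (mem_sphere_zero_iff_norm.1 hz) (fun h0 => hzF (Finset.mem_coe.2 h0)) hzl
      · obtain ⟨t', ht', hl'⟩ := mem_iUnion₂.1 hl
        by_cases hne : t' = t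
        · subst hne
          rw [← he, segment_same, mem_singleton_iff] at hl'
          rw [hl']
          exact Or.inl ⟨0, ⟨le_rfl, hd.le⟩, z1⟩
        · exact absurd hl' (hl2 t' ht' hne)
    · rintro (⟨x, hx, rfl⟩ | ⟨x, hx, rfl⟩)
      · rcases hx.1.eq_or_lt with hx0 | hx0
        · rw [← hx0, z1]
          exact hqK
        · rw [a1' x ⟨hx0, hx.2⟩]
          exact hmem _ (by rw [abs_neg, abs_of_pos hx0]; exact hx.2.trans hdr) (by linarith)
      · rcases hx.1.eq_or_lt with hx0 | hx0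
        · rw [← hx0, z2]
          exact hqK
        · rw [a2' x ⟨hx0, hx.2⟩]
          exact hmem _ (by rw [abs_of_pos hx0]; exact hx.2.trans hdr) hx0.ne'
  obtain ⟨A, B, hA, hB, hAK, hBK, hcov⟩ := two_radial hd (c1.mono i1) (c2.mono i2) z1 z2
    (m1.mono i1) (m2.mono i2) hdis hK
  -- the indices
  have hb := memLp_pwj hP
  have hix : ∀ l ∉ Gam phi F u v, ∃ n : ℤ, Ix phi l n := fun l hl => by
    obtain ⟨n, hn'⟩ := exists_wj hP hl
    exact ⟨n, wj_ix hP hn'⟩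
  have hkey : ∀ N ∈ 𝓝 (u t), ∃ (m : ℤ) (l1 l2 : ℂ), l1 ∈ N ∧ l2 ∈ N ∧ l1 ∉ Gam phi F u v ∧
      l2 ∉ Gam phi F u v ∧ Ix phi l1 (m + 1) ∧ Ix phi l2 m := by
    intro N hN
    have h1 : Tendsto k2 (𝓝[>] 0) (𝓝 (u t)) := by
      have h2 := (c2.mono i2) 0 ⟨le_rfl, hd.le⟩
      have h3 : Tendsto k2 (𝓝[Icc 0 d] 0) (𝓝 (k2 0)) := h2
      rw [z2] at h3
      refine h3.mono_left ?_
      rw [← nhdsWithin_Ioc_eq_nhdsGT hd]
      exact nhdsWithin_mono _ Ioc_subset_Icc_self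
    obtain ⟨N', hN', hN'o, hqN'⟩ := _root_.mem_nhds_iff.1 hN
    have h4 : ∀ᶠ x : ℝ in 𝓝[>] 0, k2 x ∈ N' := h1.eventually (hN'o.mem_nhds hqN')
    have h5 : ∀ᶠ x : ℝ in 𝓝[>] 0, x ∈ Ioc 0 d := by
      exact Ioc_mem_nhdsGT hd
    obtain ⟨x, hx1, hx2⟩ := (h4.and h5).exists
    have hxr : |x| ≤ r := by rw [abs_of_pos hx2.1]; exact hx2.2.trans hdr
    obtain ⟨w, hw⟩ : ∃ w, w = t * E x := ⟨_, rfl⟩
    have hwm : w ∈ sphere (0 : ℂ) 1 := by rw [hw]; exact nb_E_mem hn x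
    obtain ⟨hwF, hwu⟩ := hrF x hxr hx2.1.ne'
    rw [← hw] at hwF hwu
    rw [a2' x hx2, ← hw] at hx1
    have hws : ∀ t' ∈ F, phi w ∉ segment ℝ (u t') (v t') := fun t' ht' => h.sep t' ht' w hwm hwF
    obtain ⟨m, hm⟩ := exists_sm hP (mem_sphere_zero_iff_norm.1 hwm) hwF hws hwu
    obtain ⟨A', B', -, -, hA', hB', hcA, hcB, -⟩ := sm_sides hb hix hm
    have h6 : ∀ᶠ l in 𝓝 (phi w), ∀ t' ∈ F, l ∉ segment ℝ (u t') (v t') := by
      rw [Finset.eventually_all]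
      intro t' ht'
      have h2 : IsClosed (segment ℝ (u t') (v t')) := by
        rw [← convexHull_pair]
        exact ((Set.toFinite {u t', v t'}).isCompact_convexHull ℝ).isClosed
      exact h2.isOpen_compl.mem_nhds (hws t' ht')
    have h7 : N' ∩ {l | ∀ t' ∈ F, l ∉ segment ℝ (u t') (v t')} ∈ 𝓝 (phi w) :=
      inter_mem (hN'o.mem_nhds hx1) h6
    have h8 : ∀ l n, Ix phi l n → (∀ t' ∈ F, l ∉ segment ℝ (u t') (v t')) →
        l ∉ Gam phi F u v := by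
      rintro l n hl1 hl2 (⟨z, ⟨hz, hzF⟩, hzl⟩ | hl)
      · exact Ix.ne_val hb hl1 (mem_sphere_zero_iff_norm.1 hz)
          (hP.reg z hz fun h0 => hzF (Finset.mem_coe.2 h0)).1 hzl
      · obtain ⟨t', ht', hl'⟩ := mem_iUnion₂.1 hl
        exact hl2 t' ht' hl'
    obtain ⟨l1, ⟨hl1, hl1s⟩, hl1'⟩ := mem_closure_iff_nhds.1 hcA _ h7
    obtain ⟨l2, ⟨hl2, hl2s⟩, hl2'⟩ := mem_closure_iff_nhds.1 hcB _ h7
    exact ⟨m, l1, l2, hN' hl1, hN' hl2, h8 l1 _ (hA' l1 hl1') hl1s, h8 l2 _ (hB' l2 hl2') hl2s,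
      hA' l1 hl1', hB' l2 hl2'⟩
  have hAc : ∀ l ∈ A, ∀ l' ∈ A, ∀ n, Ix phi l n → Ix phi l' n := fun l hl l' hl' n hln =>
    Ix.of_preconnected hb hA (fun w hw => hix w (hAK w hw)) hl hl' hln
  have hBc : ∀ l ∈ B, ∀ l' ∈ B, ∀ n, Ix phi l n → Ix phi l' n := fun l hl l' hl' n hln =>
    Ix.of_preconnected hb hB (fun w hw => hix w (hBK w hw)) hl hl' hln
  have hsplit : ∀ N ∈ 𝓝 (u t), ∃ (m : ℤ) (l1 l2 : ℂ), l1 ∈ N ∧ l2 ∈ N ∧ Ix phi l1 (m + 1) ∧
      Ix phi l2 m ∧ ((l1 ∈ A ∧ l2 ∈ B) ∨ (l1 ∈ B ∧ l2 ∈ A)) := by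
    intro N hN
    obtain ⟨m, l1, l2, hl1, hl2, hk1, hk2, hi1, hi2⟩ := hkey _ (inter_mem hN hcov)
    refine ⟨m, l1, l2, hl1.1, hl2.1, hi1, hi2, ?_⟩
    have f1 := hl1.2 hk1
    have f2 := hl2.2 hk2
    rcases f1 with f1 | f1 <;> rcases f2 with f2 | f2
    · exfalso
      have := Ix.unique (hAc l1 f1 l2 f2 _ hi1) hi2
      omega
    · exact Or.inl ⟨f1, f2⟩
    · exact Or.inr ⟨f1, f2⟩
    · exfalso
      have := Ix.unique (hBc l1 f1 l2 f2 _ hi1) hi2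
      omega
  have hcA : u t ∈ closure A := by
    rw [mem_closure_iff_nhds]
    intro N hN
    obtain ⟨m, l1, l2, hl1, hl2, -, -, hc⟩ := hsplit N hN
    rcases hc with ⟨g1, g2⟩ | ⟨g1, g2⟩
    · exact ⟨l1, hl1, g1⟩
    · exact ⟨l2, hl2, g2⟩
  have hcB : u t ∈ closure B := by
    rw [mem_closure_iff_nhds]
    intro N hN
    obtain ⟨m, l1, l2, hl1, hl2, -, -, hc⟩ := hsplit N hN
    rcases hc with ⟨g1, g2⟩ | ⟨g1, g2⟩
    · exact ⟨l2, hl2, g2⟩
    · exact ⟨l1, hl1, g1⟩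
  obtain ⟨m, l1, l2, -, -, hi1, hi2, hc⟩ := hsplit univ univ_mem
  rcases hc with ⟨g1, g2⟩ | ⟨g1, g2⟩
  · exact ⟨m, A, B, hA, hB, fun l hl => hAc l1 g1 l hl _ hi1, fun l hl => hBc l2 g2 l hl _ hi2,
      hcA, hcB, hcov⟩
  · exact ⟨m, B, A, hB, hA, fun l hl => hBc l1 g1 l hl _ hi1, fun l hl => hAc l2 g2 l hl _ hi2,
      hcB, hcA, hcov.mono fun l hl hlK => (hl hlK).symm⟩

end Pool.Agent.TBirJ
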