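import Pool.Agent.TBirJ.Nfj
import Pool.Agent.TBirP.LbP

/-!
# Toeplitz operators with a logarithm with small jumps

`coer`: `re (inner u (TM (mf a) u)) = ∫ re a |u|^2 ≥ c ‖u‖^2`, the same for the adjoint; bounded below and dense range (Lax-Milgram). `isUnit_expJ`: `g` is uniformly near `p + m` with trigonometric polynomials `p` (plus), `m` (minus) (density of `span fourier`, as in `isUnit_exp`), the
rest `s` is so small that `|im (s + sum kap t * ch)| ≤ pi / 2 - eta` (at each point at most one `ch r t` is not zero, and `|ch| ≤ 1/2`, `|im kap| < pi`, `F` is finite), so `exp (s + sum)` satisfies `coer`, and the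
operator is `T (exp m) * TM (mf (exp (s + sum))) * T (exp p)` (`TM_minus`, `TM_plus`).
-/

set_option autoImplicit false

open MeasureTheory Complex Set Filter Topology Metric AddCircle
open scoped ComplexConjugate InnerProductSpace ENNReal

namespace Pool.Agent.TBirJ

open Pool.Agent.TBir Pool.Agent.TBirG Pool.Agent.TBirC
open Pool.Agent.TBirP (E qT)

variable {phi : ℂ → ℂ} {F : Finset ℂ} {u v : ℂ → ℂ} {r : ℝ}

theorem coer {a : UnitAddCircle → ℂ} (ha : MemLp a ∞ mu0) {c : ℝ} (hc : 0 < c)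
    (h : ∀ᵐ x ∂mu0, c ≤ (a x).re) :
    IsUnit (TM (mf a)) ∧ ∀ w : Hardy, c * ‖w‖ ≤ ‖TM (mf a) w‖ := by
  have key : ∀ w : Hardy, c * ‖w‖ ^ 2 ≤ (inner ℂ w (TM (mf a) w)).re := by
    intro w
    rw [inner_TM, ← TpB_norm_incl w]
    obtain ⟨u, hu⟩ : ∃ u : L2, u = incl w := ⟨_, rfl⟩
    rw [← hu]
    have h1 : ‖u‖ ^ 2 = ∫ x, (inner ℂ ((u : UnitAddCircle → ℂ) x) ((u : UnitAddCircle → ℂ) x) : ℂ).re ∂mu0 := by
      have h2 : ‖u‖ ^ 2 = (inner ℂ u u : ℂ).re := by
        rw [inner_self_eq_norm_sq_to_K]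
        norm_cast
      rw [h2, L2.inner_def]
      exact (integral_re (L2.integrable_inner (𝕜 := ℂ) u u)).symm
    have h3 : (inner ℂ u (mf a u) : ℂ).re =
        ∫ x, (inner ℂ ((u : UnitAddCircle → ℂ) x) ((mf a u : UnitAddCircle → ℂ) x) : ℂ).re ∂mu0 := by
      rw [L2.inner_def]
      exact (integral_re (L2.integrable_inner (𝕜 := ℂ) u (mf a u))).symm
    rw [h1, h3, ← integral_const_mul]
    refine integral_mono_ae ((L2.integrable_inner (𝕜 := ℂ) u u).re.const_mul c)
      (L2.integrable_inner (𝕜 := ℂ) u (mf a u)).re ?_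
    filter_upwards [mf_coe ha u, h] with x h4 h5
    simp only [RCLike.inner_apply, h4]
    have h6 : ∀ z w : ℂ, (w * z * (starRingEnd ℂ) z).re = w.re * ‖z‖ ^ 2 := by
      intro z w
      rw [mul_assoc, Complex.mul_conj, Complex.normSq_eq_norm_sq, Complex.re_mul_ofReal]
    have h7 : ∀ z : ℂ, (z * (starRingEnd ℂ) z).re = ‖z‖ ^ 2 := by
      intro z
      have := h6 z 1
      rwa [one_mul, Complex.one_re, one_mul] at this
    rw [h6, h7]
    exact mul_le_mul_of_nonneg_right h5 (sq_nonneg _)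
  refine ⟨?_, ?_⟩
  · refine ContinuousLinearMap.isUnit_of_forall_le_norm_inner_map (TM (mf a)) (c := ⟨c, hc.le⟩) hc fun w => ?_
    rw [norm_inner_symm, mul_comm]
    exact (key w).trans (Complex.re_le_norm _)
  · intro w
    rcases eq_or_ne w 0 with rfl | hw
    · simp
    · have hw0 : 0 < ‖w‖ := norm_pos_iff.2 hw
      have h1 := (key w).trans ((Complex.re_le_norm _).trans (norm_inner_le_norm _ _))
      have h2 : ‖w‖ * (c * ‖w‖) ≤ ‖w‖ * ‖TM (mf a) w‖ := by
        calc ‖w‖ * (c * ‖w‖) = c * ‖w‖ ^ 2 := by ring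
          _ ≤ _ := h1
      exact le_of_mul_le_mul_left h2 hw0

private theorem un_meas_ch (r : ℝ) (t : ℂ) : Measurable (ch r t) := by
  unfold ch
  have h1 : Measurable fun z : ℂ => arg (z / t) := Complex.measurable_arg.comp (measurable_id.div_const t)
  refine Measurable.mul ?_ ?_
  · exact Measurable.ite (measurableSet_lt measurable_const h1) measurable_const measurable_const
  · exact measurable_const.max (measurable_const.sub ((h1.abs).div_const r))

private theorem un_sum_le (hr : Rad F r) (kap : ℂ → ℂ) (z : ℂ) :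
    ‖∑ t ∈ F, kap t * (ch r t z : ℂ)‖ ≤ ∑ t ∈ F, ‖kap t‖ * (1 / 2) := by
  refine (norm_sum_le _ _).trans (Finset.sum_le_sum fun t _ => ?_)
  rw [norm_mul, Complex.norm_real, Real.norm_eq_abs]
  exact mul_le_mul_of_nonneg_left (ch_abs hr.1 z) (norm_nonneg _)

private theorem un_memLp (hr : Rad F r) {g : UnitAddCircle → ℂ} (hg : Continuous g) (kap : ℂ → ℂ) :
    MemLp (fun x : UnitAddCircle => exp (g x + ∑ t ∈ F, kap t * (ch r t (e x) : ℂ))) ∞ mu0 ∧
      ∃ M : ℝ, ∀ x, |(g x + ∑ t ∈ F, kap t * (ch r t (e x) : ℂ)).re| ≤ M := by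
  obtain ⟨M, hM⟩ := isCompact_univ.exists_bound_of_continuousOn hg.continuousOn
  have hb : ∀ x, |(g x + ∑ t ∈ F, kap t * (ch r t (e x) : ℂ)).re| ≤ M + ∑ t ∈ F, ‖kap t‖ * (1 / 2) := by
    intro x
    refine (Complex.abs_re_le_norm _).trans ((norm_add_le _ _).trans (add_le_add (hM x (mem_univ x)) ?_))
    exact un_sum_le hr kap (e x)
  refine ⟨?_, _, hb⟩
  have hmeas : Measurable fun x : UnitAddCircle => exp (g x + ∑ t ∈ F, kap t * (ch r t (e x) : ℂ)) := by
    refine Complex.measurable_exp.comp (hg.measurable.add ?_)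
    refine Finset.measurable_sum _ fun t _ => ?_
    exact (Complex.measurable_ofReal.comp ((un_meas_ch r t).comp wi_e_cont.measurable)).const_mul _
  refine memLp_top_of_bound hmeas.aestronglyMeasurable (Real.exp (M + ∑ t ∈ F, ‖kap t‖ * (1 / 2)))
    (ae_of_all _ fun x => ?_)
  rw [Complex.norm_exp]
  exact Real.exp_le_exp.2 ((le_abs_self _).trans (hb x))

theorem memLp_nf (hF : ∀ t ∈ F, ‖t‖ = 1) (hr : Rad F r) {g : ℂ → ℂ}
    (hg : ContinuousOn g (sphere 0 1)) (kap : ℂ → ℂ) :
    MemLp (fun x : UnitAddCircle => exp (g (e x) + ∑ t ∈ F, kap t * (ch r t (e x) : ℂ))) ∞ mu0 := by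
  have he : ∀ x : UnitAddCircle, e x ∈ sphere (0 : ℂ) 1 := fun x => by
    rw [mem_sphere_zero_iff_norm]
    exact norm_e x
  exact (un_memLp hr (hg.comp_continuous wi_e_cont he) kap).1

private theorem un_eta {kap : ℂ → ℂ} (hk : ∀ t ∈ F, |(kap t).im| < Real.pi) :
    ∃ eta : ℝ, 0 < eta ∧ eta ≤ 1 / 8 ∧ ∀ t ∈ F, |(kap t).im| ≤ Real.pi - 4 * eta := by
  classical
  induction F using Finset.induction_on with
  | empty => exact ⟨1 / 8, by norm_num, le_rfl, by simp⟩
  | insert s G hs ih =>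
    obtain ⟨eta, h1, h2, h3⟩ := ih fun t ht => hk t (Finset.mem_insert_of_mem ht)
    have h4 := hk s (Finset.mem_insert_self _ _)
    refine ⟨min eta ((Real.pi - |(kap s).im|) / 4), lt_min h1 (by linarith), (min_le_left _ _).trans h2, ?_⟩
    intro t ht
    rcases Finset.mem_insert.1 ht with rfl | ht
    · have := min_le_right eta ((Real.pi - |(kap t).im|) / 4)
      linarith
    · have := min_le_left eta ((Real.pi - |(kap s).im|) / 4)
      have := h3 t ht
      linarith

private theorem un_im (hr : Rad F r) {kap : ℂ → ℂ} {b : ℝ} (hb : 0 ≤ b) (hk : ∀ t ∈ F, |(kap t).im| ≤ b)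
    {z : ℂ} (hz : ‖z‖ = 1) : |(∑ t ∈ F, kap t * (ch r t z : ℂ)).im| ≤ b / 2 := by
  classical
  rw [Complex.im_sum]
  by_cases hne : ∃ s ∈ F, ch r s z ≠ 0
  · obtain ⟨s, hs, hs0⟩ := hne
    rw [Finset.sum_eq_single_of_mem s hs]
    · rw [Complex.im_mul_ofReal, abs_mul]
      calc |(kap s).im| * |ch r s z| ≤ b * (1 / 2) :=
            mul_le_mul (hk s hs) (ch_abs hr.1 z) (abs_nonneg _) hb
        _ = b / 2 := by ring
    · intro t ht hts
      have h0 : ch r t z = 0 := by
        by_contra hcon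
        exact hts (hr.2.2 z hz t ht s hs hcon hs0)
      rw [h0]
      simp
  · push Not at hne
    rw [Finset.sum_eq_zero]
    · rw [abs_zero]
      positivity
    · intro t ht
      rw [hne t ht]
      simp

theorem isUnit_expJ (hF : ∀ t ∈ F, ‖t‖ = 1) (hr : Rad F r) {g : ℂ → ℂ}
    (hg : ContinuousOn g (sphere 0 1)) {kap : ℂ → ℂ} (hk : ∀ t ∈ F, |(kap t).im| < Real.pi) :
    IsUnit (TM (mf fun x => exp (g (e x) + ∑ t ∈ F, kap t * (ch r t (e x) : ℂ)))) := by
  obtain ⟨eta, he0, he8, hke⟩ := un_eta hk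
  have he : ∀ x : UnitAddCircle, e x ∈ sphere (0 : ℂ) 1 := fun x => by
    rw [mem_sphere_zero_iff_norm]
    exact norm_e x
  let H : CT := ⟨fun x => g (e x), hg.comp_continuous wi_e_cont he⟩
  have hcl : H ∈ closure ((Submodule.span ℂ (range fun n : ℤ => (fourier n : CT)) :
      Submodule ℂ CT) : Set CT) := by
    rw [← Submodule.topologicalClosure_coe, span_fourier_closure_eq_top]
    exact mem_univ H
  obtain ⟨p, hp, hdist⟩ := Metric.mem_closure_iff.1 hcl eta he0
  rw [dist_eq_norm] at hdist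
  have hpx : ∀ x, ‖g (e x) - p x‖ ≤ eta := fun x =>
    ((H - p).norm_coe_le_norm x).trans hdist.le
  obtain ⟨P, hP, hPe⟩ := wi_span hp
  let Q : CT := ⟨fun x => exp (p x), by fun_prop⟩
  have hQ : AnalyticOnNhd ℂ (fun w => exp (P w)) (sphere 0 1) := fun z hz => (hP z hz).cexp
  obtain ⟨C, eta', hC, heta, bp, bm, cp, cm, hbp, hbm, hcp, hcm, h1, h2, h3⟩ :=
    exists_hasWH (Psi := Q) (n := 0) hQ (fun z _ => Complex.exp_ne_zero _)
      (fun x => by
        change exp (p x) = exp (P (e x))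
        rw [hPe x]) (by rw [Pool.Agent.TBirP.lg_wind_exp hP, Int.cast_zero])
  have sbp := summable_of_dec heta hbp
  have sbm := summable_of_dec heta hbm
  have scp := summable_of_dec heta hcp
  have scm := summable_of_dec heta hcm
  have e1 : T (plusS bp) * T (plusS cp) = 1 := by
    rw [← T_mul_right _ (plus_plusS scp), h1, T_one]
  have e1' : T (plusS cp) * T (plusS bp) = 1 := by
    rw [← T_mul_right _ (plus_plusS sbp), mul_comm, h1, T_one]
  have e2 : T (minusS bm) * T (minusS cm) = 1 := by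
    rw [← T_mul_left (minus_minusS sbm), h2, T_one]
  have e2' : T (minusS cm) * T (minusS bm) = 1 := by
    rw [← T_mul_left (minus_minusS scm), mul_comm, h2, T_one]
  have u1 : IsUnit (T (plusS cp)) := ⟨⟨T (plusS cp), T (plusS bp), e1', e1⟩, rfl⟩
  have u2 : IsUnit (T (minusS cm)) := ⟨⟨T (minusS cm), T (minusS bm), e2', e2⟩, rfl⟩
  -- the middle factor
  let A : UnitAddCircle → ℂ := fun x => exp ((H x - p x) + ∑ t ∈ F, kap t * (ch r t (e x) : ℂ))
  obtain ⟨hA, M, hM⟩ := un_memLp (F := F) hr (g := fun x => H x - p x) (by fun_prop) kap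
  have u3 : IsUnit (TM (mf A)) := by
    have hsin : 0 < Real.sin eta := Real.sin_pos_of_pos_of_lt_pi he0 (by linarith [Real.pi_gt_three])
    refine (coer hA (c := Real.exp (-M) * Real.sin eta) (by positivity) (ae_of_all _ fun x => ?_)).1
    rw [Complex.exp_re]
    have h4 : |((H x - p x) + ∑ t ∈ F, kap t * (ch r t (e x) : ℂ)).im| ≤ Real.pi / 2 - eta := by
      rw [Complex.add_im]
      have h5 := un_im hr (kap := kap) (b := Real.pi - 4 * eta) (by linarith [Real.pi_gt_three]) hke (norm_e x)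
      have h6 : |(H x - p x).im| ≤ eta := (Complex.abs_im_le_norm _).trans (hpx x)
      have h7 := abs_add_le (H x - p x).im (∑ t ∈ F, kap t * (ch r t (e x) : ℂ)).im
      linarith
    have h5 : Real.sin eta ≤ Real.cos ((H x - p x) + ∑ t ∈ F, kap t * (ch r t (e x) : ℂ)).im := by
      rw [← Real.cos_abs, ← Real.cos_pi_div_two_sub]
      exact Real.cos_le_cos_of_nonneg_of_le_pi (abs_nonneg _) (by linarith [Real.pi_gt_three]) h4
    refine mul_le_mul (Real.exp_le_exp.2 ?_) h5 hsin.le (Real.exp_pos _).le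
    have := (abs_le.1 (hM x)).1
    exact this
  have h4 : (fun x : UnitAddCircle => exp (g (e x) + ∑ t ∈ F, kap t * (ch r t (e x) : ℂ))) =
      fun x => (minusS cm : CT) x * (A x * (plusS cp : CT) x) := by
    funext x
    have h5 : (minusS cm * plusS cp : CT) = Q := by
      rw [h3, idx_fourier_zero, one_mul]
    have h6 : (minusS cm : CT) x * (plusS cp : CT) x = exp (p x) := by
      rw [← ContinuousMap.mul_apply, h5]
      rfl
    calc exp (g (e x) + ∑ t ∈ F, kap t * (ch r t (e x) : ℂ))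
        = exp (p x) * exp ((H x - p x) + ∑ t ∈ F, kap t * (ch r t (e x) : ℂ)) := by
          rw [← Complex.exp_add]
          congr 1
          change _ = p x + (g (e x) - p x + _)
          ring
      _ = _ := by
          rw [← h6]
          change _ * A x = _
          ring
  have hcm' : MemLp (fun x => (minusS cm : CT) x) ∞ mu0 := memLp_ct _
  have hcp' : MemLp (fun x => (plusS cp : CT) x) ∞ mu0 := memLp_ct _
  rw [h4, mf_mul hcm' (memLp_mul hA hcp'), mf_mul hA hcp', mf_ct, mf_ct, TM_minus _ (minus_minusS scm),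
    TM_plus _ (plus_plusS scp)]
  exact u2.mul (u3.mul u1)

end Pool.Agent.TBirJ
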